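import Pool.Agent.H92.SR.FinalO

/-!
# Module FinalS (THEOREM SR, part F): finitely generated `Λ ⊂ Ωˣ`

As in `final_S` of `Pool/Agent/H72/RG/Final.lean` (copy the construction of `K₀ = K(Λ)`, a number field, and of
`Λ₀ ≤ K₀ˣ` with `Λ₀.map f = Λ`). `S` is replaced by `S' = insert 2 S` (nonempty). Apply `final_O (K := K₀)` to `Λ₀`, `S'`, and
`T = {x | ∃ u ∈ Λ, x = (u : Ω)}` (equal to the set in `final_O` since `Λ₀.map f = Λ`).
* `adjoin K (SG T S) ⊆ adjoin K₀ (SG T S')` (`adjoin_le_iff` with `restrictScalars K`; `SG T S ⊆ SG T S'`), so `PolDeg` passes.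
* `adjoin K (DG T) ⊆ adjoin K₀ (DG T)` likewise.
-/

set_option autoImplicit false
set_option linter.unusedSectionVars false

open NumberField IntermediateField

namespace Pool.Agent.H92.SR

open Pool.Agent.H72.RM Pool.Agent.H72.PB

variable (K Ω : Type) [Field K] [NumberField K] [Field Ω] [CharZero Ω] [IsAlgClosed Ω]
  [Algebra K Ω] [IsGalois K Ω]

theorem final_S (Λ : Subgroup Ωˣ) (hΛ : Λ.FG) (S : Finset ℕ) (hS : ∀ p ∈ S, p.Prime)
    (s d : ℕ) (T : Set Ω) (hT : T = {x : Ω | ∃ u ∈ Λ, x = ((u : Ωˣ) : Ω)}) :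
    ∃ c : ℝ, 0 < c ∧ ∀ a : Fin s → Ω,
      (∀ i, ∃ m : ℕ, 1 ≤ m ∧
        PolDeg ((IntermediateField.adjoin K (SG T S) : IntermediateField K Ω) : Set Ω) d
          (a i ^ m)) →
      ∑ i, a i ≠ 0 → ∑ i, a i ∉ DG T → ∀ D : ℕ,
      PolDeg ((IntermediateField.adjoin K (DG T) : IntermediateField K Ω) : Set Ω) D
        (∑ i, a i) → c ≤ (D : ℝ) * absLogHeight₁ (∑ i, a i) := by
  classical
  obtain ⟨T₁, hT₁⟩ := hΛ
  -- the field generated by `Λ`
  let K₀ : IntermediateField K Ω :=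
    IntermediateField.adjoin K ((fun x : Ωˣ => (x : Ω)) '' (T₁ : Set Ωˣ))
  have hfin : FiniteDimensional K K₀ := by
    have : Finite ((fun x : Ωˣ => (x : Ω)) '' (T₁ : Set Ωˣ)) := by
      have h1 : ((fun x : Ωˣ => (x : Ω)) '' (T₁ : Set Ωˣ)).Finite :=
        (Finset.finite_toSet T₁).image _
      exact h1.to_subtype
    exact IntermediateField.finiteDimensional_adjoin fun x _ => Algebra.IsIntegral.isIntegral x
  have hfinQ : FiniteDimensional ℚ K₀ := Module.Finite.trans K K₀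
  have hNF : NumberField K₀ := { to_charZero := inferInstance, to_finiteDimensional := hfinQ }
  have hmem : ∀ x ∈ T₁, (x : Ω) ∈ K₀ := fun x hx =>
    IntermediateField.subset_adjoin K _ ⟨x, hx, rfl⟩
  let f : K₀ˣ →* Ωˣ := Units.map (algebraMap K₀ Ω).toMonoidHom
  let lft : {y : Ωˣ // y ∈ T₁} → K₀ˣ := fun x =>
    Units.mk0 (⟨(x.1 : Ω), hmem x.1 x.2⟩ : K₀) (by
      intro h
      exact x.1.ne_zero (congrArg (fun z : K₀ => (z : Ω)) h))
  have hlft : ∀ x, f (lft x) = x.1 := by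
    intro x
    apply Units.ext
    rfl
  let T₀ : Finset K₀ˣ := T₁.attach.image lft
  let Λ₀ : Subgroup K₀ˣ := Subgroup.closure (T₀ : Set K₀ˣ)
  have hΛ₀ : Λ₀.FG := ⟨T₀, rfl⟩
  have himg : f '' (T₀ : Set K₀ˣ) = (T₁ : Set Ωˣ) := by
    ext y
    constructor
    · rintro ⟨x, hx, rfl⟩
      obtain ⟨z, -, rfl⟩ := Finset.mem_image.1 (Finset.mem_coe.1 hx)
      rw [hlft]
      exact z.2
    · intro hy
      refine ⟨lft ⟨y, hy⟩, ?_, hlft _⟩
      exact Finset.mem_coe.2 (Finset.mem_image.2 ⟨⟨y, hy⟩, Finset.mem_attach _ _, rfl⟩)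
  have hmap : Λ₀.map f = Λ := by
    rw [MonoidHom.map_closure, himg, hT₁]
  have hprime' : ∀ p ∈ insert 2 S, p.Prime := by
    intro p hp
    rcases Finset.mem_insert.1 hp with rfl | hp
    · exact Nat.prime_two
    · exact hS p hp
  have hT' : T = {x : Ω | ∃ u ∈ Λ₀, x = algebraMap K₀ Ω ((u : K₀ˣ) : K₀)} := by
    rw [hT]
    ext x
    constructor
    · rintro ⟨u, hu, rfl⟩
      rw [← hmap] at hu
      obtain ⟨v, hv, rfl⟩ := hu
      exact ⟨v, hv, rfl⟩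
    · rintro ⟨v, hv, rfl⟩
      refine ⟨f v, ?_, rfl⟩
      rw [← hmap]
      exact ⟨v, hv, rfl⟩
  obtain ⟨c, hc, h⟩ := final_O (K := K₀) Ω Λ₀ hΛ₀ (insert 2 S) hprime'
    ⟨2, Finset.mem_insert_self 2 S⟩ s d T hT'
  have hpol : ∀ (F G : Set Ω), F ⊆ G → ∀ (e : ℕ) (x : Ω), PolDeg F e x → PolDeg G e x := by
    rintro F G hFG e x ⟨P, h1, h2, h3, h4⟩
    exact ⟨P, h1, h2, fun i => hFG (h3 i), h4⟩
  have hSG : SG T S ⊆ SG T (insert 2 S) := by
    rintro x ⟨N, hN, hNS, h3⟩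
    exact ⟨N, hN, fun q hq hqN => Finset.mem_insert_of_mem (hNS q hq hqN), h3⟩
  have hadj : ∀ A B : Set Ω, A ⊆ B → ((IntermediateField.adjoin K A : IntermediateField K Ω) : Set Ω) ⊆
      ((IntermediateField.adjoin K₀ B : IntermediateField K₀ Ω) : Set Ω) := by
    intro A B hAB
    have h1 : IntermediateField.adjoin K A ≤
        (IntermediateField.adjoin K₀ B).restrictScalars K := by
      rw [IntermediateField.adjoin_le_iff]
      intro y hy
      exact IntermediateField.subset_adjoin K₀ _ (hAB hy)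
    intro x hx
    exact h1 hx
  refine ⟨c, hc, fun a ha hne hDG D hD => ?_⟩
  refine h a ?_ hne hDG D (hpol _ _ (hadj _ _ (Set.Subset.refl _)) _ _ hD)
  intro i
  obtain ⟨m, hm, hp⟩ := ha i
  exact ⟨m, hm, hpol _ _ (hadj _ _ hSG) _ _ hp⟩

end Pool.Agent.H92.SR
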