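import Pool.Agent.H72.PB.Defs

/-!
# Definitions (MP_187c26_nt, THEOREM SR: sums of radicals, modules H92 SR)

`Orb`, `dg` (conjugates, number of conjugates): `Pool/Agent/H72/PB/Defs.lean`. `RF`, `GammaS`, `DivG`:
`Pool/Agent/H72/RM/PData.lean`.
-/

set_option autoImplicit false
set_option linter.unusedSectionVars false

open IntermediateField

namespace Pool.Agent.H92.SR

open Pool.Agent.H72.RM Pool.Agent.H72.RG Pool.Agent.H72.PB

/-- `x` is a root of unity -/
def Tor {M : Type} [Monoid M] (x : M) : Prop := ∃ n : ℕ, 1 ≤ n ∧ x ^ n = 1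

/-- `x` is a root of a nonzero polynomial of degree at most `d` with coefficients in `F` -/
def PolDeg {Ω : Type} [Field Ω] (F : Set Ω) (d : ℕ) (x : Ω) : Prop :=
  ∃ Q : Polynomial Ω, Q ≠ 0 ∧ Q.natDegree ≤ d ∧ (∀ i, Q.coeff i ∈ F) ∧ Q.eval x = 0

/-- the elements `x` with `x^N t ∈ T`, `N` composed of primes of `S`, `t` a root of unity -/
def SG {Ω : Type} [Field Ω] (T : Set Ω) (S : Finset ℕ) : Set Ω :=
  {x | ∃ N : ℕ, 1 ≤ N ∧ (∀ q : ℕ, q.Prime → q ∣ N → q ∈ S) ∧ ∃ t : Ω, Tor t ∧ x ^ N * t ∈ T}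

/-- the elements having a power in `T` -/
def DG {Ω : Type} [Field Ω] (T : Set Ω) : Set Ω := {x | ∃ n : ℕ, 1 ≤ n ∧ x ^ n ∈ T}

section

variable {K Ω : Type} [Field K] [Field Ω] [Algebra K Ω] {r : ℕ}

/-- the intermediate field `N` contains all roots of unity -/
def HasTor (N : IntermediateField K Ω) : Prop := ∀ x : Ω, Tor x → x ∈ N

variable (Ω) in
/-- the field generated over `K` by the `S`-radicals of the `b i` and all roots of unity -/
noncomputable def NS (b : Fin r → K) (S : Finset ℕ) : IntermediateField K Ω :=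
  IntermediateField.adjoin K (GammaS Ω b (S : Set ℕ))

variable (Ω) in
/-- the field generated over `K` by all radicals of the `b i` -/
noncomputable def LS (b : Fin r → K) : IntermediateField K Ω :=
  IntermediateField.adjoin K (DivG Ω b)

end

end Pool.Agent.H92.SR
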