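import Pool.Agent.H92.SR.AzMain
import Pool.Agent.H92.SR.Defs
import Pool.Agent.H72.PB.OrbB
import Pool.Agent.H72.PB.HTwist
import Pool.Agent.H72.PB.HNonneg
import Pool.Agent.H4.RR.BogNF
import Pool.Agent.H4.RR.AbsHeight
import Pool.Agent.H72.RM.PStep

/-!
# Module AzFinal (THEOREM SR, part D): Amoroso-Zannier over `K(μ_n)`, `p ∤ n`, bounded degree

`𝔭` a prime of `𝓞 K` above `p` (a maximal ideal containing `p`, `p` is not a unit), `q = nrm 𝔭 = p^f`, `f ≥ 1` (finite field of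
characteristic `p`; cf. `un_exp` in `Pool/Agent/H72/PL/Unram.lean`). `g = finrank ℚ K`, `l = g (D + 1)` (so
`l + 1 ≥ g (D+1)`), `c = log 2 / ((D + 1) (q + 1) p^l)`.
Given `n, y`: `F = adjoin K {x | x^n = 1}`, `V = Orb F y` as a finset (`orb_finite`), `#V ≤ D`. `ζ, ω ∈ Ω` primitive of
orders `n`, `p^l`; `F = adjoin K {ζ}`. `(n : 𝓞 K) ∉ 𝔭` (`p ∤ n`: `1 = u p + v n`). `L ⊂ Ω` finite Galois over `K` containing
`V, ζ, ω` (normal closure, see `pstep_field`; a number field). Lift `V, y, ζ, ω` to `L`: the coefficients of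
`∏ (X - C x)` lie in `F` (`orb_poly_mem`), so in `adjoin K {ζ}` inside `L` (`IntermediateField` comap/lift).
`θ : L ≃ₐ[K] L` with `θ ζ = ζ^q`: from `frob_exists` (`y = b = 1`) at any place `w` above `𝔭` (`exists_above`).
All `x ∈ V` and `θ x` are conjugate to `y` over `K`: the same height `H = logHeight₁` (`absLogHeight_eq`: `H = [L:ℚ] h`,
`h = absLogHeight₁ y`; `height_map`, and `θ` extends to `Ω`, or `minpoly ℚ` is preserved:
`absLogHeight_eq_of_minpoly_eq`). `hZ`: if `y^(q p^l) = (θ x)^(p^l)` then `q p^l H = p^l H` (`Height.logHeight₁_pow`), so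
`H = 0` (`q ≥ 2`), but `H > 0` since `y` is not a root of unity (`logHeight_pos` in `Pool/Agent/H4/RR/BogNF.lean`).
`az_main`, `[L:ℚ] = [L:K] g`, divide by `[L:K]`: `(l + 1) log q ≤ #V g (log 2 + (q+1) p^l h)`; `#V ≤ D`,
`log q ≥ log 2`: `g (D+1) log 2 ≤ D g log 2 + D g (q+1) p^l h`, so `log 2 ≤ D (q+1) p^l h ≤ (D+1) (q+1) p^l h`.
-/

set_option autoImplicit false
set_option linter.unusedSectionVars false

open NumberField IntermediateField

namespace Pool.Agent.H92.SR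

open IsDedekindDomain Module in
private theorem az_above (K : Type) [Field K] [NumberField K] (p : ℕ) (hp : p.Prime) :
    ∃ (v : HeightOneSpectrum (𝓞 K)) (f : ℕ), (p : 𝓞 K) ∈ v.asIdeal ∧
      Pool.Agent.H72.PL.nrm v = p ^ f := by
  have hN : Ideal.absNorm (Ideal.span {(p : 𝓞 K)}) = p ^ finrank ℚ K := by
    rw [Ideal.absNorm_span_natCast, RingOfIntegers.rank]
  have htop : Ideal.span {(p : 𝓞 K)} ≠ ⊤ := by
    intro h
    rw [h, Ideal.absNorm_top] at hN
    have : 1 < p ^ finrank ℚ K := Nat.one_lt_pow finrank_pos.ne' hp.one_lt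
    omega
  obtain ⟨M, hM, hle⟩ := Ideal.exists_le_maximal _ htop
  have hmem : (p : 𝓞 K) ∈ M := hle (Ideal.mem_span_singleton_self _)
  have hbot : M ≠ ⊥ := by
    rintro rfl
    have h0 : (p : 𝓞 K) = 0 := Ideal.mem_bot.1 hmem
    exact hp.ne_zero (by exact_mod_cast h0)
  have hdvd : Ideal.absNorm M ∣ p ^ finrank ℚ K := by
    rw [← hN]
    exact Ideal.absNorm_dvd_absNorm_of_le hle
  obtain ⟨f, hf, hfe⟩ := (Nat.dvd_prime_pow hp).1 hdvd
  exact ⟨⟨M, hM.isPrime, hbot⟩, f, hmem, hfe⟩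

open Pool.Agent.H72.RM Pool.Agent.H72.PB

variable {K Ω : Type} [Field K] [NumberField K] [Field Ω] [CharZero Ω] [IsAlgClosed Ω]
  [Algebra K Ω] [IsGalois K Ω]

variable (K Ω) in
theorem az_final (p : ℕ) (hp : p.Prime) (D : ℕ) :
    ∃ c : ℝ, 0 < c ∧ ∀ n : ℕ, 1 ≤ n → ¬ p ∣ n → ∀ y : Ω, y ≠ 0 →
      (∀ k : ℕ, 1 ≤ k → y ^ k ≠ 1) →
      dg (IntermediateField.adjoin K {x : Ω | x ^ n = 1}) y ≤ D → c ≤ absLogHeight₁ y := by
  classical
  obtain ⟨𝔭, f, hpmem, hf⟩ := az_above K p hp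
  obtain ⟨q, hq⟩ : ∃ q : ℕ, q = Pool.Agent.H72.PL.nrm 𝔭 := ⟨_, rfl⟩
  have hq2 : 2 ≤ q := hq ▸ Pool.Agent.H72.PL.nrm_pos 𝔭
  obtain ⟨g, hg⟩ : ∃ g : ℕ, g = Module.finrank ℚ K := ⟨_, rfl⟩
  have hg0 : 0 < g := hg ▸ Module.finrank_pos
  obtain ⟨l, hl⟩ : ∃ l : ℕ, l = g * (D + 1) := ⟨_, rfl⟩
  have hp0 : (0 : ℝ) < p := by exact_mod_cast hp.pos
  have hlog2 : 0 < Real.log 2 := Real.log_pos (by norm_num)
  refine ⟨Real.log 2 / ((D + 1) * ((q + 1) * (p : ℝ) ^ l)), by positivity, ?_⟩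
  intro n hn hpn y hy htor hdg
  have hh0 : 0 ≤ absLogHeight₁ y := ht_nonneg _
  obtain ⟨F, hF⟩ : ∃ F : IntermediateField K Ω, F = IntermediateField.adjoin K {x : Ω | x ^ n = 1} :=
    ⟨_, rfl⟩
  rw [← hF] at hdg
  obtain ⟨V, hV⟩ : ∃ V : Finset Ω, (V : Set Ω) = Orb F y :=
    ⟨(orb_finite F y).toFinset, (orb_finite F y).coe_toFinset⟩
  have hVc : V.card ≤ D := by
    rw [← Set.ncard_coe_finset, hV]
    exact hdg
  have hnz : NeZero ((n : ℕ) : Ω) := ⟨by
    have : (n : Ω) ≠ 0 := by exact_mod_cast (show n ≠ 0 by omega)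
    exact this⟩
  have hpz : NeZero ((p : ℕ) : Ω) := ⟨by exact_mod_cast hp.ne_zero⟩
  obtain ⟨ζ, hζ⟩ := HasEnoughRootsOfUnity.exists_primitiveRoot Ω n
  obtain ⟨ω, hω⟩ := HasEnoughRootsOfUnity.exists_primitiveRoot Ω (p ^ l)
  have hFζ : F = IntermediateField.adjoin K {ζ} := by
    rw [hF]
    refine le_antisymm (IntermediateField.adjoin_le_iff.2 ?_) (IntermediateField.adjoin_le_iff.2 ?_)
    · intro x hx
      have : NeZero n := ⟨by omega⟩
      obtain ⟨i, -, hi⟩ := hζ.eq_pow_of_pow_eq_one hx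
      rw [← hi]
      exact pow_mem (IntermediateField.mem_adjoin_simple_self K ζ) i
    · rintro x rfl
      exact IntermediateField.subset_adjoin K _ hζ.pow_eq_one
  -- the Galois extension
  have hfin0 : FiniteDimensional K (IntermediateField.adjoin K ((V : Set Ω) ∪ {ζ, ω})) := by
    have h1 : ((V : Set Ω) ∪ {ζ, ω}).Finite := V.finite_toSet.union (Set.toFinite _)
    have := h1.to_subtype
    exact IntermediateField.finiteDimensional_adjoin fun x _ => Algebra.IsIntegral.isIntegral x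
  obtain ⟨E, hE⟩ : ∃ E : IntermediateField K Ω,
      E = normalClosure K (IntermediateField.adjoin K ((V : Set Ω) ∪ {ζ, ω})) Ω := ⟨_, rfl⟩
  have hEfin : FiniteDimensional K E := by
    rw [hE]
    infer_instance
  have hEn : Normal K E := by
    rw [hE]
    infer_instance
  have hEle : ∀ x ∈ ((V : Set Ω) ∪ {ζ, ω}), x ∈ E := by
    intro x hx
    rw [hE]
    exact IntermediateField.le_normalClosure _ (IntermediateField.subset_adjoin K _ hx)
  have hnf : NumberField E := NumberField.of_module_finite K E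
  have hgal : IsGalois K E := ⟨⟩
  have hVE : ∀ x ∈ V, x ∈ E := fun x hx => hEle x (Or.inl hx)
  have hζE : ζ ∈ E := hEle ζ (Or.inr (Or.inl rfl))
  have hωE : ω ∈ E := hEle ω (Or.inr (Or.inr rfl))
  have hyV : y ∈ V := by
    have h1 : y ∈ (V : Set Ω) := by
      rw [hV]
      exact orb_self F y
    exact h1
  have hyE : y ∈ E := hVE y hyV
  obtain ⟨V', hV'⟩ : ∃ V' : Finset E, ∀ x : E, x ∈ V' ↔ (x : Ω) ∈ V :=
    ⟨V.subtype (fun x => x ∈ E), fun x => by rw [Finset.mem_subtype]⟩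
  have hVV : V'.image (fun x : E => (x : Ω)) = V := by
    ext x
    rw [Finset.mem_image]
    constructor
    · rintro ⟨z, hz, rfl⟩
      exact (hV' z).1 hz
    · intro hx
      exact ⟨⟨x, hVE x hx⟩, (hV' _).2 hx, rfl⟩
  have hinj : Function.Injective (fun x : E => (x : Ω)) := Subtype.val_injective
  have hVc' : V'.card = V.card := by
    rw [← hVV, Finset.card_image_of_injective _ hinj]
  have hζ' : IsPrimitiveRoot (⟨ζ, hζE⟩ : E) n :=
    IsPrimitiveRoot.of_map_of_injective (f := algebraMap E Ω) (by exact hζ) (algebraMap E Ω).injective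
  have hω' : IsPrimitiveRoot (⟨ω, hωE⟩ : E) (p ^ l) :=
    IsPrimitiveRoot.of_map_of_injective (f := algebraMap E Ω) (by exact hω) (algebraMap E Ω).injective
  have hnp : (n : 𝓞 K) ∉ 𝔭.asIdeal := by
    intro hmem
    have hc : IsCoprime (p : ℤ) (n : ℤ) :=
      Nat.isCoprime_iff_coprime.2 ((Nat.Prime.coprime_iff_not_dvd hp).2 hpn)
    obtain ⟨a, c, hac⟩ := hc
    have h3 : (a : 𝓞 K) * p + c * n = 1 := by
      exact_mod_cast congrArg (Int.cast : ℤ → 𝓞 K) hac
    have h4 : (1 : 𝓞 K) ∈ 𝔭.asIdeal := by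
      rw [← h3]
      exact 𝔭.asIdeal.add_mem (𝔭.asIdeal.mul_mem_left _ hpmem) (𝔭.asIdeal.mul_mem_left _ hmem)
    exact 𝔭.isPrime.ne_top ((Ideal.eq_top_iff_one _).2 h4)
  -- the coefficients
  have hcoef : ∀ i, (∏ x ∈ V', (Polynomial.X - Polynomial.C x) : Polynomial E).coeff i ∈
      IntermediateField.adjoin K {(⟨ζ, hζE⟩ : E)} := by
    intro i
    have h1 := orb_poly_mem V hV i
    rw [hFζ, ← hVV, Finset.prod_image (fun a _ b _ h => hinj h)] at h1
    have h2 : (∏ x ∈ V', (Polynomial.X - Polynomial.C ((x : E) : Ω)) : Polynomial Ω) =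
        (∏ x ∈ V', (Polynomial.X - Polynomial.C x) : Polynomial E).map (algebraMap E Ω) := by
      rw [Polynomial.map_prod]
      refine Finset.prod_congr rfl fun x _ => ?_
      rw [Polynomial.map_sub, Polynomial.map_X, Polynomial.map_C]
      rfl
    rw [h2, Polynomial.coeff_map] at h1
    have h3 : IntermediateField.adjoin K {ζ} =
        (IntermediateField.adjoin K {(⟨ζ, hζE⟩ : E)}).map E.val := by
      rw [IntermediateField.adjoin_map, Set.image_singleton]
      rfl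
    rw [h3] at h1
    obtain ⟨z, hz, hze⟩ := h1
    have h4 : z = (∏ x ∈ V', (Polynomial.X - Polynomial.C x) : Polynomial E).coeff i :=
      Subtype.val_injective hze
    rw [← h4]
    exact hz
  -- the Frobenius
  obtain ⟨w, hw⟩ := Pool.Agent.H72.PL.exists_above (L := E) 𝔭
  obtain ⟨θ, -, hθ⟩ := Pool.Agent.H72.PL.frob_exists n hn (⟨ζ, hζE⟩ : E) 1 hζ' 1
    (by rw [one_pow, map_one]) 𝔭 hnp (map_one _) w hw
  -- heights
  obtain ⟨h, hh⟩ : ∃ h : ℝ, h = absLogHeight₁ y := ⟨_, rfl⟩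
  have hE0 : (0 : ℝ) < Module.finrank ℚ E := by exact_mod_cast Module.finrank_pos
  have hht : ∀ x : E, Height.logHeight₁ x = Module.finrank ℚ E * absLogHeight₁ (x : Ω) := by
    intro x
    have h1 := Pool.Agent.H4.RR.absLogHeight_eq E Ω (algebraMap E Ω) x
    have h2 : algebraMap E Ω x = (x : Ω) := rfl
    rw [h2] at h1
    rw [h1]
    field_simp
  have hhV : ∀ x ∈ V, absLogHeight₁ x = h := by
    intro x hx
    have h1 : x ∈ Orb F y := by
      rw [← hV]
      exact hx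
    obtain ⟨ρ, -, rfl⟩ := h1
    rw [hh]
    exact height_map ρ y
  have hhθ : ∀ x : E, absLogHeight₁ ((θ x : E) : Ω) = absLogHeight₁ (x : Ω) := by
    intro x
    have h1 := AlgEquiv.liftNormal_commutes θ Ω x
    have h2 : algebraMap E Ω (θ x) = ((θ x : E) : Ω) := rfl
    have h3 : algebraMap E Ω x = (x : Ω) := rfl
    rw [h2, h3] at h1
    rw [← h1]
    exact height_map _ _
  have hyheight : Height.logHeight₁ (⟨y, hyE⟩ : E) = Module.finrank ℚ E * h := by
    rw [hht, hh]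
  have hpos : 0 < Height.logHeight₁ (⟨y, hyE⟩ : E) := by
    refine Pool.Agent.H4.RR.logHeight_pos E _ ?_ ?_
    · intro h0
      exact hy (congrArg Subtype.val h0)
    · intro k hk h0
      exact htor k hk (congrArg Subtype.val h0)
  have hθH : ∀ x ∈ V', Height.logHeight₁ (θ x) = Module.finrank ℚ E * h := by
    intro x hx
    rw [hht, hhθ, hhV _ ((hV' x).1 hx)]
  have main := az_main (K := K) (L := E) p hp 𝔭 hpmem f hf n hn hnp (⟨ζ, hζE⟩ : E) hζ' l
    (⟨ω, hωE⟩ : E) hω' V' hcoef (⟨y, hyE⟩ : E) ((hV' _).2 hyV) θ hθ (by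
      intro x hx heq
      have h1 := congrArg Height.logHeight₁ heq
      rw [Height.logHeight₁_pow, Height.logHeight₁_pow, hθH x hx, ← hyheight] at h1
      have h2 : (2 : ℝ) ≤ (Pool.Agent.H72.PL.nrm 𝔭 : ℝ) := by
        rw [← hq]
        exact_mod_cast hq2
      push_cast at h1
      have h3 : (0 : ℝ) < (p : ℝ) ^ l := by positivity
      have h4 : 0 < (p : ℝ) ^ l * Height.logHeight₁ (⟨y, hyE⟩ : E) := mul_pos h3 hpos
      nlinarith) (Module.finrank ℚ E * h) hθH hyheight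
  rw [← hq, hVc'] at main
  have htower : (Module.finrank ℚ E : ℝ) = g * Module.finrank K E := by
    rw [hg]
    exact_mod_cast (Module.finrank_mul_finrank ℚ K E).symm
  have hKE : (0 : ℝ) < Module.finrank K E := by exact_mod_cast Module.finrank_pos
  rw [htower] at main
  have hqlog : Real.log 2 ≤ Real.log q := Real.log_le_log (by norm_num) (by exact_mod_cast hq2)
  have hg0' : (0 : ℝ) < g := by exact_mod_cast hg0
  have hpl : (0 : ℝ) < (p : ℝ) ^ l := by positivity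
  rw [← hh] at hh0 ⊢
  -- divide by `[E : K]`
  have m1 : ((l : ℝ) + 1) * Real.log q ≤
      V.card * (g * (Real.log 2 + ((q : ℝ) + 1) * (p : ℝ) ^ l * h)) := by
    have h1 : (Module.finrank K E : ℝ) * (((l : ℝ) + 1) * Real.log q) ≤
        Module.finrank K E * (V.card * (g * (Real.log 2 + ((q : ℝ) + 1) * (p : ℝ) ^ l * h))) := by
      calc (Module.finrank K E : ℝ) * (((l : ℝ) + 1) * Real.log q)
          = ((l : ℝ) + 1) * ((Module.finrank K E : ℝ) * Real.log q) := by ring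
        _ ≤ _ := main
        _ = _ := by ring
    exact le_of_mul_le_mul_left h1 hKE
  have hVD : (V.card : ℝ) ≤ D := by exact_mod_cast hVc
  have m2 : ((g : ℝ) * (D + 1)) * Real.log 2 ≤
      D * (g * (Real.log 2 + ((q : ℝ) + 1) * (p : ℝ) ^ l * h)) := by
    have h1 : ((g : ℝ) * (D + 1)) * Real.log 2 ≤ ((l : ℝ) + 1) * Real.log q := by
      have h2 : ((g : ℝ) * (D + 1)) = l := by
        rw [hl]
        push_cast
        ring
      rw [h2]
      have h3 : (0 : ℝ) ≤ l := Nat.cast_nonneg l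
      nlinarith
    refine h1.trans (m1.trans (mul_le_mul_of_nonneg_right hVD ?_))
    positivity
  have m3 : Real.log 2 ≤ (D + 1) * (((q : ℝ) + 1) * (p : ℝ) ^ l * h) := by
    have h1 : (g : ℝ) * ((D + 1) * Real.log 2) ≤
        g * (D * (Real.log 2 + ((q : ℝ) + 1) * (p : ℝ) ^ l * h)) := by
      calc (g : ℝ) * ((D + 1) * Real.log 2) = ((g : ℝ) * (D + 1)) * Real.log 2 := by ring
        _ ≤ _ := m2
        _ = _ := by ring
    have h2 := le_of_mul_le_mul_left h1 hg0'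
    have h3 : 0 ≤ ((q : ℝ) + 1) * (p : ℝ) ^ l * h := by positivity
    nlinarith
  rw [div_le_iff₀ (by positivity)]
  calc Real.log 2 ≤ _ := m3
    _ = _ := by ring

end Pool.Agent.H92.SR
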