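import Pool.Agent.H92.SR.AzFinal
import Pool.Agent.H72.RM.RFa

/-!
# Module AzRF (THEOREM SR, part D): base change to the level field `K(μ_R, b_i^(1/R))`

`M = RF Ω b 1 R`, an intermediate field of `Ω / K`, finite over `K` (`rf_finite`-type lemma in
`Pool/Agent/H72/RM/RFa.lean` or `lf2_finite`), so `↥M` is a number field, `IsGalois ↥M Ω` (instance
`IsGalois.tower_top_intermediateField`). `az_final (K := ↥M)` for `p, D` gives `c`.
`F = adjoin ↥M {x | x^n = 1}`. If `ρ : Ω ≃ₐ[↥M] Ω` fixes `F`, then `ρ.restrictScalars K` fixes `RF Ω b n R`: its generators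
`x^n = 1` (in `F`), `x^R = 1` or `x^R = b i` (in `M`). So `Orb F y ⊆ Orb (RF Ω b n R) y` and `dg F y ≤ dg (RF Ω b n R) y ≤ D`
(`Set.ncard_le_ncard`, `orb_finite`).
-/

set_option autoImplicit false
set_option linter.unusedSectionVars false

open NumberField IntermediateField

namespace Pool.Agent.H92.SR

open Pool.Agent.H72.RM Pool.Agent.H72.PB

variable {K Ω : Type} [Field K] [NumberField K] [Field Ω] [CharZero Ω] [IsAlgClosed Ω]
  [Algebra K Ω] [IsGalois K Ω] {r : ℕ}

variable (Ω) in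
theorem az_rf (b : Fin r → K) (hb : ∀ i, b i ≠ 0) (R : ℕ) (hR : 1 ≤ R) (p : ℕ) (hp : p.Prime)
    (D : ℕ) :
    ∃ c : ℝ, 0 < c ∧ ∀ n : ℕ, 1 ≤ n → ¬ p ∣ n → ∀ y : Ω, y ≠ 0 →
      (∀ k : ℕ, 1 ≤ k → y ^ k ≠ 1) → dg (RF Ω b n R) y ≤ D → c ≤ absLogHeight₁ y := by
  classical
  obtain ⟨M, hM⟩ : ∃ M : IntermediateField K Ω, M = RF Ω b 1 R := ⟨_, rfl⟩
  have : FiniteDimensional K M := by
    rw [hM]
    exact rf_finite b 1 R le_rfl hR
  have : NumberField M := NumberField.of_module_finite K M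
  obtain ⟨c, hc, H⟩ := az_final M Ω p hp D
  refine ⟨c, hc, fun n hn hpn y hy htor hdg => H n hn hpn y hy htor (le_trans ?_ hdg)⟩
  have halg : Algebra.IsAlgebraic K Ω := inferInstance
  refine Set.ncard_le_ncard ?_ (orb_finite (RF Ω b n R) y)
  rintro x ⟨ρ, hρ, rfl⟩
  refine ⟨ρ.restrictScalars K, fun z hz => ?_, rfl⟩
  have hgen : ∀ z ∈ RF Ω b n R, (ρ.restrictScalars K) z = z := by
    intro z hz
    unfold RF at hz
    refine adjoin_induction K (p := fun z _ => (ρ.restrictScalars K) z = z) ?_ ?_ ?_ ?_ ?_ hz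
    · intro x hx
      have hxM : x ^ R = 1 ∨ (∃ i, x ^ R = algebraMap K Ω (b i)) → ρ x = x := by
        intro h
        have h1 : x ∈ M := by
          rw [hM]
          refine subset_adjoin K _ ?_
          rcases h with h | h
          · exact Or.inr (Or.inl h)
          · exact Or.inr (Or.inr h)
        exact ρ.commutes ⟨x, h1⟩
      rcases hx with h | h | h
      · exact hρ x (subset_adjoin M _ h)
      · exact hxM (Or.inl h)
      · exact hxM (Or.inr h)
    · intro c
      exact (ρ.restrictScalars K).commutes c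
    · intro a b _ _ ha hb
      rw [map_add, ha, hb]
    · intro a _ ha
      rw [map_inv₀, ha]
    · intro a b _ _ ha hb
      rw [map_mul, ha, hb]
  exact hgen z hz

end Pool.Agent.H92.SR
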