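import Pool.Agent.H92.SR.Defs
import Pool.Agent.H72.RM.Cover
import Pool.Agent.H72.PB.OrbB

/-!
# Module Cov (THEOREM SR, part E): from the big field `NS` to a level field

`V = Orb (NS Ω b S) y` as a finset (`orb_finite`), `P = ∏_{x ∈ V} (X - C x)`, coefficients in `NS Ω b S`
(`orb_poly_mem`), `P(y) = 0` (`orb_self`), `natDegree P = #V = dg (NS Ω b S) y`. Each coefficient lies in some
`RF Ω b n_i N_i`, `n_i` prime to `S`, `N_i` an `S`-number (`rad_cover hb T hT a ha` in `Pool/Agent/H72/RM/Cover.lean`,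
`T = GammaS Ω b S`). By induction over a finset of indices (as in `cover_finset`, `rf_mono`) all coefficients
`P.coeff i`, `i ≤ natDegree P`, lie in one `RF Ω b n N`; the others are `0`. `dg_le_of_poly`.
`hasTor_NS`: `x^n = 1`: `x ∈ GammaS` (exponent `1`: `x^1 * x⁻¹ = 1 = ∏ b_i^0`, `t = x⁻¹` is a root of unity).
-/

set_option autoImplicit false
set_option linter.unusedSectionVars false

open NumberField IntermediateField

namespace Pool.Agent.H92.SR

open Pool.Agent.H72.RM Pool.Agent.H72.PB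

variable {K Ω : Type} [Field K] [NumberField K] [Field Ω] [CharZero Ω] [IsAlgClosed Ω]
  [Algebra K Ω] [IsGalois K Ω] {r : ℕ}

theorem hasTor_NS (b : Fin r → K) (S : Finset ℕ) : HasTor (NS Ω b S) := by
  rintro x ⟨n, hn, hx⟩
  have hx0 : x ≠ 0 := by
    rintro rfl
    rw [zero_pow (by omega)] at hx
    exact zero_ne_one hx
  refine IntermediateField.subset_adjoin K _ ?_
  refine ⟨1, le_rfl, ?_, x⁻¹, ⟨n, hn, by rw [inv_pow, hx, inv_one]⟩, 0, ?_⟩
  · intro q hq h1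
    exact absurd (Nat.dvd_one.1 h1) hq.one_lt.ne'
  · rw [pow_one, mul_inv_cancel₀ hx0]
    simp

/-- finitely many elements of `NS` lie in one level field -/
private theorem cov_many (b : Fin r → K) (hb : ∀ i, b i ≠ 0) (S : Finset ℕ)
    (hS : ∀ p ∈ S, p.Prime) (c : ℕ → Ω) (hc : ∀ i, c i ∈ NS Ω b S) (d : ℕ) :
    ∃ n N : ℕ, 1 ≤ n ∧ 1 ≤ N ∧ (∀ q ∈ S, ¬ q ∣ n) ∧ (∀ q : ℕ, q.Prime → q ∣ N → q ∈ S) ∧
      ∀ i, i < d → c i ∈ RF Ω b n N := by
  induction d with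
  | zero =>
    refine ⟨1, 1, le_rfl, le_rfl, ?_, ?_, fun i hi => absurd hi (Nat.not_lt_zero i)⟩
    · intro q hq h1
      exact (hS q hq).one_lt.ne' (Nat.dvd_one.1 h1)
    · intro q hq h1
      exact absurd (Nat.dvd_one.1 h1) hq.one_lt.ne'
  | succ d ih =>
    obtain ⟨n, N, hn, hN, hnS, hNS, hall⟩ := ih
    obtain ⟨n1, N1, hn1, hN1, hnS1, hNS1, hy1⟩ :=
      rad_cover (S := (S : Set ℕ)) hb (GammaS Ω b (S : Set ℕ)) subset_rfl (c d) (hc d)
    refine ⟨n * n1, N * N1, Nat.mul_pos hn hn1, Nat.mul_pos hN hN1, ?_, ?_, ?_⟩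
    · intro q hq h1
      rcases (Nat.Prime.dvd_mul (hS q hq)).1 h1 with h2 | h2
      · exact hnS q hq h2
      · exact hnS1 q (Finset.mem_coe.2 hq) (hS q hq) h2
    · intro q hq h1
      rcases (Nat.Prime.dvd_mul hq).1 h1 with h2 | h2
      · exact hNS q hq h2
      · exact Finset.mem_coe.1 (hNS1 q hq h2)
    · intro i hi
      rcases Nat.lt_succ_iff_lt_or_eq.1 hi with h1 | rfl
      · exact rf_mono b n N _ _ (Dvd.intro n1 rfl) (Dvd.intro N1 rfl)
          (Nat.mul_pos hn hn1) (Nat.mul_pos hN hN1) (hall i h1)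
      · exact rf_mono b n1 N1 _ _ (Dvd.intro_left n rfl) (Dvd.intro_left N rfl)
          (Nat.mul_pos hn hn1) (Nat.mul_pos hN hN1) hy1

theorem cov (b : Fin r → K) (hb : ∀ i, b i ≠ 0) (S : Finset ℕ) (hS : ∀ p ∈ S, p.Prime) (y : Ω) :
    ∃ n N : ℕ, 1 ≤ n ∧ 1 ≤ N ∧ (∀ q ∈ S, ¬ q ∣ n) ∧ (∀ q : ℕ, q.Prime → q ∣ N → q ∈ S) ∧
      dg (RF Ω b n N) y ≤ dg (NS Ω b S) y := by
  classical
  have hfin := orb_finite (NS Ω b S) y
  obtain ⟨V, hV⟩ : ∃ V : Finset Ω, (V : Set Ω) = Orb (NS Ω b S) y :=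
    ⟨hfin.toFinset, hfin.coe_toFinset⟩
  obtain ⟨P, hP⟩ : ∃ P : Polynomial Ω, P = ∏ x ∈ V, (Polynomial.X - Polynomial.C x) := ⟨_, rfl⟩
  have hmem : ∀ i, P.coeff i ∈ NS Ω b S := fun i => by
    rw [hP]
    exact orb_poly_mem V hV i
  have hP0 : P ≠ 0 := by
    rw [hP]
    exact Finset.prod_ne_zero_iff.2 fun x _ => Polynomial.X_sub_C_ne_zero x
  have hdeg : P.natDegree = dg (NS Ω b S) y := by
    rw [hP, Polynomial.natDegree_finsetProd_X_sub_C_eq_card]
    unfold dg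
    rw [← hV, Set.ncard_coe_finset]
  have hy : y ∈ V := by
    have h1 := orb_self (NS Ω b S) y
    rw [← hV] at h1
    exact h1
  have hev : P.eval y = 0 := by
    rw [hP, Polynomial.eval_prod]
    exact Finset.prod_eq_zero hy (by rw [Polynomial.eval_sub, Polynomial.eval_X,
      Polynomial.eval_C, sub_self])
  obtain ⟨n, N, hn, hN, hnS, hNS, hall⟩ :=
    cov_many b hb S hS (fun i => P.coeff i) hmem (P.natDegree + 1)
  refine ⟨n, N, hn, hN, hnS, hNS, ?_⟩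
  rw [← hdeg]
  refine dg_le_of_poly P hP0 (fun i => ?_) hev
  rcases lt_or_ge P.natDegree i with h1 | h1
  · rw [Polynomial.coeff_eq_zero_of_natDegree_lt h1]
    exact zero_mem _
  · exact hall i (by omega)

end Pool.Agent.H92.SR
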