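import Pool.Agent.H92.SR.Defs
import Pool.Agent.H72.RM.Gam
import Pool.Agent.H72.RM.Dirich
import Pool.Agent.H4.RR.AbsHeight
import Pool.Agent.H72.RM.BaseB
import Pool.Agent.H72.PB.HNonneg
import Pool.Agent.H72.PB.HTwist

/-!
# Module DirGen (THEOREM SR, part E): the Dirichlet trick for a class of elements

Exactly the proof of `base_final` in `Pool/Agent/H72/RM/BaseB.lean` (its private lemmas: use `absLogHeight_zpow` from
that file, `ht_nonneg`, `int_all`, `absLogHeight_mul_le`, `absLogHeight_pow`, and copy `baseB_prod`), with `y ∈ F`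
replaced by `P y`: `x = (∏ β i^(l i)) y^n` satisfies `P` (`hP`, `n ≥ 1`), and `x ∉ DivG` (in place of `x` not a root of
unity): if `x ∈ DivG` then `y^n = x ∏ β i^(-l i) ∈ DivG` (`div_mul`), so `y ∈ DivG` and `γ y ∈ DivG` (`div_mul`), excluded.
-/

set_option autoImplicit false
set_option linter.unusedSectionVars false

open NumberField IntermediateField

namespace Pool.Agent.H92.SR

open Pool.Agent.H72.RM Pool.Agent.H72.PB

variable {K Ω : Type} [Field K] [NumberField K] [Field Ω] [CharZero Ω] [IsAlgClosed Ω]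
  [Algebra K Ω] [IsGalois K Ω] {r : ℕ}

include K in
private theorem dirG_int (x : Ω) : IsIntegral ℚ x := by
  have h1 : IsIntegral K x := IsGalois.integral K x
  exact isIntegral_trans x h1

private theorem dirG_rep (x : Ω) (hx : IsIntegral ℚ x) :
    ∃ (E : IntermediateField ℚ Ω) (_ : NumberField E) (a : E), (a : Ω) = x ∧
      ∀ c : E, absLogHeight₁ (c : Ω) = Height.logHeight₁ c / Module.finrank ℚ E := by
  have h1 : FiniteDimensional ℚ (IntermediateField.adjoin ℚ {x}) :=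
    IntermediateField.adjoin.finiteDimensional hx
  have h2 : NumberField (IntermediateField.adjoin ℚ {x}) := {}
  refine ⟨IntermediateField.adjoin ℚ {x}, h2, IntermediateField.AdjoinSimple.gen ℚ x, rfl, ?_⟩
  intro c
  exact Pool.Agent.H4.RR.absLogHeight_eq (IntermediateField.adjoin ℚ {x}) Ω
    (IntermediateField.val (IntermediateField.adjoin ℚ {x})).toRingHom c

include K in
private theorem dirG_nonneg (x : Ω) : 0 ≤ absLogHeight₁ x := by
  obtain ⟨E, _, a, ha, h⟩ := dirG_rep x (dirG_int (K := K) x)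
  have h1 := h a
  rw [ha] at h1
  rw [h1]
  exact div_nonneg (Height.zero_le_logHeight₁ a) (Nat.cast_nonneg _)

include K in
private theorem dirG_prod {ι : Type} (s : Finset ι) (f : ι → Ω) :
    absLogHeight₁ (∏ i ∈ s, f i) ≤ ∑ i ∈ s, absLogHeight₁ (f i) := by
  classical
  induction s using Finset.induction_on with
  | empty =>
    have h := absLogHeight_zpow (1 : Ω) 0
    rw [zpow_zero] at h
    simp only [Int.cast_zero, abs_zero, zero_mul] at h
    simp [h]
  | insert a s ha ih =>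
    rw [Finset.prod_insert ha, Finset.sum_insert ha]
    refine (Pool.Agent.H4.RR.absLogHeight_mul_le Ω _ _ (dirG_int (K := K) _)
      (dirG_int (K := K) _)).trans ?_
    linarith

variable (Ω) in
theorem dir_gen (b : Fin r → K) (hb : ∀ i, b i ≠ 0) (κ : ℝ) (hκ : 0 < κ) :
    ∃ c : ℝ, 0 < c ∧ ∀ P : Ω → Prop,
      (∀ y, P y → ∀ n : ℕ, 1 ≤ n → ∀ l : Fin r → ℤ,
        P ((∏ i, (algebraMap K Ω (b i)) ^ (l i)) * y ^ n)) →
      (∀ x, P x → x ≠ 0 → x ∉ DivG Ω b → κ ≤ absLogHeight₁ x) →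
      ∀ γ y : Ω, γ ∈ DivG Ω b → P y → y ≠ 0 → γ * y ∉ DivG Ω b →
        c ≤ absLogHeight₁ (γ * y) := by
  set β : Fin r → Ω := fun i => algebraMap K Ω (b i) with hβ
  have hβ0 : ∀ i, β i ≠ 0 := by
    intro i
    rw [hβ]
    simp only
    rw [Ne, map_eq_zero]
    exact hb i
  set H : ℝ := ∑ i, absLogHeight₁ (β i) with hH
  have hH0 : 0 ≤ H := Finset.sum_nonneg fun i _ => dirG_nonneg (K := K) (β i)
  have hε : 0 < κ / (2 * (H + 1)) := by positivity
  obtain ⟨B, hB1, hB⟩ := dirich r (κ / (2 * (H + 1))) hε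
  set ε : ℝ := κ / (2 * (H + 1)) with hεdef
  have hεH : ε * H ≤ κ / 2 := by
    rw [hεdef, div_mul_eq_mul_div, div_le_div_iff₀ (by positivity) (by norm_num)]
    nlinarith
  have hB0 : (0 : ℝ) < B := by
    have : 0 < B := hB1
    exact_mod_cast this
  refine ⟨κ / (2 * B), by positivity, fun P hP hF γ y hγ hy hy0 hnot => ?_⟩
  have hγ' := hγ
  obtain ⟨N, hN1, m, hm⟩ := hγ'
  have hN0 : (0 : ℝ) < N := by
    have : 0 < N := hN1
    exact_mod_cast this
  have hprod0 : ∀ e : Fin r → ℤ, ∏ i, β i ^ e i ≠ 0 := fun e =>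
    Finset.prod_ne_zero_iff.2 fun i _ => zpow_ne_zero _ (hβ0 i)
  have hγ0 : γ ≠ 0 := by
    rintro rfl
    rw [zero_pow (by omega)] at hm
    exact hprod0 m hm.symm
  obtain ⟨n, hn1, hnB, l, hl⟩ := hB (fun i => (m i : ℝ) / N)
  set x : Ω := (∏ i, β i ^ l i) * y ^ n with hx
  have hxF : P x := hP y hy n hn1 l
  have hx0 : x ≠ 0 := mul_ne_zero (hprod0 l) (pow_ne_zero _ hy0)
  have hxk : x ∉ DivG Ω b := by
    intro hxd
    apply hnot
    have h1 : (∏ i, β i ^ (-l i)) ∈ DivG Ω b := ⟨1, le_refl 1, fun i => -l i, pow_one _⟩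
    have h2 : (∏ i, β i ^ (-l i)) * (∏ i, β i ^ (l i)) = 1 := by
      rw [← Finset.prod_mul_distrib]
      apply Finset.prod_eq_one
      intro i _
      rw [← zpow_add₀ (hβ0 i), neg_add_cancel, zpow_zero]
    have h3 : y ^ n = x * ∏ i, β i ^ (-l i) := by
      rw [hx]
      calc y ^ n = ((∏ i, β i ^ (-l i)) * (∏ i, β i ^ (l i))) * y ^ n := by rw [h2, one_mul]
        _ = _ := by ring
    have h4 : y ^ n ∈ DivG Ω b := by
      rw [h3]
      exact div_mul hxd h1
    obtain ⟨N', hN', m', hm'⟩ := h4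
    refine div_mul hγ ⟨n * N', Nat.mul_pos hn1 hN', m', ?_⟩
    rw [pow_mul]
    exact hm'
  have hκx := hF x hxF hx0 hxk
  set ρ : Ω := (∏ i, β i ^ l i) / γ ^ n with hρ
  have hxρ : x = (γ * y) ^ n * ρ := by
    rw [hx, hρ, mul_pow]
    field_simp
  have hρN : ρ ^ N = ∏ i, β i ^ ((N : ℤ) * l i - (n : ℤ) * m i) := by
    have h1 : (γ ^ n) ^ N = ∏ i, β i ^ ((n : ℤ) * m i) := by
      rw [← pow_mul, mul_comm n N, pow_mul, hm, ← Finset.prod_pow]
      apply Finset.prod_congr rfl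
      intro i _
      rw [mul_comm (n : ℤ), zpow_mul, zpow_natCast]
    rw [hρ, div_pow, h1, ← Finset.prod_pow, ← Finset.prod_div_distrib]
    apply Finset.prod_congr rfl
    intro i _
    rw [zpow_sub₀ (hβ0 i), mul_comm (N : ℤ), zpow_mul (β i) (l i) (N : ℤ), zpow_natCast]
  have hρh : absLogHeight₁ ρ ≤ κ / 2 := by
    have h1 : (N : ℝ) * absLogHeight₁ ρ = absLogHeight₁ (ρ ^ N) := by
      rw [Pool.Agent.H4.RR.absLogHeight_pow Ω ρ (dirG_int (K := K) ρ) N]
    have h2 : absLogHeight₁ (ρ ^ N) ≤ (N : ℝ) * (ε * H) := by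
      rw [hρN]
      refine (dirG_prod (K := K) Finset.univ _).trans ?_
      rw [hH, Finset.mul_sum, Finset.mul_sum]
      apply Finset.sum_le_sum
      intro i _
      rw [absLogHeight_zpow]
      rw [← mul_assoc]
      apply mul_le_mul_of_nonneg_right _ (dirG_nonneg (K := K) _)
      have h3 := hl i
      have h4 : (((N : ℤ) * l i - (n : ℤ) * m i : ℤ) : ℝ) =
          -((N : ℝ) * ((n : ℝ) * ((m i : ℝ) / N) - l i)) := by
        push_cast
        field_simp
        ring
      rw [h4, abs_neg, abs_mul, abs_of_pos hN0]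
      exact mul_le_mul_of_nonneg_left h3 hN0.le
    have h5 : (N : ℝ) * absLogHeight₁ ρ ≤ (N : ℝ) * (κ / 2) := by
      rw [h1]
      exact h2.trans (mul_le_mul_of_nonneg_left hεH hN0.le)
    exact le_of_mul_le_mul_left h5 hN0
  have h6 : absLogHeight₁ x ≤ (n : ℝ) * absLogHeight₁ (γ * y) + absLogHeight₁ ρ := by
    rw [hxρ]
    refine (Pool.Agent.H4.RR.absLogHeight_mul_le Ω _ _ (dirG_int (K := K) _)
      (dirG_int (K := K) _)).trans ?_
    rw [Pool.Agent.H4.RR.absLogHeight_pow Ω _ (dirG_int (K := K) _) n]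
  have h7 : (n : ℝ) * absLogHeight₁ (γ * y) ≤ B * absLogHeight₁ (γ * y) :=
    mul_le_mul_of_nonneg_right (by exact_mod_cast hnB) (dirG_nonneg (K := K) _)
  rw [div_le_iff₀ (by positivity)]
  linarith

end Pool.Agent.H92.SR
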