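import Pool.Agent.H92.SR.STower3
import Pool.Agent.H92.SR.DirGen
import Pool.Agent.H92.SR.AzRF
import Pool.Agent.H92.SR.Cov

/-!
# Module BDeg (THEOREM SR, part E): Bogomolov property in bounded degree over `NS`

`D ≥ 1` WLOG (`dg ≥ 1`, `dg_pos`; use `D + 1`). `c₁, R` from `s_tower3` (`Dm = D`), `p ∈ S`, `c₂` from `az_rf` for `R, p, D`, `c₃`
from `dir_gen` with `κ = c₂`. `c = min c₁ (c₃ / D)`.
Given `w`: `n, N` from `cov`, so `dg (RF Ω b n N) w ≤ D`. If `h(w) < c₁`: `s_tower3` with `γ = 1` (`1 ∈ GammaS`: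
`gam_of_pow 1 ..`, see `final_bo` in `Pool/Agent/H72/PB/FinalBO.lean`): `w^E = γ' y'`, `E * dg (RF Ω b n R) y' ≤ D`, so
`E ≤ D` and `dg (RF Ω b n R) y' ≤ D` (`dg_pos`). `γ' y' = w^E ∉ DivG` (else `w ∈ DivG`), `γ' ∈ DivG` (`gam_div`).
Apply `dir_gen` with `P x := dg (RF Ω b n R) x ≤ D`: closed under `x ↦ (∏ b_i^(l_i)) x^k`: `dg L (c x) = dg L x` for `c ≠ 0`
in `L` (`dg_smul`; `c` comes from `K`), `dg L (x^k) ≤ dg L x` (`orb_pow`, `Set.ncard_image_le`). For `x ≠ 0`, `x ∉ DivG`, `P x`: `x` is not a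
root of unity (`x^k = 1` gives `x ∈ DivG`, exponents `0`), so `c₂ ≤ h(x)` by `az_rf` (`p ∤ n`). Hence
`c₃ ≤ h(γ' y') = E h(w) ≤ D h(w)` (`absLogHeight_pow`).
-/

set_option autoImplicit false
set_option linter.unusedSectionVars false

open NumberField IntermediateField

namespace Pool.Agent.H92.SR

open Pool.Agent.H72.RM Pool.Agent.H72.PB

variable {K Ω : Type} [Field K] [NumberField K] [Field Ω] [CharZero Ω] [IsAlgClosed Ω]
  [Algebra K Ω] [IsGalois K Ω] {r : ℕ}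

theorem dg_pow_le (L : IntermediateField K Ω) (x : Ω) (k : ℕ) : dg L (x ^ k) ≤ dg L x := by
  unfold dg
  rw [orb_pow]
  exact Set.ncard_image_le (orb_finite L x)

variable (Ω) in
theorem b_deg (b : Fin r → K) (hb : ∀ i, b i ≠ 0)
    (hind : ∀ N : ℕ, 1 ≤ N → ∀ (m : Fin r → ℤ) (y : K), y ^ N = ∏ i, (b i) ^ (m i) →
      ∀ i, (N : ℤ) ∣ m i) (S : Finset ℕ) (hS : ∀ p ∈ S, p.Prime) (hne : S.Nonempty) (D : ℕ) :
    ∃ c : ℝ, 0 < c ∧ ∀ w : Ω, w ≠ 0 → w ∉ DivG Ω b → dg (NS Ω b S) w ≤ D →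
      c ≤ absLogHeight₁ w := by
  classical
  obtain ⟨c₁, R, hc₁, hR, h1⟩ := s_tower3 Ω b hb hind S hS (D + 1) (by omega)
  obtain ⟨p, hp⟩ := hne
  obtain ⟨c₂, hc₂, h2⟩ := az_rf Ω b hb R hR p (hS p hp) (D + 1)
  obtain ⟨c₃, hc₃, h3⟩ := dir_gen Ω b hb c₂ hc₂
  have hD0 : (0 : ℝ) < (D : ℝ) + 1 := by positivity
  refine ⟨min c₁ (c₃ / ((D : ℝ) + 1)), lt_min hc₁ (div_pos hc₃ hD0), ?_⟩
  intro w hw0 hwD hdg
  obtain ⟨n, N, hn, hN, hnS, hNS, hcov⟩ := cov b hb S hS w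
  have hd : dg (RF Ω b n N) w ≤ D + 1 := by omega
  rcases lt_or_ge (absLogHeight₁ w) c₁ with hh | hh
  · refine (min_le_right _ _).trans ?_
    have hone : (1 : Ω) ∈ GammaS Ω b (S : Set ℕ) :=
      gam_of_pow 1 le_rfl (fun q hq hq1 => absurd (Nat.dvd_one.1 hq1) hq.one_lt.ne') 0 (by simp)
    obtain ⟨E, hE, γ', hγ', y', hy', heq, hEd⟩ := h1 n hn hnS N hN hNS 1 w hone hw0 hd
      (by rw [one_mul]; exact hh)
    rw [one_mul] at heq
    have hd1 : 1 ≤ dg (RF Ω b n R) y' := dg_pos _ _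
    have hE' : E ≤ D + 1 := by
      have : E ≤ E * dg (RF Ω b n R) y' := Nat.le_mul_of_pos_right _ hd1
      omega
    have hd' : dg (RF Ω b n R) y' ≤ D + 1 := by
      have : dg (RF Ω b n R) y' ≤ E * dg (RF Ω b n R) y' := Nat.le_mul_of_pos_left _ hE
      omega
    have hnot : γ' * y' ∉ DivG Ω b := by
      rw [← heq]
      rintro ⟨k, hk, m, hm⟩
      exact hwD ⟨E * k, Nat.mul_pos hE hk, m, by rw [pow_mul]; exact hm⟩
    have hcl : ∀ y, dg (RF Ω b n R) y ≤ D + 1 → ∀ n' : ℕ, 1 ≤ n' → ∀ l : Fin r → ℤ,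
        dg (RF Ω b n R) ((∏ i, (algebraMap K Ω (b i)) ^ (l i)) * y ^ n') ≤ D + 1 := by
      intro y hy n' _ l
      have hmem : (∏ i, (algebraMap K Ω (b i)) ^ (l i)) ∈ RF Ω b n R := by
        refine prod_mem fun i _ => ?_
        exact zpow_mem ((RF Ω b n R).algebraMap_mem (b i)) (l i)
      have hne0 : (∏ i, (algebraMap K Ω (b i)) ^ (l i)) ≠ 0 := by
        refine Finset.prod_ne_zero_iff.mpr fun i _ => ?_
        refine zpow_ne_zero _ ?_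
        rw [Ne, map_eq_zero]
        exact hb i
      rw [dg_smul hmem hne0]
      exact le_trans (dg_pow_le _ _ _) hy
    have hk : ∀ x, dg (RF Ω b n R) x ≤ D + 1 → x ≠ 0 → x ∉ DivG Ω b → c₂ ≤ absLogHeight₁ x := by
      intro x hx hx0 hxD
      refine h2 n hn (hnS p hp) x hx0 ?_ hx
      intro k hk hk1
      exact hxD ⟨k, hk, 0, by rw [hk1]; simp⟩
    have h4 := h3 (fun x => dg (RF Ω b n R) x ≤ D + 1) hcl hk γ' y' (gam_div hγ') hd' hy' hnot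
    rw [← heq, Pool.Agent.H4.RR.absLogHeight_pow Ω _ (int_all K _)] at h4
    have hh0 : 0 ≤ absLogHeight₁ w := ht_nonneg _
    have h5 : (E : ℝ) * absLogHeight₁ w ≤ ((D : ℝ) + 1) * absLogHeight₁ w := by
      refine mul_le_mul_of_nonneg_right ?_ hh0
      exact_mod_cast hE'
    rw [div_le_iff₀ hD0]
    linarith
  · exact (min_le_left _ _).trans hh

end Pool.Agent.H92.SR
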