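import Pool.Agent.H92.SR.Defs
import Pool.Agent.H72.PB.PTower2
import Pool.Agent.H72.PB.GlobX
import Pool.Agent.H72.PB.STower3

/-!
# Module STower3 (THEOREM SR, part D): descent to a bounded level at the primes of `S`, with `n'`

Adapt the proof of `s_tower2` in `Pool/Agent/H72/PB/STower2.lean` (there `n' = 1` and an extra parameter `N₁`): here
`n'` is arbitrary prime to `S`, and `Dm` is fixed, so the constants need not be tracked. `SX` for every `p ∈ S`: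
`sx_of (Ω := Ω) p b hb hind` (file `GlobX`; instance `Fact p.Prime` from `hS`). `A_p, R_p` from `p_tower2` (set
`(S : Set ℕ)`) for `Dm`; `B_p = (A_p log (3 Dm))^(A_p)`, `B = 1 + ∑ |B_p|` (or any real `B > 0` with `B_p ≤ B`),
`c = 1 / (Dm B)`, `R = ∏_{q ∈ S} q^(R_q)`. `N = ∏_{q ∈ S} q^(k_q)`, `k_q = N.factorization q`. Induction on `T ⊆ S`: there are
`E ≥ 1`, `γ_T ∈ GammaS`, `y_T ≠ 0` with `(γ y)^E = γ_T y_T` and
`E * dg (RF Ω b n' ((∏_{q ∈ T} q^(R_q)) * ∏_{q ∈ S \ T} q^(k_q))) y_T ≤ dg (RF Ω b n' N) y`. Step `insert p T`: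
`p_tower2` with `n'`, `N₀ = (∏_{q ∈ T} q^(R_q)) (∏_{q ∈ S \ insert p T} q^(k_q))`, prime to `p`; `d := dg` of `y_T` is `≤ Dm`,
`h(γ_T y_T) = E h(γ y)` (`absLogHeight_pow`), so `B_p (d h(γ_T y_T)) = B_p (E d) h(γ y) ≤ B Dm h(γ y) ≤ 1`.
-/

set_option autoImplicit false
set_option linter.unusedSectionVars false

open NumberField IntermediateField

namespace Pool.Agent.H92.SR

open Pool.Agent.H72.RM Pool.Agent.H72.RG Pool.Agent.H72.PB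

variable {K Ω : Type} [Field K] [NumberField K] [Field Ω] [CharZero Ω] [IsAlgClosed Ω]
  [Algebra K Ω] [IsGalois K Ω] {r : ℕ}

variable (Ω) in
theorem s_tower3 (b : Fin r → K) (hb : ∀ i, b i ≠ 0)
    (hind : ∀ N : ℕ, 1 ≤ N → ∀ (m : Fin r → ℤ) (y : K), y ^ N = ∏ i, (b i) ^ (m i) →
      ∀ i, (N : ℤ) ∣ m i) (S : Finset ℕ) (hS : ∀ p ∈ S, p.Prime) (Dm : ℕ) (hDm : 1 ≤ Dm) :
    ∃ (c : ℝ) (R : ℕ), 0 < c ∧ 1 ≤ R ∧ ∀ n' : ℕ, 1 ≤ n' → (∀ q ∈ S, ¬ q ∣ n') →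
      ∀ N : ℕ, 1 ≤ N → (∀ q : ℕ, q.Prime → q ∣ N → q ∈ S) →
      ∀ γ y : Ω, γ ∈ GammaS Ω b (S : Set ℕ) → y ≠ 0 → dg (RF Ω b n' N) y ≤ Dm →
      absLogHeight₁ (γ * y) < c →
      ∃ E : ℕ, 1 ≤ E ∧ ∃ γ' ∈ GammaS Ω b (S : Set ℕ), ∃ y' : Ω, y' ≠ 0 ∧
        (γ * y) ^ E = γ' * y' ∧ E * dg (RF Ω b n' R) y' ≤ dg (RF Ω b n' N) y := by
  classical
  obtain ⟨A, hA, H⟩ := Pool.Agent.H72.PB.s_tower3 (K := K) (Ω := Ω) (b := b) S (fun p hp => by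
    haveI : Fact p.Prime := ⟨hS p hp⟩
    obtain ⟨ι, h₀, J, D⟩ := sx_of (Ω := Ω) p b hb hind
    exact ⟨⟨hS p hp⟩, ι, h₀, J, D⟩)
  obtain ⟨R, hR, -, H⟩ := H Dm hDm
  obtain ⟨B, hB⟩ : ∃ B : ℝ, B = ((A : ℝ) * Real.log (3 * Dm)) ^ A := ⟨_, rfl⟩
  rw [← hB] at H
  have hD1 : (1 : ℝ) ≤ Dm := by exact_mod_cast hDm
  have hA1 : (1 : ℝ) ≤ A := by exact_mod_cast hA
  have hlog : 0 < Real.log (3 * Dm) := Real.log_pos (by linarith)
  have hB0 : 0 < B := by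
    rw [hB]
    positivity
  refine ⟨1 / (B * Dm), R, by positivity, hR, fun n' hn' hn'S N hN hNS γ y hγ hy hdg hht => ?_⟩
  have h1 := H n' 1 hn' le_rfl hn'S (fun q hq h => (hS q hq).one_lt.ne' (Nat.dvd_one.1 h)) N hN hNS γ y
    hγ hy (by rw [mul_one]; exact hdg) (by
      rw [mul_one]
      have hh0 : 0 ≤ absLogHeight₁ (γ * y) := ht_nonneg _
      have h2 : (dg (RF Ω b n' N) y : ℝ) ≤ Dm := by exact_mod_cast hdg
      calc B * ((dg (RF Ω b n' N) y : ℝ) * absLogHeight₁ (γ * y))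
          ≤ B * ((Dm : ℝ) * (1 / (B * Dm))) := by
            refine mul_le_mul_of_nonneg_left ?_ hB0.le
            exact mul_le_mul h2 hht.le hh0 (by positivity)
        _ = 1 := by
            field_simp)
  rw [mul_one, mul_one] at h1
  exact h1

end Pool.Agent.H92.SR
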