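import Pool.Agent.H92.SR.PowStep
import Pool.Agent.H92.SR.Defs
import Pool.Agent.H72.PB.HNonneg

/-!
# Module ZnVan (THEOREM SR, part A): vanishing of the power sums

Let `L = ℚ(all ζ i, all y j) ⊂ Ω` (`IntermediateField.adjoin ℚ` of a finite set of integral elements: a number
field, see `absLogHeight_mul_le` in `Pool/Agent/H4/RR/AbsHeight.lean`), lift everything to `L`; the inclusion is
injective. `absLogHeight_eq` (same file): `absLogHeight₁ (y j) = logHeight₁ (y j) / [L:ℚ]`. Strong induction on `n`: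
`n = 1` is `h0`. `n > 1`: `p = n.minFac`, `n = a * p`, `1 ≤ a < n`, all primes of `a` and `p` are `> T ≥ 2`
(so `p ≠ 2`). `a ∑ h ≤ n ∑ h` (heights are `≥ 0`, `ht_nonneg`), so the sum for `a` vanishes by induction.
If the sum for `a * p` were not zero, `power_step` gives `[L:ℚ] (log p - log T) ≤ (a p) [L:ℚ] ∑ h`, i.e.
`log p - log T ≤ n ∑ h < log ((T+1)/T) ≤ log p - log T` (`T + 1 ≤ p`), a contradiction.
-/

set_option autoImplicit false

open NumberField Module

namespace Pool.Agent.H92.SR

theorem zn_van {Ω : Type} [Field Ω] [CharZero Ω] {ι J : Type} [Fintype ι] [Fintype J]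
    (T : ℕ) (hT : 2 ≤ T) (hι : Fintype.card ι ≤ T) (c : ι → ℤ)
    (hc : ∀ i, c i = 0 ∨ c i = 1 ∨ c i = -1) (ζ : ι → Ω) (hζ : ∀ i, Tor (ζ i))
    (y : J → Ω) (hy : ∀ j, IsIntegral ℚ (y j)) (k : ι → J)
    (h0 : ∑ i, (c i : Ω) * (ζ i * y (k i)) = 0) (n : ℕ) (hn : 1 ≤ n)
    (hnT : ∀ q : ℕ, q.Prime → q ∣ n → T < q)
    (hh : (n : ℝ) * ∑ j, absLogHeight₁ (y j) < Real.log ((T + 1 : ℝ) / T)) :
    ∑ i, (c i : Ω) * (ζ i * y (k i)) ^ n = 0 := by
  classical
  -- the number field
  have hζint : ∀ i, IsIntegral ℚ (ζ i) := by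
    intro i
    obtain ⟨m, hm, h⟩ := hζ i
    exact IsIntegral.of_pow hm (by rw [h]; exact isIntegral_one)
  set A : Set Ω := Set.range ζ ∪ Set.range y with hA
  have hAfin : A.Finite := (Set.finite_range ζ).union (Set.finite_range y)
  have hAint : ∀ x ∈ A, IsIntegral ℚ x := by
    intro x hx
    rcases hx with ⟨i, rfl⟩ | ⟨j, rfl⟩
    · exact hζint i
    · exact hy j
  have hfd : FiniteDimensional ℚ (IntermediateField.adjoin ℚ A) := by
    have : Finite A := hAfin
    exact IntermediateField.finiteDimensional_adjoin hAint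
  have hnf : NumberField (IntermediateField.adjoin ℚ A) := {}
  set E := IntermediateField.adjoin ℚ A with hE
  let ζ' : ι → E := fun i => ⟨ζ i, IntermediateField.subset_adjoin ℚ _ (Or.inl ⟨i, rfl⟩)⟩
  let y' : J → E := fun j => ⟨y j, IntermediateField.subset_adjoin ℚ _ (Or.inr ⟨j, rfl⟩)⟩
  let ψ : E →+* Ω := (IntermediateField.val E).toRingHom
  have hψ : Function.Injective ψ := ψ.injective
  have hψζ : ∀ i, ψ (ζ' i) = ζ i := fun i => rfl
  have hψy : ∀ j, ψ (y' j) = y j := fun j => rfl
  have hsum : ∀ a : ℕ, ψ (∑ i, (c i : E) * (ζ' i * y' (k i)) ^ a) =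
      ∑ i, (c i : Ω) * (ζ i * y (k i)) ^ a := by
    intro a
    rw [map_sum]
    refine Finset.sum_congr rfl fun i _ => ?_
    rw [map_mul, map_pow, map_mul, hψζ, hψy, map_intCast]
  have hζ' : ∀ i, ∃ m : ℕ, 1 ≤ m ∧ ζ' i ^ m = 1 := by
    intro i
    obtain ⟨m, hm, h⟩ := hζ i
    refine ⟨m, hm, hψ ?_⟩
    rw [map_pow, hψζ, h, map_one]
  have hH : ∀ j, Height.logHeight₁ (y' j) = (finrank ℚ E : ℝ) * absLogHeight₁ (y j) := by
    intro j
    have h1 := Pool.Agent.H4.RR.absLogHeight_eq E Ω ψ (y' j)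
    rw [hψy] at h1
    have h2 : (finrank ℚ E : ℝ) ≠ 0 := by
      exact_mod_cast (Module.finrank_pos (R := ℚ) (M := E)).ne'
    rw [h1]
    field_simp
  have hS0 : 0 ≤ ∑ j, absLogHeight₁ (y j) :=
    Finset.sum_nonneg fun j _ => Pool.Agent.H72.PB.ht_nonneg (y j)
  -- strong induction
  induction n using Nat.strong_induction_on with
  | _ n ih =>
    rcases Nat.eq_or_lt_of_le hn with h1 | h1
    · rw [← h1]
      simp only [pow_one]
      exact h0
    · have hpp : (n.minFac).Prime := Nat.minFac_prime (by omega)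
      have hpn : n.minFac ∣ n := Nat.minFac_dvd n
      obtain ⟨a, ha⟩ := hpn
      set p := n.minFac with hpdef
      have hTp : T < p := hnT p hpp ⟨a, ha⟩
      have hp2 : p ≠ 2 := by omega
      have ha0 : 1 ≤ a := by
        rcases Nat.eq_zero_or_pos a with h | h
        · rw [h, mul_zero] at ha
          omega
        · exact h
      have han : a < n := by
        rw [ha]
        calc a = 1 * a := (one_mul a).symm
          _ < p * a := Nat.mul_lt_mul_of_pos_right hpp.one_lt ha0
      have hazero := ih a han ha0 (fun q hq hqa => hnT q hq (by rw [ha]; exact Dvd.dvd.mul_left hqa p))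
        (lt_of_le_of_lt (mul_le_mul_of_nonneg_right (by exact_mod_cast han.le) hS0) hh)
      by_contra hne
      have hazero' : ∑ i, (c i : E) * (ζ' i * y' (k i)) ^ a = 0 := by
        apply hψ
        rw [hsum, hazero, map_zero]
      have hne' : ∑ i, (c i : E) * (ζ' i * y' (k i)) ^ (a * p) ≠ 0 := by
        intro h
        apply hne
        have h2 := hsum (a * p)
        rw [h, map_zero] at h2
        rw [ha, mul_comm p a]
        exact h2.symm
      have hps := power_step T (by omega) hι c hc ζ' hζ' y' k a p hpp hp2 hazero' hne'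
      simp only [hH] at hps
      rw [← Finset.mul_sum] at hps
      have hfp : (0 : ℝ) < (finrank ℚ E : ℝ) := by
        exact_mod_cast Module.finrank_pos (R := ℚ) (M := E)
      have h3 : (finrank ℚ E : ℝ) * Real.log p ≤ (finrank ℚ E : ℝ) *
          (Real.log T + ((a * p : ℕ) : ℝ) * ∑ j, absLogHeight₁ (y j)) := by
        calc (finrank ℚ E : ℝ) * Real.log p ≤ _ := hps
          _ = _ := by ring
      have h4 := le_of_mul_le_mul_left h3 hfp
      have h5 : ((a * p : ℕ) : ℝ) = (n : ℝ) := by rw [mul_comm, ← ha]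
      rw [h5] at h4
      have hT0 : (0 : ℝ) < T := by
        have : 0 < T := by omega
        exact_mod_cast this
      rw [Real.log_div (by positivity) hT0.ne'] at hh
      have h6 : Real.log (T + 1 : ℝ) ≤ Real.log p := by
        apply Real.log_le_log (by positivity)
        exact_mod_cast hTp
      linarith

end Pool.Agent.H92.SR
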