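import Mathlib

/-!
# Module PRM: few primes

PROOF. `Chebyshev.eventually_primeCounting_le` (Mathlib, NumberTheory/Chebyshev) with `ε = 1`: `π ⌊x⌋ ≤ (log 4 + 1) x / log x` for large real `x`; `x = N`, `log N ≥ K (log 4 + 1)` for large `N`, so `π N ≤ N / K` as real numbers, hence `π N ≤ N / K` (natural division, `Nat.le_div_iff_mul_le`).
-/

set_option autoImplicit false

namespace Pool.Agent.H92.SR

theorem prm {K : ℕ} (hK : 1 ≤ K) : ∃ N0 : ℕ, ∀ N ≥ N0, N.primeCounting ≤ N / K := by
  have h1 := Chebyshev.eventually_primeCounting_le (ε := 1) one_pos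
  have h2 : ∀ᶠ x : ℝ in Filter.atTop, (K : ℝ) * (Real.log 4 + 1) ≤ Real.log x :=
    Real.tendsto_log_atTop.eventually_ge_atTop _
  have h3 := (h1.and h2).and (Filter.eventually_gt_atTop (1 : ℝ))
  have h4 := tendsto_natCast_atTop_atTop (R := ℝ) |>.eventually h3
  obtain ⟨N0, hN0⟩ := Filter.eventually_atTop.1 h4
  refine ⟨N0, fun N hN => ?_⟩
  obtain ⟨⟨h5, h6⟩, h7⟩ := hN0 N hN
  rw [Nat.floor_natCast] at h5
  have hlog : 0 < Real.log (N : ℝ) := Real.log_pos h7
  have hK0 : (0 : ℝ) < K := by exact_mod_cast hK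
  rw [Nat.le_div_iff_mul_le (by omega)]
  have h8 : (N.primeCounting : ℝ) * K ≤ N := by
    have h9 : (N.primeCounting : ℝ) * Real.log N ≤ (Real.log 4 + 1) * N := by
      rw [le_div_iff₀ hlog] at h5
      exact h5
    have hN0' : (0 : ℝ) ≤ N := Nat.cast_nonneg N
    have h10 : (N.primeCounting : ℝ) * K * Real.log N ≤ N * Real.log N := by
      calc (N.primeCounting : ℝ) * K * Real.log N = K * (N.primeCounting * Real.log N) := by ring
        _ ≤ K * ((Real.log 4 + 1) * N) := mul_le_mul_of_nonneg_left h9 hK0.le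
        _ = (K * (Real.log 4 + 1)) * N := by ring
        _ ≤ Real.log N * N := mul_le_mul_of_nonneg_right h6 hN0'
        _ = N * Real.log N := by ring
    exact le_of_mul_le_mul_right h10 hlog
  exact_mod_cast h8

end Pool.Agent.H92.SR
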