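import Mathlib

/-!
# Module AVG: from the tail to the mean

PROOF. For `a ∈ B`: `T a ≤ Q * (1 + ∑ m < M, Λ ^ (m + 1) * [bad m a] + R * [bad M a])`: let `m` be the least `m ≤ M` with `¬ bad m a` (`Nat.find`); if there is none use `h2`; if `m = 0`, `T a ≤ Q`; otherwise `bad (m - 1) a`. Sum over `B`: with
`β m = (B.filter (bad m)).card`, `∑ T ≤ Q * (X + ∑ m < M, Λ ^ (m + 1) * β m + R * β M)`. `β m * Λ ^ m * 2 ^ m ≤ X`, so `Λ ^ (m + 1) * β m ≤ Λ * X / 2 ^ m` (in `ℝ` or `ℚ`), the sum of these is at most `2 Λ X` (`geom_sum`), and `R * β M ≤ Λ * (2 Λ) ^ M * β M ≤ Λ * X`.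
-/

set_option autoImplicit false

namespace Pool.Agent.H92.SR

open Classical in
theorem avg {α : Type} (B : Finset α) (T : α → ℕ) (bad : ℕ → α → Prop) {Q Λ R M X : ℕ}
    (hX : B.card ≤ X) (h1 : ∀ a ∈ B, ∀ m ≤ M, ¬ bad m a → T a ≤ Q * Λ ^ m)
    (h2 : ∀ a ∈ B, T a ≤ Q * R) (h3 : ∀ m ≤ M, (B.filter (bad m)).card * (2 * Λ) ^ m ≤ X)
    (hR : R ≤ Λ * (2 * Λ) ^ M) : ∑ a ∈ B, T a ≤ X * (Q * (1 + 3 * Λ)) := by
  -- pointwise bound
  have hp : ∀ a ∈ B, T a ≤ Q * (1 + ∑ m ∈ Finset.range M, (if bad m a then Λ ^ (m + 1) else 0) +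
      (if bad M a then R else 0)) := by
    intro a ha
    by_cases hex : ∃ m, m ≤ M ∧ ¬ bad m a
    · have h4 := Nat.find_spec hex
      have h5 := h1 a ha _ h4.1 h4.2
      refine h5.trans (Nat.mul_le_mul_left _ ?_)
      rcases Nat.eq_zero_or_pos (Nat.find hex) with h6 | h6
      · rw [h6, pow_zero]
        omega
      · have h7 : bad (Nat.find hex - 1) a := by
          by_contra h8
          exact Nat.find_min hex (Nat.sub_lt h6 one_pos) ⟨by omega, h8⟩
        have h8 : Nat.find hex - 1 ∈ Finset.range M := by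
          rw [Finset.mem_range]
          omega
        have h9 := Finset.single_le_sum
          (f := fun m => if bad m a then Λ ^ (m + 1) else 0) (fun _ _ => Nat.zero_le _) h8
        simp only [h7, if_true] at h9
        rw [Nat.sub_add_cancel h6] at h9
        omega
    · push Not at hex
      have h4 := hex M le_rfl
      refine (h2 a ha).trans (Nat.mul_le_mul_left _ ?_)
      rw [if_pos h4]
      omega
  refine (Finset.sum_le_sum hp).trans ?_
  rw [← Finset.mul_sum, Finset.sum_add_distrib, Finset.sum_add_distrib, Finset.sum_comm]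
  simp only [← Finset.sum_filter, Finset.sum_const, smul_eq_mul]
  have hb : ∀ m ≤ M, (B.filter (bad m)).card * Λ ^ m * 2 ^ m ≤ X := by
    intro m hm
    have := h3 m hm
    rw [mul_pow] at this
    calc (B.filter (bad m)).card * Λ ^ m * 2 ^ m = (B.filter (bad m)).card * (2 ^ m * Λ ^ m) := by
          ring
      _ ≤ X := this
  have hs : ∑ m ∈ Finset.range M, (B.filter (bad m)).card * Λ ^ (m + 1) ≤ 2 * Λ * X := by
    have h4 : ∀ n ≤ M, ((∑ m ∈ Finset.range n, (B.filter (bad m)).card * Λ ^ (m + 1) : ℕ) : ℝ) ≤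
        Λ * X * (2 - 2 * (1 / 2) ^ n) := by
      intro n hn
      induction n with
      | zero => simp
      | succ n ih =>
        rw [Finset.sum_range_succ, Nat.cast_add]
        have h5 := ih (by omega)
        have h6 : (((B.filter (bad n)).card * Λ ^ (n + 1) : ℕ) : ℝ) ≤
            Λ * X * (1 / 2) ^ n := by
          have h7 : (((B.filter (bad n)).card * Λ ^ n * 2 ^ n : ℕ) : ℝ) ≤ X := by
            exact_mod_cast hb n (by omega)
          have h8 : (0 : ℝ) < 2 ^ n := by positivity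
          have hΛ : (0 : ℝ) ≤ Λ := Nat.cast_nonneg _
          rw [one_div, inv_pow, ← div_eq_mul_inv, le_div_iff₀ h8]
          calc (((B.filter (bad n)).card * Λ ^ (n + 1) : ℕ) : ℝ) * 2 ^ n
              = Λ * (((B.filter (bad n)).card * Λ ^ n * 2 ^ n : ℕ) : ℝ) := by
                push_cast
                ring
            _ ≤ Λ * X := mul_le_mul_of_nonneg_left h7 hΛ
        have e : (Λ : ℝ) * X * (2 - 2 * (1 / 2) ^ (n + 1)) =
            Λ * X * (2 - 2 * (1 / 2) ^ n) + Λ * X * (1 / 2) ^ n := by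
          rw [pow_succ]
          ring
        rw [e]
        linarith
    have h5 := h4 M le_rfl
    have h6 : (Λ : ℝ) * X * (2 - 2 * (1 / 2) ^ M) ≤ 2 * Λ * X := by
      have h7 : (0 : ℝ) ≤ Λ * X * (2 * (1 / 2) ^ M) := by positivity
      linarith
    have h7 := h5.trans h6
    exact_mod_cast h7
  have hM : (B.filter (bad M)).card * R ≤ Λ * X := by
    calc (B.filter (bad M)).card * R ≤ (B.filter (bad M)).card * (Λ * (2 * Λ) ^ M) :=
          Nat.mul_le_mul_left _ hR
      _ = Λ * ((B.filter (bad M)).card * (2 * Λ) ^ M) := by ring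
      _ ≤ Λ * X := Nat.mul_le_mul_left _ (h3 M le_rfl)
  calc Q * (B.card * 1 + ∑ m ∈ Finset.range M, (B.filter (bad m)).card * Λ ^ (m + 1) +
        (B.filter (bad M)).card * R)
      ≤ Q * (X + 2 * Λ * X + Λ * X) := by
        apply Nat.mul_le_mul_left
        omega
    _ = X * (Q * (1 + 3 * Λ)) := by ring

end Pool.Agent.H92.SR
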