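import Pool.Agent.H92.SR.Model

/-!
# Module DCD: the decision at precision `p`

PROOFS. For every `a`: `Nat.sqrt (4 ^ p * a) ≤ 2 ^ p * √a ≤ csq (4 ^ p * a)` (`2 ^ p * √a = √(4 ^ p * a)`, `Real.nat_sqrt_le_real_sqrt`, `Real.real_sqrt_lt_nat_sqrt_succ`; if `Nat.sqrt x ^ 2 = x` then `√x = Nat.sqrt x`), and
`csq x ≤ Nat.sqrt x + 1`. Sum over the list (induction on `L`): `ls L p ≤ 2 ^ p * Σ √a ≤ us L p ≤ ls L p + L.length`. `dec_yes`, `dec_no`: divide by `2 ^ p`. `und`: if neither, then `2 ^ p * Σ √a` and `k * 2 ^ p` are both in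
`[ls L p, us L p]`. `dec_sq`: if `a` is a square then `csq (4 ^ p * a) = Nat.sqrt (4 ^ p * a)`, so `us = ls`, `Dec` by trichotomy.
-/

set_option autoImplicit false

namespace Pool.Agent.H92.SR

/-- the distance of the sum of the square roots to `k` -/
noncomputable def EE (L : List ℕ) (k : ℕ) : ℝ := (L.map fun a : ℕ => √(a : ℝ)).sum - k

/-- the square root rounded up -/
def csq (x : ℕ) : ℕ := if Nat.sqrt x ^ 2 = x then Nat.sqrt x else Nat.sqrt x + 1

/-- the sum of the square roots of `4 ^ p * a`, rounded down -/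
def ls (L : List ℕ) (p : ℕ) : ℕ := (L.map fun a => Nat.sqrt (4 ^ p * a)).sum

/-- the sum of the square roots of `4 ^ p * a`, rounded up -/
def us (L : List ℕ) (p : ℕ) : ℕ := (L.map fun a => csq (4 ^ p * a)).sum

/-- the precision `p` decides the instance -/
def Dec (L : List ℕ) (k p : ℕ) : Prop := us L p ≤ k * 2 ^ p ∨ k * 2 ^ p < ls L p

private theorem sqrt_scale (a p : ℕ) : √((4 ^ p * a : ℕ) : ℝ) = 2 ^ p * √(a : ℝ) := by
  push_cast
  rw [Real.sqrt_mul (by positivity)]
  congr 1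
  have h : (4 : ℝ) ^ p = (2 ^ p) ^ 2 := by
    rw [← pow_mul, mul_comm p 2, pow_mul]
    norm_num
  rw [h, Real.sqrt_sq (by positivity)]

private theorem le_csq (x : ℕ) : √(x : ℝ) ≤ (csq x : ℝ) := by
  unfold csq
  split_ifs with h
  · have h1 : (x : ℝ) = (Nat.sqrt x : ℝ) ^ 2 := by exact_mod_cast h.symm
    rw [h1, Real.sqrt_sq (by positivity)]
  · push_cast
    exact Real.real_sqrt_lt_nat_sqrt_succ.le

private theorem csq_le (x : ℕ) : csq x ≤ Nat.sqrt x + 1 := by
  unfold csq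
  split_ifs <;> omega

private theorem ls_le (L : List ℕ) (p : ℕ) :
    (ls L p : ℝ) ≤ 2 ^ p * (L.map fun a : ℕ => √(a : ℝ)).sum := by
  induction L with
  | nil => simp [ls]
  | cons a L ih =>
    unfold ls at ih ⊢
    simp only [List.map_cons, List.sum_cons]
    push_cast
    rw [mul_add, ← sqrt_scale]
    push_cast at ih
    have h := Real.nat_sqrt_le_real_sqrt (a := 4 ^ p * a)
    linarith

private theorem le_us (L : List ℕ) (p : ℕ) :
    2 ^ p * (L.map fun a : ℕ => √(a : ℝ)).sum ≤ (us L p : ℝ) := by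
  induction L with
  | nil => simp [us]
  | cons a L ih =>
    unfold us at ih ⊢
    simp only [List.map_cons, List.sum_cons]
    push_cast
    rw [mul_add, ← sqrt_scale]
    push_cast at ih
    have h := le_csq (4 ^ p * a)
    linarith

private theorem us_le (L : List ℕ) (p : ℕ) : us L p ≤ ls L p + L.length := by
  induction L with
  | nil => simp [us, ls]
  | cons a L ih =>
    unfold us ls at ih ⊢
    simp only [List.map_cons, List.sum_cons, List.length_cons]
    have h := csq_le (4 ^ p * a)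
    omega

theorem dec_yes {L : List ℕ} {k p : ℕ} (h : us L p ≤ k * 2 ^ p) : EE L k ≤ 0 := by
  have h1 := le_us L p
  have h2 : (us L p : ℝ) ≤ k * 2 ^ p := by exact_mod_cast h
  have h3 : (0 : ℝ) < 2 ^ p := by positivity
  unfold EE
  have h4 : 2 ^ p * (L.map fun a : ℕ => √(a : ℝ)).sum ≤ 2 ^ p * (k : ℝ) := by
    rw [mul_comm (2 ^ p) (k : ℝ)]
    exact h1.trans h2
  have := le_of_mul_le_mul_left h4 h3
  linarith

theorem dec_no {L : List ℕ} {k p : ℕ} (h : k * 2 ^ p < ls L p) : 0 < EE L k := by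
  have h1 := ls_le L p
  have h2 : (k : ℝ) * 2 ^ p < ls L p := by exact_mod_cast h
  have h3 : (0 : ℝ) < 2 ^ p := by positivity
  unfold EE
  have h4 : 2 ^ p * (k : ℝ) < 2 ^ p * (L.map fun a : ℕ => √(a : ℝ)).sum := by
    rw [mul_comm (2 ^ p) (k : ℝ)]
    exact h2.trans_le h1
  have := lt_of_mul_lt_mul_left h4 h3.le
  linarith

theorem und {L : List ℕ} {k p : ℕ} (h : ¬ Dec L k p) : |EE L k| * 2 ^ p ≤ L.length := by
  unfold Dec at h
  push Not at h
  obtain ⟨h1, h2⟩ := h
  have h3 := ls_le L p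
  have h4 := le_us L p
  have h5 : (us L p : ℝ) ≤ ls L p + L.length := by exact_mod_cast us_le L p
  have h6 : (k : ℝ) * 2 ^ p < us L p := by exact_mod_cast h1
  have h7 : (ls L p : ℝ) ≤ k * 2 ^ p := by exact_mod_cast h2
  have h8 : (0 : ℝ) < 2 ^ p := by positivity
  have h9 : |EE L k| * 2 ^ p = |2 ^ p * (L.map fun a : ℕ => √(a : ℝ)).sum - k * 2 ^ p| := by
    unfold EE
    rw [← abs_of_pos h8, ← abs_mul, abs_of_pos h8]
    congr 1
    ring
  rw [h9, abs_le]
  constructor <;> linarith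

theorem dec_sq {L : List ℕ} (h : ∀ a ∈ L, IsSquare a) (k p : ℕ) : Dec L k p := by
  have h1 : us L p = ls L p := by
    unfold us ls
    congr 1
    refine List.map_congr_left fun a ha => ?_
    obtain ⟨b, hb⟩ := h a ha
    unfold csq
    rw [if_pos]
    have h2 : 4 ^ p * a = (2 ^ p * b) * (2 ^ p * b) := by
      rw [hb]
      have h3 : 4 ^ p = 2 ^ p * 2 ^ p := by rw [← mul_pow]; norm_num
      rw [h3]
      ring
    rw [h2, Nat.sqrt_eq]
    ring
  unfold Dec
  rw [h1]
  exact le_or_gt _ _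

end Pool.Agent.H92.SR
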