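import Pool.Agent.H92.SR.Fib
import Pool.Agent.H92.SR.Dcd

/-!
# Module BOX: small values of the sum in a box

`box A W` is the box of the lists with `i`-th entry in `(A i, A i + W i]`.

PROOFS. `ee_of`: `List.map_ofFn`, `List.sum_ofFn`. `box_cnt`: split the coordinates into `J` and its complement: `e = Equiv.piEquivPiSubtypeProd (· ∈ J) (fun _ => ℕ)` maps the bad set injectively into the set of the pairs `(x, y)` with `y` in the box of the complement and `x` in the bad set of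
`fib` with `F = ∑ i ∉ J √(y i) - k` (`Fintype.sum_subtype_add_sum_subtype` or `Finset.sum_add_sum_compl`); so its cardinality is at most `∑ y, ∏_{J} 4 √(m W)` (`Finset.card_sigma`, or `Finset.card_le_mul_card_image`: every fibre of `a ↦ (e a).2` has at most
that many elements), and there are `∏_{i ∉ J} W i` values of `y` (`Fintype.card_piFinset`, `Nat.card_Ioc`).
`tailb`: `m = 0`: the box has `∏ W i` elements. `m ≥ 1`: `J` = a subset with `m` elements of `{i | 64 * Λ ^ 2 * m ≤ W i}` (`Finset.exists_subset_card_eq`); `4 √(m W) * (2 Λ) ≤ W` as `16 m W * 4 Λ ^ 2 ≤ W ^ 2`; so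
`∏_{J} 4 √(m W i) * (2 Λ) ^ m ≤ ∏_{J} W i`.
-/

set_option autoImplicit false

namespace Pool.Agent.H92.SR

/-- the box of the tuples with `i`-th entry in the interval `(A i, A i + W i]` -/
def box {n : ℕ} (A W : Fin n → ℕ) : Finset (Fin n → ℕ) :=
  Fintype.piFinset fun i => Finset.Ioc (A i) (A i + W i)

theorem card_box {n : ℕ} (A W : Fin n → ℕ) : (box A W).card = ∏ i, W i := by
  unfold box
  rw [Fintype.card_piFinset]
  refine Finset.prod_congr rfl fun i _ => ?_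
  rw [Nat.card_Ioc]
  omega

theorem ee_of {n : ℕ} (a : Fin n → ℕ) (k : ℕ) :
    EE (List.ofFn a) k = ∑ i, √(a i : ℝ) - k := by
  unfold EE
  rw [List.map_ofFn, List.sum_ofFn]
  rfl

open Classical in
theorem box_cnt {n m : ℕ} {A W : Fin n → ℕ} {J : Finset (Fin n)} (hJ : J.card = m) (hm : 1 ≤ m)
    (hW : ∀ i ∈ J, m ≤ W i) (k : ℕ) {b : ℕ} (hb : ∑ i, 2 * √((A i + W i : ℕ) : ℝ) ≤ 2 ^ b) :
    (((box A W).filter fun a => |EE (List.ofFn a) k| * 2 ^ (1 + b * 4 ^ m) < 1).card : ℝ) ≤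
      (∏ i ∈ Jᶜ, (W i : ℝ)) * ∏ i ∈ J, 4 * √((m : ℝ) * W i) := by
  obtain ⟨B, hB⟩ : ∃ B, B = (box A W).filter fun a =>
      |EE (List.ofFn a) k| * 2 ^ (1 + b * 4 ^ m) < 1 := ⟨_, rfl⟩
  rw [← hB]
  obtain ⟨T, hT⟩ : ∃ T : Finset ({i // i ∈ Jᶜ} → ℕ), T =
      Fintype.piFinset fun i => Finset.Ioc (A i.1) (A i.1 + W i.1) := ⟨_, rfl⟩
  have hTc : (T.card : ℝ) = ∏ i ∈ Jᶜ, (W i : ℝ) := by
    rw [hT, Fintype.card_piFinset]
    push_cast
    rw [← Finset.prod_coe_sort Jᶜ (fun i => (W i : ℝ))]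
    refine Finset.prod_congr rfl fun i _ => ?_
    rw [Nat.card_Ioc]
    congr 1
    omega
  have hmaps : ∀ a ∈ B, (fun i : {i // i ∈ Jᶜ} => a i.1) ∈ T := by
    intro a ha
    rw [hB, Finset.mem_filter] at ha
    have h1 := ha.1
    unfold box at h1
    rw [Fintype.mem_piFinset] at h1
    rw [hT, Fintype.mem_piFinset]
    exact fun i => h1 i.1
  have hb' : ∑ j : {j // j ∈ J}, 2 * √((A j.1 + W j.1 : ℕ) : ℝ) ≤ 2 ^ b := by
    rw [Finset.sum_coe_sort J (fun i => 2 * √((A i + W i : ℕ) : ℝ))]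
    refine le_trans ?_ hb
    exact Finset.sum_le_sum_of_subset_of_nonneg (Finset.subset_univ J)
      fun i _ _ => by positivity
  have hfib : ∀ y ∈ T, ((B.filter fun a => (fun i : {i // i ∈ Jᶜ} => a i.1) = y).card : ℝ) ≤
      ∏ i ∈ J, 4 * √((m : ℝ) * W i) := by
    intro y _
    have h1 := fib (J := {j // j ∈ J}) (m := m) (by rw [Fintype.card_coe, hJ]) hm
      (A := fun j => A j.1) (W := fun j => W j.1) (fun j => hW j.1 j.2)
      (∑ i, √(y i : ℝ) - k) hb'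
    rw [Finset.prod_coe_sort J (fun i => 4 * √((m : ℝ) * W i))] at h1
    refine le_trans ?_ h1
    rw [Nat.cast_le]
    refine Finset.card_le_card_of_injOn (fun a => fun j : {j // j ∈ J} => a j.1) ?_ ?_
    · intro a ha
      rw [Finset.mem_coe, Finset.mem_filter, hB, Finset.mem_filter] at ha
      obtain ⟨⟨ha1, ha2⟩, ha3⟩ := ha
      unfold box at ha1
      rw [Fintype.mem_piFinset] at ha1
      rw [Finset.mem_coe]
      simp only [Finset.mem_filter, Fintype.mem_piFinset]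
      refine ⟨fun j => ha1 j.1, ?_⟩
      have h2 : ∑ j : {j // j ∈ J}, √(a j.1 : ℝ) + (∑ i, √(y i : ℝ) - k) =
          EE (List.ofFn a) k := by
        rw [ee_of, ← ha3, Finset.sum_coe_sort J (fun i => √(a i : ℝ)),
          Finset.sum_coe_sort Jᶜ (fun i => √(a i : ℝ)),
          ← Finset.sum_add_sum_compl J (fun i => √(a i : ℝ))]
        ring
      rw [h2]
      exact ha2
    · intro a ha a' ha' h
      rw [Finset.mem_coe, Finset.mem_filter] at ha ha'
      funext i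
      by_cases hi : i ∈ J
      · exact congrFun h ⟨i, hi⟩
      · have h2 := congrFun (ha.2.trans ha'.2.symm) ⟨i, Finset.mem_compl.2 hi⟩
        exact h2
  have hsum : B.card = ∑ y ∈ T, (B.filter fun a => (fun i : {i // i ∈ Jᶜ} => a i.1) = y).card :=
    Finset.card_eq_sum_card_fiberwise hmaps
  rw [hsum]
  push_cast
  refine (Finset.sum_le_sum hfib).trans (le_of_eq ?_)
  rw [Finset.sum_const, nsmul_eq_mul, hTc]

open Classical in
theorem tailb {n : ℕ} (Λ : ℕ) (hΛ : 1 ≤ Λ) {A W : Fin n → ℕ} {m : ℕ}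
    (hm : m ≤ (Finset.univ.filter fun i => 64 * Λ ^ 2 * m ≤ W i).card) (k : ℕ) {b : ℕ}
    (hb : ∑ i, 2 * √((A i + W i : ℕ) : ℝ) ≤ 2 ^ b) :
    ((box A W).filter fun a => |EE (List.ofFn a) k| * 2 ^ (1 + b * 4 ^ m) < 1).card *
      (2 * Λ) ^ m ≤ ∏ i, W i := by
  rcases Nat.eq_zero_or_pos m with h0 | h1
  · rw [← card_box A W]
    have h2 : ((box A W).filter fun a => |EE (List.ofFn a) k| * 2 ^ (1 + b * 4 ^ m) < 1).card ≤
        (box A W).card := by
      refine Finset.card_le_card ?_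
      intro a ha
      simp only [Finset.mem_filter] at ha
      exact ha.1
    have h3 : (2 * Λ) ^ m = 1 := by rw [h0, pow_zero]
    rw [h3, mul_one]
    exact h2
  obtain ⟨J, hJs, hJ⟩ := Finset.exists_subset_card_eq hm
  have hJm : ∀ i ∈ J, 64 * Λ ^ 2 * m ≤ W i := by
    intro i hi
    have h2 := hJs hi
    simp only [Finset.mem_filter, Finset.mem_univ, true_and] at h2
    exact h2
  have hΛ2 : 1 ≤ Λ ^ 2 := Nat.one_le_pow _ _ hΛ
  have hcnt := box_cnt (A := A) (W := W) hJ h1 (fun i hi => by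
    have h2 := hJm i hi
    have h3 : 1 * m ≤ 64 * Λ ^ 2 * m := Nat.mul_le_mul_right m (by omega)
    omega) k hb
  have hfac : ∀ i ∈ J, 4 * √((m : ℝ) * W i) * (2 * Λ) ≤ (W i : ℝ) := by
    intro i hi
    have h2 : (64 : ℝ) * Λ ^ 2 * m ≤ W i := by exact_mod_cast hJm i hi
    have hW0 : (0 : ℝ) ≤ W i := Nat.cast_nonneg _
    have hΛ0 : (0 : ℝ) ≤ Λ := Nat.cast_nonneg _
    have h3 : 4 * √((m : ℝ) * W i) * (2 * Λ) = √(64 * Λ ^ 2 * (m * W i)) := by
      rw [Real.sqrt_mul (x := 64 * (Λ : ℝ) ^ 2) (by positivity) ((m : ℝ) * W i),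
        show (64 : ℝ) * Λ ^ 2 = (8 * Λ) ^ 2 by ring, Real.sqrt_sq (by positivity)]
      ring
    rw [h3, Real.sqrt_le_left hW0]
    have h4 : (64 : ℝ) * Λ ^ 2 * m * (W i : ℝ) ≤ (W i : ℝ) * (W i : ℝ) :=
      mul_le_mul_of_nonneg_right h2 hW0
    linarith
  have hfin : (((box A W).filter fun a =>
      |EE (List.ofFn a) k| * 2 ^ (1 + b * 4 ^ m) < 1).card : ℝ) * (2 * Λ) ^ m ≤
      ∏ i, (W i : ℝ) := by
    have h2 : ((2 : ℝ) * Λ) ^ m = ∏ _i ∈ J, (2 * (Λ : ℝ)) := by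
      rw [Finset.prod_const, hJ]
    calc (((box A W).filter fun a =>
          |EE (List.ofFn a) k| * 2 ^ (1 + b * 4 ^ m) < 1).card : ℝ) * (2 * Λ) ^ m
        ≤ ((∏ i ∈ Jᶜ, (W i : ℝ)) * ∏ i ∈ J, 4 * √((m : ℝ) * W i)) * (2 * Λ) ^ m :=
          mul_le_mul_of_nonneg_right hcnt (by positivity)
      _ = (∏ i ∈ Jᶜ, (W i : ℝ)) * ∏ i ∈ J, (4 * √((m : ℝ) * W i) * (2 * Λ)) := by
          rw [h2, mul_assoc, ← Finset.prod_mul_distrib]
      _ ≤ (∏ i ∈ Jᶜ, (W i : ℝ)) * ∏ i ∈ J, (W i : ℝ) :=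
          mul_le_mul_of_nonneg_left
            (Finset.prod_le_prod (fun i _ => by positivity) hfac)
            (Finset.prod_nonneg fun i _ => by positivity)
      _ = ∏ i, (W i : ℝ) := Finset.prod_compl_mul_prod J _
  exact_mod_cast hfin

end Pool.Agent.H92.SR
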