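import Pool.Agent.H92.SR.Tim
import Pool.Agent.H92.SR.Box
import Pool.Agent.H92.SR.Avg
import Pool.Agent.H92.SR.Prm

/-!
# Module FIN1: average, smoothed and tail bounds

`bbx A W k` bounds the binary size of the instances in the box.

PROOFS. `bsz_box`: `a i ≤ A i + W i`, `Nat.size_le_size`, `List.sum_ofFn`. `sum_box`: `2 √x ≤ 2 x ≤ 2 ^ (size x + 1)`, `k ≤ 2 ^ size k` (`Nat.lt_size_self`), and `∑ 2 ^ (e i + 1) + 2 ^ (e + 1) ≤ 2 ^ (∑ (e i + 1) + e + 1)` by induction with `x + y ≤ x * y` for `x, y ≥ 2`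
(`Fin` induction or `Finset.induction_on` for `∑ i ∈ s`). Put `b = bbx A W k + 1`, `Q = q.eval (2 * bbx A W k + 1)`, `q` from `tim`.
`tail`: `¬ bad m a` with `bad m a := |EE (ofFn a) k| * 2 ^ (1 + b * 4 ^ m) < 1` gives `T ≤ Q * Λ ^ m`; `tailb`. `smooth`: `avg` with `M = n`, `R = Λ ^ (n + 1)`, `X = ∏ W i` (`card_box`). `aver`: `A = 0`, `W = N`, `K = 64 * Λ ^ 2`; if `K * n ≤ N`: `smooth`. Otherwise `M = N / K ≤ n`;
`N0` from `prm`; if `N ≥ N0`: `avg` with `R = Λ ^ π(N) ≤ Λ ^ M`; if `N < N0`: every `T ≤ Q * Λ ^ π(N) ≤ Q * Λ ^ N0` (`π(N) ≤ N`). `q' = (q.comp (2 X + 1)) * (1 + 3 Λ + Λ ^ N0)`. `Finset.Icc 1 N = Finset.Ioc 0 (0 + N)`.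
-/

set_option autoImplicit false

namespace Pool.Agent.H92.SR

open Tr

/-- a bound for the binary size of the instances in the box -/
def bbx {n : ℕ} (A W : Fin n → ℕ) (k : ℕ) : ℕ := n + ∑ i, Nat.size (A i + W i) + Nat.size k

theorem bsz_box {n : ℕ} {A W a : Fin n → ℕ} (ha : a ∈ box A W) (k : ℕ) :
    bsz (List.ofFn a) k ≤ bbx A W k := by
  unfold bsz bbx
  rw [List.length_ofFn, List.map_ofFn, List.sum_ofFn]
  have h : ∑ i, (Nat.size ∘ a) i ≤ ∑ i, Nat.size (A i + W i) := by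
    apply Finset.sum_le_sum
    intro i _
    have h1 := Fintype.mem_piFinset.1 ha i
    rw [Finset.mem_Ioc] at h1
    exact Nat.size_le_size h1.2
  omega

theorem sb_aux {ι : Type} (s : Finset ι) (e : ι → ℕ) (e0 : ℕ) :
    ∑ i ∈ s, 2 ^ (e i + 1) + 2 ^ (e0 + 1) ≤ 2 ^ (∑ i ∈ s, (e i + 1) + (e0 + 1)) := by
  classical
  induction s using Finset.induction_on with
  | empty => simp
  | insert i s hi ih =>
    rw [Finset.sum_insert hi, Finset.sum_insert hi]
    have h1 : 2 ≤ 2 ^ (e i + 1) := by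
      rw [pow_succ]
      have : 0 < 2 ^ e i := by positivity
      omega
    have h2 : 2 ≤ 2 ^ (∑ i ∈ s, (e i + 1) + (e0 + 1)) := by
      rw [← add_assoc, pow_succ]
      have : 0 < 2 ^ (∑ i ∈ s, (e i + 1) + e0) := by positivity
      omega
    have h3 : 2 ^ (e i + 1 + ∑ i ∈ s, (e i + 1) + (e0 + 1)) =
        2 ^ (e i + 1) * 2 ^ (∑ i ∈ s, (e i + 1) + (e0 + 1)) := by
      rw [← pow_add]
      congr 1
      ring
    rw [h3]
    nlinarith

theorem sum_box {n : ℕ} (A W : Fin n → ℕ) (k : ℕ) :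
    ∑ i, 2 * √((A i + W i : ℕ) : ℝ) + k ≤ 2 ^ (bbx A W k + 1) := by
  have h1 : ∀ x : ℕ, 2 * √(x : ℝ) ≤ ((2 ^ (Nat.size x + 1) : ℕ) : ℝ) := by
    intro x
    have h2 : x < 2 ^ Nat.size x := Nat.lt_size_self x
    have h3 : √(x : ℝ) ≤ x := by
      rcases Nat.eq_zero_or_pos x with h | h
      · subst h
        simp
      · rw [Real.sqrt_le_left (Nat.cast_nonneg x)]
        have : (1 : ℝ) ≤ x := by exact_mod_cast h
        nlinarith
    have h4 : (x : ℝ) ≤ 2 ^ Nat.size x := by exact_mod_cast h2.le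
    rw [pow_succ]
    push_cast
    linarith
  have h2 : (k : ℝ) ≤ ((2 ^ (Nat.size k + 1) : ℕ) : ℝ) := by
    have h3 : k < 2 ^ Nat.size k := Nat.lt_size_self k
    have h4 : 2 ^ (Nat.size k + 1) = 2 ^ Nat.size k * 2 := pow_succ _ _
    exact_mod_cast (show k ≤ 2 ^ (Nat.size k + 1) by omega)
  have h3 := sb_aux Finset.univ (fun i => Nat.size (A i + W i)) (Nat.size k)
  have h4 : ∑ i : Fin n, (Nat.size (A i + W i) + 1) + (Nat.size k + 1) = bbx A W k + 1 := by
    unfold bbx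
    rw [Finset.sum_add_distrib]
    simp
    ring
  rw [h4] at h3
  calc ∑ i, 2 * √((A i + W i : ℕ) : ℝ) + k
      ≤ ∑ i, ((2 ^ (Nat.size (A i + W i) + 1) : ℕ) : ℝ) + ((2 ^ (Nat.size k + 1) : ℕ) : ℝ) :=
        add_le_add (Finset.sum_le_sum fun i _ => h1 _) h2
    _ = ((∑ i, 2 ^ (Nat.size (A i + W i) + 1) + 2 ^ (Nat.size k + 1) : ℕ) : ℝ) := by
        push_cast
        rfl
    _ ≤ ((2 ^ (bbx A W k + 1) : ℕ) : ℝ) := by exact_mod_cast h3
    _ = 2 ^ (bbx A W k + 1) := by push_cast; rfl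

theorem sum_box' {n : ℕ} {A W a : Fin n → ℕ} (ha : a ∈ box A W) (k : ℕ) :
    ((List.ofFn a).map fun a : ℕ => √(a : ℝ)).sum + k ≤ 2 ^ (bbx A W k + 1) := by
  refine le_trans ?_ (sum_box A W k)
  rw [List.map_ofFn, List.sum_ofFn]
  refine add_le_add ?_ le_rfl
  apply Finset.sum_le_sum
  intro i _
  have h1 := Fintype.mem_piFinset.1 ha i
  rw [Finset.mem_Ioc] at h1
  have h2 : √(a i : ℝ) ≤ √((A i + W i : ℕ) : ℝ) := by
    apply Real.sqrt_le_sqrt
    exact_mod_cast h1.2
  have h3 := Real.sqrt_nonneg ((A i + W i : ℕ) : ℝ)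
  simp only [Function.comp_apply]
  linarith

open Classical in
theorem fin1 : ∃ (c : Prog) (T : List ℕ → ℕ → ℕ) (q : Polynomial ℕ) (K Λ : ℕ), 1 ≤ Λ ∧
    (∀ L k, Eval c (encI L k) (bit (decide (EE L k ≤ 0))) (T L k)) ∧
    (∀ (n N k : ℕ), 1 ≤ N →
      ∑ a ∈ Fintype.piFinset (fun _ : Fin n => Finset.Icc 1 N), T (List.ofFn a) k ≤
        N ^ n * q.eval (n * (Nat.size N + 1) + Nat.size k)) ∧
    (∀ (n k : ℕ) (A W : Fin n → ℕ), (∀ i, K * n ≤ W i) →
      ∑ a ∈ box A W, T (List.ofFn a) k ≤ (∏ i, W i) * q.eval (bbx A W k)) ∧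
    ∀ (n k m : ℕ) (A W : Fin n → ℕ), m ≤ (Finset.univ.filter fun i => K * m ≤ W i).card →
      ((box A W).filter fun a => q.eval (bbx A W k) * Λ ^ m < T (List.ofFn a) k).card *
        (2 * Λ) ^ m ≤ ∏ i, W i := by
  obtain ⟨c, T, q, Λ, hΛ, hE, hT1, hT2, hT3⟩ := tim
  have hΛ0 : 0 < Λ := hΛ
  obtain ⟨N0, hN0⟩ := prm (K := 64 * Λ ^ 2) (Nat.mul_pos (by norm_num) (pow_pos hΛ0 2))
  -- the polynomial for one box
  have hQ1 : ∀ (n k : ℕ) (A W : Fin n → ℕ) (a : Fin n → ℕ), a ∈ box A W → ∀ m,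
      ¬ |EE (List.ofFn a) k| * 2 ^ (1 + (bbx A W k + 1) * 4 ^ m) < 1 →
      T (List.ofFn a) k ≤ q.eval (2 * bbx A W k + 1) * Λ ^ m := by
    intro n k A W a ha m hm
    refine (hT1 _ _ _ _ (not_lt.1 hm)).trans (Nat.mul_le_mul_right _ (poly_mono q ?_))
    have := bsz_box ha k
    omega
  have hQ2 : ∀ (n k : ℕ) (A W : Fin n → ℕ) (a : Fin n → ℕ), a ∈ box A W →
      T (List.ofFn a) k ≤ q.eval (2 * bbx A W k + 1) * Λ ^ (n + 1) := by
    intro n k A W a ha
    have h := hT2 (List.ofFn a) k _ (sum_box' ha k)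
    rw [List.length_ofFn] at h
    refine h.trans (Nat.mul_le_mul_right _ (poly_mono q ?_))
    have := bsz_box ha k
    omega
  have hsb : ∀ (n k : ℕ) (A W : Fin n → ℕ),
      ∑ i, 2 * √((A i + W i : ℕ) : ℝ) ≤ 2 ^ (bbx A W k + 1) := by
    intro n k A W
    have := sum_box A W k
    have h0 : (0 : ℝ) ≤ k := Nat.cast_nonneg k
    linarith
  have hsm : ∀ (n k : ℕ) (A W : Fin n → ℕ), (∀ i, 64 * Λ ^ 2 * n ≤ W i) →
      ∑ a ∈ box A W, T (List.ofFn a) k ≤
        (∏ i, W i) * (q.eval (2 * bbx A W k + 1) * (1 + 3 * Λ)) := by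
    intro n k A W hW
    refine avg (box A W) (fun a => T (List.ofFn a) k)
      (fun m a => |EE (List.ofFn a) k| * 2 ^ (1 + (bbx A W k + 1) * 4 ^ m) < 1)
      (R := Λ ^ (n + 1)) (M := n) (card_box A W).le (fun a ha m _ hm => hQ1 n k A W a ha m hm)
      (fun a ha => hQ2 n k A W a ha) (fun m hm => ?_) ?_
    · refine tailb Λ hΛ ?_ k (hsb n k A W)
      have h1 : (Finset.univ.filter fun i : Fin n => 64 * Λ ^ 2 * m ≤ W i) = Finset.univ := by
        rw [Finset.filter_true_of_mem]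
        intro i _
        exact (Nat.mul_le_mul_left _ hm).trans (hW i)
      rw [h1, Finset.card_univ, Fintype.card_fin]
      exact hm
    · rw [pow_succ, mul_comm (Λ ^ n) Λ]
      apply Nat.mul_le_mul_left
      exact Nat.pow_le_pow_left (by omega) n
  have hev : ∀ (x y : ℕ), ((q.comp (2 * Polynomial.X + 1)) * Polynomial.C y).eval x =
      q.eval (2 * x + 1) * y := by
    intro x y
    simp [Polynomial.eval_comp]
  have hy : 1 + 3 * Λ ≤ 1 + 3 * Λ + Λ ^ N0 := by omega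
  refine ⟨c, T, (q.comp (2 * Polynomial.X + 1)) * Polynomial.C (1 + 3 * Λ + Λ ^ N0),
    64 * Λ ^ 2, Λ, hΛ, hE, ?_, ?_, ?_⟩
  · intro n N k hN
    rw [hev]
    have hbox : (Fintype.piFinset (fun _ : Fin n => Finset.Icc 1 N)) =
        box (fun _ => 0) (fun _ => N) := by
      unfold box
      congr 1
      funext i
      ext x
      simp only [Finset.mem_Icc, Finset.mem_Ioc]
      omega
    have hbb : bbx (fun _ : Fin n => 0) (fun _ => N) k = n * (Nat.size N + 1) + Nat.size k := by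
      unfold bbx
      simp
      ring
    have hpr : ∏ _i : Fin n, N = N ^ n := by simp
    rw [hbox, ← hbb]
    have hle : ∀ y z : ℕ, y ≤ z → N ^ n * (q.eval (2 * bbx (fun _ : Fin n => 0) (fun _ => N) k + 1) * y) ≤
        N ^ n * (q.eval (2 * bbx (fun _ : Fin n => 0) (fun _ => N) k + 1) * z) := fun y z h =>
      Nat.mul_le_mul_left _ (Nat.mul_le_mul_left _ h)
    by_cases h1 : 64 * Λ ^ 2 * n ≤ N
    · have h2 := hsm n k (fun _ => 0) (fun _ => N) fun _ => h1
      rw [hpr] at h2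
      exact h2.trans (hle _ _ hy)
    · have hmem : ∀ a ∈ box (fun _ : Fin n => 0) (fun _ => N), ∀ x ∈ List.ofFn a, 1 ≤ x ∧ x ≤ N := by
        intro a ha x hx
        rw [List.mem_ofFn] at hx
        obtain ⟨i, rfl⟩ := hx
        have h3 := Fintype.mem_piFinset.1 ha i
        rw [Finset.mem_Ioc] at h3
        dsimp only at h3
        omega
      have hQ3 : ∀ a ∈ box (fun _ : Fin n => 0) (fun _ => N), T (List.ofFn a) k ≤
          q.eval (2 * bbx (fun _ : Fin n => 0) (fun _ => N) k + 1) * Λ ^ N.primeCounting := by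
        intro a ha
        refine (hT3 (List.ofFn a) k _ N (hmem a ha) (sum_box' ha k)).trans
          (Nat.mul_le_mul_right _ (poly_mono q ?_))
        have := bsz_box ha k
        omega
      by_cases h2 : N0 ≤ N
      · have h3 : N / (64 * Λ ^ 2) ≤ n := by
          have h4 : N < n * (64 * Λ ^ 2) := by
            rw [mul_comm]
            omega
          exact (Nat.div_le_of_le_mul (by rw [mul_comm]; exact h4.le))
        have h4 := avg (box (fun _ : Fin n => 0) (fun _ => N)) (fun a => T (List.ofFn a) k)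
          (fun m a => |EE (List.ofFn a) k| *
            2 ^ (1 + (bbx (fun _ : Fin n => 0) (fun _ => N) k + 1) * 4 ^ m) < 1)
          (Q := q.eval (2 * bbx (fun _ : Fin n => 0) (fun _ => N) k + 1)) (Λ := Λ)
          (R := Λ ^ N.primeCounting) (M := N / (64 * Λ ^ 2)) (X := N ^ n)
          (by rw [card_box, hpr]) (fun a ha m _ hm => hQ1 n k _ _ a ha m hm) hQ3
          (fun m hm => ?_) ?_
        · exact h4.trans (hle _ _ hy)
        · rw [← hpr]
          refine tailb Λ hΛ ?_ k (hsb n k _ _)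
          have h5 : (Finset.univ.filter fun _ : Fin n => 64 * Λ ^ 2 * m ≤ N) = Finset.univ := by
            rw [Finset.filter_true_of_mem]
            intro i _
            refine (Nat.mul_le_mul_left _ hm).trans ?_
            exact Nat.mul_div_le _ _
          rw [h5, Finset.card_univ, Fintype.card_fin]
          exact hm.trans h3
        · have h5 := hN0 N h2
          calc Λ ^ N.primeCounting ≤ Λ ^ (N / (64 * Λ ^ 2)) := Nat.pow_le_pow_right hΛ0 h5
            _ ≤ (2 * Λ) ^ (N / (64 * Λ ^ 2)) := Nat.pow_le_pow_left (by omega) _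
            _ = 1 * (2 * Λ) ^ (N / (64 * Λ ^ 2)) := (one_mul _).symm
            _ ≤ Λ * (2 * Λ) ^ (N / (64 * Λ ^ 2)) := Nat.mul_le_mul_right _ hΛ
      · have h3 : ∀ a ∈ box (fun _ : Fin n => 0) (fun _ => N), T (List.ofFn a) k ≤
            q.eval (2 * bbx (fun _ : Fin n => 0) (fun _ => N) k + 1) * Λ ^ N0 := by
          intro a ha
          refine (hQ3 a ha).trans (Nat.mul_le_mul_left _ (Nat.pow_le_pow_right hΛ0 ?_))
          have : N.primeCounting ≤ N := by
            rw [Nat.primeCounting, Nat.primeCounting', Nat.count_eq_card_filter_range]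
            refine (Finset.card_le_card (t := Finset.Icc 1 N) ?_).trans
              (by rw [Nat.card_Icc]; omega)
            intro p hp
            rw [Finset.mem_filter, Finset.mem_range] at hp
            rw [Finset.mem_Icc]
            exact ⟨hp.2.one_lt.le, by omega⟩
          omega
        have h4 := Finset.sum_le_sum h3
        rw [Finset.sum_const, card_box, hpr, smul_eq_mul] at h4
        exact h4.trans (hle _ _ (by omega))
  · intro n k A W hW
    rw [hev]
    refine (hsm n k A W hW).trans (Nat.mul_le_mul_left _ (Nat.mul_le_mul_left _ hy))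
  · intro n k m A W hm
    refine le_trans (Nat.mul_le_mul_right _ (Finset.card_le_card ?_))
      (tailb Λ hΛ hm k (hsb n k A W))
    intro a ha
    rw [Finset.mem_filter] at ha ⊢
    refine ⟨ha.1, ?_⟩
    by_contra hcon
    have h1 := hQ1 n k A W a ha.1 m hcon
    have h2 := ha.2
    rw [hev] at h2
    have h3 : q.eval (2 * bbx A W k + 1) * Λ ^ m ≤
        q.eval (2 * bbx A W k + 1) * (1 + 3 * Λ + Λ ^ N0) * Λ ^ m := by
      apply Nat.mul_le_mul_right
      exact Nat.le_mul_of_pos_right _ (by omega)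
    omega

end Pool.Agent.H92.SR
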