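import Pool.Agent.H92.SR.Sqf
import Pool.Agent.H92.SR.Dcd

/-!
# Module SMV: the two sums

PROOFS. `sums_vl`: for all `s u` (induction on `L`, `Function.iterate_succ_apply`, `len (encL (a :: L)) = len (encL L) + 1`, `fst`, `snd` of the state compute): `sstp^[len (encL L)] (node (encL L) (node P (node s u))) = node leaf (node P (node s' u'))` with
`vl s' = vl s + ls L (len P)` and `vl u' = vl u + us L (len P)` (`vl_add`, `sqr_spec`, `sqf_spec`, `vl_encN`; `csq x = sqrt x + (if sqrt x ^ 2 = x then 0 else 1)`).
`sums'`: `sstp` is in `FP` (`node'`, `fst'`, `snd'`, `add'`, `sqr'`, `sqf'`). Sizes for an arbitrary state `st` with `M = size st`: the components `fst`, `fst (snd)` do not grow; `len (sqr a P) = len a + len P ≤ 2 M`, `len (sqf a P) ≤ 1`;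
by induction on `i` the lengths of the components `s`, `u` after `i` steps are at most `M + i * (2 * M + 3)` (`len_add`), and their sizes at most `M` for `i = 0` and `4 *` (their lengths) `+ 1` (`sc_size`: `add` is an output of `sc`; `size_add`) afterwards. So
`size (sstp^[i] st) ≤ 40 * (M + i + 1) ^ 2`, `iterate_poly`.
-/

set_option autoImplicit false

namespace Pool.Agent.H92.SR

open Tr

/-- one step of the summation, on states `node Lt (node P (node s u))` -/
def sstp (st : Tr) : Tr :=
  node (snd (fst st)) (node (fst (snd st)) (node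
    (add (fst (snd (snd st))) (sqr (fst (fst st)) (fst (snd st))))
    (add (add (snd (snd (snd st))) (sqr (fst (fst st)) (fst (snd st))))
      (sqf (fst (fst st)) (fst (snd st))))))

/-- the pair of the two sums -/
def sums (Lt P : Tr) : Tr := snd (snd (sstp^[len Lt] (node Lt (node P (node leaf leaf)))))

theorem sstp_it (P : Tr) (L : List ℕ) (s u : Tr) : ∃ s' u' : Tr,
    sstp^[len (encL L)] (node (encL L) (node P (node s u))) = node leaf (node P (node s' u')) ∧
    vl s' = vl s + ls L (len P) ∧ vl u' = vl u + us L (len P) := by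
  induction L generalizing s u with
  | nil => exact ⟨s, u, rfl, by simp [ls], by simp [us]⟩
  | cons a L ih =>
    obtain ⟨s', u', h1, h2, h3⟩ := ih (add s (sqr (encN a) P))
      (add (add u (sqr (encN a) P)) (sqf (encN a) P))
    refine ⟨s', u', ?_, ?_, ?_⟩
    · rw [encL, len, Function.iterate_succ_apply]
      exact h1
    · rw [h2, vl_add, (sqr_spec _ _).1, vl_encN]
      simp only [ls, List.map_cons, List.sum_cons]
      ring
    · rw [h3, vl_add, vl_add, (sqr_spec _ _).1, sqf_spec, vl_encN]
      simp only [us, List.map_cons, List.sum_cons, csq]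
      split_ifs <;> ring

theorem sums_vl (L : List ℕ) (P : Tr) : vl (fst (sums (encL L) P)) = ls L (len P) ∧
    vl (snd (sums (encL L) P)) = us L (len P) := by
  obtain ⟨s', u', h1, h2, h3⟩ := sstp_it P L leaf leaf
  have h4 : sums (encL L) P = node s' u' := by
    unfold sums
    rw [h1]
    rfl
  rw [h4]
  refine ⟨?_, ?_⟩
  · rw [fst, h2]
    simp [vl]
  · rw [snd, h3]
    simp [vl]

theorem size_le_split (v : Tr) : size v ≤ size (fst v) + size (snd v) + 1 := by
  cases v with
  | leaf => simp [fst, snd, size]
  | node a b => simp only [fst, snd, size]; omega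

theorem len_bit_le (b : Bool) : len (bit b) ≤ 1 := by
  cases b <;> simp [bit, len]

theorem sstp_size (st : Tr) (i : ℕ) :
    size (fst (sstp^[i] st)) ≤ size st ∧ size (fst (snd (sstp^[i] st))) ≤ size st ∧
    len (fst (snd (snd (sstp^[i] st)))) ≤ size st + i * (2 * size st + 3) ∧
    len (snd (snd (snd (sstp^[i] st)))) ≤ size st + i * (2 * size st + 3) ∧
    size (fst (snd (snd (sstp^[i] st)))) ≤ 4 * (size st + i * (2 * size st + 3)) + 5 ∧
    size (snd (snd (snd (sstp^[i] st)))) ≤ 4 * (size st + i * (2 * size st + 3)) + 5 := by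
  induction i with
  | zero =>
    simp only [Function.iterate_zero, id]
    have h1 := size_fst_le st
    have h2 := size_snd_le st
    have h3 := size_fst_le (snd st)
    have h4 := size_snd_le (snd st)
    have h5 := size_fst_le (snd (snd st))
    have h6 := size_snd_le (snd (snd st))
    have h7 := len_le_size (fst (snd (snd st)))
    have h8 := len_le_size (snd (snd (snd st)))
    refine ⟨?_, ?_, ?_, ?_, ?_, ?_⟩ <;> omega
  | succ i ih =>
    rw [Function.iterate_succ_apply']
    obtain ⟨h1, h2, h3, h4, h5, h6⟩ := ih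
    generalize sstp^[i] st = w at *
    have e : (i + 1) * (2 * size st + 3) = i * (2 * size st + 3) + (2 * size st + 3) := by ring
    rw [e]
    generalize i * (2 * size st + 3) = K at *
    have k1 := size_snd_le (fst w)
    have k2 := size_fst_le (fst w)
    have k3 := len_le_size (fst (fst w))
    have k4 := len_le_size (fst (snd w))
    have k5 := (sqr_spec (fst (fst w)) (fst (snd w))).2
    have k6 : len (sqf (fst (fst w)) (fst (snd w))) ≤ 1 := le_of_eq rfl
    have k7 := len_add (fst (snd (snd w))) (sqr (fst (fst w)) (fst (snd w)))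
    have k8 := len_add (snd (snd (snd w))) (sqr (fst (fst w)) (fst (snd w)))
    have k9 := len_add (add (snd (snd (snd w))) (sqr (fst (fst w)) (fst (snd w))))
      (sqf (fst (fst w)) (fst (snd w)))
    have k10 := size_add (fst (snd (snd w))) (sqr (fst (fst w)) (fst (snd w)))
    have k11 := size_add (add (snd (snd (snd w))) (sqr (fst (fst w)) (fst (snd w))))
      (sqf (fst (fst w)) (fst (snd w)))
    have q1 : fst (sstp w) = snd (fst w) := rfl
    have q2 : fst (snd (sstp w)) = fst (snd w) := rfl
    have q3 : fst (snd (snd (sstp w))) =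
      add (fst (snd (snd w))) (sqr (fst (fst w)) (fst (snd w))) := rfl
    have q4 : snd (snd (snd (sstp w))) =
      add (add (snd (snd (snd w))) (sqr (fst (fst w)) (fst (snd w))))
        (sqf (fst (fst w)) (fst (snd w))) := rfl
    rw [q1, q2, q3, q4]
    refine ⟨?_, ?_, ?_, ?_, ?_, ?_⟩ <;> omega

theorem sstp_poly (st : Tr) (i : ℕ) : size (sstp^[i] st) ≤ 40 * (size st + i + 1) ^ 2 := by
  obtain ⟨h1, h2, _, _, h5, h6⟩ := sstp_size st i
  have k1 := size_le_split (sstp^[i] st)
  have k2 := size_le_split (snd (sstp^[i] st))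
  have k3 := size_le_split (snd (snd (sstp^[i] st)))
  have h7 : size (sstp^[i] st) ≤ 2 * size st + 8 * (size st + i * (2 * size st + 3)) + 13 := by
    omega
  refine h7.trans ?_
  nlinarith [Nat.zero_le (size st * i), Nat.zero_le (size st ^ 2), Nat.zero_le (i ^ 2)]

theorem FP.sums' {A P : Tr → Tr} (hA : FP A) (hP : FP P) : FP (fun v => sums (A v) (P v)) := by
  have h1 : FP sstp := FP.node' (FP.snd' (FP.fst' FP.id')) (FP.node' (FP.fst' (FP.snd' FP.id'))
    (FP.node'
      (FP.add' (FP.fst' (FP.snd' (FP.snd' FP.id')))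
        (FP.sqr' (FP.fst' (FP.fst' FP.id')) (FP.fst' (FP.snd' FP.id'))))
      (FP.add' (FP.add' (FP.snd' (FP.snd' (FP.snd' FP.id')))
        (FP.sqr' (FP.fst' (FP.fst' FP.id')) (FP.fst' (FP.snd' FP.id'))))
        (FP.sqf' (FP.fst' (FP.fst' FP.id')) (FP.fst' (FP.snd' FP.id'))))))
  have h2 := FP.iterate_poly h1 hA (FP.node' hA (FP.node' hP (FP.node' FP.leaf' FP.leaf')))
    (40 * (Polynomial.X + 1) ^ 2) (fun x i => by
      simp only [Polynomial.eval_mul, Polynomial.eval_ofNat, Polynomial.eval_pow,
        Polynomial.eval_add, Polynomial.eval_X, Polynomial.eval_one]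
      exact sstp_poly x i)
  exact FP.snd' (FP.snd' h2)

end Pool.Agent.H92.SR
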