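import Pool.Agent.H92.SR.Model

/-!
# Module WHL: the while loop

PROOF. `c = Prog.loop cB`, `q = (X + 1) * (qB + X + 1)`. Induction on `j`, all `st`, with the bound `(j + 1) * (qB.eval M + M + 1)` for the cost (`Eval.loopDone`, `Eval.loopStep`, `Function.iterate_succ_apply`); then
`j ≤ j + M`, `M ≤ j + M`, `poly_mono`.
-/

set_option autoImplicit false

namespace Pool.Agent.H92.SR

open Tr

theorem whl {B : Tr → Tr} (hB : FP B) : ∃ (c : Prog) (q : Polynomial ℕ), ∀ (st : Tr) (j M : ℕ),
    (∀ i < j, fst (B^[i] st) ≠ leaf) → fst (B^[j] st) = leaf → (∀ i ≤ j, size (B^[i] st) ≤ M) →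
      ∃ t ≤ q.eval (j + M), Eval c st (snd (B^[j] st)) t := by
  obtain ⟨c, q, hc⟩ := hB
  have key : ∀ (j : ℕ) (st : Tr) (M : ℕ), (∀ i < j, fst (B^[i] st) ≠ leaf) →
      fst (B^[j] st) = leaf → (∀ i ≤ j, size (B^[i] st) ≤ M) →
      ∃ t ≤ (j + 1) * (q.eval M + M + 1), Eval (Prog.loop c) st (snd (B^[j] st)) t := by
    intro j
    induction j with
    | zero =>
      intro st M _ h2 h3
      have h4 := h3 0 le_rfl
      simp only [Function.iterate_zero, id] at h2 h4 ⊢
      exact ⟨size st + 1, by nlinarith [Nat.zero_le (q.eval M)], Eval.loopDone h2⟩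
    | succ j ih =>
      intro st M h1 h2 h3
      obtain ⟨t, ht, he⟩ := ih (B st) M (fun i hi => by
          rw [← Function.iterate_succ_apply]
          exact h1 (i + 1) (by omega)) (by
          rw [← Function.iterate_succ_apply]
          exact h2) (fun i hi => by
          rw [← Function.iterate_succ_apply]
          exact h3 (i + 1) (by omega))
      obtain ⟨t1, ht1, he1⟩ := hc st
      have h5 : size st ≤ M := h3 0 (by omega)
      have h6 : fst st ≠ leaf := h1 0 (by omega)
      have h7 := poly_mono q h5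
      rw [← Function.iterate_succ_apply] at he
      refine ⟨_, ?_, Eval.loopStep h6 he1 he⟩
      have e : (j + 1 + 1) * (q.eval M + M + 1) = (j + 1) * (q.eval M + M + 1) +
          (q.eval M + M + 1) := by ring
      omega
  refine ⟨Prog.loop c, (Polynomial.X + 1) * (q + Polynomial.X + 1), fun st j M h1 h2 h3 => ?_⟩
  obtain ⟨t, ht, he⟩ := key j st M h1 h2 h3
  refine ⟨t, ht.trans ?_, he⟩
  simp only [Polynomial.eval_add, Polynomial.eval_mul, Polynomial.eval_X, Polynomial.eval_one]
  apply Nat.mul_le_mul (by omega)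
  have := poly_mono q (show M ≤ j + M by omega)
  omega

end Pool.Agent.H92.SR
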