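import Pool.Agent.H92.SR.Rnd
import Pool.Agent.H92.SR.Whl

/-!
# Module PRG: the program

PROOFS. `size_encI`: `size_encN`, induction on `L`. `prog`: the program is the composition of the loop of `whl` for `rnd` with the program for `v ↦ node one (node v one)` (`FP.node'`, `const'`, `id'`). Let `i0` be the least `i` with
`Dec L k (2 ^ i)` (it exists by the hypothesis, `2 ^ i ≥ p0` for `i = p0`); `2 ^ i0 ≤ 2 * p0 + 1` (if `i0 = i + 1`, `¬ Dec L k (2 ^ i)` so `2 ^ i < p0`). For `i ≤ i0` the state `rnd^[i] (node one (node (encI L k) one))` is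
`node one (node (encI L k) P)` with `len P = 2 ^ i` (`rnd_spec`, `cat_len`) and `size P ≤ 2 * 2 ^ i + 1` (`cat_size`: `size (cat P P) = 2 * len P + size P`), and for `i = i0 + 1` it is `node leaf (bit b)` with `b` the answer (`rnd_spec`, `dec_yes`, `dec_no`).
So `whl` with `j = i0 + 1`, `M = size (encI L k) + 4 * p0 + 20` (`i0 ≤ 2 ^ i0 ≤ 2 * p0 + 1`); the size is at most `8 * bsz L k + 8`; adjust the polynomial (`Polynomial.comp`, `poly_mono`).
-/

set_option autoImplicit false

namespace Pool.Agent.H92.SR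

open Tr

/-- the binary size of an instance -/
def bsz (L : List ℕ) (k : ℕ) : ℕ := L.length + (L.map Nat.size).sum + Nat.size k

theorem size_encI (L : List ℕ) (k : ℕ) : size (encI L k) ≤ 8 * bsz L k + 8 := by
  have h1 : size (encL L) ≤ 4 * (L.map Nat.size).sum + 2 * L.length + 1 := by
    induction L with
    | nil => simp [encL, size]
    | cons a L ih =>
      simp only [encL, size, List.map_cons, List.sum_cons, List.length_cons]
      have := size_encN a
      omega
  have h2 := size_encN k
  simp only [encI, size, bsz]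
  omega

/-- the start -/
def st0 (v : Tr) : Tr := node one (node v one)

open Classical in
theorem prog_states {L : List ℕ} {k i0 : ℕ} (h : ∀ i < i0, ¬ Dec L k (2 ^ i)) :
    ∀ i ≤ i0, ∃ P : Tr, rnd^[i] (st0 (encI L k)) = node one (node (encI L k) P) ∧
      len P = 2 ^ i ∧ size P ≤ 2 * 2 ^ i + 1 := by
  intro i
  induction i with
  | zero =>
    intro _
    exact ⟨one, rfl, rfl, by simp [one, size]⟩
  | succ i ih =>
    intro hi
    obtain ⟨P, h1, h2, h3⟩ := ih (by omega)
    refine ⟨cat P P, ?_, ?_, ?_⟩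
    · rw [Function.iterate_succ_apply', h1]
      exact (rnd_spec L k one P).2.2 (by rw [h2]; exact h i (by omega))
    · rw [cat_len, h2, pow_succ]
      ring
    · rw [cat_size, h2, pow_succ]
      omega

open Classical in
theorem prog : ∃ (c : Prog) (q : Polynomial ℕ), ∀ (L : List ℕ) (k p0 : ℕ),
    (∀ p ≥ p0, Dec L k p) → ∃ t ≤ q.eval (bsz L k + p0),
      Eval c (encI L k) (bit (decide (EE L k ≤ 0))) t := by
  obtain ⟨c1, q1, h1⟩ := whl FP.rnd'
  obtain ⟨c0, q0, h0⟩ : FP st0 := FP.node' (FP.const' one) (FP.node' FP.id' (FP.const' one))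
  refine ⟨Prog.comp c1 c0, (q0 + q1.comp (2 * Polynomial.X + 30) + Polynomial.X + 1).comp
    (8 * Polynomial.X + 8), fun L k p0 hp0 => ?_⟩
  have hex : ∃ i, Dec L k (2 ^ i) := ⟨p0, hp0 _ Nat.lt_two_pow_self.le⟩
  have hi1 := Nat.find_spec hex
  have hi2 : ∀ i < Nat.find hex, ¬ Dec L k (2 ^ i) := fun i hi => Nat.find_min hex hi
  have hi3 : 2 ^ Nat.find hex ≤ 2 * p0 + 1 := by
    rcases Nat.eq_zero_or_pos (Nat.find hex) with h | h
    · rw [h]
      omega
    · obtain ⟨i, hi⟩ := Nat.exists_eq_succ_of_ne_zero h.ne'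
      have h2 : 2 ^ i < p0 := by
        by_contra hcon
        exact hi2 i (by omega) (hp0 _ (not_lt.1 hcon))
      rw [hi, Nat.succ_eq_add_one, pow_succ]
      omega
  obtain ⟨P, hP1, hP2, hP3⟩ := prog_states hi2 (Nat.find hex) le_rfl
  have hlast : rnd^[Nat.find hex + 1] (st0 (encI L k)) =
      node leaf (bit (decide (EE L k ≤ 0))) := by
    rw [Function.iterate_succ_apply', hP1]
    by_cases hy : us L (len P) ≤ k * 2 ^ len P
    · rw [(rnd_spec L k one P).1 hy]
      have : decide (EE L k ≤ 0) = true := decide_eq_true (dec_yes hy)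
      rw [this]
    · rw [← hP2] at hi1
      rcases hi1 with h | h
      · exact absurd h hy
      · rw [(rnd_spec L k one P).2.1 hy h]
        have : decide (EE L k ≤ 0) = false := decide_eq_false (not_le.2 (dec_no h))
        rw [this]
  have hi4 : Nat.find hex < 2 ^ Nat.find hex := Nat.lt_two_pow_self
  obtain ⟨t, ht, he⟩ := h1 (st0 (encI L k)) (Nat.find hex + 1) (size (encI L k) + 4 * p0 + 20)
    (by
      intro i hi
      obtain ⟨Q, hQ, -, -⟩ := prog_states hi2 i (by omega)
      rw [hQ]
      simp [fst, one])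
    (by
      rw [hlast]
      rfl)
    (by
      intro i hi
      rcases Nat.lt_or_ge (Nat.find hex) i with h | h
      · have h2 : i = Nat.find hex + 1 := by omega
        rw [h2, hlast]
        simp only [size]
        have := size_bit_le (decide (EE L k ≤ 0))
        omega
      · obtain ⟨Q, hQ, -, hQ3⟩ := prog_states hi2 i h
        rw [hQ]
        simp only [size, one]
        have h3 : 2 ^ i ≤ 2 ^ Nat.find hex := Nat.pow_le_pow_right (by norm_num) h
        omega)
  rw [hlast] at he
  obtain ⟨t0, ht0, he0⟩ := h0 (encI L k)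
  refine ⟨_, ?_, Eval.comp he0 he⟩
  have hs := size_encI L k
  have e1 : q0.eval (size (encI L k)) ≤ q0.eval (8 * (bsz L k + p0) + 8) := poly_mono q0 (by omega)
  have e2 : q1.eval (Nat.find hex + 1 + (size (encI L k) + 4 * p0 + 20)) ≤
      q1.eval (2 * (8 * (bsz L k + p0) + 8) + 30) := poly_mono q1 (by omega)
  have e3 : (((q0 + q1.comp (2 * Polynomial.X + 30) + Polynomial.X + 1).comp
      (8 * Polynomial.X + 8)).eval (bsz L k + p0)) = q0.eval (8 * (bsz L k + p0) + 8) +
      q1.eval (2 * (8 * (bsz L k + p0) + 8) + 30) + (8 * (bsz L k + p0) + 8) + 1 := by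
    simp [Polynomial.eval_comp]
  rw [e3]
  omega

end Pool.Agent.H92.SR
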