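import Pool.Agent.H92.SR.Cls
import Pool.Agent.H92.SR.Dcd

/-!
# Module LSP: worst case separation bounds for an instance

PROOFS (see Cls): `EE L k = Σ_{d ∈ D} C d √d`, `D = insert 1 (L.map sf).toFinset`, `C d = (Σ over the elements a of L with sf a = d of rt a) - (if d = 1 then k else 0)` (induction on `L` for the sum: `(L.map fun a => √a).sum = ∑ d ∈ D, ((L.filter (sf · = d)).map rt).sum * √d`).
If all `C d = 0`: for `a ∈ L` with `sf a ≠ 1` the number `rt a` is zero (`C (sf a)` is a sum of natural numbers), so `a = 0`; otherwise `sf a = 1` and `a = rt a ^ 2`: all elements are squares, against `hsq`. `∑ |C d| √d ≤ Σ √a + k ≤ S`. `lsp1`: `sep1`, `D.card ≤ L.length + 1`.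
`lsp2`: `sep2` with `P = (Finset.range (N + 1)).filter Nat.Prime`, `P.card = Nat.primeCounting N` (`Nat.primeCounting`, `Nat.count_eq_card_filter_range`): a prime divisor of `sf a` divides `a`, `1 ≤ a ≤ N`, and no prime divides `1`.
-/

set_option autoImplicit false

namespace Pool.Agent.H92.SR

/-- the coefficient of a class -/
private noncomputable def cl (L : List ℕ) (d : ℕ) : ℕ :=
  (L.map fun a => if sf a = d then rt a else 0).sum

private theorem cl_sum (L : List ℕ) {D : Finset ℕ} (hD : ∀ a ∈ L, sf a ∈ D) :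
    (L.map fun a : ℕ => √(a : ℝ)).sum = ∑ d ∈ D, (cl L d : ℝ) * √(d : ℝ) := by
  induction L with
  | nil => simp [cl]
  | cons a L ih =>
    have h1 := ih fun x hx => hD x (List.mem_cons_of_mem _ hx)
    simp only [List.map_cons, List.sum_cons]
    rw [h1]
    have h2 : ∀ d, (cl (a :: L) d : ℝ) * √(d : ℝ) =
        (if sf a = d then (rt a : ℝ) * √(sf a : ℝ) else 0) + (cl L d : ℝ) * √(d : ℝ) := by
      intro d
      unfold cl
      simp only [List.map_cons, List.sum_cons]
      by_cases h : sf a = d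
      · rw [if_pos h, if_pos h]
        push_cast
        rw [h]
        ring
      · rw [if_neg h, if_neg h]
        push_cast
        ring
    simp only [h2]
    rw [Finset.sum_add_distrib, Finset.sum_ite_eq, if_pos (hD a List.mem_cons_self), ← sqrt_cls]

private theorem cl_zero {L : List ℕ} {d : ℕ} (h : cl L d = 0) {a : ℕ} (ha : a ∈ L)
    (hs : sf a = d) : a = 0 := by
  unfold cl at h
  rw [List.sum_eq_zero_iff] at h
  have h1 := h (rt a) (by
    rw [List.mem_map]
    exact ⟨a, ha, by rw [if_pos hs]⟩)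
  have h2 := (sf_spec a).1
  rw [h1] at h2
  simpa using h2.symm

/-- the coefficients of the instance -/
private noncomputable def ck (L : List ℕ) (k d : ℕ) : ℤ := (cl L d : ℤ) - (if d = 1 then k else 0)

private theorem ck_sum (L : List ℕ) (k : ℕ) {D : Finset ℕ} (hD : ∀ a ∈ L, sf a ∈ D)
    (h1 : 1 ∈ D) : EE L k = ∑ d ∈ D, (ck L k d : ℝ) * √(d : ℝ) := by
  unfold EE
  rw [cl_sum L hD]
  have h2 : ∀ d, (ck L k d : ℝ) * √(d : ℝ) =
      (cl L d : ℝ) * √(d : ℝ) - (if d = 1 then (k : ℝ) else 0) := by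
    intro d
    unfold ck
    by_cases h : d = 1
    · rw [if_pos h, if_pos h]
      push_cast
      rw [h]
      simp
    · rw [if_neg h, if_neg h]
      push_cast
      ring
  simp only [h2]
  rw [Finset.sum_sub_distrib, Finset.sum_ite_eq', if_pos h1]

private theorem ck_ne {L : List ℕ} (k : ℕ) {D : Finset ℕ} (hD : ∀ a ∈ L, sf a ∈ D)
    (hsq : ¬ ∀ a ∈ L, IsSquare a) : ∃ d ∈ D, ck L k d ≠ 0 := by
  by_contra hno
  push Not at hno
  apply hsq
  intro a ha
  have h1 := hno (sf a) (hD a ha)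
  by_cases h : sf a = 1
  · have h2 := (sf_spec a).1
    rw [h, mul_one] at h2
    exact ⟨rt a, by rw [← pow_two, h2]⟩
  · unfold ck at h1
    rw [if_neg h] at h1
    have h2 : cl L (sf a) = 0 := by omega
    have h3 := cl_zero h2 ha rfl
    rw [h3]
    exact ⟨0, rfl⟩

private theorem ck_abs (L : List ℕ) (k : ℕ) {D : Finset ℕ} (hD : ∀ a ∈ L, sf a ∈ D)
    (h1 : 1 ∈ D) : ∑ d ∈ D, |(ck L k d : ℝ)| * √(d : ℝ) ≤
      (L.map fun a : ℕ => √(a : ℝ)).sum + k := by
  have h2 : ∀ d, |(ck L k d : ℝ)| * √(d : ℝ) ≤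
      (cl L d : ℝ) * √(d : ℝ) + (if d = 1 then (k : ℝ) else 0) := by
    intro d
    unfold ck
    have e1 : (0 : ℝ) ≤ cl L d := Nat.cast_nonneg _
    have e2 : (0 : ℝ) ≤ k := Nat.cast_nonneg _
    by_cases h : d = 1
    · rw [if_pos h, if_pos h]
      push_cast
      rw [h]
      simp only [Nat.cast_one, Real.sqrt_one, mul_one]
      rw [h] at e1
      rw [abs_le]
      constructor <;> linarith
    · rw [if_neg h, if_neg h]
      push_cast
      rw [sub_zero, add_zero, abs_of_nonneg e1]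
  refine (Finset.sum_le_sum fun d _ => h2 d).trans (le_of_eq ?_)
  rw [Finset.sum_add_distrib, Finset.sum_ite_eq', if_pos h1, cl_sum L hD]

theorem lsp1 {L : List ℕ} {k : ℕ} (hsq : ¬ ∀ a ∈ L, IsSquare a) {S : ℝ} (hS1 : 1 ≤ S)
    (hS : (L.map fun a : ℕ => √(a : ℝ)).sum + k ≤ S) :
    1 ≤ |EE L k| * S ^ (2 ^ (L.length + 1) - 1) := by
  classical
  set D : Finset ℕ := insert 1 (L.map sf).toFinset with hD
  have hDm : ∀ a ∈ L, sf a ∈ D := by
    intro a ha
    rw [hD, Finset.mem_insert]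
    right
    rw [List.mem_toFinset, List.mem_map]
    exact ⟨a, ha, rfl⟩
  have h1 : 1 ∈ D := Finset.mem_insert_self _ _
  have hDs : ∀ d ∈ D, Squarefree d := by
    intro d hd
    rw [hD, Finset.mem_insert, List.mem_toFinset, List.mem_map] at hd
    rcases hd with rfl | ⟨a, _, rfl⟩
    · exact squarefree_one
    · exact (sf_spec a).2
  have hcard : D.card ≤ L.length + 1 := by
    refine (Finset.card_insert_le _ _).trans (Nat.succ_le_succ ?_)
    refine (List.toFinset_card_le _).trans ?_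
    rw [List.length_map]
  have h2 := sep1 hDs (ck_ne k hDm hsq) hS1 ((ck_abs L k hDm h1).trans hS)
  rw [← ck_sum L k hDm h1] at h2
  refine h2.trans (mul_le_mul_of_nonneg_left ?_ (abs_nonneg _))
  refine pow_le_pow_right₀ hS1 ?_
  exact Nat.sub_le_sub_right (Nat.pow_le_pow_right (by norm_num) hcard) 1

theorem lsp2 {L : List ℕ} {k N : ℕ} (hN : ∀ a ∈ L, 1 ≤ a ∧ a ≤ N)
    (hsq : ¬ ∀ a ∈ L, IsSquare a) {S : ℝ} (hS1 : 1 ≤ S)
    (hS : (L.map fun a : ℕ => √(a : ℝ)).sum + k ≤ S) :
    1 ≤ |EE L k| * S ^ (2 ^ N.primeCounting - 1) := by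
  classical
  set D : Finset ℕ := insert 1 (L.map sf).toFinset with hD
  have hDm : ∀ a ∈ L, sf a ∈ D := by
    intro a ha
    rw [hD, Finset.mem_insert]
    right
    rw [List.mem_toFinset, List.mem_map]
    exact ⟨a, ha, rfl⟩
  have h1 : 1 ∈ D := Finset.mem_insert_self _ _
  have hDs : ∀ d ∈ D, Squarefree d := by
    intro d hd
    rw [hD, Finset.mem_insert, List.mem_toFinset, List.mem_map] at hd
    rcases hd with rfl | ⟨a, _, rfl⟩
    · exact squarefree_one
    · exact (sf_spec a).2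
  set P : Finset ℕ := (Finset.range (N + 1)).filter Nat.Prime with hP
  have hcard : P.card = N.primeCounting := by
    rw [hP, ← Nat.count_eq_card_filter_range]
    rfl
  have hPm : ∀ d ∈ D, ∀ p : ℕ, p.Prime → p ∣ d → p ∈ P := by
    intro d hd p hp hpd
    rw [hD, Finset.mem_insert, List.mem_toFinset, List.mem_map] at hd
    rcases hd with rfl | ⟨a, ha, rfl⟩
    · exact absurd (Nat.dvd_one.1 hpd) hp.one_lt.ne'
    · rw [hP, Finset.mem_filter, Finset.mem_range]
      refine ⟨?_, hp⟩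
      have h3 : p ∣ a := by
        rw [← (sf_spec a).1]
        exact dvd_mul_of_dvd_right hpd _
      have h4 := Nat.le_of_dvd (hN a ha).1 h3
      have h5 := (hN a ha).2
      omega
  have h2 := sep2 hDs hPm (ck_ne k hDm hsq) hS1 ((ck_abs L k hDm h1).trans hS)
  rw [← ck_sum L k hDm h1, hcard] at h2
  exact h2

end Pool.Agent.H92.SR
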