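import Pool.Agent.H92.SR.Prg
import Pool.Agent.H92.SR.Lsp

/-!
# Module TIM: the running time

PROOFS. `tim0`: `c`, `q` from `prog`. For every instance there is `p0` with `Dec L k p` for all `p ≥ p0`: if all elements are squares, `p0 = 0` (`dec_sq`); otherwise `EE L k ≠ 0` by `lsp1` (`S = max 1 (..)`), so `1 ≤ |EE L k| * 2 ^ x` for some `x` (`pow_unbounded_of_one_lt`),
and `p0 = x + L.length` is good: if `¬ Dec L k p`, `p ≥ x + L.length`, then `L.length < 2 ^ L.length ≤ |EE L k| * 2 ^ x * 2 ^ (p - x) ≤ L.length` (`und`, `Nat.lt_two_pow_self`). Let `ps L k` be the least such `p0` (`Nat.find`) and `T L k` the cost of `prog` for it. For every good `p0`,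
`T L k ≤ q.eval (bsz L k + p0)` (`Nat.find_min'`, `poly_mono`); `p0 = x + L.length ≤ x + bsz L k`, so `q0 = q.comp (2 * X)`.
`poly_scale`: `p.eval (z * y) = ∑ c_i z ^ i y ^ i ≤ p.eval z * y ^ natDegree` for `y ≥ 1` (`Polynomial.eval_eq_sum_range`).
`tim`: `Λ = 4 ^ q0.natDegree`, `q1 = q0.comp (X + 1)`: `bsz + (1 + b * 4 ^ m) ≤ (bsz + b + 1) * 4 ^ m`. The other two: if all elements are squares `T ≤ q0.eval bsz ≤ q1.eval (bsz + b)`, `Λ ^ _ ≥ 1`; otherwise `lsp1` / `lsp2` with `S = 2 ^ b`: `x = b * (2 ^ r - 1)`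
(`pow_mul`), `bsz + x ≤ (bsz + b + 1) * 4 ^ r`.
-/

set_option autoImplicit false

namespace Pool.Agent.H92.SR

open Tr

theorem poly_scale (p : Polynomial ℕ) (z : ℕ) {y : ℕ} (hy : 1 ≤ y) :
    p.eval (z * y) ≤ p.eval z * y ^ p.natDegree := by
  rw [Polynomial.eval_eq_sum_range, Polynomial.eval_eq_sum_range, Finset.sum_mul]
  apply Finset.sum_le_sum
  intro i hi
  rw [Finset.mem_range] at hi
  rw [mul_pow, mul_assoc]
  apply Nat.mul_le_mul_left
  apply Nat.mul_le_mul_left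
  exact Nat.pow_le_pow_right hy (by omega)

open Classical in
theorem tim0 : ∃ (c : Prog) (T : List ℕ → ℕ → ℕ) (q : Polynomial ℕ),
    (∀ L k, Eval c (encI L k) (bit (decide (EE L k ≤ 0))) (T L k)) ∧
    (∀ L k x, 1 ≤ |EE L k| * 2 ^ x → T L k ≤ q.eval (bsz L k + x)) ∧
    ∀ L k, (∀ a ∈ L, IsSquare a) → T L k ≤ q.eval (bsz L k) := by
  obtain ⟨c, q, hq⟩ := prog
  have hgood : ∀ (L : List ℕ) (k x : ℕ), 1 ≤ |EE L k| * 2 ^ x → ∀ p ≥ x + L.length,
      Dec L k p := by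
    intro L k x hx p hp
    by_contra hcon
    have h1 := und hcon
    obtain ⟨y, rfl⟩ := Nat.exists_eq_add_of_le (show x ≤ p by omega)
    have h2 : L.length ≤ y := by omega
    have h3 : (L.length : ℝ) < 2 ^ y := by
      exact_mod_cast (Nat.lt_two_pow_self (n := L.length)).trans_le
        (Nat.pow_le_pow_right (by norm_num) h2)
    have h4 : (0 : ℝ) < 2 ^ y := by positivity
    have h5 : |EE L k| * 2 ^ (x + y) = |EE L k| * 2 ^ x * 2 ^ y := by
      rw [pow_add]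
      ring
    rw [h5] at h1
    have h6 : 1 * (2 : ℝ) ^ y ≤ |EE L k| * 2 ^ x * 2 ^ y := mul_le_mul_of_nonneg_right hx h4.le
    linarith
  have hex : ∀ (L : List ℕ) (k : ℕ), ∃ p0, ∀ p ≥ p0, Dec L k p := by
    intro L k
    by_cases hsq : ∀ a ∈ L, IsSquare a
    · exact ⟨0, fun p _ => dec_sq hsq k p⟩
    · have h1 := lsp1 (k := k) hsq (S := max 1 ((L.map fun a : ℕ => √(a : ℝ)).sum + k))
        (le_max_left _ _) (le_max_right _ _)
      have h2 : 0 < |EE L k| := by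
        rcases (abs_nonneg (EE L k)).eq_or_lt with h | h
        · rw [← h, zero_mul] at h1
          linarith
        · exact h
      obtain ⟨x, hx⟩ := pow_unbounded_of_one_lt (1 / |EE L k|) (one_lt_two (α := ℝ))
      refine ⟨x + L.length, hgood L k x ?_⟩
      rw [div_lt_iff₀ h2] at hx
      rw [mul_comm]
      exact hx.le
  have hT : ∀ (L : List ℕ) (k : ℕ), ∃ t ≤ q.eval (bsz L k + Nat.find (hex L k)),
      Eval c (encI L k) (bit (decide (EE L k ≤ 0))) t := fun L k =>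
    hq L k _ (Nat.find_spec (hex L k))
  choose T hT1 hT2 using hT
  refine ⟨c, T, q.comp (2 * Polynomial.X), hT2, ?_, ?_⟩
  · intro L k x hx
    have h1 : Nat.find (hex L k) ≤ x + L.length := Nat.find_min' _ (hgood L k x hx)
    have h2 : L.length ≤ bsz L k := by
      unfold bsz
      omega
    have h3 : (q.comp (2 * Polynomial.X)).eval (bsz L k + x) = q.eval (2 * (bsz L k + x)) := by
      simp [Polynomial.eval_comp]
    rw [h3]
    exact (hT1 L k).trans (poly_mono q (by omega))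
  · intro L k hsq
    have h1 : Nat.find (hex L k) ≤ 0 := Nat.find_min' _ (fun p _ => dec_sq hsq k p)
    have h3 : (q.comp (2 * Polynomial.X)).eval (bsz L k) = q.eval (2 * bsz L k) := by
      simp [Polynomial.eval_comp]
    rw [h3]
    exact (hT1 L k).trans (poly_mono q (by omega))

open Classical in
theorem tim : ∃ (c : Prog) (T : List ℕ → ℕ → ℕ) (q : Polynomial ℕ) (Λ : ℕ), 1 ≤ Λ ∧
    (∀ L k, Eval c (encI L k) (bit (decide (EE L k ≤ 0))) (T L k)) ∧
    (∀ L k b m, 1 ≤ |EE L k| * 2 ^ (1 + b * 4 ^ m) → T L k ≤ q.eval (bsz L k + b) * Λ ^ m) ∧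
    (∀ (L : List ℕ) (k b : ℕ), (L.map fun a : ℕ => √(a : ℝ)).sum + (k : ℝ) ≤ 2 ^ b →
      T L k ≤ q.eval (bsz L k + b) * Λ ^ (L.length + 1)) ∧
    ∀ (L : List ℕ) (k b N : ℕ), (∀ a ∈ L, 1 ≤ a ∧ a ≤ N) → (L.map fun a : ℕ => √(a : ℝ)).sum + (k : ℝ) ≤ 2 ^ b →
      T L k ≤ q.eval (bsz L k + b) * Λ ^ N.primeCounting := by
  obtain ⟨c, T, q, hE, hT1, hT2⟩ := tim0
  have hΛ : 1 ≤ 4 ^ q.natDegree := Nat.one_le_pow _ _ (by norm_num)
  have hev : ∀ x : ℕ, (q.comp (Polynomial.X + 1)).eval x = q.eval (x + 1) := by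
    intro x
    simp [Polynomial.eval_comp]
  have hkey : ∀ (L : List ℕ) (k b m x : ℕ), 1 ≤ |EE L k| * 2 ^ x → x ≤ 1 + b * 4 ^ m →
      T L k ≤ (q.comp (Polynomial.X + 1)).eval (bsz L k + b) * (4 ^ q.natDegree) ^ m := by
    intro L k b m x hx hxb
    have h1 := hT1 L k x hx
    have h4 : 1 ≤ 4 ^ m := Nat.one_le_pow _ _ (by norm_num)
    have h2 : bsz L k + x ≤ (bsz L k + b + 1) * 4 ^ m := by
      have h5 : bsz L k * 1 ≤ bsz L k * 4 ^ m := Nat.mul_le_mul_left _ h4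
      have h6 : (bsz L k + b + 1) * 4 ^ m = bsz L k * 4 ^ m + b * 4 ^ m + 4 ^ m := by ring
      omega
    rw [hev]
    refine (h1.trans (poly_mono q h2)).trans ?_
    refine (poly_scale q _ h4).trans (le_of_eq ?_)
    rw [← pow_mul, ← pow_mul, mul_comm m]
  have hsq : ∀ (L : List ℕ) (k b r : ℕ), (∀ a ∈ L, IsSquare a) →
      T L k ≤ (q.comp (Polynomial.X + 1)).eval (bsz L k + b) * (4 ^ q.natDegree) ^ r := by
    intro L k b r h
    rw [hev]
    refine (hT2 L k h).trans ((poly_mono q (by omega)).trans (Nat.le_mul_of_pos_right _ ?_))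
    exact pow_pos hΛ r
  have hcase : ∀ (L : List ℕ) (k b r : ℕ), 1 ≤ |EE L k| * (2 ^ b) ^ (2 ^ r - 1) →
      T L k ≤ (q.comp (Polynomial.X + 1)).eval (bsz L k + b) * (4 ^ q.natDegree) ^ r := by
    intro L k b r h
    rw [← pow_mul] at h
    refine hkey L k b r _ h ?_
    have h1 : 2 ^ r - 1 ≤ 4 ^ r := by
      exact (Nat.sub_le _ _).trans (Nat.pow_le_pow_left (by norm_num) r)
    have := Nat.mul_le_mul_left b h1
    omega
  refine ⟨c, T, q.comp (Polynomial.X + 1), 4 ^ q.natDegree, hΛ, hE, ?_, ?_, ?_⟩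
  · intro L k b m h
    exact hkey L k b m _ h le_rfl
  · intro L k b h
    by_cases h1 : ∀ a ∈ L, IsSquare a
    · exact hsq L k b _ h1
    · exact hcase L k b _ (lsp1 h1 (one_le_pow₀ (by norm_num)) h)
  · intro L k b N hN h
    by_cases h1 : ∀ a ∈ L, IsSquare a
    · exact hsq L k b _ h1
    · exact hcase L k b _ (lsp2 hN h1 (one_le_pow₀ (by norm_num)) h)

end Pool.Agent.H92.SR
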