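import Mathlib

/-!
# Module ADM: the product over all choices of the signs of the square roots

`Adm as g`: `g` is the family of the values of an integer polynomial in the numbers `± √a`, `a ∈ as`, for all choices of the signs (`true` is the sign `+`).

PROOFS. `adm_const`, `adm_add`, `adm_mul`: induction on `as`; for `a :: as`: `u, v` for `g`, `u', v'` for `g'`: the sum has `u + u'`, `v + v'`, the product has `u u' + a v v'` (`adm_const` for the constant `a`) and `u v' + v u'`, with `√a * √a = a`
(`Real.mul_self_sqrt`). `adm_tail`: `u = g`, `v = 0`. `adm_head`: `u = 0`, `v = 1`. `adm_crd`: induction on `as` and cases on `i` (`List.getD_cons_zero`, `List.getD_cons_succ`; `(ε : List Bool)`: only the values at `true :: ε`, `false :: ε` matter: `Adm (a :: as) g` depends on these only).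
`adm_sum`: `Finset.induction_on`. `adm_int`: induction on `as`, all `g`: `g (true :: ε) * g (false :: ε) = u ε * u ε - a * (v ε * v ε)` is a family for `as`. `prd_ne`, `prd_le`: induction on `n`, all `g`, `S`: for `h ε = g (true :: ε) * g (false :: ε)`:
`|h ε| ≤ S * S`, so `|prd (n + 1) g| ≤ |h T| * (S * S) ^ (2 ^ n - 1) ≤ |g (true :: T)| * S * S ^ (2 * (2 ^ n - 1))`, `T = List.replicate n true`, and `1 + 2 * (2 ^ n - 1) = 2 ^ (n + 1) - 1`. `adm_sep`: a nonzero integer has absolute value at least `1`.
-/

set_option autoImplicit false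

namespace Pool.Agent.H92.SR

/-- the families of the values of integer polynomials -/
def Adm : List ℕ → (List Bool → ℝ) → Prop
  | [], g => ∃ z : ℤ, g [] = z
  | a :: as, g => ∃ u v : List Bool → ℝ, Adm as u ∧ Adm as v ∧
      ∀ ε : List Bool, ε.length = as.length →
        g (true :: ε) = u ε + √(a : ℝ) * v ε ∧ g (false :: ε) = u ε - √(a : ℝ) * v ε

/-- the product over all choices of the signs -/
def prd : ℕ → (List Bool → ℝ) → ℝ
  | 0, g => g []
  | n + 1, g => prd n fun ε => g (true :: ε) * g (false :: ε)

/-- the number with the sign -/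
noncomputable def sgn (b : Bool) (x : ℝ) : ℝ := if b then x else -x

theorem adm_congr {as : List ℕ} {g g' : List Bool → ℝ} (h : ∀ ε, ε.length = as.length → g ε = g' ε)
    (hg : Adm as g) : Adm as g' := by
  cases as with
  | nil =>
    obtain ⟨z, hz⟩ := hg
    exact ⟨z, by rw [← h [] rfl, hz]⟩
  | cons a as =>
    obtain ⟨u, v, hu, hv, huv⟩ := hg
    refine ⟨u, v, hu, hv, fun ε hε => ?_⟩
    rw [← h (true :: ε) (by simp [hε]), ← h (false :: ε) (by simp [hε])]
    exact huv ε hε

theorem adm_const (as : List ℕ) (z : ℤ) : Adm as fun _ => (z : ℝ) := by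
  induction as generalizing z with
  | nil => exact ⟨z, rfl⟩
  | cons a as ih =>
    refine ⟨fun _ => (z : ℝ), fun _ => ((0 : ℤ) : ℝ), ih z, ih 0, fun ε _ => ?_⟩
    simp

theorem adm_add {as : List ℕ} {g g' : List Bool → ℝ} (h : Adm as g) (h' : Adm as g') :
    Adm as fun ε => g ε + g' ε := by
  induction as generalizing g g' with
  | nil =>
    obtain ⟨z, hz⟩ := h
    obtain ⟨z', hz'⟩ := h'
    exact ⟨z + z', by simp only [hz, hz']; push_cast; rfl⟩
  | cons a as ih =>
    obtain ⟨u, v, hu, hv, huv⟩ := h
    obtain ⟨u', v', hu', hv', huv'⟩ := h'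
    refine ⟨_, _, ih hu hu', ih hv hv', fun ε hε => ?_⟩
    simp only [(huv ε hε).1, (huv ε hε).2, (huv' ε hε).1, (huv' ε hε).2]
    constructor <;> ring

theorem adm_mul {as : List ℕ} {g g' : List Bool → ℝ} (h : Adm as g) (h' : Adm as g') :
    Adm as fun ε => g ε * g' ε := by
  induction as generalizing g g' with
  | nil =>
    obtain ⟨z, hz⟩ := h
    obtain ⟨z', hz'⟩ := h'
    exact ⟨z * z', by simp only [hz, hz']; push_cast; rfl⟩
  | cons a as ih =>
    obtain ⟨u, v, hu, hv, huv⟩ := h
    obtain ⟨u', v', hu', hv', huv'⟩ := h'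
    refine ⟨_, _, adm_add (ih hu hu') (ih (adm_const as a) (ih hv hv')),
      adm_add (ih hu hv') (ih hv hu'), fun ε hε => ?_⟩
    have hs : √(a : ℝ) * √(a : ℝ) = a := Real.mul_self_sqrt (Nat.cast_nonneg a)
    have hc : (((a : ℤ) : ℝ)) = (a : ℝ) := by push_cast; rfl
    simp only [(huv ε hε).1, (huv ε hε).2, (huv' ε hε).1, (huv' ε hε).2, hc]
    constructor
    · linear_combination (v ε * v' ε) * hs
    · linear_combination (v ε * v' ε) * hs

theorem adm_sum {as : List ℕ} {ι : Type} (s : Finset ι) {g : ι → List Bool → ℝ}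
    (h : ∀ i ∈ s, Adm as (g i)) : Adm as fun ε => ∑ i ∈ s, g i ε := by
  classical
  induction s using Finset.induction_on with
  | empty =>
    simp only [Finset.sum_empty]
    have := adm_const as 0
    simpa using this
  | insert i s hi ih =>
    simp only [Finset.sum_insert hi]
    exact adm_add (h i (Finset.mem_insert_self _ _))
      (ih fun j hj => h j (Finset.mem_insert_of_mem hj))

theorem adm_prod {as : List ℕ} {ι : Type} (s : Finset ι) {g : ι → List Bool → ℝ}
    (h : ∀ i ∈ s, Adm as (g i)) : Adm as fun ε => ∏ i ∈ s, g i ε := by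
  classical
  induction s using Finset.induction_on with
  | empty =>
    simp only [Finset.prod_empty]
    have := adm_const as 1
    simpa using this
  | insert i s hi ih =>
    simp only [Finset.prod_insert hi]
    exact adm_mul (h i (Finset.mem_insert_self _ _))
      (ih fun j hj => h j (Finset.mem_insert_of_mem hj))

theorem adm_crd (as : List ℕ) (i : ℕ) (hi : i < as.length) :
    Adm as fun ε => sgn (ε.getD i true) √((as.getD i 0 : ℕ) : ℝ) := by
  induction as generalizing i with
  | nil => simp at hi
  | cons a as ih =>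
    cases i with
    | zero =>
      refine ⟨fun _ => ((0 : ℤ) : ℝ), fun _ => ((1 : ℤ) : ℝ), adm_const as 0, adm_const as 1,
        fun ε _ => ?_⟩
      simp [sgn]
    | succ i =>
      have hi' : i < as.length := by simpa using hi
      refine ⟨_, fun _ => ((0 : ℤ) : ℝ), ih i hi', adm_const as 0, fun ε _ => ?_⟩
      simp

theorem adm_int {as : List ℕ} {g : List Bool → ℝ} (h : Adm as g) :
    ∃ z : ℤ, prd as.length g = z := by
  induction as generalizing g with
  | nil => exact h
  | cons a as ih =>
    obtain ⟨u, v, hu, hv, huv⟩ := h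
    have h1 : Adm as fun ε => g (true :: ε) * g (false :: ε) := by
      refine adm_congr ?_ (adm_add (adm_mul hu hu) (adm_mul (adm_const as (-(a : ℤ)))
        (adm_mul hv hv)))
      intro ε hε
      have hs : √(a : ℝ) * √(a : ℝ) = a := Real.mul_self_sqrt (Nat.cast_nonneg a)
      rw [(huv ε hε).1, (huv ε hε).2]
      push_cast
      linear_combination (v ε * v ε) * hs
    exact ih h1

theorem prd_ne {n : ℕ} {g : List Bool → ℝ} (h : ∀ ε : List Bool, ε.length = n → g ε ≠ 0) :
    prd n g ≠ 0 := by
  induction n generalizing g with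
  | zero => exact h [] rfl
  | succ n ih =>
    exact ih fun ε hε => mul_ne_zero (h _ (by simp [hε])) (h _ (by simp [hε]))

theorem prd_le {n : ℕ} {g : List Bool → ℝ} {S : ℝ} (hS : 1 ≤ S)
    (h : ∀ ε : List Bool, ε.length = n → |g ε| ≤ S) :
    |prd n g| ≤ |g (List.replicate n true)| * S ^ (2 ^ n - 1) := by
  induction n generalizing g S with
  | zero => simp [prd]
  | succ n ih =>
    have h1 : (1 : ℝ) ≤ S * S := by nlinarith
    have h2 : ∀ ε : List Bool, ε.length = n → |g (true :: ε) * g (false :: ε)| ≤ S * S := by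
      intro ε hε
      rw [abs_mul]
      exact mul_le_mul (h _ (by simp [hε])) (h _ (by simp [hε])) (abs_nonneg _) (by linarith)
    have h3 := ih h1 h2
    show |prd n fun ε => g (true :: ε) * g (false :: ε)| ≤ _
    refine h3.trans ?_
    have h4 : |g (false :: List.replicate n true)| ≤ S := h _ (by simp)
    have hS0 : 0 ≤ S := by linarith
    have h5 : 1 ≤ 2 ^ n := Nat.one_le_two_pow
    have h6 : (S * S) ^ (2 ^ n - 1) * S = S ^ (2 ^ (n + 1) - 1) := by
      rw [← pow_two, ← pow_mul, ← pow_succ]
      congr 1
      rw [pow_succ]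
      omega
    calc |g (true :: List.replicate n true) * g (false :: List.replicate n true)| *
          (S * S) ^ (2 ^ n - 1)
        = |g (true :: List.replicate n true)| * ((S * S) ^ (2 ^ n - 1) *
            |g (false :: List.replicate n true)|) := by
          rw [abs_mul]
          ring
      _ ≤ |g (true :: List.replicate n true)| * ((S * S) ^ (2 ^ n - 1) * S) := by
          apply mul_le_mul_of_nonneg_left _ (abs_nonneg _)
          exact mul_le_mul_of_nonneg_left h4 (by positivity)
      _ = |g (List.replicate (n + 1) true)| * S ^ (2 ^ (n + 1) - 1) := by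
          rw [h6, List.replicate_succ]

theorem adm_sep {as : List ℕ} {g : List Bool → ℝ} (hg : Adm as g) {S : ℝ} (hS : 1 ≤ S)
    (h0 : ∀ ε : List Bool, ε.length = as.length → g ε ≠ 0)
    (h : ∀ ε : List Bool, ε.length = as.length → |g ε| ≤ S) :
    1 ≤ |g (List.replicate as.length true)| * S ^ (2 ^ as.length - 1) := by
  refine le_trans ?_ (prd_le hS h)
  obtain ⟨z, hz⟩ := adm_int hg
  have h1 := prd_ne h0
  rw [hz] at h1 ⊢
  have h2 : z ≠ 0 := by
    intro h3
    apply h1
    rw [h3]
    simp
  rw [← Int.cast_abs]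
  exact_mod_cast Int.one_le_abs h2

end Pool.Agent.H92.SR
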