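import Pool.Agent.H72.PL.KSa

/-!
# Module AzEta (THEOREM SR, part D): one factor of the local estimate

`v` nonarchimedean on `L`, `F` an isometric automorphism, Frobenius-like on the subfield `E`, `θ` any
automorphism with `θ z = F z` for `z ∈ E`. `P = ∏_{x ∈ V} (X - C x)`, coefficients in `E`, `P(α) = 0`, `natDegree P = #V`.
`P.map F = P.map θ = ∏_{x ∈ V} (X - C (θ x))` (coefficients in `E`), `G := P.map θ`.
1. `ks_frob` (file `KSa`): `v (G(α^q)) ≤ ε ‖P‖ mx^(q #V)`, `mx = max 1 (v α)`; `‖P‖ = ‖G‖` (`gauss_map` for `F`), where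
   `‖·‖ = gaussNorm v 1`; `‖G‖ = ∏_{x ∈ V} max 1 (v (θ x))` or `≤` (`gaussNorm_mul hv one_pos` by induction over the
   finset; the Gauss norm of `X - C y` is `≤ max 1 (v y)`, `exists_eq_gaussNorm`).
2. `G(η α^q) - G(α^q) = ∑_i g_i α^(q i) (η^i - 1)`, `v (g_i) ≤ ‖G‖`, `v (η^i - 1) ≤ v (η - 1)` (as
   `η^i - 1 = (η - 1) ∑_{j < i} η^j`, `v η = 1`), so `v (G(η α^q) - G(α^q)) ≤ v (η - 1) ‖G‖ mx^(q #V)`.
3. `v (G(η α^q)) ≤ max ε (v (η - 1)) ‖G‖ mx^(q #V)`, and `G(η α^q) = ∏_{x ∈ V} (η α^q - θ x)`.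
-/

set_option autoImplicit false

open Polynomial Module

namespace Pool.Agent.H92.SR

open Pool.Agent.H72.PL

private theorem az_sum_le {L : Type} [Field L] (v : AbsoluteValue L ℝ) (hv : IsNonarchimedean v)
    {J : Type*} (s : Finset J) (f : J → L) (B : ℝ) (hB : 0 ≤ B) (h : ∀ i ∈ s, v (f i) ≤ B) :
    v (∑ i ∈ s, f i) ≤ B := by
  classical
  induction s using Finset.induction_on with
  | empty => simpa using hB
  | insert a s ha ih =>
    rw [Finset.sum_insert ha]
    refine (hv _ _).trans (max_le (h a (Finset.mem_insert_self a s)) (ih fun i hi => ?_))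
    exact h i (Finset.mem_insert_of_mem hi)

private theorem az_lin {L : Type} [Field L] (v : AbsoluteValue L ℝ) (y : L) :
    (X - C y : L[X]).gaussNorm v 1 ≤ max 1 (v y) := by
  obtain ⟨i, hi⟩ := exists_eq_gaussNorm v 1 (X - C y : L[X])
  rw [hi, one_pow, mul_one, coeff_sub, coeff_X, coeff_C]
  rcases Nat.lt_trichotomy i 1 with h | h | h
  · have h0 : i = 0 := by omega
    rw [if_neg (by omega), if_pos h0, zero_sub, AbsoluteValue.map_neg]
    exact le_max_right _ _
  · rw [if_pos h.symm, if_neg (by omega), sub_zero, map_one]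
    exact le_max_left _ _
  · rw [if_neg (by omega), if_neg (by omega), sub_zero, map_zero]
    exact zero_le_one.trans (le_max_left _ _)

private theorem az_prod {L : Type} [Field L] (v : AbsoluteValue L ℝ) (hv : IsNonarchimedean v)
    (f : L → L) (s : Finset L) :
    (∏ x ∈ s, (X - C (f x)) : L[X]).gaussNorm v 1 ≤ ∏ x ∈ s, max 1 (v (f x)) := by
  classical
  induction s using Finset.induction_on with
  | empty =>
    rw [Finset.prod_empty, Finset.prod_empty, ← C_1, gaussNorm_C, map_one]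
  | insert a s ha ih =>
    rw [Finset.prod_insert ha, Finset.prod_insert ha]
    refine (gaussNorm_mul_le v hv _ _ zero_le_one).trans ?_
    exact mul_le_mul (az_lin v _) ih (gaussNorm_nonneg v _ zero_le_one)
      (zero_le_one.trans (le_max_left _ _))

theorem az_eta {L : Type} [Field L] (v : AbsoluteValue L ℝ) (hv : IsNonarchimedean v)
    (F : L ≃+* L) (hF : ∀ z, v (F z) = v z) (θ : L ≃+* L) (E : Subfield L)
    (hθ : ∀ z ∈ E, θ z = F z) (p q : ℕ) (hp : p.Prime) (hq : ∃ f : ℕ, q = p ^ f) (ε : ℝ)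
    (hε0 : 0 ≤ ε) (hpε : v (p : L) ≤ ε) (hE : ∀ z ∈ E, v z ≤ 1 → v (F z - z ^ q) ≤ ε)
    (V : Finset L) (hV : ∀ i, (∏ x ∈ V, (X - C x) : L[X]).coeff i ∈ E) (α : L) (hα : α ∈ V)
    (η : L) (hη : v η = 1) :
    v (∏ x ∈ V, (η * α ^ q - θ x)) ≤
      max ε (v (η - 1)) * (∏ x ∈ V, max 1 (v (θ x))) * (max 1 (v α)) ^ (q * V.card) := by
  classical
  have hPdeg : (∏ x ∈ V, (X - C x) : L[X]).natDegree = V.card := by
    rw [natDegree_prod_of_monic _ _ (fun x _ => monic_X_sub_C x)]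
    simp
  have hPG : (∏ x ∈ V, (X - C x) : L[X]).map (F : L →+* L) =
      ∏ x ∈ V, (X - C (θ x)) := by
    have h1 : (∏ x ∈ V, (X - C x) : L[X]).map (F : L →+* L) =
        (∏ x ∈ V, (X - C x) : L[X]).map (θ : L →+* L) := by
      ext i
      rw [coeff_map, coeff_map]
      exact (hθ _ (hV i)).symm
    rw [h1, Polynomial.map_prod]
    refine Finset.prod_congr rfl fun x _ => ?_
    rw [Polynomial.map_sub, map_X, map_C]
    rfl
  have hroot : (∏ x ∈ V, (X - C x) : L[X]).eval α = 0 := by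
    rw [eval_prod]
    refine Finset.prod_eq_zero hα ?_
    rw [eval_sub, eval_X, eval_C, sub_self]
  have h1 := ks_frob v hv F hF E p q hp hq ε hε0 hpε hE _ hV α hroot
  rw [← gauss_map v F hF, hPdeg, hPG] at h1
  have hnorm := az_prod v hv (fun x => θ x) V
  beta_reduce at hnorm
  have hGdeg : (∏ x ∈ V, (X - C (θ x)) : L[X]).natDegree = V.card := by
    rw [natDegree_prod_of_monic _ _ (fun x _ => monic_X_sub_C (θ x))]
    simp
  have hev : v (∏ x ∈ V, (η * α ^ q - θ x)) =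
      v ((∏ x ∈ V, (X - C (θ x)) : L[X]).eval (η * α ^ q)) := by
    rw [eval_prod]
    congr 1
    refine Finset.prod_congr rfl fun x _ => ?_
    rw [eval_sub, eval_X, eval_C]
  rw [hev]
  generalize (∏ x ∈ V, (X - C (θ x)) : L[X]) = G at h1 hnorm hGdeg ⊢
  generalize (∏ x ∈ V, max 1 (v (θ x))) = N at hnorm ⊢
  obtain ⟨mx, hmx⟩ : ∃ mx, mx = max 1 (v α) := ⟨_, rfl⟩
  rw [← hmx] at h1 ⊢
  have hmx1 : 1 ≤ mx := by
    rw [hmx]
    exact le_max_left _ _
  have hmx0 : 0 ≤ mx := zero_le_one.trans hmx1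
  have hαmx : v α ≤ mx := by
    rw [hmx]
    exact le_max_right _ _
  have hG0 : 0 ≤ G.gaussNorm v 1 := G.gaussNorm_nonneg v zero_le_one
  have hη1 : ∀ i : ℕ, v (η ^ i - 1) ≤ v (η - 1) := by
    intro i
    rw [← geom_sum_mul η i, map_mul]
    have h2 : v (∑ j ∈ Finset.range i, η ^ j) ≤ 1 := by
      refine az_sum_le v hv _ _ 1 zero_le_one fun j _ => ?_
      rw [map_pow, hη, one_pow]
    calc v (∑ j ∈ Finset.range i, η ^ j) * v (η - 1) ≤ 1 * v (η - 1) :=
          mul_le_mul_of_nonneg_right h2 (v.nonneg _)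
      _ = v (η - 1) := one_mul _
  have h2 : v (G.eval (η * α ^ q) - G.eval (α ^ q)) ≤
      v (η - 1) * G.gaussNorm v 1 * mx ^ (q * V.card) := by
    rw [eval_eq_sum_range, eval_eq_sum_range, ← Finset.sum_sub_distrib, hGdeg]
    refine az_sum_le v hv _ _ _ (by positivity) fun i hi => ?_
    rw [Finset.mem_range] at hi
    have h3 : G.coeff i * (η * α ^ q) ^ i - G.coeff i * (α ^ q) ^ i =
        (η ^ i - 1) * G.coeff i * α ^ (q * i) := by
      rw [mul_pow, pow_mul]
      ring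
    rw [h3, map_mul, map_mul, map_pow]
    have h4 : v (G.coeff i) ≤ G.gaussNorm v 1 := by
      have := G.le_gaussNorm v (c := 1) zero_le_one i
      simpa using this
    have h5 : v α ^ (q * i) ≤ mx ^ (q * V.card) := by
      refine (pow_le_pow_left₀ (v.nonneg _) hαmx _).trans (pow_le_pow_right₀ hmx1 ?_)
      exact Nat.mul_le_mul_left _ (by omega)
    refine mul_le_mul (mul_le_mul (hη1 i) h4 (v.nonneg _) (v.nonneg _)) h5
      (pow_nonneg (v.nonneg _) _) (mul_nonneg (v.nonneg _) hG0)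
  have h3 : v (G.eval (η * α ^ q)) ≤
      max (v (G.eval (η * α ^ q) - G.eval (α ^ q))) (v (G.eval (α ^ q))) := by
    have h4 := hv (G.eval (η * α ^ q) - G.eval (α ^ q)) (G.eval (α ^ q))
    rwa [sub_add_cancel] at h4
  have hM0 : 0 ≤ max ε (v (η - 1)) := hε0.trans (le_max_left _ _)
  have hmxp : 0 ≤ mx ^ (q * V.card) := pow_nonneg hmx0 _
  have hfin : ∀ t, 0 ≤ t → t ≤ max ε (v (η - 1)) →
      t * G.gaussNorm v 1 * mx ^ (q * V.card) ≤ max ε (v (η - 1)) * N * mx ^ (q * V.card) := by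
    intro t ht0 ht
    refine mul_le_mul_of_nonneg_right ?_ hmxp
    exact mul_le_mul ht hnorm hG0 hM0
  refine h3.trans (max_le ?_ ?_)
  · exact h2.trans (hfin _ (v.nonneg _) (le_max_right _ _))
  · exact h1.trans (hfin _ hε0 (le_max_left _ _))

end Pool.Agent.H92.SR
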