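import Mathlib

/-!
# Module AzRoots (THEOREM SR, part D): the product over the roots of unity of order `p^l`

`nthRootsFinset (p^l)` is the disjoint union over `j ≤ l` of `primitiveRoots (p^j) L`
(`IsPrimitiveRoot.nthRoots_one_eq_biUnion_primitiveRoots` and `Nat.divisors_prime_pow`; note the conventions of
`nthRootsFinset n (1 : L)`). All `η` here have `v η = 1`.
* `j = 0`: `η = 1`: `max ε 0 = ε`.
* `j ≥ 1`: for `η, η'` primitive of order `p^j`: `η' = η^k`, so `v (η' - 1) ≤ v (η - 1)` (`η^k - 1 = (η - 1) ∑ η^i`), and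
  symmetrically: `t := v (η - 1)` does not depend on `η`. `∏_{η} (1 - η) = Φ_{p^j}(1) = p`
  (`Polynomial.cyclotomic_eq_prod_X_sub_primitiveRoots`, `Polynomial.eval_one_cyclotomic_prime_pow`), so
  `t^φ = v p ≤ ε`, `φ = φ(p^j) ≥ 1` the number of primitive roots. `∏_η max ε (v (η - 1)) = (max ε t)^φ`: if `t ≤ ε`
  this is `ε^φ ≤ ε` (`0 ≤ ε ≤ 1`), otherwise `t^φ = v p ≤ ε`.
Product over `j = 0..l`: `≤ ε^(l+1)`.
-/

set_option autoImplicit false

open Polynomial Module

namespace Pool.Agent.H92.SR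

private theorem v_root {L : Type} [Field L] (v : AbsoluteValue L ℝ) {n : ℕ} (hn : n ≠ 0) {η : L}
    (h : η ^ n = 1) : v η = 1 := by
  have h1 : v η ^ n = 1 := by rw [← map_pow, h, map_one]
  exact (pow_eq_one_iff_of_nonneg (v.nonneg η) hn).1 h1

private theorem v_pow_sub {L : Type} [Field L] (v : AbsoluteValue L ℝ) (hv : IsNonarchimedean v)
    {η : L} (h : v η = 1) (k : ℕ) : v (η ^ k - 1) ≤ v (η - 1) := by
  induction k with
  | zero => simp
  | succ k ih =>
    have e : η ^ (k + 1) - 1 = η ^ k * (η - 1) + (η ^ k - 1) := by ring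
    rw [e]
    refine (hv _ _).trans (max_le ?_ ih)
    rw [map_mul, map_pow, h, one_pow, one_mul]

private theorem prim_le {L : Type} [Field L] (v : AbsoluteValue L ℝ) (hv : IsNonarchimedean v)
    (p : ℕ) (hp : p.Prime) (ε : ℝ) (hε0 : 0 ≤ ε) (hε1 : ε ≤ 1) (hpε : v (p : L) ≤ ε) (j : ℕ)
    (ω : L) (hω : IsPrimitiveRoot ω (p ^ j)) :
    ∏ η ∈ primitiveRoots (p ^ j) L, max ε (v (η - 1)) ≤ ε := by
  classical
  have hpj : 0 < p ^ j := pow_pos hp.pos j
  have hmemω : ω ∈ primitiveRoots (p ^ j) L := (mem_primitiveRoots hpj).2 hω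
  by_cases hex : ∃ η₀ ∈ primitiveRoots (p ^ j) L, v (η₀ - 1) ≤ ε
  · obtain ⟨η₀, hη₀, hle⟩ := hex
    have hprim := (mem_primitiveRoots hpj).1 hη₀
    have hall : ∀ η ∈ primitiveRoots (p ^ j) L, max ε (v (η - 1)) = ε := by
      intro η hη
      have h1 := (mem_primitiveRoots hpj).1 hη
      have : NeZero (p ^ j) := ⟨hpj.ne'⟩
      obtain ⟨i, _, hi⟩ := hprim.eq_pow_of_pow_eq_one h1.pow_eq_one
      rw [← hi]
      exact max_eq_left ((v_pow_sub v hv (v_root v hpj.ne' hprim.pow_eq_one) i).trans hle)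
    rw [Finset.prod_congr rfl hall, Finset.prod_const]
    exact pow_le_of_le_one hε0 hε1 (Finset.card_pos.2 ⟨ω, hmemω⟩).ne'
  · have hall : ∀ η ∈ primitiveRoots (p ^ j) L, max ε (v (η - 1)) = v (1 - η) := by
      intro η hη
      have h1 : ε < v (η - 1) := by
        by_contra h
        exact hex ⟨η, hη, not_lt.1 h⟩
      rw [max_eq_right h1.le, v.map_sub]
    rw [Finset.prod_congr rfl hall, ← map_prod]
    rcases j with _ | j
    · exfalso
      apply hex
      refine ⟨ω, hmemω, ?_⟩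
      rw [pow_zero, IsPrimitiveRoot.one_right_iff] at hω
      rw [hω, sub_self, map_zero]
      exact hε0
    · have : Fact p.Prime := ⟨hp⟩
      have h2 : ∏ η ∈ primitiveRoots (p ^ (j + 1)) L, (1 - η) = (p : L) := by
        have h3 := Polynomial.eval_one_cyclotomic_prime_pow (R := L) (p := p) j
        rw [Polynomial.cyclotomic_eq_prod_X_sub_primitiveRoots hω, Polynomial.eval_prod] at h3
        rw [← h3]
        refine Finset.prod_congr rfl fun η _ => ?_
        rw [Polynomial.eval_sub, Polynomial.eval_X, Polynomial.eval_C]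
      rw [h2]
      exact hpε

theorem az_roots {L : Type} [Field L] (v : AbsoluteValue L ℝ) (hv : IsNonarchimedean v)
    (p : ℕ) (hp : p.Prime) (ε : ℝ) (hε0 : 0 ≤ ε) (hε1 : ε ≤ 1) (hpε : v (p : L) ≤ ε) (l : ℕ)
    (ω : L) (hω : IsPrimitiveRoot ω (p ^ l)) :
    ∏ η ∈ nthRootsFinset (p ^ l) (1 : L), max ε (v (η - 1)) ≤ ε ^ (l + 1) := by
  classical
  rw [IsPrimitiveRoot.nthRoots_one_eq_biUnion_primitiveRoots, Finset.prod_biUnion]
  · rw [Nat.divisors_prime_pow hp, Finset.prod_map, ← Finset.card_range (l + 1), ← Finset.prod_const,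
      Finset.card_range]
    refine Finset.prod_le_prod (fun j _ => Finset.prod_nonneg fun η _ =>
      hε0.trans (le_max_left _ _)) fun j hj => ?_
    rw [Finset.mem_range] at hj
    have h1 : IsPrimitiveRoot (ω ^ (p ^ (l - j))) (p ^ j) := by
      refine hω.pow (pow_pos hp.pos l) ?_
      rw [← pow_add]
      congr 1
      omega
    exact prim_le v hv p hp ε hε0 hε1 hpε j _ h1
  · intro a _ b _ hab
    exact IsPrimitiveRoot.disjoint hab

end Pool.Agent.H92.SR
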