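import Pool.Agent.H92.SR.AzEta
import Pool.Agent.H92.SR.AzRoots

/-!
# Module AzLoc (THEOREM SR, part D): the local estimate

`a^(p^l) - b^(p^l) = ∏_{η ∈ nthRootsFinset (p^l) 1} (a - η b)` (`IsPrimitiveRoot.pow_sub_pow_eq_prod_sub_mul`-type
lemma, needs the primitive root `ω`). With `a = α^q`, `b = θ x` and the products exchanged:
`Z = ∏_{x ∈ V} (α^(q p^l) - (θ x)^(p^l)) = ∏_η ∏_{x ∈ V} (α^q - η (θ x))` and
`∏_{x ∈ V} (α^q - η (θ x)) = η^#V ∏_{x ∈ V} (η⁻¹ α^q - θ x)`, `v η = v η⁻¹ = 1` (root of unity),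
`v (η⁻¹ - 1) = v (η - 1)`. `az_eta` for `η⁻¹` bounds each factor by
`max ε (v (η - 1)) * M`, `M = (∏ max 1 (v (θ x))) (max 1 (v α))^(q #V)`. There are `p^l` factors
(`IsPrimitiveRoot.card_nthRootsFinset`), and `az_roots` bounds `∏_η max ε (v (η - 1))` by `ε^(l+1)`.
-/

set_option autoImplicit false

open Polynomial Module

namespace Pool.Agent.H92.SR

open Pool.Agent.H72.PL

theorem az_loc {L : Type} [Field L] (v : AbsoluteValue L ℝ) (hv : IsNonarchimedean v)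
    (F : L ≃+* L) (hF : ∀ z, v (F z) = v z) (θ : L ≃+* L) (E : Subfield L)
    (hθ : ∀ z ∈ E, θ z = F z) (p q : ℕ) (hp : p.Prime) (hq : ∃ f : ℕ, q = p ^ f) (ε : ℝ)
    (hε0 : 0 ≤ ε) (hε1 : ε ≤ 1) (hpε : v (p : L) ≤ ε)
    (hE : ∀ z ∈ E, v z ≤ 1 → v (F z - z ^ q) ≤ ε)
    (V : Finset L) (hV : ∀ i, (∏ x ∈ V, (X - C x) : L[X]).coeff i ∈ E) (α : L) (hα : α ∈ V)
    (l : ℕ) (ω : L) (hω : IsPrimitiveRoot ω (p ^ l)) :
    v (∏ x ∈ V, (α ^ (q * p ^ l) - (θ x) ^ (p ^ l))) ≤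
      ε ^ (l + 1) * ((∏ x ∈ V, max 1 (v (θ x))) * (max 1 (v α)) ^ (q * V.card)) ^ (p ^ l) := by
  classical
  have hpl : 0 < p ^ l := pow_pos hp.pos l
  set M : ℝ := (∏ x ∈ V, max 1 (v (θ x))) * (max 1 (v α)) ^ (q * V.card) with hM
  have hM0 : 0 ≤ M := mul_nonneg
    (Finset.prod_nonneg fun x _ => zero_le_one.trans (le_max_left _ _))
    (pow_nonneg (zero_le_one.trans (le_max_left _ _)) _)
  have h1 : ∏ x ∈ V, (α ^ (q * p ^ l) - (θ x) ^ (p ^ l)) =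
      ∏ η ∈ nthRootsFinset (p ^ l) (1 : L), ∏ x ∈ V, (α ^ q - η * θ x) := by
    rw [Finset.prod_comm]
    refine Finset.prod_congr rfl fun x _ => ?_
    rw [pow_mul, hω.pow_sub_pow_eq_prod_sub_mul _ _ hpl]
  have h2 : ∀ η ∈ nthRootsFinset (p ^ l) (1 : L),
      v (∏ x ∈ V, (α ^ q - η * θ x)) ≤ max ε (v (η - 1)) * M := by
    intro η hη
    have hη1 : η ^ (p ^ l) = 1 := (mem_nthRootsFinset hpl 1).1 hη
    have hη0 : η ≠ 0 := by
      intro h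
      rw [h, zero_pow hpl.ne'] at hη1
      exact zero_ne_one hη1
    have hvη : v η = 1 := by
      have h3 : v η ^ (p ^ l) = 1 := by rw [← map_pow, hη1, map_one]
      exact (pow_eq_one_iff_of_nonneg (v.nonneg η) hpl.ne').1 h3
    have hvi : v η⁻¹ = 1 := by rw [map_inv₀, hvη, inv_one]
    have e1 : ∏ x ∈ V, (α ^ q - η * θ x) = (∏ _x ∈ V, η) * ∏ x ∈ V, (η⁻¹ * α ^ q - θ x) := by
      rw [← Finset.prod_mul_distrib]
      refine Finset.prod_congr rfl fun x _ => ?_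
      rw [mul_sub, ← mul_assoc, mul_inv_cancel₀ hη0, one_mul]
    have e2 : v (η⁻¹ - 1) = v (η - 1) := by
      have : η⁻¹ - 1 = η⁻¹ * (1 - η) := by
        rw [mul_sub, mul_one, inv_mul_cancel₀ hη0]
      rw [this, map_mul, hvi, one_mul, v.map_sub]
    have h4 := az_eta v hv F hF θ E hθ p q hp hq ε hε0 hpε hE V hV α hα η⁻¹ hvi
    rw [e2, mul_assoc] at h4
    rw [e1, map_mul, map_prod, Finset.prod_const, hvη, one_pow, one_mul]
    exact h4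
  rw [h1, map_prod]
  refine (Finset.prod_le_prod (fun η _ => v.nonneg _) h2).trans ?_
  rw [Finset.prod_mul_distrib, Finset.prod_const, hω.card_nthRootsFinset]
  exact mul_le_mul_of_nonneg_right (az_roots v hv p hp ε hε0 hε1 hpε l ω hω) (pow_nonneg hM0 _)

end Pool.Agent.H92.SR
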