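import Pool.Agent.H92.SR.AzLoc
import Pool.Agent.H72.PL.PF
import Pool.Agent.H72.PL.Frob

/-!
# Module AzMain (THEOREM SR, part D): the product formula

`q = nrm 𝔭 = p^f`, `Z = ∏_{x ∈ V} (α^(q p^l) - (θ x)^(p^l)) ≠ 0` (`hZ`). `pf_ineq` (file `Pool/Agent/H72/PL/PF.lean`) with
`Δ = Z`, `I = {x // x ∈ V}`, `a x = θ x`, `m = p^l`, `b x = α`, `w = q p^l`, `C = 2^#V`, `e w = (epsw 𝔭 w)^(l+1)`.
* infinite `v`: `v (α^(q p^l) - (θ x)^(p^l)) ≤ 2 (max 1 (v (θ x)))^(p^l) (max 1 (v α))^(q p^l)`, product over `x`.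
* finite `w` not above `𝔭`: `epsw 𝔭 w = 1` (`epsw_of_not_above`), `w (a - b) ≤ max (w a) (w b)`
  (`FinitePlace.add_le`), so the same without the factor `2`.
* `w` above `𝔭`: `frob_exists` with `y = 1`, `b = 1` (file `Pool/Agent/H72/PL/Frob.lean`): `Fw` with
  `FrobAt (adjoin K {ζ, 1}) 𝔭 w Fw`, `Fw ζ = ζ^q = θ ζ`, so `Fw = θ` on `E := (adjoin K {ζ}).toSubfield`
  (`adjoin_induction`), `adjoin K {ζ} ≤ adjoin K {ζ, 1}` (`FrobAt.mono`). `az_loc` with `v = w.1`, `F = Fw`,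
  `ε = epsw 𝔭 w` (`epsw_pos`, `epsw_le_one`; `w p ≤ epsw 𝔭 w` as in `kill_bound` in `Pool/Agent/H72/PL/Kill.lean`).
  `(∏ max 1 (w (θ x)))^(p^l) ((max 1 (w α))^(q #V))^(p^l) = ∏_x (max 1 (w (θ x)))^(p^l) (max 1 (w α))^(q p^l)`.
`∏ᶠ w, (epsw 𝔭 w)^(l+1) = ((q)⁻¹)^([L:K] (l+1))` (`finprod_pow`, `epsw_finite`, `epsw_prod`), so
`0 ≤ [L:ℚ] #V log 2 + #V (p^l H + q p^l H) - (l+1) [L:K] log q`.
-/

set_option autoImplicit false

open Polynomial NumberField IsDedekindDomain Module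

namespace Pool.Agent.H92.SR

open Pool.Agent.H72.PL

private theorem two_bound {A B : ℝ} (hA : 1 ≤ A) (hB : 1 ≤ B) : B + A ≤ 2 * (A * B) := by
  nlinarith

theorem az_main {K L : Type} [Field K] [NumberField K] [Field L] [NumberField L] [Algebra K L]
    [IsGalois K L] (p : ℕ) (hp : p.Prime) (𝔭 : HeightOneSpectrum (𝓞 K))
    (hpmem : (p : 𝓞 K) ∈ 𝔭.asIdeal) (f : ℕ) (hf : nrm 𝔭 = p ^ f) (N : ℕ) (hN : 1 ≤ N)
    (hNp : (N : 𝓞 K) ∉ 𝔭.asIdeal) (ζ : L) (hζ : IsPrimitiveRoot ζ N) (l : ℕ) (ω : L)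
    (hω : IsPrimitiveRoot ω (p ^ l)) (V : Finset L)
    (hV : ∀ i, (∏ x ∈ V, (X - C x) : L[X]).coeff i ∈ IntermediateField.adjoin K {ζ})
    (α : L) (hα : α ∈ V) (θ : L ≃ₐ[K] L) (hθ : θ ζ = ζ ^ nrm 𝔭)
    (hZ : ∀ x ∈ V, α ^ (nrm 𝔭 * p ^ l) ≠ (θ x) ^ (p ^ l)) (H : ℝ)
    (hH : ∀ x ∈ V, Height.logHeight₁ (θ x) = H) (hHα : Height.logHeight₁ α = H) :
    ((l : ℝ) + 1) * ((finrank K L : ℝ) * Real.log (nrm 𝔭 : ℝ)) ≤
      (V.card : ℝ) * ((finrank ℚ L : ℝ) * Real.log 2 +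
        ((nrm 𝔭 : ℝ) + 1) * (p : ℝ) ^ l * H) := by
  classical
  set q : ℕ := nrm 𝔭 with hq
  set Z : L := ∏ x ∈ V, (α ^ (q * p ^ l) - (θ x) ^ (p ^ l)) with hZd
  have hZ0 : Z ≠ 0 := Finset.prod_ne_zero_iff.2 fun x hx => sub_ne_zero.2 (hZ x hx)
  have hattach : ∀ g : L → ℝ, ∏ i : {x // x ∈ V}, g i.1 = ∏ x ∈ V, g x := fun g =>
    Finset.prod_coe_sort V g
  have hcard : Fintype.card {x // x ∈ V} = V.card := Fintype.card_coe V
  have hone : ∀ t : ℝ, (1 : ℝ) ≤ max 1 t := fun t => le_max_left _ _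
  have hzero : ∀ t : ℝ, (0 : ℝ) ≤ max 1 t := fun t => zero_le_one.trans (le_max_left _ _)
  have hpowle : ∀ (t : ℝ) (n : ℕ), 0 ≤ t → t ^ n ≤ (max 1 t) ^ n := fun t n ht =>
    pow_le_pow_left₀ ht (le_max_right _ _) n
  -- infinite places
  have hinf : ∀ v : InfinitePlace L, v Z ≤ (2 : ℝ) ^ V.card *
      ∏ i : {x // x ∈ V}, ((max 1 (v (θ i.1))) ^ (p ^ l) * (max 1 (v α)) ^ (q * p ^ l)) := by
    intro v
    rw [hattach fun x => (max 1 (v (θ x))) ^ (p ^ l) * (max 1 (v α)) ^ (q * p ^ l),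
      ← Finset.prod_const, ← Finset.prod_mul_distrib, hZd, map_prod]
    refine Finset.prod_le_prod (fun x _ => apply_nonneg v _) fun x _ => ?_
    have h1 : v (α ^ (q * p ^ l) - (θ x) ^ (p ^ l)) ≤
        v (α ^ (q * p ^ l)) + v ((θ x) ^ (p ^ l)) := by
      have h2 := v.1.add_le (α ^ (q * p ^ l)) (-((θ x) ^ (p ^ l)))
      rw [v.1.map_neg, ← sub_eq_add_neg] at h2
      exact h2
    rw [map_pow, map_pow] at h1
    refine h1.trans ?_
    refine (add_le_add (hpowle _ _ (apply_nonneg v _)) (hpowle _ _ (apply_nonneg v _))).trans ?_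
    exact two_bound (one_le_pow₀ (hone _)) (one_le_pow₀ (hone _))
  -- finite places
  have hfin : ∀ w : FinitePlace L, w Z ≤ (epsw 𝔭 w) ^ (l + 1) *
      ∏ i : {x // x ∈ V}, ((max 1 (w (θ i.1))) ^ (p ^ l) * (max 1 (w α)) ^ (q * p ^ l)) := by
    intro w
    rw [hattach fun x => (max 1 (w (θ x))) ^ (p ^ l) * (max 1 (w α)) ^ (q * p ^ l)]
    by_cases hw : Above 𝔭 w
    · have hna : IsNonarchimedean (w.1 : L → ℝ) := fun a b => FinitePlace.add_le w a b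
      obtain ⟨Fw, hFw, hFζ⟩ := frob_exists N hN ζ 1 hζ 1 (by rw [one_pow, map_one]) 𝔭 hNp
        (by rw [map_one]) w hw
      have hFw' : FrobAt (IntermediateField.adjoin K {ζ}) 𝔭 w Fw :=
        hFw.mono (IntermediateField.adjoin.mono K _ _ (by
          intro s hs
          rw [Set.mem_singleton_iff] at hs
          simp [hs]))
      have hθF : ∀ z ∈ (IntermediateField.adjoin K ({ζ} : Set L)).toSubfield, θ z = Fw z := by
        intro z hz
        have hz' : z ∈ IntermediateField.adjoin K ({ζ} : Set L) := hz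
        induction hz' using IntermediateField.adjoin_induction with
        | mem x hx =>
          rw [Set.mem_singleton_iff] at hx
          rw [hx, hθ, hFζ]
        | algebraMap x => rw [AlgEquiv.commutes, AlgEquiv.commutes]
        | add x y hx hy ihx ihy => rw [map_add, map_add, ihx hx, ihy hy]
        | inv x hx ihx => rw [map_inv₀, map_inv₀, ihx hx]
        | mul x y hx hy ihx ihy => rw [map_mul, map_mul, ihx hx, ihy hy]
      have hpε : w.1 (p : L) ≤ epsw 𝔭 w := by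
        have h1 : ((p : ℕ) : 𝓞 L) ∈ pL L 𝔭 := by
          have h2 := Ideal.mem_map_of_mem (algebraMap (𝓞 K) (𝓞 L)) hpmem
          rw [map_natCast] at h2
          exact h2
        have h3 := epsw_bound 𝔭 w (p : 𝓞 L) h1
        have h4 : (((p : ℕ) : 𝓞 L) : L) = (p : L) := by simp
        rw [h4] at h3
        exact h3
      have h5 := az_loc w.1 hna (Fw : L ≃+* L) (fun z => hFw.iso z) (θ : L ≃+* L)
        (IntermediateField.adjoin K ({ζ} : Set L)).toSubfield hθF p q hp ⟨f, hf⟩ (epsw 𝔭 w)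
        (epsw_pos _ _).le (epsw_le_one _ _) hpε (fun z hz hz1 => hFw'.close z hz hz1) V hV α hα l ω hω
      have h6 : ((∏ x ∈ V, max 1 (w (θ x))) * (max 1 (w α)) ^ (q * V.card)) ^ (p ^ l) =
          ∏ x ∈ V, ((max 1 (w (θ x))) ^ (p ^ l) * (max 1 (w α)) ^ (q * p ^ l)) := by
        rw [Finset.prod_mul_distrib, Finset.prod_const, Finset.prod_pow, mul_pow, ← pow_mul,
          ← pow_mul]
        congr 2
        ring
      rw [← h6]
      exact h5
    · rw [epsw_of_not_above 𝔭 w hw, one_pow, one_mul, hZd, map_prod]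
      refine Finset.prod_le_prod (fun x _ => apply_nonneg w _) fun x _ => ?_
      have h1 : w (α ^ (q * p ^ l) - (θ x) ^ (p ^ l)) ≤
          max (w (α ^ (q * p ^ l))) (w ((θ x) ^ (p ^ l))) := by
        have h2 := FinitePlace.add_le w (α ^ (q * p ^ l)) (-((θ x) ^ (p ^ l)))
        have h3 : w (-((θ x) ^ (p ^ l))) = w ((θ x) ^ (p ^ l)) := w.1.map_neg _
        rw [h3, ← sub_eq_add_neg] at h2
        exact h2
      rw [map_pow, map_pow] at h1
      have hA : (1 : ℝ) ≤ (max 1 (w (θ x))) ^ (p ^ l) := one_le_pow₀ (hone _)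
      have hB : (1 : ℝ) ≤ (max 1 (w α)) ^ (q * p ^ l) := one_le_pow₀ (hone _)
      refine h1.trans (max_le ?_ ?_)
      · refine (hpowle _ _ (apply_nonneg w _)).trans ?_
        exact le_mul_of_one_le_left (zero_le_one.trans hB) hA
      · refine (hpowle _ _ (apply_nonneg w _)).trans ?_
        exact le_mul_of_one_le_right (zero_le_one.trans hA) hB
  have hsupp : (Function.mulSupport fun w : FinitePlace L => (epsw 𝔭 w) ^ (l + 1)).Finite := by
    refine (epsw_finite (L := L) 𝔭).subset fun w hw => ?_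
    rw [Function.mem_mulSupport] at hw ⊢
    intro h
    apply hw
    have h' : epsw 𝔭 w = 1 := h
    rw [h', one_pow]
  have hC : (1 : ℝ) ≤ (2 : ℝ) ^ V.card := one_le_pow₀ (by norm_num)
  have key := pf_ineq Z hZ0 (I := {x // x ∈ V}) (fun i => θ i.1) (fun _ => α) (fun _ => p ^ l)
    (fun _ => q * p ^ l) ((2 : ℝ) ^ V.card) hC (fun w => (epsw 𝔭 w) ^ (l + 1))
    (fun w => pow_pos (epsw_pos _ _) _) hsupp hinf hfin
  have hprod : (∏ᶠ w : FinitePlace L, (epsw 𝔭 w) ^ (l + 1)) =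
      (((q : ℝ)⁻¹) ^ finrank K L) ^ (l + 1) := by
    rw [← finprod_pow (epsw_finite (L := L) 𝔭), epsw_prod]
  have hsum : ∑ i : {x // x ∈ V}, (((p ^ l : ℕ) : ℝ) * Height.logHeight₁ (θ i.1) +
      ((q * p ^ l : ℕ) : ℝ) * Height.logHeight₁ α) =
      (V.card : ℝ) * (((p ^ l : ℕ) : ℝ) * H + ((q * p ^ l : ℕ) : ℝ) * H) := by
    rw [Finset.sum_congr rfl (g := fun _ => ((p ^ l : ℕ) : ℝ) * H + ((q * p ^ l : ℕ) : ℝ) * H)
      (fun i _ => by rw [hH i.1 i.2, hHα])]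
    rw [Finset.sum_const, Finset.card_univ, hcard, nsmul_eq_mul]
  rw [hprod, hsum, Real.log_pow, Real.log_pow, Real.log_pow, Real.log_inv] at key
  push_cast at key
  linarith

end Pool.Agent.H92.SR
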