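import Pool.Agent.H92.SR.BDeg

/-!
# Module BPrime (THEOREM SR, part E): `h(γ z) ≥ c`, `γ` any radical, `z` of bounded degree over `NS`

`κ` from `b_deg` for `D`, `c` from `dir_gen` for `κ`. `P x := dg (NS Ω b S) x ≤ D` is closed under
`x ↦ (∏ b_i^(l_i)) x^n` (`dg_smul`, `dg_pow_le`; the product comes from `K`, so it lies in `NS Ω b S`, not zero).
-/

set_option autoImplicit false
set_option linter.unusedSectionVars false

open NumberField IntermediateField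

namespace Pool.Agent.H92.SR

open Pool.Agent.H72.RM Pool.Agent.H72.PB

variable {K Ω : Type} [Field K] [NumberField K] [Field Ω] [CharZero Ω] [IsAlgClosed Ω]
  [Algebra K Ω] [IsGalois K Ω] {r : ℕ}

variable (Ω) in
theorem b_prime (b : Fin r → K) (hb : ∀ i, b i ≠ 0)
    (hind : ∀ N : ℕ, 1 ≤ N → ∀ (m : Fin r → ℤ) (y : K), y ^ N = ∏ i, (b i) ^ (m i) →
      ∀ i, (N : ℤ) ∣ m i) (S : Finset ℕ) (hS : ∀ p ∈ S, p.Prime) (hne : S.Nonempty) (D : ℕ) :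
    ∃ c : ℝ, 0 < c ∧ ∀ γ z : Ω, γ ∈ DivG Ω b → z ≠ 0 → dg (NS Ω b S) z ≤ D →
      γ * z ∉ DivG Ω b → c ≤ absLogHeight₁ (γ * z) := by
  obtain ⟨κ, hκ, h1⟩ := b_deg Ω b hb hind S hS hne D
  obtain ⟨c, hc, h2⟩ := dir_gen Ω b hb κ hκ
  refine ⟨c, hc, fun γ z hγ hz0 hz hnot => ?_⟩
  refine h2 (fun x => dg (NS Ω b S) x ≤ D) ?_ ?_ γ z hγ hz hz0 hnot
  · intro y hy n _ l
    have hmem : (∏ i, (algebraMap K Ω (b i)) ^ (l i)) ∈ NS Ω b S :=
      prod_mem fun i _ => zpow_mem ((NS Ω b S).algebraMap_mem (b i)) _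
    have hne0 : (∏ i, (algebraMap K Ω (b i)) ^ (l i)) ≠ 0 :=
      Finset.prod_ne_zero_iff.2 fun i _ => zpow_ne_zero _ (by
        rw [Ne, map_eq_zero]
        exact hb i)
    show dg (NS Ω b S) ((∏ i, (algebraMap K Ω (b i)) ^ (l i)) * y ^ n) ≤ D
    rw [dg_smul hmem hne0]
    exact (dg_pow_le (NS Ω b S) y n).trans hy
  · intro x hx hx0 hxd
    exact h1 x hx0 hxd hx

end Pool.Agent.H92.SR
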