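import Pool.Agent.H92.SR.ZnVan

/-!
# Module Classes (THEOREM SR, part A, Lemma L): a vanishing sum of small height vanishes class by class

WLOG `T ≥ 2` (replace `T` by `T + 2`). `Q = ∏ of the primes ≤ T` (or `T !`), `n_l = 1 + Q l` for `l < T`: every prime
`q ≤ T` divides `Q`, so the primes dividing `n_l` are `> T`. `ε = log ((T+1)/T) / (2 (1 + Q T))`: then
`n_l * ∑ h < log ((T+1)/T)` for `l < T`, and `zn_van` gives, with `m i = ζ i * y (k i)` (nonzero: `ζ i ≠ 0`):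
`∑ (c i) (m i) ((m i)^Q)^l = 0` for all `l < T`. Hence `∑ (c i) (m i) P((m i)^Q) = 0` for every polynomial
`P ∈ Ω[X]` with `natDegree P < T`. For `u ∈ U := {(m i)^Q}` (at most `T` elements) take
`P = ∏_{u' ∈ U, u' ≠ u} (X - u')`, of degree `#U - 1 < T`: only the `i` with `(m i)^Q = u` contribute, with the
common nonzero factor `P(u)`: `∑_{i : (m i)^Q = u} (c i) (m i) = 0` for all `u`.
The set `{i : ∃ n ≥ 1, (m i)^n = (m i₀)^n}` is a union of sets `{i : (m i)^Q = u}`: if `(m i)^Q = (m i')^Q` and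
`(m i)^n = (m i₀)^n` then `(m i')^(Q n) = (m i₀)^(Q n)`. Sum over these `u` (`Finset.sum_fiberwise_of_maps_to`
or similar).
-/

set_option autoImplicit false

open NumberField Module

namespace Pool.Agent.H92.SR

private theorem poly_sum {Ω : Type} [Field Ω] {ι : Type} [Fintype ι] (c : ι → ℤ) (m : ι → Ω)
    (Q T : ℕ) (h : ∀ l < T, ∑ i, (c i : Ω) * (m i) ^ (1 + Q * l) = 0) (P : Polynomial Ω)
    (hP : P.natDegree < T) : ∑ i, (c i : Ω) * m i * P.eval ((m i) ^ Q) = 0 := by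
  have h1 : ∀ i, (c i : Ω) * m i * P.eval ((m i) ^ Q)
      = ∑ l ∈ Finset.range T, P.coeff l * ((c i : Ω) * (m i) ^ (1 + Q * l)) := by
    intro i
    rw [Polynomial.eval_eq_sum_range' hP, Finset.mul_sum]
    apply Finset.sum_congr rfl
    intro l _
    rw [pow_add, pow_one, pow_mul]
    ring
  rw [Finset.sum_congr rfl (fun i _ => h1 i), Finset.sum_comm]
  apply Finset.sum_eq_zero
  intro l hl
  rw [← Finset.mul_sum, h l (Finset.mem_range.1 hl), mul_zero]

open Classical in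
private theorem fiber_sum {Ω : Type} [Field Ω] {ι : Type} [Fintype ι] (c : ι → ℤ) (m : ι → Ω)
    (Q T : ℕ) (hT : Fintype.card ι ≤ T)
    (h : ∀ l < T, ∑ i, (c i : Ω) * (m i) ^ (1 + Q * l) = 0) (i₀ : ι) :
    ∑ i ∈ Finset.univ.filter (fun i => (m i) ^ Q = (m i₀) ^ Q), (c i : Ω) * m i = 0 := by
  set U : Finset Ω := Finset.univ.image (fun i => (m i) ^ Q) with hU
  set u : Ω := (m i₀) ^ Q with hu
  have huU : u ∈ U := Finset.mem_image_of_mem _ (Finset.mem_univ i₀)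
  set P : Polynomial Ω := ∏ v ∈ U.erase u, (Polynomial.X - Polynomial.C v) with hP
  have hdeg : P.natDegree < T := by
    rw [hP, Polynomial.natDegree_finsetProd_X_sub_C_eq_card]
    calc (U.erase u).card < U.card := Finset.card_erase_lt_of_mem huU
      _ ≤ Fintype.card ι := Finset.card_image_le
      _ ≤ T := hT
  have h1 := poly_sum c m Q T h P hdeg
  have h2 : ∀ i, (m i) ^ Q ≠ u → P.eval ((m i) ^ Q) = 0 := by
    intro i hi
    rw [hP, Polynomial.eval_prod]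
    apply Finset.prod_eq_zero (i := (m i) ^ Q)
    · exact Finset.mem_erase.2 ⟨hi, Finset.mem_image_of_mem _ (Finset.mem_univ i)⟩
    · simp
  have h3 : P.eval u ≠ 0 := by
    rw [hP, Polynomial.eval_prod, Finset.prod_ne_zero_iff]
    intro v hv
    rw [Polynomial.eval_sub, Polynomial.eval_X, Polynomial.eval_C]
    exact sub_ne_zero.2 (Finset.ne_of_mem_erase hv).symm
  have h4 : ∑ i, (c i : Ω) * m i * P.eval ((m i) ^ Q)
      = (∑ i ∈ Finset.univ.filter (fun i => (m i) ^ Q = u), (c i : Ω) * m i) * P.eval u := by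
    rw [Finset.sum_mul, Finset.sum_filter]
    apply Finset.sum_congr rfl
    intro i _
    by_cases hi : (m i) ^ Q = u
    · rw [if_pos hi, hi]
    · rw [if_neg hi, h2 i hi, mul_zero]
  rw [h4] at h1
  exact (mul_eq_zero.1 h1).resolve_right h3

open Classical in
theorem classes (Ω : Type) [Field Ω] [CharZero Ω] (T : ℕ) :
    ∃ ε : ℝ, 0 < ε ∧ ∀ (ι J : Type) [Fintype ι] [Fintype J], Fintype.card ι ≤ T →
      ∀ (c : ι → ℤ), (∀ i, c i = 0 ∨ c i = 1 ∨ c i = -1) → ∀ (ζ : ι → Ω), (∀ i, Tor (ζ i)) →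
      ∀ (y : J → Ω), (∀ j, y j ≠ 0) → (∀ j, IsIntegral ℚ (y j)) → ∀ (k : ι → J),
      ∑ i, (c i : Ω) * (ζ i * y (k i)) = 0 → ∑ j, absLogHeight₁ (y j) ≤ ε →
      ∀ i₀ : ι, ∑ i ∈ Finset.univ.filter (fun i => ∃ n : ℕ, 1 ≤ n ∧
        (ζ i * y (k i)) ^ n = (ζ i₀ * y (k i₀)) ^ n), (c i : Ω) * (ζ i * y (k i)) = 0 := by
  set T' : ℕ := T + 2 with hT'
  set Q : ℕ := T'.factorial with hQ
  have hQ1 : 1 ≤ Q := Nat.one_le_iff_ne_zero.2 (Nat.factorial_ne_zero _)
  set L : ℝ := Real.log (((T' : ℕ) + 1 : ℝ) / T') with hL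
  have hT0 : (0 : ℝ) < (T' : ℝ) := by
    rw [hT']
    positivity
  have hL0 : 0 < L := by
    apply Real.log_pos
    rw [lt_div_iff₀ hT0]
    linarith
  have hden : (0 : ℝ) < 2 * (1 + (Q : ℝ) * T') := by positivity
  refine ⟨L / (2 * (1 + (Q : ℝ) * T')), div_pos hL0 hden, ?_⟩
  intro ι J _ _ hι c hc ζ hζ y hy0 hy k h0 hh i₀
  have hmain : ∀ l < T', ∑ i, (c i : Ω) * (ζ i * y (k i)) ^ (1 + Q * l) = 0 := by
    intro l hl
    apply zn_van T' (by omega) (by omega) c hc ζ hζ y hy k h0 (1 + Q * l) (by omega)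
    · intro q hq hqn
      by_contra hcon
      push Not at hcon
      have h1 : q ∣ Q := (Nat.Prime.dvd_factorial hq).2 hcon
      have h2 : q ∣ 1 := (Nat.dvd_add_left (h1.mul_right l)).1 hqn
      exact hq.one_lt.ne' (Nat.dvd_one.1 h2)
    · have h1 : ((1 + Q * l : ℕ) : ℝ) ≤ 1 + (Q : ℝ) * T' := by
        push_cast
        have : (l : ℝ) ≤ T' := by exact_mod_cast hl.le
        gcongr
      have h2 : (0 : ℝ) ≤ ((1 + Q * l : ℕ) : ℝ) := Nat.cast_nonneg _
      calc ((1 + Q * l : ℕ) : ℝ) * ∑ j, absLogHeight₁ (y j)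
          ≤ ((1 + Q * l : ℕ) : ℝ) * (L / (2 * (1 + (Q : ℝ) * T'))) :=
            mul_le_mul_of_nonneg_left hh h2
        _ ≤ (1 + (Q : ℝ) * T') * (L / (2 * (1 + (Q : ℝ) * T'))) :=
            mul_le_mul_of_nonneg_right h1 (div_pos hL0 hden).le
        _ = L / 2 := by
            field_simp
        _ < L := by linarith
  set m : ι → Ω := fun i => ζ i * y (k i) with hm
  have hfib := fiber_sum c m Q T' (by omega) hmain
  set A : Finset ι := Finset.univ.filter (fun i => ∃ n : ℕ, 1 ≤ n ∧ (m i) ^ n = (m i₀) ^ n) with hA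
  change ∑ i ∈ A, (c i : Ω) * m i = 0
  rw [← Finset.sum_fiberwise_of_maps_to (s := A) (t := A.image (fun i => (m i) ^ Q))
    (g := fun i => (m i) ^ Q) (fun i hi => Finset.mem_image_of_mem _ hi)]
  apply Finset.sum_eq_zero
  intro u hu
  obtain ⟨i₁, hi₁, rfl⟩ := Finset.mem_image.1 hu
  obtain ⟨n, hn, hn'⟩ := (Finset.mem_filter.1 hi₁).2
  rw [← hfib i₁]
  apply Finset.sum_congr _ (fun _ _ => rfl)
  ext i
  simp only [Finset.mem_filter, Finset.mem_univ, true_and, hA]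
  constructor
  · exact fun h => h.2
  · intro h
    refine ⟨⟨Q * n, by nlinarith, ?_⟩, h⟩
    rw [pow_mul, h, ← pow_mul, mul_comm Q n, pow_mul, hn', ← pow_mul]

end Pool.Agent.H92.SR
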