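import Pool.Agent.H92.SR.Sep

/-!
# Module CLS: square classes

`sf a` is the squarefree part of `a`: `a = rt a ^ 2 * sf a`.

PROOFS. `sf_spec`: `Exists.choose_spec`. `sqrt_cls`: `√(rt ^ 2 * sf) = rt * √sf`. `cls_sum`: `Finset.sum_fiberwise_of_maps_to` (the sum over `j` is grouped by `sf (a j)`). `cls_eq`: `D = image ∪ image'`, `C d = Σ_{sf (a j) = d} rt (a j) - Σ_{sf (a' j) = d} rt (a' j)`; by `ind` all `C d`
vanish; for `d` in the first image the first sum is positive, so the second one is, so `d` is in the second image; and conversely. `cls_sep`: if the sums differ then some `C d ≠ 0` (otherwise the difference is `0`); `sep1` with `D.card ≤ 2 * card J`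
(`Finset.card_union_le`, `Finset.card_image_le`), `∑ |C d| √d ≤ ∑ √(a j) + ∑ √(a' j) ≤ S`; `S ^ (2 ^ D.card - 1) ≤ S ^ (2 ^ (2 * card J) - 1)` (`pow_le_pow_right₀`).
`lst_sep1`: the same for `EE L k`: `D = insert 1 (L.map sf).toFinset`, `C d = Σ rt` over the elements of class `d`, minus `k` for `d = 1`; if all `C d` vanish then there is no element of a class `d ≠ 1` with `rt ≠ 0`: every element is a square
(`sf a = 1`, or `a = 0`). `lst_sep2`: with `sep2`, `P` = the primes up to `N`: a prime divisor of `sf a` divides `a ≤ N`, `a ≥ 1` (`Nat.primesBelow_card_eq_primeCounting'` or `Nat.primeCounting`: card of `(Finset.range (N + 1)).filter Nat.Prime`, `Nat.count_eq_card_filter_range`).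
-/

set_option autoImplicit false

namespace Pool.Agent.H92.SR

/-- the squarefree part -/
noncomputable def sf (a : ℕ) : ℕ := (Nat.sq_mul_squarefree a).choose

/-- the square root of the square part -/
noncomputable def rt (a : ℕ) : ℕ := (Nat.sq_mul_squarefree a).choose_spec.choose

theorem sf_spec (a : ℕ) : rt a ^ 2 * sf a = a ∧ Squarefree (sf a) :=
  (Nat.sq_mul_squarefree a).choose_spec.choose_spec

theorem sqrt_cls (a : ℕ) : √(a : ℝ) = rt a * √(sf a : ℝ) := by
  have h1 : ((rt a ^ 2 * sf a : ℕ) : ℝ) = (a : ℝ) := congrArg Nat.cast (sf_spec a).1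
  rw [← h1]
  push_cast
  rw [Real.sqrt_mul (by positivity), Real.sqrt_sq (Nat.cast_nonneg _)]

theorem cls_sum {J : Type} [Fintype J] (a : J → ℕ) {D : Finset ℕ} (hD : ∀ j, sf (a j) ∈ D) :
    ∑ j, √(a j : ℝ) =
      ∑ d ∈ D, ((∑ j ∈ Finset.univ.filter (fun j => sf (a j) = d), rt (a j) : ℕ) : ℝ) * √(d : ℝ) := by
  rw [← Finset.sum_fiberwise_of_maps_to (s := Finset.univ) (t := D) (g := fun j => sf (a j))
    (fun j _ => hD j)]
  refine Finset.sum_congr rfl fun d _ => ?_
  push_cast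
  rw [Finset.sum_mul]
  refine Finset.sum_congr rfl fun j hj => ?_
  rw [sqrt_cls, (Finset.mem_filter.1 hj).2]

/-- the coefficient of a class -/
private noncomputable def cf {J : Type} [Fintype J] (a : J → ℕ) (d : ℕ) : ℕ :=
  ∑ j ∈ Finset.univ.filter (fun j => sf (a j) = d), rt (a j)

private theorem cls_diff {J : Type} [Fintype J] (a a' : J → ℕ) {D : Finset ℕ}
    (hD : ∀ j, sf (a j) ∈ D) (hD' : ∀ j, sf (a' j) ∈ D) :
    ∑ j, √(a j : ℝ) - ∑ j, √(a' j : ℝ) =
      ∑ d ∈ D, (((cf a d : ℤ) - (cf a' d : ℤ) : ℤ) : ℝ) * √(d : ℝ) := by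
  rw [cls_sum a hD, cls_sum a' hD', ← Finset.sum_sub_distrib]
  refine Finset.sum_congr rfl fun d _ => ?_
  unfold cf
  push_cast
  ring

private theorem rt_pos {a : ℕ} (ha : 1 ≤ a) : 1 ≤ rt a := by
  rcases Nat.eq_zero_or_pos (rt a) with h | h
  · have := (sf_spec a).1
    rw [h] at this
    simp at this
    omega
  · exact h

private theorem cf_pos {J : Type} [Fintype J] {a : J → ℕ} (ha : ∀ j, 1 ≤ a j) (j : J) :
    0 < cf a (sf (a j)) := by
  unfold cf
  refine Finset.sum_pos (fun i _ => rt_pos (ha i)) ⟨j, ?_⟩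
  simp

theorem cls_eq {J : Type} [Fintype J] {a a' : J → ℕ} (ha : ∀ j, 1 ≤ a j) (ha' : ∀ j, 1 ≤ a' j)
    (h : ∑ j, √(a j : ℝ) = ∑ j, √(a' j : ℝ)) (j : J) : ∃ i, sf (a j) = sf (a' i) := by
  classical
  set D : Finset ℕ := Finset.univ.image (fun j => sf (a j)) ∪
    Finset.univ.image (fun j => sf (a' j)) with hDdef
  have hD1 : ∀ j, sf (a j) ∈ D := fun j =>
    Finset.mem_union_left _ (Finset.mem_image_of_mem _ (Finset.mem_univ j))
  have hD2 : ∀ j, sf (a' j) ∈ D := fun j =>
    Finset.mem_union_right _ (Finset.mem_image_of_mem _ (Finset.mem_univ j))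
  have hDs : ∀ d ∈ D, Squarefree d := by
    intro d hd
    rw [hDdef, Finset.mem_union, Finset.mem_image, Finset.mem_image] at hd
    rcases hd with ⟨i, _, rfl⟩ | ⟨i, _, rfl⟩
    · exact (sf_spec _).2
    · exact (sf_spec _).2
  have h1 := cls_diff a a' hD1 hD2
  rw [h, sub_self] at h1
  have h2 := ind hDs _ h1.symm (sf (a j)) (hD1 j)
  have h3 : cf a (sf (a j)) = cf a' (sf (a j)) := by
    have h4 : (cf a (sf (a j)) : ℤ) - (cf a' (sf (a j)) : ℤ) = 0 := h2
    omega
  have h4 := cf_pos ha j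
  rw [h3] at h4
  unfold cf at h4
  by_contra hno
  push Not at hno
  rw [Finset.sum_eq_zero] at h4
  · exact lt_irrefl _ h4
  · intro i hi
    exact absurd (Finset.mem_filter.1 hi).2.symm (hno i)

theorem cls_sep {J : Type} [Fintype J] {a a' : J → ℕ}
    (h : ∑ j, √(a j : ℝ) ≠ ∑ j, √(a' j : ℝ)) {S : ℝ} (hS1 : 1 ≤ S)
    (hS : ∑ j, √(a j : ℝ) + ∑ j, √(a' j : ℝ) ≤ S) :
    1 ≤ |∑ j, √(a j : ℝ) - ∑ j, √(a' j : ℝ)| * S ^ (2 ^ (2 * Fintype.card J) - 1) := by
  classical
  set D : Finset ℕ := Finset.univ.image (fun j => sf (a j)) ∪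
    Finset.univ.image (fun j => sf (a' j)) with hDdef
  have hD1 : ∀ j, sf (a j) ∈ D := fun j =>
    Finset.mem_union_left _ (Finset.mem_image_of_mem _ (Finset.mem_univ j))
  have hD2 : ∀ j, sf (a' j) ∈ D := fun j =>
    Finset.mem_union_right _ (Finset.mem_image_of_mem _ (Finset.mem_univ j))
  have hDs : ∀ d ∈ D, Squarefree d := by
    intro d hd
    rw [hDdef, Finset.mem_union, Finset.mem_image, Finset.mem_image] at hd
    rcases hd with ⟨i, _, rfl⟩ | ⟨i, _, rfl⟩
    · exact (sf_spec _).2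
    · exact (sf_spec _).2
  have hcard : D.card ≤ 2 * Fintype.card J := by
    have h1 : D.card ≤ (Finset.univ.image (fun j => sf (a j))).card +
      (Finset.univ.image (fun j => sf (a' j))).card := Finset.card_union_le _ _
    have h2 : (Finset.univ.image (fun j => sf (a j))).card ≤ Fintype.card J :=
      Finset.card_image_le
    have h3 : (Finset.univ.image (fun j => sf (a' j))).card ≤ Fintype.card J :=
      Finset.card_image_le
    omega
  have h1 := cls_diff a a' hD1 hD2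
  have hC : ∃ d ∈ D, ((cf a d : ℤ) - (cf a' d : ℤ)) ≠ 0 := by
    by_contra hno
    push Not at hno
    apply h
    rw [← sub_eq_zero, h1]
    refine Finset.sum_eq_zero fun d hd => ?_
    rw [hno d hd]
    simp
  have hsum : ∑ d ∈ D, |(((cf a d : ℤ) - (cf a' d : ℤ) : ℤ) : ℝ)| * √(d : ℝ) ≤ S := by
    refine le_trans ?_ hS
    rw [cls_sum a hD1, cls_sum a' hD2, ← Finset.sum_add_distrib]
    refine Finset.sum_le_sum fun d _ => ?_
    rw [← add_mul]
    refine mul_le_mul_of_nonneg_right ?_ (Real.sqrt_nonneg _)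
    change |(((cf a d : ℤ) - (cf a' d : ℤ) : ℤ) : ℝ)| ≤ (cf a d : ℝ) + (cf a' d : ℝ)
    push_cast
    rw [abs_le]
    have e1 : (0 : ℝ) ≤ cf a d := Nat.cast_nonneg _
    have e2 : (0 : ℝ) ≤ cf a' d := Nat.cast_nonneg _
    constructor <;> linarith
  have h2 := sep1 hDs hC hS1 hsum
  rw [← h1] at h2
  refine h2.trans (mul_le_mul_of_nonneg_left ?_ (abs_nonneg _))
  refine pow_le_pow_right₀ hS1 ?_
  exact Nat.sub_le_sub_right (Nat.pow_le_pow_right (by norm_num) hcard) 1

end Pool.Agent.H92.SR
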