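import Mathlib

/-!
# Module CNT: the numbers of an interval in given square classes

PROOFS. `cnt1`: the map `a ↦ c` (`a = c ^ 2 * d`, choose, `c : ℕ` unique as `d ≥ 1`) maps the set injectively to `Ioc ⌊x⌋₊ ⌊y⌋₊`, `x = √(A / d)`, `y = √((A + W) / d)`: `A < c ^ 2 * d ≤ A + W` means `x < c ≤ y` (`Real.lt_sqrt`, `Real.sqrt_lt'`, `Nat.floor_lt`, `Nat.le_floor`); or: the set is contained in
the image of that interval under `c ↦ c ^ 2 * d` (`Finset.card_image_le`, `Nat.card_Ioc`). `⌊y⌋₊ - ⌊x⌋₊ ≤ y - x + 1` (`Nat.floor_le`, `Nat.lt_floor_add_one`) and `y ≤ x + √(W / d)` (`Real.sqrt_add_le..` or `Real.sqrt_le_left`, squares).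
`sum_sqrt`: `∑_{1 ≤ j ≤ m} 1 / √j ≤ 2 √m` by induction (`2 √m + 1 / √(m + 1) ≤ 2 √(m + 1)`, as `√(m+1) - √m = 1 / (√(m+1) + √m) ≥ 1 / (2 √(m+1))`). `sum_inv`: the elements `d ≤ m` contribute at most `2 √m`
(`Finset.sum_le_sum_of_subset_of_nonneg`), the elements `d > m` at most `m * (1 / √m) = √m`. `cnt`: union over `d ∈ D` (`Finset.card_biUnion_le`): at most `∑ (√(W / d) + 1) ≤ √W * 3 √m + m ≤ 4 √(m W)` as `m ≤ √(m W)` (`m ≤ W`).
-/

set_option autoImplicit false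

namespace Pool.Agent.H92.SR

open Classical in
theorem cnt1 (A W : ℕ) {d : ℕ} (hd : 1 ≤ d) :
    (((Finset.Ioc A (A + W)).filter fun a => ∃ c : ℕ, a = c ^ 2 * d).card : ℝ) ≤
      √((W : ℝ) / d) + 1 := by
  have hd0 : (0 : ℝ) < d := by exact_mod_cast hd
  have hx0 : 0 ≤ √((A : ℝ) / d) := Real.sqrt_nonneg _
  have hy0 : 0 ≤ √(((A + W : ℕ) : ℝ) / d) := Real.sqrt_nonneg _
  have hxy : √((A : ℝ) / d) ≤ √(((A + W : ℕ) : ℝ) / d) := by
    apply Real.sqrt_le_sqrt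
    push_cast
    exact div_le_div_of_nonneg_right (by have : (0 : ℝ) ≤ W := Nat.cast_nonneg W; linarith) hd0.le
  have hsub : ((Finset.Ioc A (A + W)).filter fun a => ∃ c : ℕ, a = c ^ 2 * d) ⊆
      (Finset.Ioc ⌊√((A : ℝ) / d)⌋₊ ⌊√(((A + W : ℕ) : ℝ) / d)⌋₊).image fun c => c ^ 2 * d := by
    intro a ha
    rw [Finset.mem_filter, Finset.mem_Ioc] at ha
    obtain ⟨⟨h1, h2⟩, c, rfl⟩ := ha
    rw [Finset.mem_image]
    refine ⟨c, ?_, rfl⟩
    rw [Finset.mem_Ioc]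
    constructor
    · rw [Nat.floor_lt hx0, Real.sqrt_lt' ?_, div_lt_iff₀ hd0]
      · exact_mod_cast h1
      · have : 0 < c := by
          rcases Nat.eq_zero_or_pos c with h | h
          · subst h
            simp at h1
          · exact h
        exact_mod_cast this
    · rw [Nat.le_floor_iff hy0]
      apply Real.le_sqrt_of_sq_le
      rw [le_div_iff₀ hd0]
      exact_mod_cast h2
  have h1 : (((Finset.Ioc A (A + W)).filter fun a => ∃ c : ℕ, a = c ^ 2 * d).card : ℝ) ≤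
      ((⌊√(((A + W : ℕ) : ℝ) / d)⌋₊ - ⌊√((A : ℝ) / d)⌋₊ : ℕ) : ℝ) := by
    have := (Finset.card_le_card hsub).trans Finset.card_image_le
    rw [Nat.card_Ioc] at this
    exact_mod_cast this
  have h2 : ⌊√((A : ℝ) / d)⌋₊ ≤ ⌊√(((A + W : ℕ) : ℝ) / d)⌋₊ := Nat.floor_le_floor hxy
  rw [Nat.cast_sub h2] at h1
  have h3 := Nat.floor_le hy0
  have h4 := Nat.lt_floor_add_one (√((A : ℝ) / d))
  have h5 : √(((A + W : ℕ) : ℝ) / d) ≤ √((A : ℝ) / d) + √((W : ℝ) / d) := by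
    have hw0 : 0 ≤ √((W : ℝ) / d) := Real.sqrt_nonneg _
    rw [Real.sqrt_le_left (by positivity)]
    have e1 : √((A : ℝ) / d) ^ 2 = A / d := Real.sq_sqrt (by positivity)
    have e2 : √((W : ℝ) / d) ^ 2 = W / d := Real.sq_sqrt (by positivity)
    have e3 : (√((A : ℝ) / d) + √((W : ℝ) / d)) ^ 2 = A / d + W / d +
        2 * (√((A : ℝ) / d) * √((W : ℝ) / d)) := by
      rw [add_sq, e1, e2]
      ring
    rw [e3]
    push_cast
    rw [add_div]
    have := mul_nonneg hx0 hw0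
    linarith
  linarith

theorem sum_sqrt (m : ℕ) : ∑ j ∈ Finset.Icc 1 m, 1 / √(j : ℝ) ≤ 2 * √(m : ℝ) := by
  induction m with
  | zero => simp
  | succ m ih =>
    rw [Finset.sum_Icc_succ_top (by omega)]
    refine (add_le_add_left ih _).trans ?_
    have h1 : 0 < √((m + 1 : ℕ) : ℝ) := Real.sqrt_pos.2 (by positivity)
    have h2 : 0 ≤ √(m : ℝ) := Real.sqrt_nonneg _
    have h3 : √((m + 1 : ℕ) : ℝ) ^ 2 = m + 1 := by
      rw [Real.sq_sqrt (by positivity)]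
      push_cast
      ring
    have h4 : √(m : ℝ) ^ 2 = m := Real.sq_sqrt (by positivity)
    rw [← sub_nonneg]
    have h5 : 2 * √((m + 1 : ℕ) : ℝ) - (2 * √(m : ℝ) + 1 / √((m + 1 : ℕ) : ℝ)) =
        (√((m + 1 : ℕ) : ℝ) - √(m : ℝ)) ^ 2 / √((m + 1 : ℕ) : ℝ) +
        (√((m + 1 : ℕ) : ℝ) ^ 2 - √(m : ℝ) ^ 2 - 1) / √((m + 1 : ℕ) : ℝ) := by
      field_simp
      ring
    rw [h5, h3, h4]
    have : (m : ℝ) + 1 - m - 1 = 0 := by ring
    rw [this, zero_div, add_zero]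
    positivity

theorem sum_inv {D : Finset ℕ} (hD : 0 ∉ D) {m : ℕ} (hm : 1 ≤ m) (hDm : D.card ≤ m) :
    ∑ d ∈ D, 1 / √(d : ℝ) ≤ 3 * √(m : ℝ) := by
  classical
  rw [← Finset.sum_filter_add_sum_filter_not D (fun d => d ≤ m)]
  have hm0 : 0 < √(m : ℝ) := Real.sqrt_pos.2 (by exact_mod_cast hm)
  have h1 : ∑ d ∈ D.filter (fun d => d ≤ m), 1 / √(d : ℝ) ≤ 2 * √(m : ℝ) := by
    refine (Finset.sum_le_sum_of_subset_of_nonneg ?_ fun i _ _ => by positivity).trans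
      (sum_sqrt m)
    intro d hd
    rw [Finset.mem_filter] at hd
    rw [Finset.mem_Icc]
    refine ⟨?_, hd.2⟩
    rcases Nat.eq_zero_or_pos d with h | h
    · subst h
      exact absurd hd.1 hD
    · exact h
  have h2 : ∑ d ∈ D.filter (fun d => ¬ d ≤ m), 1 / √(d : ℝ) ≤ √(m : ℝ) := by
    have h3 : ∀ d ∈ D.filter (fun d => ¬ d ≤ m), 1 / √(d : ℝ) ≤ 1 / √(m : ℝ) := by
      intro d hd
      rw [Finset.mem_filter] at hd
      apply one_div_le_one_div_of_le hm0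
      apply Real.sqrt_le_sqrt
      exact_mod_cast (not_le.1 hd.2).le
    refine (Finset.sum_le_sum h3).trans ?_
    rw [Finset.sum_const, nsmul_eq_mul]
    have h4 : ((D.filter (fun d => ¬ d ≤ m)).card : ℝ) ≤ m := by
      exact_mod_cast (Finset.card_filter_le _ _).trans hDm
    calc ((D.filter (fun d => ¬ d ≤ m)).card : ℝ) * (1 / √(m : ℝ)) ≤ m * (1 / √(m : ℝ)) :=
          mul_le_mul_of_nonneg_right h4 (by positivity)
      _ = √(m : ℝ) := by
          have h5 : √(m : ℝ) * √(m : ℝ) = m := Real.mul_self_sqrt (by positivity)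
          rw [mul_one_div, div_eq_iff hm0.ne']
          exact h5.symm
  linarith

open Classical in
theorem cnt (A : ℕ) {W m : ℕ} (hm : 1 ≤ m) (hmW : m ≤ W) {D : Finset ℕ} (hD : 0 ∉ D)
    (hDm : D.card ≤ m) :
    (((Finset.Ioc A (A + W)).filter fun a => ∃ d ∈ D, ∃ c : ℕ, a = c ^ 2 * d).card : ℝ) ≤
      4 * √((m : ℝ) * W) := by
  have hsub : ((Finset.Ioc A (A + W)).filter fun a => ∃ d ∈ D, ∃ c : ℕ, a = c ^ 2 * d) ⊆
      D.biUnion fun d => (Finset.Ioc A (A + W)).filter fun a => ∃ c : ℕ, a = c ^ 2 * d := by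
    intro a ha
    rw [Finset.mem_filter] at ha
    obtain ⟨h1, d, hd, h2⟩ := ha
    rw [Finset.mem_biUnion]
    exact ⟨d, hd, Finset.mem_filter.2 ⟨h1, h2⟩⟩
  have h1 : (((Finset.Ioc A (A + W)).filter fun a => ∃ d ∈ D, ∃ c : ℕ, a = c ^ 2 * d).card : ℝ) ≤
      ∑ d ∈ D, (((Finset.Ioc A (A + W)).filter fun a => ∃ c : ℕ, a = c ^ 2 * d).card : ℝ) := by
    exact_mod_cast (Finset.card_le_card hsub).trans Finset.card_biUnion_le
  have h2 : ∀ d ∈ D, (((Finset.Ioc A (A + W)).filter fun a => ∃ c : ℕ, a = c ^ 2 * d).card : ℝ) ≤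
      √(W : ℝ) * (1 / √(d : ℝ)) + 1 := by
    intro d hd
    have hd1 : 1 ≤ d := by
      rcases Nat.eq_zero_or_pos d with h | h
      · subst h
        exact absurd hd hD
      · exact h
    refine (cnt1 A W hd1).trans (le_of_eq ?_)
    rw [Real.sqrt_div (Nat.cast_nonneg W)]
    ring
  refine (h1.trans (Finset.sum_le_sum h2)).trans ?_
  rw [Finset.sum_add_distrib, ← Finset.mul_sum, Finset.sum_const, nsmul_eq_mul, mul_one]
  have hmr : (1 : ℝ) ≤ m := by exact_mod_cast hm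
  have hmWr : (m : ℝ) ≤ W := by exact_mod_cast hmW
  have h3 := mul_le_mul_of_nonneg_left (sum_inv hD hm hDm) (Real.sqrt_nonneg (W : ℝ))
  have h4 : √((m : ℝ) * W) = √(m : ℝ) * √(W : ℝ) := Real.sqrt_mul (by linarith) _
  have h5 : (D.card : ℝ) ≤ m := by exact_mod_cast hDm
  have h6 : (m : ℝ) ≤ √((m : ℝ) * W) := by
    apply Real.le_sqrt_of_sq_le
    nlinarith
  rw [h4] at h6 ⊢
  nlinarith

end Pool.Agent.H92.SR
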