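import Pool.Agent.H92.SR.Defs
import Pool.Agent.H72.PB.OrbB

/-!
# Module DegLow (THEOREM SR, part C): the degree of a radical

`x ∈ Orb L α` (finite, `orb_finite`): `x = ρ α`, `ρ` fixes `L`, `x^m = ρ (α^m) = α^m`, so `x = ω_x α`, `ω_x` a root of
unity, in `L`. The product of all `x ∈ Orb L α` (as a finset `V`) is fixed by every automorphism `ρ` fixing `L`
(`ρ` permutes `V`; or use `orb_poly_mem L (y := α) V hV 0`: the constant coefficient of `∏ (X - C x)` is
`± ∏ x`), so it lies in `L`; it equals `(∏ ω_x) α^(dg L α)`. Divide by `∏ ω_x ∈ L`, not zero.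
-/

set_option autoImplicit false
set_option linter.unusedSectionVars false

open NumberField IntermediateField

namespace Pool.Agent.H92.SR

open Pool.Agent.H72.RM Pool.Agent.H72.PB

variable {K Ω : Type} [Field K] [NumberField K] [Field Ω] [CharZero Ω] [IsAlgClosed Ω]
  [Algebra K Ω] [IsGalois K Ω]

theorem deg_low (L : IntermediateField K Ω) (hL : HasTor L) (α : Ω) (hα : α ≠ 0) (m : ℕ)
    (hm : 1 ≤ m) (h : α ^ m ∈ L) : α ^ dg L α ∈ L := by
  classical
  have hfin := orb_finite L α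
  obtain ⟨V, hV⟩ : ∃ V : Finset Ω, (V : Set Ω) = Orb L α := ⟨hfin.toFinset, hfin.coe_toFinset⟩
  have hdg : dg L α = V.card := by
    unfold dg
    rw [← hV, Set.ncard_coe_finset]
  have hm0 : m ≠ 0 := by omega
  have hω : ∀ x ∈ V, x / α ∈ L ∧ x / α ≠ 0 := by
    intro x hx
    have hx' : x ∈ Orb L α := by
      rw [← hV]
      exact hx
    obtain ⟨ρ, hρ, rfl⟩ := hx'
    have h1 : (ρ α / α) ^ m = 1 := by
      rw [div_pow, ← map_pow, hρ _ h, div_self (pow_ne_zero m hα)]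
    refine ⟨hL _ ⟨m, hm, h1⟩, fun h2 => ?_⟩
    rw [h2, zero_pow hm0] at h1
    exact zero_ne_one h1
  have h1 : ∏ x ∈ V, (-x) ∈ L := by
    have h2 := orb_poly_mem V hV 0
    rw [Polynomial.coeff_zero_eq_eval_zero, Polynomial.eval_prod] at h2
    have h3 : ∏ x ∈ V, (-x) = ∏ x ∈ V, Polynomial.eval 0 (Polynomial.X - Polynomial.C x) := by
      refine Finset.prod_congr rfl fun x _ => ?_
      rw [Polynomial.eval_sub, Polynomial.eval_X, Polynomial.eval_C, zero_sub]
    rw [h3]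
    exact h2
  have h2 : ∏ x ∈ V, (-(x / α)) ∈ L := prod_mem fun x hx => neg_mem (hω x hx).1
  have h3 : ∏ x ∈ V, (-(x / α)) ≠ 0 :=
    Finset.prod_ne_zero_iff.2 fun x hx => neg_ne_zero.2 (hω x hx).2
  have h4 : ∏ x ∈ V, (-x) = (∏ x ∈ V, (-(x / α))) * α ^ V.card := by
    rw [← Finset.prod_const, ← Finset.prod_mul_distrib]
    refine Finset.prod_congr rfl fun x _ => ?_
    rw [neg_mul, div_mul_cancel₀ _ hα]
  have h5 : α ^ V.card = (∏ x ∈ V, (-x)) / ∏ x ∈ V, (-(x / α)) := by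
    rw [h4, mul_div_cancel_left₀ _ h3]
  rw [hdg, h5]
  exact div_mem h1 h2

end Pool.Agent.H92.SR
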