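import Pool.Agent.H92.SR.Defs
import Pool.Agent.H72.PB.OrbA

/-!
# Module DgTower (THEOREM SR, part C): numbers of conjugates in towers

One generator: `L' = L ⊔ K(x)`, `dg L x ≤ k`: `dg L z ≤ k * dg L' z`. Proof: for `x' ∈ Orb L x` (finite,
`orb_finite`) choose `σ_{x'}` fixing `L` with `σ_{x'} x = x'`. Every element of `Orb L z` is `σ z`, `σ` fixing `L`; put
`x' = σ x`; `σ_{x'}⁻¹ σ` fixes `L` and `x`, hence `L'` (an automorphism fixing `L` and `x` fixes `L ⊔ K(x)`:
`sup_le`/`IntermediateField.adjoin_le_iff` into the fixed field, or `fixed_of_mem_adjoin`), so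
`σ z ∈ σ_{x'} (Orb L' z)`. So `Orb L z ⊆ ⋃_{x' ∈ Orb L x} σ_{x'} '' Orb L' z` and the cardinality is `≤ k * dg L' z`.
Then induction over a finset `s` of indices: `dg L z ≤ k^#s * dg (L ⊔ K(x i, i ∈ s)) z` (step: `dg (L ⊔ ..) (x i) ≤
dg L (x i) ≤ k` by `dg_mono`, and `L ⊔ K(x '' s) ⊔ K(x i) = L ⊔ K(x '' insert i s)`), and `s = Finset.univ`.
-/

set_option autoImplicit false
set_option linter.unusedSectionVars false

open NumberField IntermediateField

namespace Pool.Agent.H92.SR

open Pool.Agent.H72.RM Pool.Agent.H72.PB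

variable {K Ω : Type} [Field K] [NumberField K] [Field Ω] [CharZero Ω] [IsAlgClosed Ω]
  [Algebra K Ω] [IsGalois K Ω]

/-- the fixed field of one automorphism -/
private def fixF (τ : Ω ≃ₐ[K] Ω) : IntermediateField K Ω where
  carrier := {z | τ z = z}
  mul_mem' := by
    intro a b ha hb
    show τ (a * b) = a * b
    rw [map_mul, show τ a = a from ha, show τ b = b from hb]
  add_mem' := by
    intro a b ha hb
    show τ (a + b) = a + b
    rw [map_add, show τ a = a from ha, show τ b = b from hb]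
  algebraMap_mem' r := τ.commutes r
  inv_mem' := by
    intro a ha
    show τ a⁻¹ = a⁻¹
    rw [map_inv₀, show τ a = a from ha]

private theorem fix_sup {L : IntermediateField K Ω} {τ : Ω ≃ₐ[K] Ω} {x : Ω}
    (h : ∀ z ∈ L, τ z = z) (hx : τ x = x) :
    ∀ z ∈ L ⊔ IntermediateField.adjoin K {x}, τ z = z := by
  have h1 : L ⊔ IntermediateField.adjoin K {x} ≤ fixF τ := by
    refine sup_le h ?_
    rw [IntermediateField.adjoin_le_iff]
    rintro _ rfl
    exact hx
  exact fun z hz => h1 hz

private theorem one_gen (L : IntermediateField K Ω) (x z : Ω) :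
    dg L z ≤ dg L x * dg (L ⊔ IntermediateField.adjoin K {x}) z := by
  classical
  have hx : ∀ x' : Ω, ∃ σ : Ω ≃ₐ[K] Ω, x' ∈ Orb L x → (∀ w ∈ L, σ w = w) ∧ σ x = x' := by
    intro x'
    by_cases h : x' ∈ Orb L x
    · obtain ⟨σ, h1, h2⟩ := h
      exact ⟨σ, fun _ => ⟨h1, h2⟩⟩
    · exact ⟨AlgEquiv.refl, fun h' => absurd h' h⟩
  choose σ hσ using hx
  set L' := L ⊔ IntermediateField.adjoin K {x} with hL'
  set T := (orb_finite L x).toFinset with hT
  have hsub : Orb L z ⊆ ⋃ x' ∈ T, σ x' '' Orb L' z := by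
    rintro _ ⟨ρ, hρ, rfl⟩
    have hmem : ρ x ∈ Orb L x := ⟨ρ, hρ, rfl⟩
    rw [Set.mem_iUnion₂]
    refine ⟨ρ x, (Set.Finite.mem_toFinset _).2 hmem, ?_⟩
    obtain ⟨h1, h2⟩ := hσ (ρ x) hmem
    refine ⟨(σ (ρ x)).symm (ρ z), ⟨ρ.trans (σ (ρ x)).symm, ?_, rfl⟩, ?_⟩
    · refine fix_sup ?_ ?_
      · intro w hw
        rw [AlgEquiv.trans_apply, hρ w hw, orb_symm_fix h1 w hw]
      · rw [AlgEquiv.trans_apply, AlgEquiv.symm_apply_eq]
        exact h2.symm
    · rw [AlgEquiv.apply_symm_apply]
  have hfin : (⋃ x' ∈ T, σ x' '' Orb L' z).Finite := by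
    refine Set.Finite.biUnion (Finset.finite_toSet T) ?_
    intro x' _
    exact (orb_finite L' z).image _
  have h1 : dg L z ≤ (⋃ x' ∈ T, σ x' '' Orb L' z).ncard := Set.ncard_le_ncard hsub hfin
  have h2 := Finset.set_ncard_biUnion_le T (fun x' => σ x' '' Orb L' z)
  have h3 : ∑ x' ∈ T, (σ x' '' Orb L' z).ncard = T.card * dg L' z := by
    rw [Finset.sum_congr rfl (fun x' _ => Set.ncard_image_of_injective (Orb L' z)
      (σ x').injective), Finset.sum_const, smul_eq_mul]
    rfl
  have h4 : T.card = dg L x := by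
    unfold dg
    rw [Set.ncard_eq_toFinset_card _ (orb_finite L x)]
  rw [← h4, ← h3]
  exact h1.trans h2

theorem dg_tower (L : IntermediateField K Ω) {ι : Type} [Fintype ι] (x : ι → Ω) (k : ℕ)
    (hk : ∀ i, dg L (x i) ≤ k) (z : Ω) :
    dg L z ≤ k ^ Fintype.card ι * dg (L ⊔ IntermediateField.adjoin K (Set.range x)) z := by
  classical
  have key : ∀ s : Finset ι, dg L z ≤ k ^ s.card *
      dg (L ⊔ IntermediateField.adjoin K (x '' (s : Set ι))) z := by
    intro s
    induction s using Finset.induction_on with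
    | empty =>
      simp only [Finset.coe_empty, Set.image_empty, IntermediateField.adjoin_empty, sup_bot_eq,
        Finset.card_empty, pow_zero, one_mul, le_refl]
    | insert i s his ih =>
      set Ls := L ⊔ IntermediateField.adjoin K (x '' (s : Set ι)) with hLs
      have h1 := one_gen Ls (x i) z
      have h2 : dg Ls (x i) ≤ k := (dg_mono le_sup_left (x i)).trans (hk i)
      have h3 : Ls ⊔ IntermediateField.adjoin K {x i} =
          L ⊔ IntermediateField.adjoin K (x '' ((insert i s : Finset ι) : Set ι)) := by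
        rw [hLs, sup_assoc, ← IntermediateField.adjoin_union, Finset.coe_insert,
          Set.image_insert_eq, Set.insert_eq, Set.union_comm]
      rw [h3] at h1
      rw [Finset.card_insert_of_notMem his, pow_succ, mul_assoc]
      exact ih.trans (Nat.mul_le_mul_left _ (h1.trans (Nat.mul_le_mul_right _ h2)))
  have h := key Finset.univ
  rw [Finset.coe_univ, Set.image_univ, Finset.card_univ] at h
  exact h

end Pool.Agent.H92.SR
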