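import Mathlib

/-!
# Module EigA (THEOREM SR, part B): eigenvectors of one automorphism

`g : Ω ≃+* Ω`, `X` a finite set of elements fixed by `g`, `g (A x) = x * A x` for `x ∈ X`. So `g^k (A x) = x^k A x`.
* `eig_ind`: apply `g^k` (induction on `k`: apply `g` and use `g (e x) = e x`, `g x = x`) to `∑ (e x) (A x) = 0`:
  `∑ (e x) x^k (A x) = 0` for all `k`, hence `∑ (e x) P(x) (A x) = 0` for all polynomials `P` over `Ω` (a linear
  combination over `Ω` of the relations). With `P = ∏_{x' ∈ X, x' ≠ x} (X - x')` this gives `(e x) P(x) (A x) = 0`,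
  `P(x) ≠ 0`, `A x ≠ 0`, so `e x = 0`.
* `eig_expand`: `∑_{I ⊆ X} (-1)^|I| (∏_{x ∈ I} x) z^(|X| - |I|) = ∏_{x ∈ X} (z - x) = 0` for `z ∈ X`
  (`Finset.prod_sub` or `Finset.prod_add` with `-x`; `∏_{x ∈ X \ I} z = z^(|X| - |I|)`). Multiply by `A z`, sum over
  `z ∈ X`, exchange the sums.
-/

set_option autoImplicit false

namespace Pool.Agent.H92.SR

private lemma pow_rel {Ω : Type} [Field Ω] (g : Ω ≃+* Ω) (X : Finset Ω) (A : Ω → Ω)
    (hX : ∀ x ∈ X, g x = x) (hg : ∀ x ∈ X, g (A x) = x * A x)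
    (e : Ω → Ω) (he : ∀ x ∈ X, g (e x) = e x) (h0 : ∑ x ∈ X, e x * A x = 0) (k : ℕ) :
    ∑ x ∈ X, e x * x ^ k * A x = 0 := by
  induction k with
  | zero => simpa using h0
  | succ k ih =>
    have h1 := congrArg g ih
    rw [map_sum, map_zero] at h1
    rw [← h1]
    refine Finset.sum_congr rfl fun x hx => ?_
    rw [map_mul, map_mul, map_pow, he x hx, hX x hx, hg x hx]
    ring

theorem eig_ind {Ω : Type} [Field Ω] (g : Ω ≃+* Ω) (X : Finset Ω) (A : Ω → Ω)
    (hX : ∀ x ∈ X, g x = x) (hA : ∀ x ∈ X, A x ≠ 0) (hg : ∀ x ∈ X, g (A x) = x * A x)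
    (e : Ω → Ω) (he : ∀ x ∈ X, g (e x) = e x) (h0 : ∑ x ∈ X, e x * A x = 0) :
    ∀ x ∈ X, e x = 0 := by
  classical
  have hP : ∀ P : Polynomial Ω, ∑ x ∈ X, e x * P.eval x * A x = 0 := by
    intro P
    have h1 : ∀ x : Ω, P.eval x = ∑ i ∈ Finset.range (P.natDegree + 1), P.coeff i * x ^ i :=
      fun x => Polynomial.eval_eq_sum_range x
    simp only [h1, Finset.mul_sum, Finset.sum_mul]
    rw [Finset.sum_comm]
    refine Finset.sum_eq_zero fun i _ => ?_
    have h2 := pow_rel g X A hX hg e he h0 i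
    have h3 : ∑ x ∈ X, e x * (P.coeff i * x ^ i) * A x =
        P.coeff i * ∑ x ∈ X, e x * x ^ i * A x := by
      rw [Finset.mul_sum]
      exact Finset.sum_congr rfl fun x _ => by ring
    rw [h3, h2, mul_zero]
  intro x hx
  have h1 := hP (∏ y ∈ X.erase x, (Polynomial.X - Polynomial.C y))
  rw [Finset.sum_eq_single_of_mem x hx] at h1
  · have h2 : (∏ y ∈ X.erase x, (Polynomial.X - Polynomial.C y)).eval x ≠ 0 := by
      rw [Polynomial.eval_prod]
      refine Finset.prod_ne_zero_iff.mpr fun y hy => ?_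
      rw [Polynomial.eval_sub, Polynomial.eval_X, Polynomial.eval_C]
      exact sub_ne_zero.mpr (Ne.symm (Finset.ne_of_mem_erase hy))
    rcases mul_eq_zero.mp h1 with h3 | h3
    · rcases mul_eq_zero.mp h3 with h4 | h4
      · exact h4
      · exact absurd h4 h2
    · exact absurd h3 (hA x hx)
  · intro z hz hzx
    have h3 : (∏ y ∈ X.erase x, (Polynomial.X - Polynomial.C y)).eval z = 0 := by
      rw [Polynomial.eval_prod]
      refine Finset.prod_eq_zero (Finset.mem_erase.mpr ⟨hzx, hz⟩) ?_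
      rw [Polynomial.eval_sub, Polynomial.eval_X, Polynomial.eval_C, sub_self]
    rw [h3, mul_zero, zero_mul]

theorem eig_expand {Ω : Type} [Field Ω] (X : Finset Ω) (A : Ω → Ω) :
    ∑ I ∈ X.powerset, (-1 : Ω) ^ I.card * ((∏ x ∈ I, x) *
      ∑ z ∈ X, z ^ (X.card - I.card) * A z) = 0 := by
  classical
  have h1 : ∀ z ∈ X, ∑ I ∈ X.powerset, (-1 : Ω) ^ I.card * ((∏ x ∈ I, x) *
      z ^ (X.card - I.card)) = 0 := by
    intro z hz
    have h2 : ∏ x ∈ X, (-x + z) = 0 :=
      Finset.prod_eq_zero hz (by ring)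
    rw [Finset.prod_add] at h2
    rw [← h2]
    refine Finset.sum_congr rfl fun I hI => ?_
    have hI' := Finset.mem_powerset.mp hI
    rw [Finset.prod_const, Finset.card_sdiff_of_subset hI', Finset.prod_neg]
    ring
  calc ∑ I ∈ X.powerset, (-1 : Ω) ^ I.card * ((∏ x ∈ I, x) *
      ∑ z ∈ X, z ^ (X.card - I.card) * A z)
      = ∑ I ∈ X.powerset, ∑ z ∈ X, ((-1 : Ω) ^ I.card * ((∏ x ∈ I, x) *
      z ^ (X.card - I.card))) * A z := by
        refine Finset.sum_congr rfl fun I _ => ?_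
        rw [Finset.mul_sum, Finset.mul_sum]
        exact Finset.sum_congr rfl fun z _ => by ring
    _ = ∑ z ∈ X, ∑ I ∈ X.powerset, ((-1 : Ω) ^ I.card * ((∏ x ∈ I, x) *
      z ^ (X.card - I.card))) * A z := Finset.sum_comm
    _ = 0 := by
        refine Finset.sum_eq_zero fun z hz => ?_
        rw [← Finset.sum_mul, h1 z hz, zero_mul]

end Pool.Agent.H92.SR
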