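import Pool.Agent.H92.SR.EigA

/-!
# Module EigB (THEOREM SR, part B): a part of the relation forces the leading term

`t = X.card`. `P = ∑_{I ⊆ X, J (t - |I|)} C ((-1)^|I| ∏_{x ∈ I} x) * T^(t - |I|) ∈ Ω[T]`. The hypothesis `h` is
`∑_{z ∈ X} P(z) (A z) = 0` (exchange the sums), and `g (P(z)) = P(z)` for `z ∈ X` (all `x ∈ X` are fixed by `g`, and
`-1` too). `eig_ind` with `e z = P(z)`: `P(z) = 0` for all `z ∈ X`.
`P ≠ 0`: its coefficient at `T^0` (`P.eval 0` or `coeff 0`): the subsets `I ⊆ X` with `t - |I| = 0` are just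
`I = X`, and `J 0` holds, so it is `(-1)^t ∏_{x ∈ X} x ≠ 0` (`x ≠ 0`, `hx0`).
If `J t` fails, no `I` with `|I| = 0` contributes, so `natDegree P ≤ t - 1 < t` (`X` is nonempty, `t ≥ 1`), but `P`
has the `t` roots `X` (`Polynomial.card_roots'`, or `Polynomial.eq_zero_of_natDegree_lt_card_of_eval_eq_zero'`),
a contradiction.
-/

set_option autoImplicit false

namespace Pool.Agent.H92.SR

open Classical in
theorem eig_lead {Ω : Type} [Field Ω] (g : Ω ≃+* Ω) (X : Finset Ω) (hXne : X.Nonempty) (A : Ω → Ω)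
    (hX : ∀ x ∈ X, g x = x) (hx0 : ∀ x ∈ X, x ≠ 0) (hA : ∀ x ∈ X, A x ≠ 0)
    (hg : ∀ x ∈ X, g (A x) = x * A x) (J : ℕ → Prop) (hJ0 : J 0)
    (h : ∑ I ∈ X.powerset.filter (fun I => J (X.card - I.card)),
      (-1 : Ω) ^ I.card * ((∏ x ∈ I, x) * ∑ z ∈ X, z ^ (X.card - I.card) * A z) = 0) :
    J X.card := by
  by_contra hJ
  -- the polynomial
  let P : Polynomial Ω := ∑ I ∈ X.powerset.filter (fun I => J (X.card - I.card)),
    Polynomial.C ((-1 : Ω) ^ I.card * ∏ x ∈ I, x) * Polynomial.X ^ (X.card - I.card)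
  have hPe : ∀ z : Ω, P.eval z = ∑ I ∈ X.powerset.filter (fun I => J (X.card - I.card)),
      ((-1 : Ω) ^ I.card * ∏ x ∈ I, x) * z ^ (X.card - I.card) := by
    intro z
    show Polynomial.eval z (∑ I ∈ X.powerset.filter (fun I => J (X.card - I.card)),
      Polynomial.C ((-1 : Ω) ^ I.card * ∏ x ∈ I, x) * Polynomial.X ^ (X.card - I.card)) = _
    rw [Polynomial.eval_finsetSum]
    refine Finset.sum_congr rfl fun I _ => ?_
    rw [Polynomial.eval_mul, Polynomial.eval_C, Polynomial.eval_pow, Polynomial.eval_X]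
  have h1 : ∑ z ∈ X, P.eval z * A z = 0 := by
    rw [← h]
    simp only [hPe, Finset.sum_mul, Finset.mul_sum]
    rw [Finset.sum_comm]
    refine Finset.sum_congr rfl fun I _ => Finset.sum_congr rfl fun z _ => ?_
    ring
  have h2 : ∀ z ∈ X, g (P.eval z) = P.eval z := by
    intro z hz
    rw [hPe, map_sum]
    refine Finset.sum_congr rfl fun I hI => ?_
    have hIX : I ⊆ X := Finset.mem_powerset.1 (Finset.mem_filter.1 hI).1
    rw [map_mul, map_mul, map_pow, map_neg, map_one, map_prod, map_pow, hX z hz]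
    congr 2
    exact Finset.prod_congr rfl fun x hx => hX x (hIX hx)
  have h3 : ∀ z ∈ X, P.eval z = 0 := eig_ind g X A hX hA hg (fun z => P.eval z) h2 h1
  have hc : 1 ≤ X.card := Finset.card_pos.2 hXne
  -- the degree
  have h4 : P.natDegree < X.card := by
    have h5 : P.natDegree ≤ X.card - 1 := by
      refine Polynomial.natDegree_sum_le_of_forall_le _ _ ?_
      intro I hI
      obtain ⟨hI1, hI2⟩ := Finset.mem_filter.1 hI
      refine (Polynomial.natDegree_C_mul_X_pow_le _ _).trans ?_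
      rcases Nat.eq_zero_or_pos I.card with h6 | h6
      · rw [h6, Nat.sub_zero] at hI2
        exact absurd hI2 hJ
      · omega
    omega
  have h5 : P = 0 :=
    Polynomial.eq_zero_of_natDegree_lt_card_of_eval_eq_zero' P X h3 h4
  -- the constant coefficient
  have h6 : P.coeff 0 = (-1 : Ω) ^ X.card * ∏ x ∈ X, x := by
    show Polynomial.coeff (∑ I ∈ X.powerset.filter (fun I => J (X.card - I.card)),
      Polynomial.C ((-1 : Ω) ^ I.card * ∏ x ∈ I, x) *
        Polynomial.X ^ (X.card - I.card)) 0 = _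
    rw [Polynomial.finsetSum_coeff, Finset.sum_eq_single X]
    · rw [Nat.sub_self, pow_zero, mul_one, Polynomial.coeff_C_zero]
    · intro I hI hne
      obtain ⟨hI1, hI2⟩ := Finset.mem_filter.1 hI
      have hIX : I ⊆ X := Finset.mem_powerset.1 hI1
      have h7 : I.card < X.card := Finset.card_lt_card (lt_of_le_of_ne hIX hne)
      rw [Polynomial.coeff_C_mul, Polynomial.coeff_X_pow, if_neg (by omega), mul_zero]
    · intro hX'
      exfalso
      refine hX' (Finset.mem_filter.2 ⟨Finset.mem_powerset.2 (le_refl X), ?_⟩)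
      rw [Nat.sub_self]
      exact hJ0
  rw [h5, Polynomial.coeff_zero] at h6
  have h7 : (-1 : Ω) ^ X.card * ∏ x ∈ X, x ≠ 0 :=
    mul_ne_zero (pow_ne_zero _ (neg_ne_zero.2 one_ne_zero))
      (Finset.prod_ne_zero_iff.2 fun x hx => hx0 x hx)
  exact h7 h6.symm

end Pool.Agent.H92.SR
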