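import Pool.Agent.H92.SR.EigB
import Pool.Agent.H92.SR.Classes
import Pool.Agent.H72.PB.HTwist

/-!
# Module EigTor (THEOREM SR, part B): eigenvalues of a number of small height

`ε' = ε(2^s)` from `classes Ω (2^s)`, `ε = ε' / (s + 1)`. `X = ∅` is trivial, so let `X ≠ ∅`, `t = X.card ≤ s`.
`y k = ∑_{z ∈ X} z^k (A z)`: `y 0 = α`, `g (y k) = y (k+1)` (`g z = z` since `z` is a root of unity), so `y k = g^k α`.
`α ≠ 0` (`eig_ind` with `e = 1`), `y k ≠ 0`, and `absLogHeight₁ (y k) = absLogHeight₁ α`: automorphisms preserve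
the height (`absLogHeight_eq_of_minpoly_eq` in `Pool/Agent/H4/RR/AbsHeight.lean`; `minpoly ℚ (g x) = minpoly ℚ x`:
`minpoly.algEquiv_eq` for `g.toRingEquiv` as a `ℚ`-algebra equivalence; everything in `Ω` is integral over `ℚ`:
`int_all K x`, see `Pool/Agent/H72/PB`, `H72/RM`).
`eig_expand` (cast: `(-1 : Ω)^n = (((-1)^n : ℤ) : Ω)`) is the hypothesis of `classes` for `ι = X.powerset` (subtype,
`Fintype.card = 2^t ≤ 2^s`), `J = Fin (t+1)`, `c I = (-1)^|I|`, `ζ I = ∏_{x ∈ I} x` (a root of unity),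
`k I = t - |I|`; `∑_j h = (t+1) h(α) ≤ ε'`. Take `i₀ = X`: `ζ X * y 0`. A subset `I` is in its class iff
`y (t - |I|) / y 0` is a root of unity (`ζ I`, `ζ X` are roots of unity): `J k := ∃ n ≥ 1, (y k)^n = (y 0)^n`.
`eig_lead`: `J t`. So `y t = ρ (y 0)`, `ρ` a root of unity, `g ρ = ρ`: `∑ (z^t - ρ) (A z) = 0`, `eig_ind`: `z^t = ρ` for
all `z ∈ X`. `1 ≤ t ≤ s` divides `s !` (`Nat.dvd_factorial`), so `z^(s !) = ρ^(s ! / t)` for all `z ∈ X`.
-/

set_option autoImplicit false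
set_option linter.unusedSectionVars false

open NumberField Module

namespace Pool.Agent.H92.SR

variable {K Ω : Type} [Field K] [NumberField K] [Field Ω] [CharZero Ω] [IsAlgClosed Ω]
  [Algebra K Ω] [IsGalois K Ω]

private theorem prod_tor (I : Finset Ω) (h : ∀ x ∈ I, Tor x) : Tor (∏ x ∈ I, x) := by
  classical
  induction I using Finset.induction_on with
  | empty => exact ⟨1, le_rfl, by simp⟩
  | insert a I ha ih =>
    obtain ⟨n, hn, h1⟩ := h a (Finset.mem_insert_self a I)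
    obtain ⟨m, hm, h2⟩ := ih (fun x hx => h x (Finset.mem_insert_of_mem hx))
    refine ⟨n * m, Nat.mul_pos hn hm, ?_⟩
    rw [Finset.prod_insert ha, mul_pow]
    rw [pow_mul, h1, one_pow, one_mul, mul_comm n m, pow_mul, h2, one_pow]

private theorem tor_iff (a b u v : Ω) (ha : Tor a) (hb : Tor b) :
    (∃ n : ℕ, 1 ≤ n ∧ (a * u) ^ n = (b * v) ^ n) ↔ ∃ n : ℕ, 1 ≤ n ∧ u ^ n = v ^ n := by
  obtain ⟨i, hi, h1⟩ := ha
  obtain ⟨j, hj, h2⟩ := hb
  have key : ∀ n : ℕ, (a * u) ^ (n * (i * j)) = u ^ (n * (i * j)) := by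
    intro n
    rw [mul_pow]
    have : a ^ (n * (i * j)) = 1 := by
      rw [show n * (i * j) = i * (n * j) by ring, pow_mul, h1, one_pow]
    rw [this, one_mul]
  have key2 : ∀ n : ℕ, (b * v) ^ (n * (i * j)) = v ^ (n * (i * j)) := by
    intro n
    rw [mul_pow]
    have : b ^ (n * (i * j)) = 1 := by
      rw [show n * (i * j) = j * (n * i) by ring, pow_mul, h2, one_pow]
    rw [this, one_mul]
  constructor
  · rintro ⟨n, hn, h⟩
    refine ⟨n * (i * j), Nat.mul_pos hn (Nat.mul_pos hi hj), ?_⟩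
    rw [← key, ← key2, pow_mul (a * u), h, ← pow_mul]
  · rintro ⟨n, hn, h⟩
    refine ⟨n * (i * j), Nat.mul_pos hn (Nat.mul_pos hi hj), ?_⟩
    rw [key, key2, pow_mul u, h, ← pow_mul]

omit [NumberField K] [IsAlgClosed Ω] [IsGalois K Ω] in
private theorem mp_eq (g : Ω ≃ₐ[K] Ω) (x : Ω) : minpoly ℚ (g x) = minpoly ℚ x := by
  have h := minpoly.algHom_eq (A := ℚ) (B := Ω) (B' := Ω)
    (g.toRingEquiv.toRingHom.toRatAlgHom) (RingEquiv.injective g.toRingEquiv) x
  exact h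

variable (K Ω) in
theorem eig_tor (s : ℕ) : ∃ ε : ℝ, 0 < ε ∧ ∀ g : Ω ≃ₐ[K] Ω, (∀ x : Ω, Tor x → g x = x) →
    ∀ (X : Finset Ω) (A : Ω → Ω), X.card ≤ s → (∀ x ∈ X, Tor x) → (∀ x ∈ X, A x ≠ 0) →
    (∀ x ∈ X, g (A x) = x * A x) → absLogHeight₁ (∑ x ∈ X, A x) ≤ ε →
    ∀ x ∈ X, ∀ x' ∈ X, x ^ s.factorial = x' ^ s.factorial := by
  classical
  obtain ⟨ε', hε', hcl⟩ := classes Ω (2 ^ s)
  refine ⟨ε' / (s + 1), by positivity, ?_⟩
  intro g hgT X A hXs hXT hA hg hh x hx x' hx'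
  have hgx : ∀ z ∈ X, g z = z := fun z hz => hgT z (hXT z hz)
  have hne : X.Nonempty := ⟨x, hx⟩
  have hint : ∀ x : Ω, IsIntegral ℚ x := fun x => Pool.Agent.H72.PB.int_all K x
  set t := X.card with ht
  let y : ℕ → Ω := fun k => ∑ z ∈ X, z ^ k * A z
  have hy1 : ∀ k, y (k + 1) = g (y k) := by
    intro k
    simp only [y]
    rw [map_sum]
    refine Finset.sum_congr rfl (fun z hz => ?_)
    rw [map_mul, map_pow, hgx z hz, hg z hz]
    ring
  have hy00 : y 0 = ∑ z ∈ X, A z := by simp [y]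
  let gr : Ω ≃+* Ω := g.toRingEquiv
  have hy0 : y 0 ≠ 0 := by
    intro h0
    have h1 := eig_ind gr X A hgx hA hg (fun _ => 1) (fun _ _ => map_one gr)
      (by simpa [y] using h0) x hx
    exact one_ne_zero h1
  have hyne : ∀ k, y k ≠ 0 := by
    intro k
    induction k with
    | zero => exact hy0
    | succ k ih =>
      rw [hy1]
      intro h
      exact ih (by simpa using h)
  have hyh : ∀ k, absLogHeight₁ (y k) = absLogHeight₁ (∑ z ∈ X, A z) := by
    intro k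
    induction k with
    | zero => rw [hy00]
    | succ k ih =>
      rw [← ih, hy1]
      exact Pool.Agent.H4.RR.absLogHeight_eq_of_minpoly_eq Ω _ _ (hint _) (mp_eq g _)
  have htor : ∀ I ∈ X.powerset, Tor (∏ z ∈ I, z) := fun I hI =>
    prod_tor I (fun z hz => hXT z (Finset.mem_powerset.1 hI hz))
  have hcard : Fintype.card {I // I ∈ X.powerset} ≤ 2 ^ s := by
    rw [Fintype.card_coe, Finset.card_powerset]
    exact Nat.pow_le_pow_right (by norm_num) hXs
  have hsum0 := eig_expand X A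
  have hX0 : (⟨X, Finset.mem_powerset_self X⟩ : {I // I ∈ X.powerset}).1 = X := rfl
  have h3 := hcl {I // I ∈ X.powerset} (Fin (t + 1)) hcard (fun I => (-1) ^ I.1.card)
    (fun I => Or.inr (by
      rcases Nat.even_or_odd I.1.card with h | h
      · left; exact h.neg_one_pow
      · right; exact h.neg_one_pow))
    (fun I => ∏ z ∈ I.1, z) (fun I => htor I.1 I.2) (fun j => y j) (fun j => hyne j)
    (fun j => hint _) (fun I => ⟨t - I.1.card, by omega⟩) (by
      have e1 : ∀ I : {I // I ∈ X.powerset}, (((-1 : ℤ) ^ I.1.card : ℤ) : Ω) *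
          ((∏ z ∈ I.1, z) * y (t - I.1.card))
          = (fun J : Finset Ω => (-1 : Ω) ^ J.card * ((∏ z ∈ J, z) *
            ∑ z ∈ X, z ^ (X.card - J.card) * A z)) I.1 := by
        intro I
        simp [y, ht]
      rw [Finset.sum_congr rfl (fun I _ => e1 I)]
      rw [Finset.sum_coe_sort X.powerset (fun J : Finset Ω => (-1 : Ω) ^ J.card * ((∏ z ∈ J, z) *
            ∑ z ∈ X, z ^ (X.card - J.card) * A z))]
      exact hsum0)
    (by
      have e2 : ∑ j : Fin (t + 1), absLogHeight₁ (y j) = (t + 1 : ℝ) *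
          absLogHeight₁ (∑ z ∈ X, A z) := by
        rw [Finset.sum_congr rfl (fun (j : Fin (t + 1)) _ => hyh (j : ℕ)), Finset.sum_const, Finset.card_univ,
          Fintype.card_fin, nsmul_eq_mul]
        push_cast
        ring
      rw [e2]
      have e3 : (t : ℝ) + 1 ≤ (s : ℝ) + 1 := by
        have : (t : ℝ) ≤ s := by exact_mod_cast hXs
        linarith
      have e4 : (t + 1 : ℝ) * absLogHeight₁ (∑ z ∈ X, A z) ≤ (t + 1 : ℝ) * (ε' / (s + 1)) :=
        mul_le_mul_of_nonneg_left hh (by positivity)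
      have e5 : (t + 1 : ℝ) * (ε' / (s + 1)) ≤ (s + 1 : ℝ) * (ε' / (s + 1)) :=
        mul_le_mul_of_nonneg_right e3 (by positivity)
      have e6 : (s + 1 : ℝ) * (ε' / (s + 1)) = ε' := by
        field_simp
      linarith)
    ⟨X, Finset.mem_powerset_self X⟩
  have hJ : (fun k => ∃ n : ℕ, 1 ≤ n ∧ (y k) ^ n = (y 0) ^ n) t := by
    refine eig_lead gr X hne A hgx (fun z hz => ?_) hA hg
      (fun k => ∃ n : ℕ, 1 ≤ n ∧ (y k) ^ n = (y 0) ^ n) ⟨1, le_rfl, rfl⟩ ?_
    · obtain ⟨n, hn, h⟩ := hXT z hz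
      rintro rfl
      rw [zero_pow (by omega)] at h
      exact zero_ne_one h
    · rw [Finset.sum_filter] at h3 ⊢
      refine Eq.trans ?_ h3
      rw [← Finset.sum_coe_sort X.powerset]
      refine Finset.sum_congr rfl (fun I _ => ?_)
      have e1 : (∃ n : ℕ, 1 ≤ n ∧ ((∏ z ∈ I.1, z) * y (t - I.1.card)) ^ n
          = ((∏ z ∈ X, z) * y (t - X.card)) ^ n) ↔
          ∃ n : ℕ, 1 ≤ n ∧ y (t - I.1.card) ^ n = y 0 ^ n := by
        rw [ht, Nat.sub_self]
        exact tor_iff _ _ _ _ (htor I.1 I.2) (htor X (Finset.mem_powerset_self X))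
      have e2 : (((-1 : ℤ) ^ I.1.card : ℤ) : Ω) * ((∏ z ∈ I.1, z) * y (t - I.1.card))
          = (-1 : Ω) ^ I.1.card * ((∏ z ∈ I.1, z) *
            ∑ z ∈ X, z ^ (X.card - I.1.card) * A z) := by
        simp [y, ht]
      exact if_congr e1.symm e2.symm rfl
  obtain ⟨n, hn, hn2⟩ := hJ
  have hρ : Tor (y t / y 0) := ⟨n, hn, by
    rw [div_pow, hn2, div_self (pow_ne_zero _ hy0)]⟩
  set ρ := y t / y 0 with hρd
  have hgρ : g ρ = ρ := hgT ρ hρ
  have hall : ∀ z ∈ X, z ^ t - ρ = 0 := by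
    refine eig_ind gr X A hgx hA hg (fun z => z ^ t - ρ) (fun z hz => ?_) ?_
    · have e1 : gr (z ^ t - ρ) = (g z) ^ t - g ρ := by
        have : gr (z ^ t - ρ) = g (z ^ t - ρ) := rfl
        rw [this, map_sub, map_pow]
      rw [e1, hgx z hz, hgρ]
    · have e2 : ∑ z ∈ X, (z ^ t - ρ) * A z = y t - ρ * y 0 := by
        simp only [y]
        rw [Finset.mul_sum, ← Finset.sum_sub_distrib]
        refine Finset.sum_congr rfl (fun z _ => ?_)
        ring
      rw [e2, hρd, div_mul_cancel₀ _ hy0, sub_self]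
  have htpos : 0 < t := Finset.card_pos.2 hne
  obtain ⟨q, hq⟩ := Nat.dvd_factorial htpos hXs
  have hfin : ∀ z ∈ X, z ^ s.factorial = ρ ^ q := by
    intro z hz
    rw [hq, pow_mul, sub_eq_zero.1 (hall z hz)]
  rw [hfin x hx, hfin x' hx']

end Pool.Agent.H92.SR
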