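import Pool.Agent.H92.SR.Cls
import Pool.Agent.H92.SR.Cnt

/-!
# Module FIB: the tuples whose sum of square roots is very close to a given number

PROOF. If there is no such `a`, the right side is nonnegative. Let `a'` be one. For every `a` in the set `|∑ √a - ∑ √a'| * 2 ^ (b * 4 ^ m) < 1` (triangle inequality, `2 ^ (1 + x) = 2 * 2 ^ x`). If the sums were different, `cls_sep` with `S = 2 ^ b`
(`∑ √(a j) + ∑ √(a' j) ≤ ∑ 2 √(A j + W j)`) gives `1 ≤ |..| * (2 ^ b) ^ (2 ^ (2 m) - 1) ≤ |..| * 2 ^ (b * 4 ^ m)`, a contradiction. So the sums are equal and by `cls_eq` (`1 ≤ a j` since `A j < a j`) all `sf (a j)` are in `D = univ.image (sf ∘ a')`, `D.card ≤ m`, `0 ∉ D`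
(squarefree). So the set is contained in `Fintype.piFinset fun j => (Ioc (A j) (A j + W j)).filter (∃ d ∈ D, ∃ c, a = c ^ 2 * d)` (`sf_spec`), whose cardinality is the product (`Fintype.card_piFinset`); `cnt`, `Finset.prod_le_prod`.
-/

set_option autoImplicit false

namespace Pool.Agent.H92.SR

private theorem fib_eq {J : Type} [Fintype J] {m : ℕ} (hJ : Fintype.card J = m) {a a' : J → ℕ}
    (F : ℝ) {b : ℕ} (hb : ∑ j, √(a j : ℝ) + ∑ j, √(a' j : ℝ) ≤ 2 ^ b)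
    (h : |∑ j, √(a j : ℝ) + F| * 2 ^ (1 + b * 4 ^ m) < 1)
    (h' : |∑ j, √(a' j : ℝ) + F| * 2 ^ (1 + b * 4 ^ m) < 1) :
    ∑ j, √(a j : ℝ) = ∑ j, √(a' j : ℝ) := by
  by_contra hne
  have h1 := cls_sep hne (one_le_pow₀ (by norm_num : (1 : ℝ) ≤ 2) : (1 : ℝ) ≤ 2 ^ b) hb
  rw [hJ, ← pow_mul] at h1
  have h2 : |∑ j, √(a j : ℝ) - ∑ j, √(a' j : ℝ)| ≤
      |∑ j, √(a j : ℝ) + F| + |∑ j, √(a' j : ℝ) + F| := by
    have h3 : ∑ j, √(a j : ℝ) - ∑ j, √(a' j : ℝ) =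
        (∑ j, √(a j : ℝ) + F) - (∑ j, √(a' j : ℝ) + F) := by ring
    rw [h3]
    exact abs_sub _ _
  have h3 : (2 : ℝ) ^ (b * (2 ^ (2 * m) - 1)) ≤ 2 ^ (b * 4 ^ m) := by
    refine pow_le_pow_right₀ (by norm_num) (Nat.mul_le_mul_left b ?_)
    have : 4 ^ m = 2 ^ (2 * m) := by rw [pow_mul]; norm_num
    rw [this]
    exact Nat.sub_le _ _
  have h4 : (2 : ℝ) ^ (1 + b * 4 ^ m) = 2 * 2 ^ (b * 4 ^ m) := by rw [pow_add, pow_one]
  rw [h4] at h h'
  have h5 : (0 : ℝ) < 2 ^ (b * 4 ^ m) := by positivity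
  have h6 := mul_le_mul_of_nonneg_left h3 (abs_nonneg (∑ j, √(a j : ℝ) - ∑ j, √(a' j : ℝ)))
  have h7 := mul_le_mul_of_nonneg_right h2 h5.le
  nlinarith

open Classical in
theorem fib {J : Type} [Fintype J] {m : ℕ} (hJ : Fintype.card J = m) (hm : 1 ≤ m) {A W : J → ℕ}
    (hW : ∀ j, m ≤ W j) (F : ℝ) {b : ℕ} (hb : ∑ j, 2 * √((A j + W j : ℕ) : ℝ) ≤ 2 ^ b) :
    (((Fintype.piFinset fun j => Finset.Ioc (A j) (A j + W j)).filter fun a =>
      |∑ j, √(a j : ℝ) + F| * 2 ^ (1 + b * 4 ^ m) < 1).card : ℝ) ≤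
      ∏ j, 4 * √((m : ℝ) * W j) := by
  set T := (Fintype.piFinset fun j => Finset.Ioc (A j) (A j + W j)).filter fun a =>
      |∑ j, √(a j : ℝ) + F| * 2 ^ (1 + b * 4 ^ m) < 1 with hT
  rcases T.eq_empty_or_nonempty with h0 | ⟨a', ha'⟩
  · rw [h0]
    simp only [Finset.card_empty, Nat.cast_zero]
    exact Finset.prod_nonneg fun j _ => by positivity
  set D : Finset ℕ := Finset.univ.image (fun j => sf (a' j)) with hD
  have hD0 : 0 ∉ D := by
    intro h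
    rw [hD, Finset.mem_image] at h
    obtain ⟨j, _, hj⟩ := h
    have := (sf_spec (a' j)).2
    rw [hj] at this
    exact not_squarefree_zero this
  have hDm : D.card ≤ m := by
    rw [← hJ]
    exact Finset.card_image_le
  have hmem : ∀ a ∈ T, (∀ j, A j < a j ∧ a j ≤ A j + W j) ∧
      |∑ j, √(a j : ℝ) + F| * 2 ^ (1 + b * 4 ^ m) < 1 := by
    intro a ha
    rw [hT, Finset.mem_filter, Fintype.mem_piFinset] at ha
    exact ⟨fun j => Finset.mem_Ioc.1 (ha.1 j), ha.2⟩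
  have hsum : ∀ a ∈ T, ∑ j, √(a j : ℝ) ≤ ∑ j, √((A j + W j : ℕ) : ℝ) := by
    intro a ha
    refine Finset.sum_le_sum fun j _ => Real.sqrt_le_sqrt ?_
    exact_mod_cast ((hmem a ha).1 j).2
  have hsub : T ⊆ Fintype.piFinset fun j =>
      (Finset.Ioc (A j) (A j + W j)).filter fun x => ∃ d ∈ D, ∃ c : ℕ, x = c ^ 2 * d := by
    intro a ha
    rw [Fintype.mem_piFinset]
    have h1 := hmem a ha
    have h2 := hmem a' ha'
    have heq := fib_eq hJ F (b := b) (a := a) (a' := a') (by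
      refine le_trans (add_le_add (hsum a ha) (hsum a' ha')) (le_trans (le_of_eq ?_) hb)
      rw [← Finset.sum_add_distrib]
      refine Finset.sum_congr rfl fun j _ => ?_
      ring) h1.2 h2.2
    intro j
    rw [Finset.mem_filter, Finset.mem_Ioc]
    refine ⟨h1.1 j, ?_⟩
    obtain ⟨i, hi⟩ := cls_eq (a := a) (a' := a') (fun j => by have := (h1.1 j).1; omega)
      (fun j => by have := (h2.1 j).1; omega) heq j
    refine ⟨sf (a j), ?_, rt (a j), (sf_spec (a j)).1.symm⟩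
    rw [hi]
    exact Finset.mem_image_of_mem _ (Finset.mem_univ i)
  have h1 : (T.card : ℝ) ≤ ∏ j, ((((Finset.Ioc (A j) (A j + W j)).filter
      fun x => ∃ d ∈ D, ∃ c : ℕ, x = c ^ 2 * d).card : ℕ) : ℝ) := by
    have h2 := Finset.card_le_card hsub
    rw [Fintype.card_piFinset] at h2
    exact_mod_cast h2
  refine h1.trans (Finset.prod_le_prod (fun j _ => Nat.cast_nonneg _) fun j _ => ?_)
  exact cnt (A j) hm (hW j) hD0 hDm

end Pool.Agent.H92.SR
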