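import Pool.Agent.H92.SR.MainB
import Pool.Agent.H72.RM.Sat
import Pool.Agent.H72.RM.Basis
import Pool.Agent.H72.RG.IndAll
import Pool.Agent.H72.PB.OrbB
import Pool.Agent.H72.PB.HNonneg

/-!
# Module FinalO (THEOREM SR, part F): finitely generated `Λ ⊂ Kˣ`

As in `final_O` of `Pool/Agent/H72/RG/Final.lean`: `sat_fg` (`Λ'` = saturation of `Λ` in `Kˣ`), `sat_basis` (`b`, `hgen`,
`hind0`), `ind_all Λ Λ' hΛ' b hb hgen hind0` is the hypothesis `hind` of `main_b` for `fun i => ((b i : Kˣ) : K)`.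
`T = algebraMap '' Λ = {x | ∃ u ∈ Λ, x = algebraMap K Ω u}`.
* `SG T S ⊆ GammaS Ω b S` (as `gam_of_mem_O` in that file), so `adjoin K (SG T S) ≤ NS Ω b S`, so `PolDeg (adjoin ..) d x`
  gives `dg (NS Ω b S) x ≤ d` (`dg_le_of_poly`).
* `DivG Ω b ⊆ DG T`: `x^N = ∏ b_i^(m_i) ∈ Λ'`, a power of this is in `Λ`. So `LS Ω b ≤ adjoin K (DG T)`; this is the wrong
  direction for `D`; one needs `DG T ⊆ DivG Ω b`: `x^n = u ∈ Λ ≤ Λ'`, `u = (torsion) ∏ b_i^(m_i)` (`hgen`), a further power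
  removes the torsion. So `adjoin K (DG T) ≤ LS Ω b` and `PolDeg (adjoin K (DG T)) D α` gives `dg (LS Ω b) α ≤ D`.
* `α ∉ DG T` gives `α ∉ DivG Ω b` (first inclusion). `main_b`: `c ≤ dg (LS) α * h ≤ D h` (`ht_nonneg`).
-/

set_option autoImplicit false
set_option linter.unusedSectionVars false

open NumberField IntermediateField

namespace Pool.Agent.H92.SR

open Pool.Agent.H72.RM Pool.Agent.H72.RG Pool.Agent.H72.PB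

variable {K Ω : Type} [Field K] [NumberField K] [Field Ω] [CharZero Ω] [IsAlgClosed Ω]
  [Algebra K Ω] [IsGalois K Ω]

private theorem fo_prod {r : ℕ} (b : Fin r → Kˣ) (m : Fin r → ℤ) :
    algebraMap K Ω (((∏ i, b i ^ (m i) : Kˣ)) : K) =
      ∏ i, (algebraMap K Ω ((b i : Kˣ) : K)) ^ (m i) := by
  rw [Units.coe_prod, map_prod]
  refine Finset.prod_congr rfl fun i _ => ?_
  rw [Units.val_zpow_eq_zpow_val, map_zpow₀]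

/-- an element of `Λ` is a root of unity times a product of powers of the `b i` -/
private theorem fo_dec {r : ℕ} (Λ Λ' : Subgroup Kˣ)
    (hΛ' : ∀ x : Kˣ, x ∈ Λ' ↔ ∃ N : ℕ, 1 ≤ N ∧ x ^ N ∈ Λ) (b : Fin r → Kˣ)
    (hgen : ∀ x ∈ Λ', ∃ m : Fin r → ℤ, IsOfFinOrder (x * (∏ i, b i ^ (m i))⁻¹))
    {u : Kˣ} (hu : u ∈ Λ) :
    ∃ (m : Fin r → ℤ) (w : Ω) (k : ℕ), 1 ≤ k ∧ w ^ k = 1 ∧
      algebraMap K Ω ((u : Kˣ) : K) = w * ∏ i, (algebraMap K Ω ((b i : Kˣ) : K)) ^ (m i) := by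
  have hu' : u ∈ Λ' := (hΛ' u).2 ⟨1, le_rfl, by rwa [pow_one]⟩
  obtain ⟨m, hm⟩ := hgen u hu'
  obtain ⟨k, hk, hk1⟩ := isOfFinOrder_iff_pow_eq_one.1 hm
  obtain ⟨v, hv⟩ : ∃ v, v = u * (∏ i, b i ^ (m i))⁻¹ := ⟨_, rfl⟩
  rw [← hv] at hk1
  have huv : u = v * ∏ i, b i ^ (m i) := by
    rw [hv, inv_mul_cancel_right]
  refine ⟨m, algebraMap K Ω ((v : Kˣ) : K), k, hk, ?_, ?_⟩
  · rw [← map_pow, ← Units.val_pow_eq_pow_val, hk1, Units.val_one, map_one]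
  · rw [← fo_prod, ← map_mul, ← Units.val_mul, ← huv]

private theorem fo_sg {r : ℕ} (Λ Λ' : Subgroup Kˣ)
    (hΛ' : ∀ x : Kˣ, x ∈ Λ' ↔ ∃ N : ℕ, 1 ≤ N ∧ x ^ N ∈ Λ) (b : Fin r → Kˣ)
    (hgen : ∀ x ∈ Λ', ∃ m : Fin r → ℤ, IsOfFinOrder (x * (∏ i, b i ^ (m i))⁻¹))
    (S : Finset ℕ) (T : Set Ω)
    (hT : T = {x : Ω | ∃ u ∈ Λ, x = algebraMap K Ω ((u : Kˣ) : K)}) :
    SG T S ⊆ GammaS Ω (fun i => ((b i : Kˣ) : K)) (S : Set ℕ) := by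
  rintro x ⟨N, hN, hNS, t, ⟨n, hn, htn⟩, hx⟩
  rw [hT] at hx
  obtain ⟨u, hu, hxu⟩ := hx
  obtain ⟨m, w, k, hk, hw, huw⟩ := fo_dec (Ω := Ω) Λ Λ' hΛ' b hgen hu
  have hw0 : w ≠ 0 := by
    rintro rfl
    rw [zero_pow (by omega)] at hw
    exact zero_ne_one hw
  refine ⟨N, hN, hNS, t * w⁻¹, ⟨n * k, Nat.mul_pos hn hk, ?_⟩, m, ?_⟩
  · rw [mul_pow, pow_mul, htn, one_pow, one_mul, inv_pow, mul_comm n k, pow_mul, hw, one_pow,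
      inv_one]
  · rw [← mul_assoc, hxu, huw, mul_comm w, mul_inv_cancel_right₀ hw0]

private theorem fo_dg {r : ℕ} (Λ Λ' : Subgroup Kˣ)
    (hΛ' : ∀ x : Kˣ, x ∈ Λ' ↔ ∃ N : ℕ, 1 ≤ N ∧ x ^ N ∈ Λ) (b : Fin r → Kˣ)
    (hgen : ∀ x ∈ Λ', ∃ m : Fin r → ℤ, IsOfFinOrder (x * (∏ i, b i ^ (m i))⁻¹))
    (T : Set Ω) (hT : T = {x : Ω | ∃ u ∈ Λ, x = algebraMap K Ω ((u : Kˣ) : K)}) :
    DG T ⊆ DivG Ω (fun i => ((b i : Kˣ) : K)) := by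
  rintro x ⟨n, hn, hx⟩
  rw [hT] at hx
  obtain ⟨u, hu, hxu⟩ := hx
  obtain ⟨m, w, k, hk, hw, huw⟩ := fo_dec (Ω := Ω) Λ Λ' hΛ' b hgen hu
  refine ⟨n * k, Nat.mul_pos hn hk, fun i => m i * (k : ℤ), ?_⟩
  rw [pow_mul, hxu, huw, mul_pow, hw, one_mul, ← Finset.prod_pow]
  refine Finset.prod_congr rfl fun i _ => ?_
  rw [zpow_mul, zpow_natCast]

private theorem fo_div {r : ℕ} (Λ Λ' : Subgroup Kˣ)
    (hΛ' : ∀ x : Kˣ, x ∈ Λ' ↔ ∃ N : ℕ, 1 ≤ N ∧ x ^ N ∈ Λ) (b : Fin r → Kˣ)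
    (hb : ∀ i, b i ∈ Λ')
    (T : Set Ω) (hT : T = {x : Ω | ∃ u ∈ Λ, x = algebraMap K Ω ((u : Kˣ) : K)}) :
    DivG Ω (fun i => ((b i : Kˣ) : K)) ⊆ DG T := by
  rintro x ⟨N, hN, m, hx⟩
  have h1 : ∏ i, b i ^ (m i) ∈ Λ' := Subgroup.prod_mem _ fun i _ => Subgroup.zpow_mem _ (hb i) _
  obtain ⟨M, hM, hM1⟩ := (hΛ' _).1 h1
  refine ⟨N * M, Nat.mul_pos hN hM, ?_⟩
  rw [hT]
  refine ⟨_, hM1, ?_⟩
  rw [pow_mul, hx, Units.val_pow_eq_pow_val, map_pow, fo_prod]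

private theorem fo_poldeg {A : Set Ω} {L : IntermediateField K Ω}
    (hAL : IntermediateField.adjoin K A ≤ L) {d : ℕ} {x : Ω}
    (h : PolDeg ((IntermediateField.adjoin K A : IntermediateField K Ω) : Set Ω) d x) :
    dg L x ≤ d := by
  obtain ⟨Q, hQ, hQd, hQc, hQ0⟩ := h
  exact (dg_le_of_poly Q hQ (fun i => hAL (hQc i)) hQ0).trans hQd

variable (Ω) in
theorem final_O (Λ : Subgroup Kˣ) (hΛ : Λ.FG) (S : Finset ℕ) (hS : ∀ p ∈ S, p.Prime)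
    (hne : S.Nonempty) (s d : ℕ) (T : Set Ω)
    (hT : T = {x : Ω | ∃ u ∈ Λ, x = algebraMap K Ω ((u : Kˣ) : K)}) :
    ∃ c : ℝ, 0 < c ∧ ∀ a : Fin s → Ω,
      (∀ i, ∃ m : ℕ, 1 ≤ m ∧
        PolDeg ((IntermediateField.adjoin K (SG T S) : IntermediateField K Ω) : Set Ω) d
          (a i ^ m)) →
      ∑ i, a i ≠ 0 → ∑ i, a i ∉ DG T → ∀ D : ℕ,
      PolDeg ((IntermediateField.adjoin K (DG T) : IntermediateField K Ω) : Set Ω) D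
        (∑ i, a i) → c ≤ (D : ℝ) * absLogHeight₁ (∑ i, a i) := by
  obtain ⟨Λ', hΛ'fg, hΛ'⟩ := sat_fg K Λ hΛ
  obtain ⟨r, b, hb, hgen, hind⟩ := sat_basis Λ' hΛ'fg
  have hb0 : ∀ i, (fun i => ((b i : Kˣ) : K)) i ≠ 0 := fun i => (b i).ne_zero
  obtain ⟨c, hc, hmain⟩ := main_b Ω (fun i => ((b i : Kˣ) : K)) hb0
    (fun N hN m y hy i => ind_all Λ Λ' hΛ' b hb hgen hind N hN m y hy i) S hS hne s d
  have hSG : IntermediateField.adjoin K (SG T S) ≤ NS Ω (fun i => ((b i : Kˣ) : K)) S :=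
    IntermediateField.adjoin.mono K _ _ (fo_sg Λ Λ' hΛ' b hgen S T hT)
  have hDG : IntermediateField.adjoin K (DG T) ≤ LS Ω (fun i => ((b i : Kˣ) : K)) :=
    IntermediateField.adjoin.mono K _ _ (fo_dg Λ Λ' hΛ' b hgen T hT)
  refine ⟨c, hc, fun a ha h0 hnd D hD => ?_⟩
  have h1 := hmain a (fun i => by
    obtain ⟨m, hm, hm1⟩ := ha i
    exact ⟨m, hm, fo_poldeg hSG hm1⟩) h0 (fun h => hnd (fo_div Λ Λ' hΛ' b hb T hT h))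
  have h2 : dg (LS Ω (fun i => ((b i : Kˣ) : K))) (∑ i, a i) ≤ D := fo_poldeg hDG hD
  have h3 : (dg (LS Ω (fun i => ((b i : Kˣ) : K))) (∑ i, a i) : ℝ) ≤ (D : ℝ) := by
    exact_mod_cast h2
  exact h1.trans (mul_le_mul_of_nonneg_right h3 (ht_nonneg _))

end Pool.Agent.H92.SR
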