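import Mathlib

/-!
# Module FLD: adjoining square roots

PROOF of `ext`: sums and negatives are clear; products: `(u + v s)(u' + v' s) = (u u' + q v v') + (u v' + v u') s` with `s * s = q` (`Real.mul_self_sqrt`); inverses: `x = u + v s`; if `u ^ 2 - q v ^ 2 ≠ 0` then `x⁻¹ = (u - v s) / (u ^ 2 - q v ^ 2)`;
if it is zero then `(u + v s) (u - v s) = 0`: `x = 0`, or `u = v s`: if `v = 0` then `u = 0`, `x = 0`, and if `v ≠ 0` then `s = u / v ∈ F`, so `x ∈ F`, `x⁻¹ ∈ F`. `ext_le`: `v = 0`. `sq_ext`: `u = 0`, `v = 1`.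
-/

set_option autoImplicit false

namespace Pool.Agent.H92.SR

/-- the field of the numbers `u + v * √q` -/
noncomputable def ext (F : Subfield ℝ) (q : ℕ) : Subfield ℝ where
  carrier := {x | ∃ u ∈ F, ∃ v ∈ F, x = u + v * √(q : ℝ)}
  mul_mem' := by
    rintro x y ⟨u, hu, v, hv, rfl⟩ ⟨u', hu', v', hv', rfl⟩
    refine ⟨u * u' + q * (v * v'), add_mem (mul_mem hu hu') (mul_mem (natCast_mem _ q)
      (mul_mem hv hv')), u * v' + v * u', add_mem (mul_mem hu hv') (mul_mem hv hu'), ?_⟩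
    have hsq : √(q : ℝ) * √(q : ℝ) = q := Real.mul_self_sqrt (Nat.cast_nonneg q)
    linear_combination v * v' * hsq
  one_mem' := ⟨1, one_mem _, 0, zero_mem _, by ring⟩
  add_mem' := by
    rintro x y ⟨u, hu, v, hv, rfl⟩ ⟨u', hu', v', hv', rfl⟩
    exact ⟨u + u', add_mem hu hu', v + v', add_mem hv hv', by ring⟩
  zero_mem' := ⟨0, zero_mem _, 0, zero_mem _, by ring⟩
  neg_mem' := by
    rintro x ⟨u, hu, v, hv, rfl⟩
    exact ⟨-u, neg_mem hu, -v, neg_mem hv, by ring⟩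
  inv_mem' := by
    rintro x ⟨u, hu, v, hv, rfl⟩
    have hsq : √(q : ℝ) * √(q : ℝ) = q := Real.mul_self_sqrt (Nat.cast_nonneg q)
    have hfac : (u + v * √(q : ℝ)) * (u - v * √(q : ℝ)) = u ^ 2 - q * v ^ 2 := by
      linear_combination -(v ^ 2) * hsq
    by_cases hN : u ^ 2 - q * v ^ 2 = 0
    · rw [hN] at hfac
      rcases mul_eq_zero.1 hfac with h | h
      · rw [h, inv_zero]
        exact ⟨0, zero_mem _, 0, zero_mem _, by ring⟩
      · by_cases hv0 : v = 0
        · rw [hv0, zero_mul, add_zero]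
          exact ⟨u⁻¹, inv_mem hu, 0, zero_mem _, by ring⟩
        · have hs : √(q : ℝ) ∈ F := by
            have h2 : √(q : ℝ) = u / v := by
              rw [eq_div_iff hv0]
              linarith
            rw [h2]
            exact div_mem hu hv
          exact ⟨(u + v * √(q : ℝ))⁻¹, inv_mem (add_mem hu (mul_mem hv hs)), 0, zero_mem _,
            by ring⟩
    · have hx : u + v * √(q : ℝ) ≠ 0 := by
        intro h
        rw [h, zero_mul] at hfac
        exact hN hfac.symm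
      refine ⟨u / (u ^ 2 - q * v ^ 2), div_mem hu ?_, -v / (u ^ 2 - q * v ^ 2),
        div_mem (neg_mem hv) ?_, ?_⟩
      · exact sub_mem (pow_mem hu 2) (mul_mem (natCast_mem _ q) (pow_mem hv 2))
      · exact sub_mem (pow_mem hu 2) (mul_mem (natCast_mem _ q) (pow_mem hv 2))
      · rw [inv_eq_iff_eq_inv, eq_comm, inv_eq_iff_eq_inv, eq_comm]
        rw [eq_comm, inv_eq_of_mul_eq_one_right]
        have h5 : (u + v * √(q : ℝ)) * (u / (u ^ 2 - q * v ^ 2)
            + -v / (u ^ 2 - q * v ^ 2) * √(q : ℝ))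
            = ((u + v * √(q : ℝ)) * (u - v * √(q : ℝ))) / (u ^ 2 - q * v ^ 2) := by ring
        rw [h5, hfac, div_self hN]

theorem mem_ext {F : Subfield ℝ} {q : ℕ} {x : ℝ} :
    x ∈ ext F q ↔ ∃ u ∈ F, ∃ v ∈ F, x = u + v * √(q : ℝ) := Iff.rfl

theorem le_ext (F : Subfield ℝ) (q : ℕ) : F ≤ ext F q := fun x hx =>
  mem_ext.2 ⟨x, hx, 0, zero_mem _, by ring⟩

theorem sqrt_ext (F : Subfield ℝ) (q : ℕ) : √(q : ℝ) ∈ ext F q :=
  mem_ext.2 ⟨0, zero_mem _, 1, one_mem _, by ring⟩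

/-- the field generated by the square roots -/
noncomputable def KT : List ℕ → Subfield ℝ
  | [] => ⊥
  | q :: T => ext (KT T) q

theorem mem_bot_rat {x : ℝ} (h : x ∈ (⊥ : Subfield ℝ)) : ∃ r : ℚ, x = r := by
  rw [Subfield.bot_eq_of_charZero] at h
  obtain ⟨r, hr⟩ := h
  exact ⟨r, by rw [← hr]; simp⟩

end Pool.Agent.H92.SR
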