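import Pool.Agent.H92.SR.Fld

/-!
# Module IND: the square roots of the squarefree numbers are linearly independent

PROOFS. `irr`: induction on `T`, all `d`. `T = []`: `√d` is rational (`mem_bot_rat`), so `d` is a square (`irrational_nrt_of_notint_nrt`, `Nat.Prime.irrational_sqrt`.. or `irrational_sqrt_natCast_iff`), a squarefree square is `1`. `T = q :: T'`:
`√d = u + v √q`, `u, v ∈ KT T'`; squaring, `d = u ^ 2 + q v ^ 2 + 2 u v √q`. If `u v ≠ 0` then `√q = (d - u ^ 2 - q v ^ 2) / (2 u v) ∈ KT T'`, against the induction hypothesis for `q` (`q ∉ T'`, different primes do not divide each other). If `v = 0`,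
`√d = u ∈ KT T'`, against the induction hypothesis. If `u = 0`: `√(d q) = √d * √q = v q ∈ KT T'`, and `d * q` is squarefree (`Nat.squarefree_mul`, `q ∤ d`), larger than one and not divisible by the primes of `T'`: against the induction hypothesis.
`sqm`: induction on `T`, all `d`: for `T = []` `d = 1` (`Nat.exists_prime_and_dvd`); for `q :: T'`: if `q ∣ d`, `d = q * e`, `e` squarefree, `q ∤ e`: `√d = 0 + √e * √q`; otherwise `le_ext`.
`ind0`: induction on `T`, all `D`, `c`. `T = []`: all `d ∈ D` are `1`, the sum is `c 1` or empty. `T = q :: T'`: `∑ = A + B √q`, `A = ∑ d ∈ D, q ∤ d`, `B = ∑ e ∈ (D.filter (q ∣ ·)).image (· / q), c (q * e) √e`, both in `KT T'` (`sqm`, `intCast_mem`);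
if `B ≠ 0` then `√q = - A / B ∈ KT T'`, against `irr` (`d = q`); so `B = 0`, `A = 0`, and the induction hypothesis for both.
`ind`: `T` = the list of the primes dividing an element of `D` (`D.biUnion Nat.primeFactors`, `Finset.toList`, `Finset.nodup_toList`).
-/

set_option autoImplicit false

namespace Pool.Agent.H92.SR

theorem irr {T : List ℕ} (hT : ∀ q ∈ T, q.Prime) (hnd : T.Nodup) {d : ℕ} (hd : Squarefree d)
    (h1 : 1 < d) (hc : ∀ q ∈ T, ¬ q ∣ d) : √(d : ℝ) ∉ KT T := by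
  induction T generalizing d with
  | nil =>
    intro h
    obtain ⟨r, hr⟩ := mem_bot_rat h
    have hirr : Irrational (√(d : ℝ)) := by
      rw [irrational_sqrt_natCast_iff]
      rintro ⟨m, hm⟩
      have hm1 : m = 1 := Nat.isUnit_iff.1 (hd m ⟨1, by rw [hm]; ring⟩)
      subst hm1
      omega
    exact hirr ⟨r, hr.symm⟩
  | cons q T' ih =>
    intro h
    have hT' : ∀ p ∈ T', p.Prime := fun p hp => hT p (List.mem_cons_of_mem _ hp)
    have hq : q.Prime := hT q (List.mem_cons_self ..)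
    have hqT : q ∉ T' := (List.nodup_cons.1 hnd).1
    have hnd' := (List.nodup_cons.1 hnd).2
    have hqd : ¬ q ∣ d := hc q (List.mem_cons_self ..)
    have hc' : ∀ p ∈ T', ¬ p ∣ d := fun p hp => hc p (List.mem_cons_of_mem _ hp)
    have hqn : √(q : ℝ) ∉ KT T' := by
      refine ih hT' hnd' (Nat.Prime.prime hq).squarefree hq.one_lt fun p hp hpq => ?_
      rw [Nat.prime_dvd_prime_iff_eq (hT' p hp) hq] at hpq
      exact hqT (hpq ▸ hp)
    obtain ⟨u, hu, v, hv, he⟩ := mem_ext.1 h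
    have hsq : √(d : ℝ) * √(d : ℝ) = d := Real.mul_self_sqrt (Nat.cast_nonneg d)
    have hsqq : √(q : ℝ) * √(q : ℝ) = q := Real.mul_self_sqrt (Nat.cast_nonneg q)
    by_cases hv0 : v = 0
    · have h2 : √(d : ℝ) = u := by rw [he, hv0]; ring
      exact ih hT' hnd' hd h1 hc' (h2 ▸ hu)
    by_cases hu0 : u = 0
    · have h2 : √((d * q : ℕ) : ℝ) = v * q := by
        rw [Nat.cast_mul, Real.sqrt_mul (Nat.cast_nonneg d), he, hu0, zero_add, mul_assoc, hsqq]
      have hcop : Nat.Coprime d q := ((Nat.Prime.coprime_iff_not_dvd hq).2 hqd).symm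
      refine ih hT' hnd' (d := d * q)
        ((Nat.squarefree_mul hcop).2 ⟨hd, (Nat.Prime.prime hq).squarefree⟩) ?_ ?_ ?_
      · exact Nat.lt_of_lt_of_le h1 (Nat.le_mul_of_pos_right _ hq.pos)
      · intro p hp hpd
        rcases (hT' p hp).dvd_mul.1 hpd with h | h
        · exact hc' p hp h
        · rw [Nat.prime_dvd_prime_iff_eq (hT' p hp) hq] at h
          exact hqT (h ▸ hp)
      · rw [h2]
        exact mul_mem hv (natCast_mem _ q)
    · apply hqn
      have huv : 2 * u * v ≠ 0 := mul_ne_zero (mul_ne_zero two_ne_zero hu0) hv0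
      have h3 : √(q : ℝ) = (d - u ^ 2 - q * v ^ 2) / (2 * u * v) := by
        rw [eq_div_iff huv]
        have h4 : (d : ℝ) = (u + v * √(q : ℝ)) * (u + v * √(q : ℝ)) := by rw [← he, hsq]
        linear_combination -h4 - v ^ 2 * hsqq
      rw [h3]
      refine div_mem (sub_mem (sub_mem (natCast_mem _ d) (pow_mem hu 2))
        (mul_mem (natCast_mem _ q) (pow_mem hv 2))) (mul_mem (mul_mem ?_ hu) hv)
      exact ofNat_mem _ 2

theorem sqm {T : List ℕ} (hT : ∀ q ∈ T, q.Prime) {d : ℕ} (hd : Squarefree d)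
    (hc : ∀ p : ℕ, p.Prime → p ∣ d → p ∈ T) : √(d : ℝ) ∈ KT T := by
  induction T generalizing d with
  | nil =>
    have h1 : d = 1 := by
      by_contra h
      obtain ⟨p, hp, hpd⟩ := Nat.exists_prime_and_dvd h
      exact absurd (hc p hp hpd) (by simp)
    subst h1
    rw [Nat.cast_one, Real.sqrt_one]
    exact one_mem _
  | cons q T' ih =>
    have hT' : ∀ p ∈ T', p.Prime := fun p hp => hT p (List.mem_cons_of_mem _ hp)
    have hq : q.Prime := hT q (List.mem_cons_self ..)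
    by_cases h : q ∣ d
    · obtain ⟨e, rfl⟩ := h
      have he : Squarefree e := hd.squarefree_of_dvd (Dvd.intro_left _ rfl)
      have hqe : ¬ q ∣ e := by
        rintro ⟨f, rfl⟩
        have := hd q ⟨f, by ring⟩
        exact hq.one_lt.ne' (Nat.isUnit_iff.1 this)
      have hm : √(e : ℝ) ∈ KT T' := ih hT' he (fun p hp hpe => by
        rcases List.mem_cons.1 (hc p hp (Dvd.dvd.mul_left hpe q)) with h | h
        · exact absurd (h ▸ hpe) hqe
        · exact h)
      refine mem_ext.2 ⟨0, zero_mem _, _, hm, ?_⟩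
      rw [Nat.cast_mul, Real.sqrt_mul (Nat.cast_nonneg q)]
      ring
    · refine le_ext _ _ (ih hT' hd fun p hp hpd => ?_)
      rcases List.mem_cons.1 (hc p hp hpd) with h' | h'
      · exact absurd (h' ▸ hpd) h
      · exact h'

theorem ind0 {T : List ℕ} (hT : ∀ q ∈ T, q.Prime) (hnd : T.Nodup) {D : Finset ℕ}
    (hD : ∀ d ∈ D, Squarefree d) (hc : ∀ d ∈ D, ∀ p : ℕ, p.Prime → p ∣ d → p ∈ T) (c : ℕ → ℤ)
    (h : ∑ d ∈ D, (c d : ℝ) * √(d : ℝ) = 0) : ∀ d ∈ D, c d = 0 := by
  induction T generalizing D c with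
  | nil =>
    have h1 : ∀ d ∈ D, d = 1 := fun d hd => by
      by_contra h
      obtain ⟨p, hp, hpd⟩ := Nat.exists_prime_and_dvd h
      exact absurd (hc d hd p hp hpd) (by simp)
    intro d hd
    have hD1 : D = {1} := by
      ext x
      simp only [Finset.mem_singleton]
      exact ⟨h1 x, fun hx => by rw [hx, ← h1 d hd]; exact hd⟩
    rw [hD1, Finset.sum_singleton, Nat.cast_one, Real.sqrt_one, mul_one] at h
    rw [h1 d hd]
    exact_mod_cast h
  | cons q T' ih =>
    have hT' : ∀ p ∈ T', p.Prime := fun p hp => hT p (List.mem_cons_of_mem _ hp)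
    have hq : q.Prime := hT q (List.mem_cons_self ..)
    have hqT : q ∉ T' := (List.nodup_cons.1 hnd).1
    have hnd' := (List.nodup_cons.1 hnd).2
    have hqn : √(q : ℝ) ∉ KT T' := by
      refine irr hT' hnd' (Nat.Prime.prime hq).squarefree hq.one_lt fun p hp hpq => ?_
      rw [Nat.prime_dvd_prime_iff_eq (hT' p hp) hq] at hpq
      exact hqT (hpq ▸ hp)
    have hE : ∀ e ∈ (D.filter (q ∣ ·)).image (· / q), q * e ∈ D := by
      intro e he
      obtain ⟨d, hd, rfl⟩ := Finset.mem_image.1 he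
      obtain ⟨hd1, f, rfl⟩ := Finset.mem_filter.1 hd
      simp only [Nat.mul_div_cancel_left _ hq.pos]
      exact hd1
    have hqe : ∀ e ∈ (D.filter (q ∣ ·)).image (· / q), ¬ q ∣ e := by
      rintro e he ⟨f, rfl⟩
      have := hD _ (hE _ he) q ⟨f, by ring⟩
      exact hq.one_lt.ne' (Nat.isUnit_iff.1 this)
    have hEs : ∀ e ∈ (D.filter (q ∣ ·)).image (· / q), Squarefree e := fun e he =>
      (hD _ (hE e he)).squarefree_of_dvd (Dvd.intro_left _ rfl)
    have hEc : ∀ e ∈ (D.filter (q ∣ ·)).image (· / q), ∀ p : ℕ, p.Prime → p ∣ e → p ∈ T' := by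
      intro e he p hp hpe
      rcases List.mem_cons.1 (hc _ (hE e he) p hp (Dvd.dvd.mul_left hpe q)) with h | h
      · exact absurd (h ▸ hpe) (hqe e he)
      · exact h
    have hDc : ∀ d ∈ D.filter (fun d => ¬ q ∣ d), ∀ p : ℕ, p.Prime → p ∣ d → p ∈ T' := by
      intro d hd p hp hpd
      rcases List.mem_cons.1 (hc _ (Finset.mem_filter.1 hd).1 p hp hpd) with h | h
      · exact absurd (h ▸ hpd) (Finset.mem_filter.1 hd).2
      · exact h
    have hDs : ∀ d ∈ D.filter (fun d => ¬ q ∣ d), Squarefree d := fun d hd =>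
      hD d (Finset.mem_filter.1 hd).1
    have hsplit : ∑ d ∈ D, (c d : ℝ) * √(d : ℝ)
        = (∑ e ∈ (D.filter (q ∣ ·)).image (· / q), (c (q * e) : ℝ) * √(e : ℝ)) * √(q : ℝ)
          + ∑ d ∈ D.filter (fun d => ¬ q ∣ d), (c d : ℝ) * √(d : ℝ) := by
      rw [← Finset.sum_filter_add_sum_filter_not D (q ∣ ·)]
      congr 1
      rw [Finset.sum_image, Finset.sum_mul]
      · refine Finset.sum_congr rfl fun d hd => ?_
        obtain ⟨e, rfl⟩ := (Finset.mem_filter.1 hd).2
        rw [Nat.mul_div_cancel_left e hq.pos, Nat.cast_mul, Real.sqrt_mul (Nat.cast_nonneg q)]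
        ring
      · intro a ha b hb hab
        obtain ⟨e, rfl⟩ := (Finset.mem_filter.1 ha).2
        obtain ⟨f, rfl⟩ := (Finset.mem_filter.1 hb).2
        simp only [Nat.mul_div_cancel_left _ hq.pos] at hab
        rw [hab]
    have hA : ∑ d ∈ D.filter (fun d => ¬ q ∣ d), (c d : ℝ) * √(d : ℝ) ∈ KT T' :=
      sum_mem fun d hd => mul_mem (intCast_mem _ _) (sqm hT' (hDs d hd) (hDc d hd))
    have hB : ∑ e ∈ (D.filter (q ∣ ·)).image (· / q), (c (q * e) : ℝ) * √(e : ℝ) ∈ KT T' :=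
      sum_mem fun d hd => mul_mem (intCast_mem _ _) (sqm hT' (hEs d hd) (hEc d hd))
    rw [hsplit] at h
    have hB0 : ∑ e ∈ (D.filter (q ∣ ·)).image (· / q), (c (q * e) : ℝ) * √(e : ℝ) = 0 := by
      by_contra hB0
      apply hqn
      have h3 : √(q : ℝ) = (-∑ d ∈ D.filter (fun d => ¬ q ∣ d), (c d : ℝ) * √(d : ℝ))
          / ∑ e ∈ (D.filter (q ∣ ·)).image (· / q), (c (q * e) : ℝ) * √(e : ℝ) := by
        rw [eq_div_iff hB0]
        linarith [h, mul_comm (∑ e ∈ (D.filter (q ∣ ·)).image (· / q),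
          (c (q * e) : ℝ) * √(e : ℝ)) √(q : ℝ)]
      rw [h3]
      exact div_mem (neg_mem hA) hB
    rw [hB0, zero_mul, zero_add] at h
    have r1 := ih hT' hnd' hDs hDc c h
    have r2 := ih hT' hnd' hEs hEc (fun e => c (q * e)) hB0
    intro d hd
    by_cases hqd : q ∣ d
    · obtain ⟨e, rfl⟩ := hqd
      exact r2 e (Finset.mem_image.2 ⟨q * e, Finset.mem_filter.2 ⟨hd, Dvd.intro _ rfl⟩,
        Nat.mul_div_cancel_left e hq.pos⟩)
    · exact r1 d (Finset.mem_filter.2 ⟨hd, hqd⟩)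

theorem ind {D : Finset ℕ} (hD : ∀ d ∈ D, Squarefree d) (c : ℕ → ℤ)
    (h : ∑ d ∈ D, (c d : ℝ) * √(d : ℝ) = 0) : ∀ d ∈ D, c d = 0 := by
  refine ind0 (T := (D.biUnion Nat.primeFactors).toList) ?_ (Finset.nodup_toList _) hD ?_ c h
  · intro q hq
    rw [Finset.mem_toList, Finset.mem_biUnion] at hq
    obtain ⟨d, _, hd⟩ := hq
    exact Nat.prime_of_mem_primeFactors hd
  · intro d hd p hp hpd
    rw [Finset.mem_toList, Finset.mem_biUnion]
    exact ⟨d, hd, Nat.mem_primeFactors.2 ⟨hp, hpd, (hD d hd).ne_zero⟩⟩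

end Pool.Agent.H92.SR
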