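import Mathlib

/-!
# Module LocPow (THEOREM SR, part A): the congruence `(∑ x)^p = ∑ x^p mod p`, as an inequality

`p` is odd, so `c^p = c` for `c ∈ {0, 1, -1}`; put `x i = (c i) (u i)`, `v (x i) ≤ v (u i) ≤ B` (`v (c i) ≤ 1`).
Claim (induction over the finite set `s`, for all `x` with `v (x i) ≤ B` on `s`):
`v ((∑ x i)^p - ∑ (x i)^p) ≤ v p * B^p`. Step: `(a + y)^p - a^p - y^p = ∑_{0 < m < p} choose p m a^m y^(p-m)`
(`add_pow`; the terms `m = 0, p` are split off), `p ∣ choose p m`, the integer `choose p m / p` has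
`v ≤ 1` (`IsNonarchimedean.apply_natCast_le_one`), `v a, v y ≤ B` (`y` the sum over the smaller set: ultrametric
inequality), so each term is `≤ v p * B^m * B^(p-m)`; the sum of terms by the ultrametric inequality (helper
lemma `ksb_sum` in `Pool/Agent/H72/PL/KSb.lean` may be copied or imported).
For `∑ x i = 0` this is the statement.
-/

set_option autoImplicit false

namespace Pool.Agent.H92.SR

private theorem lp_sum {L : Type} [Field L] (v : AbsoluteValue L ℝ) (hv : IsNonarchimedean v)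
    {ι : Type} (s : Finset ι) (f : ι → L) (B : ℝ) (hB0 : 0 ≤ B) (hB : ∀ i ∈ s, v (f i) ≤ B) :
    v (∑ i ∈ s, f i) ≤ B := by
  classical
  induction s using Finset.induction_on with
  | empty => rw [Finset.sum_empty, map_zero]; exact hB0
  | insert a s ha ih =>
    rw [Finset.sum_insert ha]
    exact le_trans (hv _ _) (max_le (hB a (Finset.mem_insert_self a s))
      (ih fun i hi => hB i (Finset.mem_insert_of_mem hi)))

private theorem lp_step {L : Type} [Field L] (v : AbsoluteValue L ℝ) (hv : IsNonarchimedean v)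
    (p : ℕ) (hp : p.Prime) (B : ℝ) (hB0 : 0 ≤ B) (x y : L) (hx : v x ≤ B) (hy : v y ≤ B) :
    v ((x + y) ^ p - x ^ p - y ^ p) ≤ v (p : L) * B ^ p := by
  have e : (x + y) ^ p - x ^ p - y ^ p =
      (p : L) * ∑ k ∈ Finset.Ioo 0 p, x ^ k * y ^ (p - k) * ((p.choose k / p : ℕ) : L) := by
    rw [add_pow_prime_eq' hp x y]
    ring
  rw [e, map_mul]
  refine mul_le_mul_of_nonneg_left ?_ (v.nonneg _)
  refine lp_sum v hv _ _ _ (pow_nonneg hB0 p) ?_
  intro k hk
  rw [Finset.mem_Ioo] at hk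
  rw [map_mul, map_mul, map_pow, map_pow]
  have h1 : v x ^ k ≤ B ^ k := pow_le_pow_left₀ (v.nonneg _) hx k
  have h2 : v y ^ (p - k) ≤ B ^ (p - k) := pow_le_pow_left₀ (v.nonneg _) hy (p - k)
  have h3 : v ((p.choose k / p : ℕ) : L) ≤ 1 := IsNonarchimedean.apply_natCast_le_one hv
  have h4 : v x ^ k * v y ^ (p - k) ≤ B ^ k * B ^ (p - k) :=
    mul_le_mul h1 h2 (pow_nonneg (v.nonneg _) _) (pow_nonneg hB0 _)
  have h5 : B ^ k * B ^ (p - k) = B ^ p := by
    rw [← pow_add, Nat.add_sub_cancel' hk.2.le]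
  rw [h5] at h4
  calc v x ^ k * v y ^ (p - k) * v ((p.choose k / p : ℕ) : L) ≤ B ^ p * 1 :=
        mul_le_mul h4 h3 (v.nonneg _) (pow_nonneg hB0 _)
    _ = B ^ p := mul_one _

private theorem lp_main {L : Type} [Field L] (v : AbsoluteValue L ℝ) (hv : IsNonarchimedean v)
    (p : ℕ) (hp : p.Prime) {ι : Type} (s : Finset ι) (x : ι → L) (B : ℝ) (hB0 : 0 ≤ B)
    (hB : ∀ i ∈ s, v (x i) ≤ B) :
    v ((∑ i ∈ s, x i) ^ p - ∑ i ∈ s, x i ^ p) ≤ v (p : L) * B ^ p := by
  classical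
  induction s using Finset.induction_on with
  | empty =>
    rw [Finset.sum_empty, Finset.sum_empty, zero_pow hp.ne_zero, sub_zero, map_zero]
    exact mul_nonneg (v.nonneg _) (pow_nonneg hB0 _)
  | insert a s ha ih =>
    have ih' := ih fun i hi => hB i (Finset.mem_insert_of_mem hi)
    rw [Finset.sum_insert ha, Finset.sum_insert ha]
    have h1 := lp_step v hv p hp B hB0 (x a) (∑ i ∈ s, x i) (hB a (Finset.mem_insert_self a s))
      (lp_sum v hv s x B hB0 fun i hi => hB i (Finset.mem_insert_of_mem hi))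
    have e : (x a + ∑ i ∈ s, x i) ^ p - (x a ^ p + ∑ i ∈ s, x i ^ p) =
        ((x a + ∑ i ∈ s, x i) ^ p - x a ^ p - (∑ i ∈ s, x i) ^ p) +
          ((∑ i ∈ s, x i) ^ p - ∑ i ∈ s, x i ^ p) := by ring
    rw [e]
    exact le_trans (hv _ _) (max_le h1 ih')

theorem loc_pow {L : Type} [Field L] (v : AbsoluteValue L ℝ) (hv : IsNonarchimedean v)
    (p : ℕ) (hp : p.Prime) (hp2 : p ≠ 2) {ι : Type} (s : Finset ι) (c : ι → ℤ)
    (hc : ∀ i, c i = 0 ∨ c i = 1 ∨ c i = -1) (u : ι → L) (B : ℝ) (hB0 : 0 ≤ B)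
    (hB : ∀ i ∈ s, v (u i) ≤ B) (h0 : ∑ i ∈ s, (c i : L) * u i = 0) :
    v (∑ i ∈ s, (c i : L) * u i ^ p) ≤ v (p : L) * B ^ p := by
  have hx : ∀ i ∈ s, v ((c i : L) * u i) ≤ B := by
    intro i hi
    rw [map_mul]
    have h1 : v ((c i : ℤ) : L) ≤ 1 := IsNonarchimedean.apply_intCast_le_one hv
    calc v ((c i : ℤ) : L) * v (u i) ≤ 1 * B := mul_le_mul h1 (hB i hi) (v.nonneg _) zero_le_one
      _ = B := one_mul B
  have h1 := lp_main v hv p hp s (fun i => (c i : L) * u i) B hB0 hx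
  have hodd : Odd p := hp.odd_of_ne_two hp2
  have hcp : ∀ i, ((c i : L) * u i) ^ p = (c i : L) * u i ^ p := by
    intro i
    rw [mul_pow]
    congr 1
    rcases hc i with h | h | h
    · rw [h, Int.cast_zero, zero_pow hp.ne_zero]
    · rw [h, Int.cast_one, one_pow]
    · rw [h, Int.cast_neg, Int.cast_one, hodd.neg_one_pow]
  simp only [hcp] at h1
  rw [h0, zero_pow hp.ne_zero, zero_sub, map_neg_eq_map] at h1
  exact h1

end Pool.Agent.H92.SR
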