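import Pool.Agent.H92.SR.Defs
import Pool.Agent.H72.RM.Gam
import Pool.Agent.H72.RM.Basis

/-!
# Module Span (THEOREM SR, part C): radicals in `N(Δ)` lie in `Δ N`

`Δ` is a set of nonzero elements closed under multiplication, containing `1`, all of whose elements have a power
in `N`. Step 1: `z ∈ N ⊔ K(Δ)` is a finite sum `z = ∑_{i ∈ s} y_i γ_i`, `y_i ∈ N`, `γ_i ∈ Δ`:
`N ⊔ K(Δ) = (adjoin N Δ).restrictScalars K` (`IntermediateField.restrictScalars_adjoin_eq_sup` or `adjoin_le_iff`),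
all elements of `Δ` are algebraic over `N`, so `(adjoin N Δ).toSubalgebra = Algebra.adjoin N Δ`
(`IntermediateField.adjoin_toSubalgebra_of_isAlgebraic`-like lemma; names vary) and
`Algebra.adjoin N Δ = span N (Submonoid.closure Δ) = span N Δ` (`Algebra.adjoin_eq_span`).
(Alternative: the set of such sums is a subring containing `N` and `Δ` whose elements are algebraic over `N`.)
Step 2: let `G = N.fixingSubgroup` (automorphisms of `Ω / K` fixing `N`). For `γ ≠ 0` with `γ^m ∈ N`, `m ≥ 1`: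
`χ_γ(g) = g γ / γ` is a root of unity, hence in `N` and fixed by `G`, so `χ_γ : G →* Ω` is a monoid homomorphism
(`g h γ = g (χ(h) γ) = χ(h) χ(g) γ`). Applying `g` to `z = ∑ y_i γ_i`: `χ_z(g) z = ∑ y_i γ_i χ_{γ_i}(g)` for all `g`.
So `χ_z = ∑ (y_i γ_i / z) χ_{γ_i}` as functions `G → Ω`; by Dedekind's theorem (`linearIndependent_monoidHom G Ω`,
and `LinearIndependent.notMem_span_image`) `χ_z = χ_{γ_i}` for some `i ∈ s`. Then `z / γ_i` is fixed by `G`, so it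
lies in `N` (`Pool.Agent.H72.RM.mem_of_fixed`).
-/

set_option autoImplicit false
set_option linter.unusedSectionVars false

open NumberField IntermediateField

namespace Pool.Agent.H92.SR

open Pool.Agent.H72.RM Pool.Agent.H72.PB

variable {K Ω : Type} [Field K] [NumberField K] [Field Ω] [CharZero Ω] [IsAlgClosed Ω]
  [Algebra K Ω] [IsGalois K Ω]

private theorem fx (N : IntermediateField K Ω) (g : Ω ≃ₐ[K] Ω) (hg : g ∈ N.fixingSubgroup) (x : Ω)
    (hx : x ∈ N) : g x = x := (IntermediateField.mem_fixingSubgroup_iff N g).1 hg x hx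

private theorem chi_tor (N : IntermediateField K Ω) (γ : Ω) (hγ : γ ≠ 0)
    (h : ∃ m : ℕ, 1 ≤ m ∧ γ ^ m ∈ N) (g : Ω ≃ₐ[K] Ω) (hg : g ∈ N.fixingSubgroup) :
    Tor (g γ / γ) := by
  obtain ⟨m, hm, hγm⟩ := h
  refine ⟨m, hm, ?_⟩
  rw [div_pow, ← map_pow, fx N g hg _ hγm, div_self (pow_ne_zero _ hγ)]

/-- the character of a radical -/
private noncomputable def chi (N : IntermediateField K Ω) (hN : HasTor N) (γ : Ω) (hγ : γ ≠ 0)
    (h : ∃ m : ℕ, 1 ≤ m ∧ γ ^ m ∈ N) : N.fixingSubgroup →* Ω where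
  toFun g := (g : Ω ≃ₐ[K] Ω) γ / γ
  map_one' := by
    simp [div_self hγ]
  map_mul' g g' := by
    have h1 : (g' : Ω ≃ₐ[K] Ω) γ = ((g' : Ω ≃ₐ[K] Ω) γ / γ) * γ := by
      rw [div_mul_cancel₀ _ hγ]
    have h2 : (g : Ω ≃ₐ[K] Ω) ((g' : Ω ≃ₐ[K] Ω) γ / γ) = (g' : Ω ≃ₐ[K] Ω) γ / γ :=
      fx N g g.2 _ (hN _ (chi_tor N γ hγ h g' g'.2))
    have h3 : ((g * g' : N.fixingSubgroup) : Ω ≃ₐ[K] Ω) γ
        = ((g' : Ω ≃ₐ[K] Ω) γ / γ) * (g : Ω ≃ₐ[K] Ω) γ := by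
      have h4 : ((g * g' : N.fixingSubgroup) : Ω ≃ₐ[K] Ω) γ
          = (g : Ω ≃ₐ[K] Ω) ((g' : Ω ≃ₐ[K] Ω) γ) := rfl
      rw [h4]
      conv_lhs => rw [h1]
      rw [map_mul, h2]
    rw [h3]
    ring

private theorem in_span (N : IntermediateField K Ω) (Δ : Set Ω) (h1 : (1 : Ω) ∈ Δ)
    (hmul : ∀ x ∈ Δ, ∀ y ∈ Δ, x * y ∈ Δ)
    (hrad : ∀ x ∈ Δ, ∃ m : ℕ, 1 ≤ m ∧ x ^ m ∈ N) (z : Ω)
    (hz : z ∈ N ⊔ IntermediateField.adjoin K Δ) : z ∈ Submodule.span N Δ := by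
  have hcl : (Submonoid.closure Δ : Set Ω) ⊆ (Submodule.span N Δ : Set Ω) := by
    let D : Submonoid Ω := ⟨⟨Δ, fun {x y} hx hy => hmul x hx y hy⟩, h1⟩
    have h : Submonoid.closure Δ ≤ D := Submonoid.closure_le.2 (fun x hx => hx)
    intro x hx
    exact Submodule.subset_span (h hx)
  have h2 := Algebra.adjoin_eq_span_of_subset N hcl
  have halg : ∀ x ∈ Δ, IsAlgebraic N x := by
    intro x hx
    obtain ⟨m, hm, hxm⟩ := hrad x hx
    have h3 : IsIntegral N (x ^ m) := by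
      have : x ^ m = algebraMap N Ω ⟨x ^ m, hxm⟩ := rfl
      rw [this]
      exact isIntegral_algebraMap
    exact (IsIntegral.of_pow (by omega) h3).isAlgebraic
  have h4 := IntermediateField.adjoin_toSubalgebra_of_isAlgebraic halg
  rw [← IntermediateField.restrictScalars_adjoin_eq_sup] at hz
  have h5 : z ∈ IntermediateField.adjoin N Δ := hz
  have h6 : z ∈ (IntermediateField.adjoin N Δ).toSubalgebra := h5
  rw [h4] at h6
  have h7 : z ∈ Subalgebra.toSubmodule (Algebra.adjoin N Δ) := h6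
  rw [h2] at h7
  exact h7

theorem span_rad (N : IntermediateField K Ω) (hN : HasTor N) (Δ : Set Ω) (h1 : (1 : Ω) ∈ Δ)
    (hmul : ∀ x ∈ Δ, ∀ y ∈ Δ, x * y ∈ Δ) (h0 : ∀ x ∈ Δ, x ≠ 0)
    (hrad : ∀ x ∈ Δ, ∃ m : ℕ, 1 ≤ m ∧ x ^ m ∈ N) (z : Ω) (hz0 : z ≠ 0)
    (hz : z ∈ N ⊔ IntermediateField.adjoin K Δ) (m : ℕ) (hm : 1 ≤ m) (hzm : z ^ m ∈ N) :
    ∃ γ ∈ Δ, ∃ y ∈ N, z = γ * y := by
  classical
  have hsp := in_span N Δ h1 hmul hrad z hz
  rw [Submodule.mem_span_set'] at hsp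
  obtain ⟨n, f, w, hw⟩ := hsp
  let X : N.fixingSubgroup →* Ω := chi N hN z hz0 ⟨m, hm, hzm⟩
  let Y : Fin n → (N.fixingSubgroup →* Ω) := fun i =>
    chi N hN (w i : Ω) (h0 _ (w i).2) (hrad _ (w i).2)
  have hli := linearIndependent_monoidHom N.fixingSubgroup Ω
  have hmem : (X : N.fixingSubgroup → Ω) ∈
      Submodule.span Ω ((fun F : N.fixingSubgroup →* Ω => (F : N.fixingSubgroup → Ω)) '' Set.range Y) := by
    have heq : (X : N.fixingSubgroup → Ω)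
        = ∑ i, ((f i : Ω) * (w i : Ω) / z) • (Y i : N.fixingSubgroup → Ω) := by
      funext g
      rw [Finset.sum_apply]
      have e1 : X g = (g : Ω ≃ₐ[K] Ω) z / z := rfl
      have e2 : ∀ i, Y i g = (g : Ω ≃ₐ[K] Ω) (w i : Ω) / (w i : Ω) := fun i => rfl
      rw [e1]
      have e3 : (g : Ω ≃ₐ[K] Ω) z = ∑ i, (f i : Ω) * (g : Ω ≃ₐ[K] Ω) (w i : Ω) := by
        conv_lhs => rw [← hw]
        rw [map_sum]
        refine Finset.sum_congr rfl (fun i _ => ?_)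
        have e4 : f i • (w i : Ω) = (f i : Ω) * (w i : Ω) := rfl
        rw [e4, map_mul, fx N g g.2 _ (f i).2]
      rw [e3, Finset.sum_div]
      refine Finset.sum_congr rfl (fun i _ => ?_)
      rw [Pi.smul_apply, e2, smul_eq_mul]
      have hwi : (w i : Ω) ≠ 0 := h0 _ (w i).2
      field_simp
    rw [heq]
    refine Submodule.sum_mem _ (fun i _ => Submodule.smul_mem _ _ (Submodule.subset_span ?_))
    exact ⟨Y i, ⟨i, rfl⟩, rfl⟩
  have hX : X ∈ Set.range Y := by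
    by_contra hcon
    exact hli.notMem_span_image hcon hmem
  obtain ⟨i, hi⟩ := hX
  have hwi : (w i : Ω) ≠ 0 := h0 _ (w i).2
  refine ⟨(w i : Ω), (w i).2, z / (w i : Ω), ?_, by field_simp⟩
  apply mem_of_fixed N
  intro σ hσ
  have hσ' : σ ∈ N.fixingSubgroup := (IntermediateField.mem_fixingSubgroup_iff N σ).2 hσ
  have e1 : Y i ⟨σ, hσ'⟩ = X ⟨σ, hσ'⟩ := by rw [hi]
  have e2 : Y i ⟨σ, hσ'⟩ = σ (w i : Ω) / (w i : Ω) := rfl
  have e3 : X ⟨σ, hσ'⟩ = σ z / z := rfl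
  rw [e2, e3] at e1
  have hσw : σ (w i : Ω) ≠ 0 := by
    intro h
    exact hwi (by simpa using h)
  rw [map_div₀]
  rw [div_eq_div_iff hσw hwi]
  rw [div_eq_div_iff hwi hz0] at e1
  linear_combination -e1

end Pool.Agent.H92.SR
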