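import Pool.Agent.H92.SR.EigTor

/-!
# Module Struct (THEOREM SR, part B, Lemma S): structure of short sums of radicals of small height

`ε` from `eig_tor K Ω s`. Let `n` be minimal such that `α = ∑ i, a i` is a sum of `n` elements `a' : Fin n → Ω` having
powers in `N` (`Nat.find`; `n ≤ s`), `n ≥ 1` since `α ≠ 0`. For a nonempty subset `J` of `Fin n` the sum
`∑_{i ∈ J} a' i` is not zero (otherwise `α` is the sum over the complement, `< n` terms; reindex the complement by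
`Fin (card)`); in particular `a' i ≠ 0`. Put `a₁ = a' 0`, `b j = a' j / a₁`. Claim `(b j)^(s !) ∈ N`: by Galois theory
(`Pool.Agent.H72.RM.mem_of_fixed N _ : (∀ σ : Ω ≃ₐ[K] Ω, (∀ x ∈ N, σ x = x) → σ y = y) → y ∈ N`) let `g` fix `N`.
`x_i = g (a' i) / a' i` is a root of unity (`(a' i)^m ∈ N`), `X = {x_i}` (`Finset.univ.image`, `≤ n ≤ s` elements),
`A x = ∑_{i : x_i = x} a' i ≠ 0`, `g (A x) = x * A x`, `∑_{x ∈ X} A x = α` (`Finset.sum_fiberwise`). `g` fixes the roots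
of unity (`hN`). `eig_tor`: `x_j^(s !) = x_0^(s !)`, so
`g ((b j)^(s !)) = (x_j / x_0)^(s !) (b j)^(s !) = (b j)^(s !)`.
-/

set_option autoImplicit false
set_option linter.unusedSectionVars false

open NumberField Module

namespace Pool.Agent.H92.SR

variable {K Ω : Type} [Field K] [NumberField K] [Field Ω] [CharZero Ω] [IsAlgClosed Ω]
  [Algebra K Ω] [IsGalois K Ω]

/-- subsums of a shortest representation do not vanish -/
private theorem sub_ne {Ω : Type} [Field Ω] (Q : Ω → Prop) (α : Ω) (n : ℕ)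
    (a' : Fin n → Ω) (hQ : ∀ i, Q (a' i)) (hs : ∑ i, a' i = α)
    (hmin : ∀ m, m < n → ¬ ∃ c : Fin m → Ω, (∀ i, Q (c i)) ∧ ∑ i, c i = α)
    (J : Finset (Fin n)) (hJ : J.Nonempty) : ∑ i ∈ J, a' i ≠ 0 := by
  classical
  intro h0
  have h1 : ∑ i ∈ Jᶜ, a' i = α := by
    rw [← hs, ← Finset.sum_add_sum_compl J a', h0, zero_add]
  have h2 : (Jᶜ).card < n := by
    rw [Finset.card_compl, Fintype.card_fin]
    have := hJ.card_pos
    have h3 : J.card ≤ n := by
      have := Finset.card_le_univ J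
      simpa using this
    omega
  refine hmin _ h2 ⟨fun i => a' ((Jᶜ).equivFin.symm i).1, fun i => hQ _, ?_⟩
  rw [← h1, ← Finset.sum_coe_sort Jᶜ]
  exact Fintype.sum_equiv (Jᶜ).equivFin.symm _ _ (fun i => rfl)

variable (K Ω) in
theorem struct (s : ℕ) : ∃ ε : ℝ, 0 < ε ∧ ∀ N : IntermediateField K Ω, HasTor N →
    ∀ a : Fin s → Ω, (∀ i, ∃ m : ℕ, 1 ≤ m ∧ a i ^ m ∈ N) → ∑ i, a i ≠ 0 →
    absLogHeight₁ (∑ i, a i) ≤ ε →
    ∃ n : ℕ, n ≤ s ∧ ∃ (a₁ : Ω) (b : Fin n → Ω), a₁ ≠ 0 ∧ (∃ m : ℕ, 1 ≤ m ∧ a₁ ^ m ∈ N) ∧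
      ∑ i, a i = a₁ * ∑ j, b j ∧ ∀ j, b j ^ s.factorial ∈ N := by
  classical
  obtain ⟨ε, hε, H⟩ := eig_tor K Ω s
  refine ⟨ε, hε, fun N hN a ha hne hh => ?_⟩
  set α : Ω := ∑ i, a i with hα
  have hex : ∃ n : ℕ, ∃ c : Fin n → Ω, (∀ i, ∃ m : ℕ, 1 ≤ m ∧ c i ^ m ∈ N) ∧ ∑ i, c i = α :=
    ⟨s, a, ha, rfl⟩
  obtain ⟨a', ha', hs'⟩ := Nat.find_spec hex
  have hmin := fun m (hm : m < Nat.find hex) => Nat.find_min hex hm
  have hle : Nat.find hex ≤ s := Nat.find_min' hex ⟨a, ha, rfl⟩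
  generalize Nat.find hex = n at a' ha' hs' hmin hle
  have hn : 0 < n := by
    rcases Nat.eq_zero_or_pos n with h | h
    · subst h
      exact absurd (by rw [← hs']; simp) hne
    · exact h
  have hsub : ∀ J : Finset (Fin n), J.Nonempty → ∑ i ∈ J, a' i ≠ 0 := fun J hJ =>
    sub_ne (fun x => ∃ m : ℕ, 1 ≤ m ∧ x ^ m ∈ N) α n a' ha' hs' hmin J hJ
  have ha0 : ∀ i, a' i ≠ 0 := fun i => by
    have := hsub {i} (Finset.singleton_nonempty i)
    simpa using this
  let i₀ : Fin n := ⟨0, hn⟩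
  refine ⟨n, hle, a' i₀, fun j => a' j / a' i₀, ha0 i₀, ha' i₀, ?_, ?_⟩
  · rw [← hs', Finset.mul_sum]
    refine Finset.sum_congr rfl (fun j _ => ?_)
    rw [mul_div_cancel₀ _ (ha0 i₀)]
  · intro j
    refine Pool.Agent.H72.RM.mem_of_fixed N _ (fun g hg => ?_)
    let x : Fin n → Ω := fun i => g (a' i) / a' i
    have hgx : ∀ i, g (a' i) = x i * a' i := fun i => by
      simp only [x]
      rw [div_mul_cancel₀ _ (ha0 i)]
    have hx : ∀ i, Tor (x i) := fun i => by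
      obtain ⟨m, hm, hmN⟩ := ha' i
      refine ⟨m, hm, ?_⟩
      have h1 : g (a' i) ^ m = a' i ^ m := by rw [← map_pow]; exact hg _ hmN
      simp only [x, div_pow, h1]
      exact div_self (pow_ne_zero _ (ha0 i))
    have hgt : ∀ y : Ω, Tor y → g y = y := fun y hy => hg y (hN y hy)
    let X : Finset Ω := Finset.univ.image x
    let A : Ω → Ω := fun z => ∑ i ∈ Finset.univ.filter (fun i => x i = z), a' i
    have hcard : X.card ≤ s := by
      refine (Finset.card_image_le).trans ?_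
      simpa using hle
    have hXT : ∀ z ∈ X, Tor z := by
      intro z hz
      obtain ⟨i, _, rfl⟩ := Finset.mem_image.1 hz
      exact hx i
    have hA : ∀ z ∈ X, A z ≠ 0 := by
      intro z hz
      obtain ⟨i, _, rfl⟩ := Finset.mem_image.1 hz
      exact hsub _ ⟨i, by simp⟩
    have hgA : ∀ z ∈ X, g (A z) = z * A z := by
      intro z _
      simp only [A, map_sum, Finset.mul_sum]
      refine Finset.sum_congr rfl (fun i hi => ?_)
      rw [hgx i, (Finset.mem_filter.1 hi).2]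
    have hsum : ∑ z ∈ X, A z = α := by
      rw [← hs']
      exact Finset.sum_fiberwise_of_maps_to (fun i _ => Finset.mem_image_of_mem x (Finset.mem_univ i)) _
    have key := H g hgt X A hcard hXT hA hgA (by rw [hsum]; exact hh) (x j)
      (Finset.mem_image_of_mem x (Finset.mem_univ j)) (x i₀)
      (Finset.mem_image_of_mem x (Finset.mem_univ i₀))
    have hx0 : x i₀ ^ s.factorial ≠ 0 := by
      refine pow_ne_zero _ (fun h => ?_)
      obtain ⟨m, hm, hm1⟩ := hx i₀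
      rw [h, zero_pow (by omega)] at hm1
      exact zero_ne_one hm1
    rw [map_pow, map_div₀, hgx j, hgx i₀, div_pow, div_pow, mul_pow, mul_pow, key,
      mul_div_mul_left _ _ hx0]

end Pool.Agent.H92.SR
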