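import Pool.Agent.H92.SR.BPrime
import Pool.Agent.H92.SR.Struct
import Pool.Agent.H92.SR.DegLow
import Pool.Agent.H92.SR.Span
import Pool.Agent.H92.SR.DgTower

/-!
# Module MainB (THEOREM SR, part F): the theorem over a base with a basis `b`

`ε` from `struct K Ω s`, `c₁` from `b_prime` for `D = d^s * (s !)^s` (write `d' = max d 1`; `D = d'^s * (s !)^s`),
`c = min ε c₁`. Let `h = absLogHeight₁ α`, `dg (LS Ω b) α ≥ 1` (`dg_pos`).
If `h > ε`: `c ≤ ε ≤ h ≤ dg * h`. Let `h ≤ ε`. Choose `m i ≥ 1` with `dg NS (a i ^ m i) ≤ d`, `u i = a i ^ m i`,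
`N' = NS ⊔ adjoin K (range u)`: `HasTor N'` (`hasTor_NS`). `struct` for `N'`: `n ≤ s`, `a₁ ≠ 0`, `a₁^m' ∈ N'`, `bb : Fin n → Ω`,
`α = a₁ ∑ bb j`, `(bb j)^(s !) ∈ N'`. `N'' = N' ⊔ adjoin K (range bb)`. For `z ∈ N''`: `dg N'' z = 1` (`Orb = {z}`),
`dg N' (bb j) ≤ s !` (`dg_le_of_poly` with `X^(s !) - C ((bb j)^(s !))`), so by `dg_tower` twice
`dg NS z ≤ d'^s * dg N' z ≤ d'^s * (s !)^n * 1 ≤ D` (`s ! ≥ 1`, `n ≤ s`).
`L = N'' ⊔ LS Ω b`: `HasTor L`; `α^m' = a₁^m' (∑ bb j)^m' ∈ N'' ≤ L`. `deg_low`: `z := α^(dg L α) ∈ L`. `z^m' ∈ N''`. `span_rad` with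
`N = N''`, `Δ = DivG Ω b` (closed under products: `div_mul`; contains `1`; nonzero as `b i ≠ 0`; every element has a power which is
a product of the `b i`, in `K ≤ N''`): `z = γ y`, `γ ∈ DivG`, `y ∈ N''`, `y ≠ 0`. `z ∉ DivG` (else `α ∈ DivG`, as `dg L α ≥ 1`).
`b_prime`: `c₁ ≤ h(γ y) = h(α^(dg L α)) = dg L α * h ≤ dg (LS Ω b) α * h` (`absLogHeight_pow`, `dg_mono`, `LS ≤ L`).
-/

set_option autoImplicit false
set_option linter.unusedSectionVars false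

open NumberField IntermediateField

namespace Pool.Agent.H92.SR

open Pool.Agent.H72.RM Pool.Agent.H72.PB

variable {K Ω : Type} [Field K] [NumberField K] [Field Ω] [CharZero Ω] [IsAlgClosed Ω]
  [Algebra K Ω] [IsGalois K Ω] {r : ℕ}

private theorem dg_self_of_mem {L : IntermediateField K Ω} {z : Ω} (hz : z ∈ L) : dg L z = 1 := by
  have h : Orb L z = {z} := by
    ext x
    constructor
    · rintro ⟨ρ, hρ, rfl⟩
      exact hρ z hz
    · intro hx
      rw [Set.mem_singleton_iff.1 hx]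
      exact orb_self L z
  unfold dg
  rw [h, Set.ncard_singleton]

private theorem dg_le_of_pow {L : IntermediateField K Ω} {y : Ω} (k : ℕ) (hk : 1 ≤ k)
    (h : y ^ k ∈ L) : dg L y ≤ k := by
  have h1 : (Polynomial.X ^ k - Polynomial.C (y ^ k) : Polynomial Ω).natDegree = k :=
    Polynomial.natDegree_X_pow_sub_C
  have h2 : (Polynomial.X ^ k - Polynomial.C (y ^ k) : Polynomial Ω) ≠ 0 :=
    Polynomial.X_pow_sub_C_ne_zero hk _
  refine (dg_le_of_poly _ h2 (fun i => ?_) ?_).trans h1.le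
  · rw [Polynomial.coeff_sub, Polynomial.coeff_X_pow, Polynomial.coeff_C]
    refine sub_mem ?_ ?_
    · split_ifs
      · exact one_mem _
      · exact zero_mem _
    · split_ifs
      · exact h
      · exact zero_mem _
  · rw [Polynomial.eval_sub, Polynomial.eval_pow, Polynomial.eval_X, Polynomial.eval_C, sub_self]

private theorem div_of_pow {b : Fin r → K} {x : Ω} {k : ℕ} (hk : 1 ≤ k) (h : x ^ k ∈ DivG Ω b) :
    x ∈ DivG Ω b := by
  obtain ⟨N, hN, m, hm⟩ := h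
  exact ⟨k * N, Nat.mul_pos hk hN, m, by rw [pow_mul, hm]⟩

private theorem div_ne_zero' {b : Fin r → K} (hb : ∀ i, b i ≠ 0) {x : Ω} (h : x ∈ DivG Ω b) :
    x ≠ 0 := by
  obtain ⟨N, hN, m, hm⟩ := h
  rintro rfl
  rw [zero_pow (by omega)] at hm
  have h1 : ∏ i, (algebraMap K Ω (b i)) ^ (m i) ≠ 0 := by
    rw [Finset.prod_ne_zero_iff]
    intro i _
    refine zpow_ne_zero _ ?_
    rw [Ne, FaithfulSMul.algebraMap_eq_zero_iff]
    exact hb i
  exact h1 hm.symm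

variable (Ω) in
theorem main_b (b : Fin r → K) (hb : ∀ i, b i ≠ 0)
    (hind : ∀ N : ℕ, 1 ≤ N → ∀ (m : Fin r → ℤ) (y : K), y ^ N = ∏ i, (b i) ^ (m i) →
      ∀ i, (N : ℤ) ∣ m i) (S : Finset ℕ) (hS : ∀ p ∈ S, p.Prime) (hne : S.Nonempty)
    (s d : ℕ) :
    ∃ c : ℝ, 0 < c ∧ ∀ a : Fin s → Ω,
      (∀ i, ∃ m : ℕ, 1 ≤ m ∧ dg (NS Ω b S) (a i ^ m) ≤ d) →
      ∑ i, a i ≠ 0 → ∑ i, a i ∉ DivG Ω b →
      c ≤ (dg (LS Ω b) (∑ i, a i) : ℝ) * absLogHeight₁ (∑ i, a i) := by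
  classical
  obtain ⟨ε, hε, Hst⟩ := struct K Ω s
  set d' := max d 1 with hd'
  obtain ⟨c₁, hc₁, Hb⟩ := b_prime Ω b hb hind S hS hne (d' ^ s * s.factorial ^ s)
  refine ⟨min ε c₁, lt_min hε hc₁, fun a ha hne0 hdiv => ?_⟩
  set α : Ω := ∑ i, a i with hα
  have hh0 : 0 ≤ absLogHeight₁ α := ht_nonneg _
  have hdg1 : (1 : ℝ) ≤ (dg (LS Ω b) α : ℝ) := by exact_mod_cast dg_pos (LS Ω b) α
  by_cases hh : ε < absLogHeight₁ α
  · calc min ε c₁ ≤ ε := min_le_left _ _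
      _ ≤ absLogHeight₁ α := hh.le
      _ = 1 * absLogHeight₁ α := (one_mul _).symm
      _ ≤ _ := mul_le_mul_of_nonneg_right hdg1 hh0
  push Not at hh
  choose m hm hmd using ha
  set N' : IntermediateField K Ω :=
    NS Ω b S ⊔ IntermediateField.adjoin K (Set.range fun i => a i ^ m i) with hN'
  have hT' : HasTor N' := fun x hx =>
    (le_sup_left : NS Ω b S ≤ N') (hasTor_NS b S x hx)
  have haN : ∀ i, ∃ k : ℕ, 1 ≤ k ∧ a i ^ k ∈ N' := fun i => ⟨m i, hm i,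
    (le_sup_right : IntermediateField.adjoin K (Set.range fun i => a i ^ m i) ≤ N')
      (IntermediateField.subset_adjoin K _ ⟨i, rfl⟩)⟩
  obtain ⟨n, hn, a₁, bb, ha₁, ⟨m', hm', hm'N⟩, hsum, hbb⟩ := Hst N' hT' a haN hne0 hh
  set N'' : IntermediateField K Ω := N' ⊔ IntermediateField.adjoin K (Set.range bb) with hN''
  have hle'' : N' ≤ N'' := le_sup_left
  have hfac : 1 ≤ s.factorial := Nat.factorial_pos s
  have hdeg : ∀ z ∈ N'', dg (NS Ω b S) z ≤ d' ^ s * s.factorial ^ s := by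
    intro z hz
    have h1 := dg_tower (NS Ω b S) (fun i => a i ^ m i) d'
      (fun i => (hmd i).trans (le_max_left _ _)) z
    have h2 := dg_tower N' bb s.factorial (fun j => dg_le_of_pow _ hfac (hbb j)) z
    rw [Fintype.card_fin] at h1 h2
    have h3 : dg N'' z = 1 := dg_self_of_mem hz
    rw [← hN'', h3, mul_one] at h2
    rw [← hN'] at h1
    calc dg (NS Ω b S) z ≤ d' ^ s * dg N' z := h1
      _ ≤ d' ^ s * s.factorial ^ n := Nat.mul_le_mul_left _ h2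
      _ ≤ d' ^ s * s.factorial ^ s := Nat.mul_le_mul_left _ (Nat.pow_le_pow_right hfac hn)
  set L : IntermediateField K Ω := N'' ⊔ LS Ω b with hL
  have hTL : HasTor L := fun x hx => (le_sup_left : N'' ≤ L) (hle'' (hT' x hx))
  have hsumN : ∑ j, bb j ∈ N'' := sum_mem fun j _ =>
    (le_sup_right : IntermediateField.adjoin K (Set.range bb) ≤ N'')
      (IntermediateField.subset_adjoin K _ ⟨j, rfl⟩)
  have hαm : α ^ m' ∈ N'' := by
    rw [show α = a₁ * ∑ j, bb j from hsum, mul_pow]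
    exact mul_mem (hle'' hm'N) (pow_mem hsumN _)
  have hαL := deg_low L hTL α hne0 m' hm' ((le_sup_left : N'' ≤ L) hαm)
  have hdgL : 1 ≤ dg L α := dg_pos L α
  set z : Ω := α ^ dg L α with hz
  have hz0 : z ≠ 0 := pow_ne_zero _ hne0
  have hzm : z ^ m' ∈ N'' := by
    rw [hz, ← pow_mul, mul_comm, pow_mul]
    exact pow_mem hαm _
  obtain ⟨γ, hγ, y, hy, hzy⟩ := span_rad N'' (fun x hx => hle'' (hT' x hx)) (DivG Ω b)
    ⟨1, le_rfl, 0, by simp⟩ (fun x hx y hy => div_mul hx hy) (fun x hx => div_ne_zero' hb hx)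
    (fun x ⟨N, hN, k, hk⟩ => ⟨N, hN, by
      rw [hk]
      exact prod_mem fun i _ => zpow_mem (IntermediateField.algebraMap_mem _ _) _⟩)
    z hz0 hαL m' hm' hzm
  have hy0 : y ≠ 0 := by
    rintro rfl
    rw [mul_zero] at hzy
    exact hz0 hzy
  have hzd : γ * y ∉ DivG Ω b := by
    rw [← hzy]
    exact fun h => hdiv (div_of_pow hdgL h)
  have h1 := Hb γ y hγ hy0 (hdeg y hy) hzd
  rw [← hzy, hz, Pool.Agent.H4.RR.absLogHeight_pow Ω _ (int_all K _)] at h1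
  have h2 : (dg L α : ℝ) ≤ dg (LS Ω b) α := by
    exact_mod_cast dg_mono (le_sup_right : LS Ω b ≤ L) α
  calc min ε c₁ ≤ c₁ := min_le_right _ _
    _ ≤ (dg L α : ℝ) * absLogHeight₁ α := h1
    _ ≤ _ := mul_le_mul_of_nonneg_right h2 hh0

end Pool.Agent.H92.SR
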