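import Mathlib

/-!
# The model of computation

The programming language and the cost model of `Pool/Agent/H88/RO/Model.lean`, without the oracle instruction: a
first-order language on binary trees with while loops (pure Lisp), with a big-step semantics in which an evaluation is
charged the total size of all the values it handles. It is polynomially equivalent to Turing machines.
-/

set_option autoImplicit false

namespace Pool.Agent.H92.SR

/-- Binary trees, the data type of the programming language. -/
inductive Tr : Type
  | leaf : Tr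
  | node : Tr → Tr → Tr
  deriving DecidableEq, Inhabited

namespace Tr

/-- Number of nodes (including leaves). -/
def size : Tr → ℕ
  | leaf => 1
  | node a b => size a + size b + 1

/-- First component (`leaf` for `leaf`). -/
def fst : Tr → Tr
  | leaf => leaf
  | node a _ => a

/-- Second component (`leaf` for `leaf`). -/
def snd : Tr → Tr
  | leaf => leaf
  | node _ b => b

/-- A bit as a tree. -/
def bit : Bool → Tr
  | false => leaf
  | true => node leaf leaf

/-- A binary string as a tree: the list of its bits. -/
def enc : List Bool → Tr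
  | [] => leaf
  | b :: w => node (bit b) (enc w)

/-- A natural number as a tree: the list of its binary digits, the last digit first. -/
def encN (n : ℕ) : Tr := enc n.bits

/-- A list of natural numbers as a tree: the list of the numbers. -/
def encL : List ℕ → Tr
  | [] => leaf
  | a :: L => node (encN a) (encL L)

/-- An instance of the square-root sum problem as a tree. -/
def encI (L : List ℕ) (k : ℕ) : Tr := node (encL L) (encN k)

end Tr

open Tr

/-- Programs; each program maps trees to trees. -/
inductive Prog : Type
  /-- the identity -/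
  | id : Prog
  /-- the constant `leaf` -/
  | nil : Prog
  /-- first component -/
  | fst : Prog
  /-- second component -/
  | snd : Prog
  /-- run `f` and `g` on the same input and pair the results -/
  | pair (f g : Prog) : Prog
  /-- composition: first `g`, then `f` -/
  | comp (f g : Prog) : Prog
  /-- branch: if the first component is `leaf` run `f`, else run `g`, on the second component -/
  | cond (f g : Prog) : Prog
  /-- while the first component of the current value is not `leaf`, apply `f`; then output the
  second component -/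
  | loop (f : Prog) : Prog

/-- `Eval c v w t`: the program `c` maps `v` to `w` at cost `t`.  Every rule is charged the size of the value it is
applied to, plus one. -/
inductive Eval : Prog → Tr → Tr → ℕ → Prop
  | id (v : Tr) : Eval Prog.id v v (size v + 1)
  | nil (v : Tr) : Eval Prog.nil v leaf (size v + 1)
  | fst (v : Tr) : Eval Prog.fst v (fst v) (size v + 1)
  | snd (v : Tr) : Eval Prog.snd v (snd v) (size v + 1)
  | pair {f g : Prog} {v a b : Tr} {s t : ℕ} (hf : Eval f v a s) (hg : Eval g v b t) :
      Eval (Prog.pair f g) v (node a b) (s + t + size v + 1)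
  | comp {f g : Prog} {v a b : Tr} {s t : ℕ} (hg : Eval g v a s) (hf : Eval f a b t) :
      Eval (Prog.comp f g) v b (s + t + size v + 1)
  | condNil {f g : Prog} {v a : Tr} {s : ℕ} (h : fst v = leaf) (hf : Eval f (snd v) a s) :
      Eval (Prog.cond f g) v a (s + size v + 1)
  | condNode {f g : Prog} {v a : Tr} {s : ℕ} (h : fst v ≠ leaf) (hg : Eval g (snd v) a s) :
      Eval (Prog.cond f g) v a (s + size v + 1)
  | loopDone {f : Prog} {v : Tr} (h : fst v = leaf) :
      Eval (Prog.loop f) v (snd v) (size v + 1)
  | loopStep {f : Prog} {v a b : Tr} {s t : ℕ} (h : fst v ≠ leaf) (hf : Eval f v a s)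
      (hl : Eval (Prog.loop f) a b t) : Eval (Prog.loop f) v b (s + t + size v + 1)

theorem poly_mono (q : Polynomial ℕ) {m n : ℕ} (h : m ≤ n) : q.eval m ≤ q.eval n := by
  induction q using Polynomial.induction_on' with
  | add p q hp hq => simp only [Polynomial.eval_add]; exact Nat.add_le_add hp hq
  | monomial k a =>
    simp only [Polynomial.eval_monomial]
    exact Nat.mul_le_mul_left _ (Nat.pow_le_pow_left h _)

theorem size_pos (v : Tr) : 1 ≤ size v := by cases v <;> simp [size]

theorem size_fst_le (v : Tr) : size (fst v) ≤ size v := by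
  cases v with
  | leaf => simp [fst]
  | node a b => simp only [fst, size]; omega

theorem size_snd_le (v : Tr) : size (snd v) ≤ size v := by
  cases v with
  | leaf => simp [snd]
  | node a b => simp only [snd, size]; omega

theorem size_bit_le (b : Bool) : size (bit b) ≤ 3 := by cases b <;> simp [bit, size]

/-- length of the right spine -/
def len : Tr → ℕ
  | leaf => 0
  | node _ b => len b + 1

theorem len_le_size (v : Tr) : len v + 1 ≤ size v := by
  induction v with
  | leaf => simp [len, size]
  | node a b iha ihb => simp only [len, size]; have := size_pos a; omega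

theorem Eval.cost_ge {c : Prog} {v w : Tr} {t : ℕ} (h : Eval c v w t) : size v + 1 ≤ t := by
  cases h <;> omega

theorem Eval.size_le {c : Prog} {v w : Tr} {t : ℕ} (h : Eval c v w t) : size w ≤ 2 * t := by
  induction h with
  | id v => omega
  | nil v => simp [size]; omega
  | fst v => have := size_fst_le v; omega
  | snd v => have := size_snd_le v; omega
  | pair hf hg ihf ihg => simp only [size]; omega
  | comp hg hf ihg ihf => omega
  | condNil h hf ihf => omega
  | condNode h hf ihf => omega
  | @loopDone f v h => have := size_snd_le v; omega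
  | loopStep h hf hl ihf ihl => omega

/-- Polynomial-time computable functions on trees. -/
def FP (F : Tr → Tr) : Prop :=
  ∃ (c : Prog) (q : Polynomial ℕ), ∀ v, ∃ t ≤ q.eval (size v), Eval c v (F v) t

namespace FP

theorem size_bound {F : Tr → Tr} (h : FP F) : ∃ q : Polynomial ℕ, ∀ v, size (F v) ≤ q.eval (size v) := by
  obtain ⟨c, q, hq⟩ := h
  refine ⟨2 * q, fun v => ?_⟩
  obtain ⟨t, ht, he⟩ := hq v
  have := he.size_le
  simp only [Polynomial.eval_mul, Polynomial.eval_ofNat]
  omega

theorem id' : FP (fun v => v) :=
  ⟨Prog.id, Polynomial.X + 1, fun v => ⟨size v + 1, by simp, Eval.id v⟩⟩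

theorem comp' {F G : Tr → Tr} (hF : FP F) (hG : FP G) : FP (fun v => F (G v)) := by
  obtain ⟨s, hs⟩ := hG.size_bound
  obtain ⟨cF, qF, hF⟩ := hF
  obtain ⟨cG, qG, hG⟩ := hG
  refine ⟨Prog.comp cF cG, qG + qF.comp s + Polynomial.X + 1, fun v => ?_⟩
  obtain ⟨t1, ht1, he1⟩ := hG v
  obtain ⟨t2, ht2, he2⟩ := hF (G v)
  refine ⟨t1 + t2 + size v + 1, ?_, Eval.comp he1 he2⟩
  simp only [Polynomial.eval_add, Polynomial.eval_comp, Polynomial.eval_X, Polynomial.eval_one]
  have := poly_mono qF (hs v)
  omega

theorem node' {F G : Tr → Tr} (hF : FP F) (hG : FP G) : FP (fun v => node (F v) (G v)) := by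
  obtain ⟨cF, qF, hF⟩ := hF
  obtain ⟨cG, qG, hG⟩ := hG
  refine ⟨Prog.pair cF cG, qF + qG + Polynomial.X + 1, fun v => ?_⟩
  obtain ⟨t1, ht1, he1⟩ := hF v
  obtain ⟨t2, ht2, he2⟩ := hG v
  refine ⟨t1 + t2 + size v + 1, ?_, Eval.pair he1 he2⟩
  simp only [Polynomial.eval_add, Polynomial.eval_X, Polynomial.eval_one]
  omega

theorem fst' {F : Tr → Tr} (hF : FP F) : FP (fun v => fst (F v)) :=
  comp' ⟨Prog.fst, Polynomial.X + 1, fun v => ⟨size v + 1, by simp, Eval.fst v⟩⟩ hF

theorem snd' {F : Tr → Tr} (hF : FP F) : FP (fun v => snd (F v)) :=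
  comp' ⟨Prog.snd, Polynomial.X + 1, fun v => ⟨size v + 1, by simp, Eval.snd v⟩⟩ hF

theorem leaf' : FP (fun _ => leaf) :=
  ⟨Prog.nil, Polynomial.X + 1, fun v => ⟨size v + 1, by simp, Eval.nil v⟩⟩

theorem const' (w : Tr) : FP (fun _ => w) := by
  induction w with
  | leaf => exact leaf'
  | node a b iha ihb => exact node' iha ihb

theorem ite' {p F G : Tr → Tr} (hp : FP p) (hF : FP F) (hG : FP G) :
    FP (fun v => if p v = leaf then F v else G v) := by
  have key : FP (fun v => if fst v = leaf then F (snd v) else G (snd v)) := by
    obtain ⟨cF, qF, hF⟩ := hF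
    obtain ⟨cG, qG, hG⟩ := hG
    refine ⟨Prog.cond cF cG, qF + qG + Polynomial.X + 1, fun v => ?_⟩
    by_cases hv : fst v = leaf
    · obtain ⟨t1, ht1, he1⟩ := hF (snd v)
      refine ⟨t1 + size v + 1, ?_, ?_⟩
      · simp only [Polynomial.eval_add, Polynomial.eval_X, Polynomial.eval_one]
        have := poly_mono qF (size_snd_le v)
        omega
      · simp only [hv, if_true]
        exact Eval.condNil hv he1
    · obtain ⟨t1, ht1, he1⟩ := hG (snd v)
      refine ⟨t1 + size v + 1, ?_, ?_⟩
      · simp only [Polynomial.eval_add, Polynomial.eval_X, Polynomial.eval_one]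
        have := poly_mono qG (size_snd_le v)
        omega
      · simp only [hv, if_false]
        exact Eval.condNode hv he1
  exact comp' (F := fun v => if fst v = leaf then F (snd v) else G (snd v)) key (node' hp id')

/-- The loop program applying a body a number of times given by a counter. -/
def loopBody (c : Prog) : Prog :=
  Prog.pair (Prog.comp Prog.snd Prog.fst) (Prog.comp c Prog.snd)

theorem eval_loop {F : Tr → Tr} {c : Prog} {q : Polynomial ℕ}
    (hc : ∀ v, ∃ t ≤ q.eval (size v), Eval c v (F v) t) (B : ℕ) (w : Tr) :
    ∀ x : Tr, (∀ i ≤ len w, size (F^[i] x) ≤ B) →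
      ∃ t ≤ (len w + 1) * (q.eval B + 7 * (size w + B + 2)),
        Eval (Prog.loop (loopBody c)) (node w x) (F^[len w] x) t := by
  induction w with
  | leaf =>
    intro x hx
    refine ⟨size (node leaf x) + 1, ?_, ?_⟩
    · have := hx 0 (by simp)
      simp only [Function.iterate_zero, id] at this
      simp only [len, size]
      omega
    · exact Eval.loopDone (f := loopBody c) (v := node leaf x) rfl
  | node a b _ ih =>
    intro x hx
    have hx0 : size x ≤ B := by simpa using hx 0 (by simp)
    obtain ⟨t1, ht1, he1⟩ := hc x
    obtain ⟨t2, ht2, he2⟩ := ih (F x) (by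
      intro i hi
      have := hx (i + 1) (by simp only [len]; omega)
      simpa [Function.iterate_succ] using this)
    have hbody : Eval (loopBody c) (node (node a b) x) (node b (F x))
        (((size (node (node a b) x) + 1) + (size (node a b) + 1) + size (node (node a b) x) + 1) +
          ((size (node (node a b) x) + 1) + t1 + size (node (node a b) x) + 1) +
          size (node (node a b) x) + 1) :=
      Eval.pair (Eval.comp (Eval.fst _) (Eval.snd _)) (Eval.comp (Eval.snd _) he1)
    have hstep := Eval.loopStep (f := loopBody c) (v := node (node a b) x)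
      (by simp [fst]) hbody he2
    refine ⟨_, ?_, by simpa [len, Function.iterate_succ] using hstep⟩
    have h1 : q.eval (size x) ≤ q.eval B := poly_mono q hx0
    have h2 : (len b + 1) * (q.eval B + 7 * (size b + B + 2)) ≤
        (len b + 1) * (q.eval B + 7 * (size (node a b) + B + 2)) := by
      apply Nat.mul_le_mul_left
      simp only [size]; omega
    have h3 : (len (node a b) + 1) * (q.eval B + 7 * (size (node a b) + B + 2)) =
        (len b + 1) * (q.eval B + 7 * (size (node a b) + B + 2)) +
        (q.eval B + 7 * (size (node a b) + B + 2)) := by simp only [len]; ring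
    rw [h3]
    have h4 : t2 ≤ (len b + 1) * (q.eval B + 7 * (size (node a b) + B + 2)) := ht2.trans h2
    simp only [size] at h4 ht1 h1 ⊢
    omega

/-- Iteration: the sizes of the intermediate values on the inputs actually used are polynomially bounded. -/
theorem iterate' {F N X : Tr → Tr} (hF : FP F) (hN : FP N) (hX : FP X)
    (hb : ∃ P : Polynomial ℕ, ∀ v i, i ≤ len (N v) → size (F^[i] (X v)) ≤ P.eval (size v)) :
    FP (fun v => F^[len (N v)] (X v)) := by
  obtain ⟨c, q, hc⟩ := hF
  obtain ⟨sN, hsN⟩ := hN.size_bound
  obtain ⟨cN, qN, hN⟩ := hN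
  obtain ⟨cX, qX, hX⟩ := hX
  obtain ⟨P, hP⟩ := hb
  refine ⟨Prog.comp (Prog.loop (loopBody c)) (Prog.pair cN cX),
    (sN + 1) * (q.comp P + 7 * (sN + P + 2)) + qN + qX + 2 * Polynomial.X + 2, fun v => ?_⟩
  obtain ⟨t1, ht1, he1⟩ := hN v
  obtain ⟨t2, ht2, he2⟩ := hX v
  obtain ⟨t, ht, he⟩ := eval_loop hc (P.eval (size v)) (N v) (X v) (hP v)
  refine ⟨_, ?_, Eval.comp (Eval.pair he1 he2) he⟩
  have hlen : len (N v) + 1 ≤ sN.eval (size v) + 1 := by
    have := len_le_size (N v); have := hsN v; omega
  have h2 : (len (N v) + 1) * (q.eval (P.eval (size v)) + 7 * (size (N v) + P.eval (size v) + 2)) ≤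
      (sN.eval (size v) + 1) *
        (q.eval (P.eval (size v)) + 7 * (sN.eval (size v) + P.eval (size v) + 2)) := by
    apply Nat.mul_le_mul hlen
    have := hsN v
    omega
  simp only [Polynomial.eval_add, Polynomial.eval_mul, Polynomial.eval_comp, Polynomial.eval_X,
    Polynomial.eval_one, Polynomial.eval_ofNat]
  omega

/-- Iteration, if the sizes grow polynomially on all inputs. -/
theorem iterate_poly {F N X : Tr → Tr} (hF : FP F) (hN : FP N) (hX : FP X) (P : Polynomial ℕ)
    (hb : ∀ x i, size (F^[i] x) ≤ P.eval (size x + i)) : FP (fun v => F^[len (N v)] (X v)) := by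
  obtain ⟨sN, hsN⟩ := hN.size_bound
  obtain ⟨sX, hsX⟩ := hX.size_bound
  refine iterate' hF hN hX ⟨P.comp (sX + sN), fun v i hi => ?_⟩
  refine (hb (X v) i).trans ?_
  rw [Polynomial.eval_comp, Polynomial.eval_add]
  apply poly_mono
  have := len_le_size (N v)
  have := hsN v
  have := hsX v
  omega

end FP

end Pool.Agent.H92.SR
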