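import Pool.Agent.H92.SR.Model

/-!
# Binary numbers as trees

`vl x` is the value of the tree `x`, read as the list of its binary digits (any tree which is not a leaf is the digit `1`), the
last digit first. `sc g1 g2 n c x y` is a finite automaton with state `c` which reads `n` digits of `x` and `y` at the
same time, the last digits first: addition and subtraction.

PROOFS (module NUM). `vl_step`: cases. `vl_lt`: induction. `vl_encN`, `len_encN`, `size_encN`: induction along `Nat.binaryRec'`, or
`Nat.strong_induction` with `Nat.bits_append_bit`, `Nat.bit_val`; (`Nat.size_eq_bits_len`). `sc_len`, `sc_size`, `sc_lt`, `sc_add`, `sc_sub`: induction on `n`,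
all `c, x, y`, with `vl_step x`, `vl_step y` and `Nat.mod` computed by: `(a + 2 * m) % 2 ^ (n + 1) = a + 2 * (m % 2 ^ n)` for `a < 2`; then case
distinction on the three bits.
`vl_add`: `vl x < 2 ^ len x`, `vl y < 2 ^ len y`, so both remainders are the numbers themselves, and
`vl x + vl y < 2 ^ (len x + len y + 1)`, so by `sc_add` the last carry is `0`.
`vl_sub`: as `vl out < 2 ^ n`, the last borrow is `0` iff `vl y ≤ vl x`.
-/

set_option autoImplicit false

namespace Pool.Agent.H92.SR

open Tr

/-- the bit described by a tree -/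
def bt (a : Tr) : Bool := decide (a ≠ leaf)

/-- a bit as a number -/
def nb (b : Bool) : ℕ := if b then 1 else 0

/-- the value of a tree -/
def vl : Tr → ℕ
  | leaf => 0
  | node a b => nb (bt a) + 2 * vl b

theorem bt_bit (b : Bool) : bt (bit b) = b := by cases b <;> simp [bt, bit]

theorem bt_leaf : bt leaf = false := by simp [bt]

theorem nb_le (b : Bool) : nb b ≤ 1 := by cases b <;> simp [nb]

theorem vl_step (x : Tr) : vl x = nb (bt (fst x)) + 2 * vl (snd x) := by
  cases x with
  | leaf => simp [vl, fst, snd, bt, nb]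
  | node a b => rfl

theorem vl_lt (x : Tr) : vl x < 2 ^ len x := by
  induction x with
  | leaf => simp [vl, len]
  | node a b _ ih =>
    simp only [vl, len, pow_succ]
    have := nb_le (bt a)
    omega

theorem encN_bit (b : Bool) (n : ℕ) (h : n = 0 → b = true) :
    encN (Nat.bit b n) = node (bit b) (encN n) := by
  unfold encN
  rw [Nat.bits_append_bit n b h]
  rfl

theorem vl_encN (n : ℕ) : vl (encN n) = n := by
  induction n using Nat.binaryRec' with
  | zero => simp [encN, enc, vl]
  | bit b n h ih =>
    rw [encN_bit b n h, vl, ih, bt_bit, Nat.bit_val]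
    cases b <;> simp [nb] <;> omega

theorem len_enc (l : List Bool) : len (enc l) = l.length := by
  induction l with
  | nil => rfl
  | cons b l ih => simp only [enc, len, ih, List.length_cons]

theorem size_enc (l : List Bool) : size (enc l) ≤ 4 * l.length + 1 := by
  induction l with
  | nil => simp [enc, size]
  | cons b l ih =>
    simp only [enc, size, List.length_cons]
    have := size_bit_le b
    omega

theorem len_encN (n : ℕ) : len (encN n) = Nat.size n := by
  unfold encN
  rw [len_enc, Nat.size_eq_bits_len]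

theorem size_encN (n : ℕ) : size (encN n) ≤ 4 * Nat.size n + 1 := by
  unfold encN
  rw [← Nat.size_eq_bits_len]
  exact size_enc _

/-- a finite automaton reading the digits of two numbers: output and last state -/
def sc (g1 g2 : Bool → Bool → Bool → Bool) : ℕ → Bool → Tr → Tr → Tr × Bool
  | 0, c, _, _ => (leaf, c)
  | n + 1, c, x, y =>
    (node (bit (g2 c (bt (fst x)) (bt (fst y))))
      (sc g1 g2 n (g1 c (bt (fst x)) (bt (fst y))) (snd x) (snd y)).1,
     (sc g1 g2 n (g1 c (bt (fst x)) (bt (fst y))) (snd x) (snd y)).2)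

/-- the sum of the three bits modulo `2` -/
def g3 (c x y : Bool) : Bool := xor c (xor x y)

/-- the carry of the addition -/
def ga (c x y : Bool) : Bool := (x && y) || (c && (x || y))

/-- the borrow of the subtraction `x - y` -/
def gs (c x y : Bool) : Bool := (!x && (y || c)) || (y && c)

theorem sc_len (g1 g2 : Bool → Bool → Bool → Bool) (n : ℕ) (c : Bool) (x y : Tr) :
    len (sc g1 g2 n c x y).1 = n := by
  induction n generalizing c x y with
  | zero => rfl
  | succ n ih => simp only [sc, len, ih]

theorem sc_size (g1 g2 : Bool → Bool → Bool → Bool) (n : ℕ) (c : Bool) (x y : Tr) :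
    size (sc g1 g2 n c x y).1 ≤ 4 * n + 1 := by
  induction n generalizing c x y with
  | zero => simp [sc, size]
  | succ n ih =>
    simp only [sc, size]
    have h1 := ih (g1 c (bt (fst x)) (bt (fst y))) (snd x) (snd y)
    have h2 := size_bit_le (g2 c (bt (fst x)) (bt (fst y)))
    omega

theorem mod_step (n : ℕ) (x : Tr) :
    vl x % 2 ^ (n + 1) = nb (bt (fst x)) + 2 * (vl (snd x) % 2 ^ n) := by
  rw [vl_step x, pow_succ, Nat.mul_comm (2 ^ n) 2, Nat.add_mod, Nat.mul_mod_mul_left]
  have h1 := nb_le (bt (fst x))
  have h2 : vl (snd x) % 2 ^ n < 2 ^ n := Nat.mod_lt _ (by positivity)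
  rw [Nat.mod_eq_of_lt (show nb (bt (fst x)) < 2 * 2 ^ n by omega),
    Nat.mod_eq_of_lt (show nb (bt (fst x)) + 2 * (vl (snd x) % 2 ^ n) < 2 * 2 ^ n by omega)]

theorem sc_add (n : ℕ) (c : Bool) (x y : Tr) :
    vl (sc ga g3 n c x y).1 + 2 ^ n * nb (sc ga g3 n c x y).2 =
      vl x % 2 ^ n + vl y % 2 ^ n + nb c := by
  induction n generalizing c x y with
  | zero => simp [sc, vl, Nat.mod_one]
  | succ n ih =>
    have h1 := ih (ga c (bt (fst x)) (bt (fst y))) (snd x) (snd y)
    rw [mod_step, mod_step]
    simp only [sc, vl, bt_bit]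
    have h2 : nb (g3 c (bt (fst x)) (bt (fst y))) + 2 * nb (ga c (bt (fst x)) (bt (fst y))) =
        nb (bt (fst x)) + nb (bt (fst y)) + nb c := by
      cases bt (fst x) <;> cases bt (fst y) <;> cases c <;> rfl
    have h3 : 2 ^ (n + 1) * nb (sc ga g3 n (ga c (bt (fst x)) (bt (fst y))) (snd x) (snd y)).2 =
        2 * (2 ^ n * nb (sc ga g3 n (ga c (bt (fst x)) (bt (fst y))) (snd x) (snd y)).2) := by
      rw [pow_succ]; ring
    rw [h3]
    omega

theorem sc_sub (n : ℕ) (c : Bool) (x y : Tr) :
    vl (sc gs g3 n c x y).1 + vl y % 2 ^ n + nb c =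
      vl x % 2 ^ n + 2 ^ n * nb (sc gs g3 n c x y).2 := by
  induction n generalizing c x y with
  | zero => simp [sc, vl, Nat.mod_one]
  | succ n ih =>
    have h1 := ih (gs c (bt (fst x)) (bt (fst y))) (snd x) (snd y)
    rw [mod_step, mod_step]
    simp only [sc, vl, bt_bit]
    have h2 : nb (g3 c (bt (fst x)) (bt (fst y))) + nb (bt (fst y)) + nb c =
        nb (bt (fst x)) + 2 * nb (gs c (bt (fst x)) (bt (fst y))) := by
      cases bt (fst x) <;> cases bt (fst y) <;> cases c <;> rfl
    have h3 : 2 ^ (n + 1) * nb (sc gs g3 n (gs c (bt (fst x)) (bt (fst y))) (snd x) (snd y)).2 =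
        2 * (2 ^ n * nb (sc gs g3 n (gs c (bt (fst x)) (bt (fst y))) (snd x) (snd y)).2) := by
      rw [pow_succ]; ring
    rw [h3]
    omega

/-- the sum -/
def add (x y : Tr) : Tr := (sc ga g3 (len x + len y + 1) false x y).1

theorem vl_add (x y : Tr) : vl (add x y) = vl x + vl y := by
  have h := sc_add (len x + len y + 1) false x y
  have hx := vl_lt x
  have hy := vl_lt y
  have e1 : 2 ^ len x ≤ 2 ^ (len x + len y) := Nat.pow_le_pow_right (by norm_num) (by omega)
  have e2 : 2 ^ len y ≤ 2 ^ (len x + len y) := Nat.pow_le_pow_right (by norm_num) (by omega)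
  have e3 : 2 ^ (len x + len y + 1) = 2 * 2 ^ (len x + len y) := by rw [pow_succ]; ring
  rw [Nat.mod_eq_of_lt (show vl x < 2 ^ (len x + len y + 1) by omega),
    Nat.mod_eq_of_lt (show vl y < 2 ^ (len x + len y + 1) by omega)] at h
  unfold add
  have e0 : nb false = 0 := rfl
  rw [e0] at h
  cases hc : (sc ga g3 (len x + len y + 1) false x y).2 with
  | false =>
    rw [hc, e0] at h
    omega
  | true =>
    rw [hc, show nb true = 1 from rfl] at h
    omega

theorem len_add (x y : Tr) : len (add x y) = len x + len y + 1 := by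
  exact sc_len _ _ _ _ _ _

theorem size_add (x y : Tr) : size (add x y) ≤ 4 * (len x + len y) + 5 := by
  have := sc_size ga g3 (len x + len y + 1) false x y
  unfold add
  omega

/-- subtraction: if the last borrow is `0` then `y ≤ x` and the output is the difference, otherwise `x < y` -/
theorem vl_sub {n : ℕ} {x y : Tr} (hx : vl x < 2 ^ n) (hy : vl y < 2 ^ n) :
    ((sc gs g3 n false x y).2 = false → vl y ≤ vl x ∧ vl (sc gs g3 n false x y).1 = vl x - vl y) ∧
      ((sc gs g3 n false x y).2 = true → vl x < vl y) := by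
  have h := sc_sub n false x y
  have h1 := vl_lt (sc gs g3 n false x y).1
  rw [sc_len] at h1
  rw [Nat.mod_eq_of_lt hx, Nat.mod_eq_of_lt hy, show nb false = 0 from rfl] at h
  constructor
  · intro hc
    rw [hc, show nb false = 0 from rfl] at h
    constructor <;> omega
  · intro hc
    rw [hc, show nb true = 1 from rfl] at h
    omega

end Pool.Agent.H92.SR
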