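import Pool.Agent.H92.SR.LocPow
import Pool.Agent.H72.PL.PF

/-!
# Module PowStep (THEOREM SR, part A): one step of the power trick in a number field

`u i = (ζ i * y (k i))^a`, `Z = ∑ (c i) (u i)^p ≠ 0`, `∑ (c i) (u i) = 0`. For every absolute value `v`:
`v (ζ i) = 1` (root of unity), so `v (u i) ≤ B_v := ∏ j, (max 1 (v (y j)))^a` (one factor is `≥ (v (y (k i)))^a`,
the others are `≥ 1`; also if `y (k i) = 0`).
* infinite `v`: `v Z ≤ ∑ |c i| (v (u i))^p ≤ T * B_v^p` (`Fintype.card ι ≤ T`).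
* finite `w`: `w Z ≤ w p * B_w^p` (`loc_pow` with `s = Finset.univ`; `w.1` is an absolute value,
  `IsNonarchimedean (w.1 : L → ℝ) := fun a b => FinitePlace.add_le w a b`).
`pf_ineq` (file `Pool/Agent/H72/PL/PF.lean`) with `Δ = Z`, `I = J`, `a = y`, `m = a * p`, `b = 1`, `w = 0`, `C = T`,
`e w = w p` (positive, finite multiplicative support: `FinitePlace.hasFiniteMulSupport`, used in that file):
`0 ≤ [L:ℚ] log T + ∑ j, (a p) logHeight₁ (y j) + log (∏ᶠ w, w p)`. By the product formula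
`NumberField.prod_abs_eq_one` for `p ≠ 0`: `(∏ v, v p ^ mult) * ∏ᶠ w, w p = 1`, `v p = p` at infinite places,
`∑ mult = [L:ℚ]` (`InfinitePlace.sum_mult_eq`), so `log (∏ᶠ w, w p) = - [L:ℚ] log p`.
-/

set_option autoImplicit false

open NumberField Module

namespace Pool.Agent.H92.SR

private theorem root_one {L : Type} [Field L] (v : AbsoluteValue L ℝ) {z : L}
    (hz : ∃ m : ℕ, 1 ≤ m ∧ z ^ m = 1) : v z = 1 := by
  obtain ⟨m, hm, h⟩ := hz
  have h1 : v z ^ m = 1 := by rw [← map_pow, h, map_one]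
  exact (pow_eq_one_iff_of_nonneg (v.nonneg z) (by omega)).1 h1

private theorem sgn_le {L : Type} [Field L] (v : AbsoluteValue L ℝ) {c : ℤ}
    (hc : c = 0 ∨ c = 1 ∨ c = -1) : v (c : L) ≤ 1 := by
  rcases hc with rfl | rfl | rfl
  · simp
  · simp
  · rw [Int.cast_neg, Int.cast_one, AbsoluteValue.map_neg, map_one]

private theorem u_le {L : Type} [Field L] (v : AbsoluteValue L ℝ) {J : Type} [Fintype J]
    {z : L} (hz : ∃ m : ℕ, 1 ≤ m ∧ z ^ m = 1) (y : J → L) (k : J) (a : ℕ) :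
    v ((z * y k) ^ a) ≤ ∏ j, (max 1 (v (y j))) ^ a := by
  classical
  rw [map_pow, map_mul, root_one v hz, one_mul, Finset.prod_pow]
  refine pow_le_pow_left₀ (v.nonneg _) ?_ a
  have h1 : max 1 (v (y k)) ≤ ∏ j, max 1 (v (y j)) := by
    rw [← Finset.mul_prod_erase Finset.univ (fun j => max 1 (v (y j))) (Finset.mem_univ k)]
    have h2 : (1 : ℝ) ≤ ∏ j ∈ Finset.univ.erase k, max 1 (v (y j)) := by
      refine Finset.prod_induction (fun j => max 1 (v (y j))) (fun r => (1 : ℝ) ≤ r) ?_ le_rfl ?_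
      · exact fun r t hr ht => one_le_mul_of_one_le_of_one_le hr ht
      · exact fun j _ => le_max_left _ _
    exact le_mul_of_one_le_right (zero_le_one.trans (le_max_left _ _)) h2
  exact (le_max_right _ _).trans h1

private theorem sum_abs_le {L : Type} [Field L] (v : AbsoluteValue L ℝ) {ι : Type}
    (s : Finset ι) (f : ι → L) : v (∑ i ∈ s, f i) ≤ ∑ i ∈ s, v (f i) := by
  classical
  induction s using Finset.induction_on with
  | empty => simp
  | insert i s hi ih =>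
    rw [Finset.sum_insert hi, Finset.sum_insert hi]
    exact (v.add_le _ _).trans (add_le_add le_rfl ih)

theorem power_step {L : Type} [Field L] [NumberField L] {ι J : Type} [Fintype ι] [Fintype J]
    (T : ℕ) (hT : 1 ≤ T) (hι : Fintype.card ι ≤ T) (c : ι → ℤ)
    (hc : ∀ i, c i = 0 ∨ c i = 1 ∨ c i = -1) (ζ : ι → L) (hζ : ∀ i, ∃ m : ℕ, 1 ≤ m ∧ ζ i ^ m = 1)
    (y : J → L) (k : ι → J) (a p : ℕ) (hp : p.Prime) (hp2 : p ≠ 2)
    (h0 : ∑ i, (c i : L) * (ζ i * y (k i)) ^ a = 0)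
    (hne : ∑ i, (c i : L) * (ζ i * y (k i)) ^ (a * p) ≠ 0) :
    (finrank ℚ L : ℝ) * Real.log p ≤
      (finrank ℚ L : ℝ) * Real.log T + ((a * p : ℕ) : ℝ) * ∑ j, Height.logHeight₁ (y j) := by
  classical
  have hp0 : (p : L) ≠ 0 := by exact_mod_cast hp.ne_zero
  have hTr : (1 : ℝ) ≤ T := by exact_mod_cast hT
  have hB0 : ∀ v : AbsoluteValue L ℝ, 0 ≤ ∏ j, (max 1 (v (y j))) ^ a := fun v =>
    Finset.prod_nonneg fun j _ => pow_nonneg (zero_le_one.trans (le_max_left _ _)) _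
  have hBp : ∀ v : AbsoluteValue L ℝ, (∏ j, (max 1 (v (y j))) ^ a) ^ p =
      ∏ j, ((max 1 (v (y j))) ^ (a * p) * (max 1 (v ((fun _ : J => (1 : L)) j))) ^ 0) := by
    intro v
    rw [← Finset.prod_pow]
    refine Finset.prod_congr rfl fun j _ => ?_
    rw [pow_zero, mul_one, ← pow_mul]
  have hZ : ∀ i, (c i : L) * (ζ i * y (k i)) ^ (a * p) = (c i : L) * ((ζ i * y (k i)) ^ a) ^ p :=
    fun i => by rw [pow_mul]
  obtain ⟨Z, hZd⟩ : ∃ Z : L, Z = ∑ i, (c i : L) * ((ζ i * y (k i)) ^ a) ^ p := ⟨_, rfl⟩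
  have hZ0 : Z ≠ 0 := by
    rw [hZd]
    rwa [Finset.sum_congr rfl fun i _ => hZ i] at hne
  have hinf : ∀ v : InfinitePlace L, v Z ≤ (T : ℝ) *
      ∏ j, ((max 1 (v (y j))) ^ (a * p) * (max 1 (v ((fun _ : J => (1 : L)) j))) ^ 0) := by
    intro v
    have h1 : v.1 Z ≤ ∑ i : ι, (∏ j, (max 1 (v.1 (y j))) ^ a) ^ p := by
      rw [hZd]
      refine (sum_abs_le v.1 _ _).trans (Finset.sum_le_sum fun i _ => ?_)
      rw [map_mul, map_pow v.1 ((ζ i * y (k i)) ^ a) p]
      calc v.1 (c i : L) * v.1 ((ζ i * y (k i)) ^ a) ^ p ≤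
          1 * (∏ j, (max 1 (v.1 (y j))) ^ a) ^ p := by
            refine mul_le_mul (sgn_le v.1 (hc i)) ?_ (pow_nonneg (v.1.nonneg _) _) zero_le_one
            exact pow_le_pow_left₀ (v.1.nonneg _) (u_le v.1 (hζ i) y (k i) a) p
        _ = _ := one_mul _
    rw [Finset.sum_const, nsmul_eq_mul, Finset.card_univ, hBp] at h1
    refine h1.trans (mul_le_mul_of_nonneg_right ?_ ?_)
    · exact_mod_cast hι
    · rw [← hBp]
      exact pow_nonneg (hB0 v.1) p
  have hfin : ∀ w : FinitePlace L, w Z ≤ w (p : L) *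
      ∏ j, ((max 1 (w (y j))) ^ (a * p) * (max 1 (w ((fun _ : J => (1 : L)) j))) ^ 0) := by
    intro w
    have hna : IsNonarchimedean (w.1 : L → ℝ) := fun a b => FinitePlace.add_le w a b
    have h1 := loc_pow w.1 hna p hp hp2 Finset.univ c hc (fun i => (ζ i * y (k i)) ^ a)
      (∏ j, (max 1 (w.1 (y j))) ^ a) (hB0 w.1) (fun i _ => u_le w.1 (hζ i) y (k i) a) h0
    rw [hBp] at h1
    rw [hZd]
    exact h1
  have he0 : ∀ w : FinitePlace L, 0 < w (p : L) := fun w => FinitePlace.pos_iff.2 hp0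
  have hes : (Function.mulSupport fun w : FinitePlace L => w (p : L)).Finite :=
    FinitePlace.hasFiniteMulSupport (K := L) hp0
  have key := Pool.Agent.H72.PL.pf_ineq Z hZ0 y (fun _ : J => (1 : L)) (fun _ => a * p)
    (fun _ => 0) (T : ℝ) hTr (fun w => w (p : L)) he0 hes hinf hfin
  -- the product formula for `p`
  have hpp : (0 : ℝ) < p := by exact_mod_cast hp.pos
  have hpf := prod_abs_eq_one (K := L) hp0
  have h2 : ∏ v : InfinitePlace L, v (p : L) ^ v.mult = (p : ℝ) ^ finrank ℚ L := by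
    rw [← InfinitePlace.sum_mult_eq (K := L), ← Finset.prod_pow_eq_pow_sum]
    refine Finset.prod_congr rfl fun v _ => ?_
    rw [InfinitePlace.map_natCast]
  rw [h2] at hpf
  have h3 : ∏ᶠ w : FinitePlace L, w (p : L) = ((p : ℝ) ^ finrank ℚ L)⁻¹ :=
    eq_inv_of_mul_eq_one_right hpf
  rw [h3, Real.log_inv, Real.log_pow] at key
  have h4 : ∑ j : J, (((a * p : ℕ) : ℝ) * Height.logHeight₁ (y j) +
      ((0 : ℕ) : ℝ) * Height.logHeight₁ (1 : L)) = ((a * p : ℕ) : ℝ) * ∑ j, Height.logHeight₁ (y j) := by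
    rw [Finset.mul_sum]
    refine Finset.sum_congr rfl fun j _ => ?_
    rw [Nat.cast_zero, zero_mul, add_zero]
  rw [h4] at key
  linarith

end Pool.Agent.H92.SR
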