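import Pool.Agent.H92.SR.Smv

/-!
# Module RND: one round of the algorithm

PROOFS. `rnd'`: `iteB`, `sc2` (`N v = cat ..`), `cat'`, `sums'`, `node'`, `fst'`, `snd'`, `const'`. `rnd_spec`: `vl (cat P (encN k)) = 2 ^ len P * k` (`cat_vl`, `vl_encN`), `sums_vl`, and `vl_sub` with the number of steps
`len (cat x y) = len x + len y` (`vl_lt`, `Nat.pow_le_pow_right`).
-/

set_option autoImplicit false

namespace Pool.Agent.H92.SR

open Tr

/-- `vl x < vl y` -/
def ltb (x y : Tr) : Bool := (sc gs g3 (len (cat x y)) false x y).2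

theorem ltb_iff (x y : Tr) : ltb x y = true ↔ vl x < vl y := by
  have hx : vl x < 2 ^ len (cat x y) := (vl_lt x).trans_le
    (Nat.pow_le_pow_right (by norm_num) (by rw [cat_len]; omega))
  have hy : vl y < 2 ^ len (cat x y) := (vl_lt y).trans_le
    (Nat.pow_le_pow_right (by norm_num) (by rw [cat_len]; omega))
  obtain ⟨h1, h2⟩ := vl_sub hx hy
  constructor
  · intro h
    exact h2 h
  · intro h
    cases hb : ltb x y with
    | true => rfl
    | false =>
      have h3 := (h1 hb).1
      omega

/-- one round, on states `node flag (node I P)` -/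
def rnd (st : Tr) : Tr :=
  if ltb (cat (snd (snd st)) (snd (fst (snd st))))
      (snd (sums (fst (fst (snd st))) (snd (snd st)))) = true then
    if ltb (cat (snd (snd st)) (snd (fst (snd st))))
      (fst (sums (fst (fst (snd st))) (snd (snd st)))) = true then node leaf (bit false)
    else node one (node (fst (snd st)) (cat (snd (snd st)) (snd (snd st))))
  else node leaf (bit true)

theorem FP.rnd' : FP rnd := by
  have hltb : ∀ {X Y : Tr → Tr}, FP X → FP Y → FP (fun v => bit (ltb (X v) (Y v))) :=
    fun hX hY => FP.sc2 gs g3 false (FP.cat' hX hY) hX hY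
  have hI : FP fun v => fst (snd v) := FP.fst' (FP.snd' FP.id')
  have hP : FP fun v => snd (snd v) := FP.snd' (FP.snd' FP.id')
  have hK := FP.cat' hP (FP.snd' hI)
  have hS := FP.sums' (FP.fst' hI) hP
  exact FP.iteB (hltb hK (FP.snd' hS)) (FP.iteB (hltb hK (FP.fst' hS))
    (FP.node' FP.leaf' (FP.const' _)) (FP.node' (FP.const' _) (FP.node' hI (FP.cat' hP hP))))
    (FP.node' FP.leaf' (FP.const' _))

theorem rnd_spec (L : List ℕ) (k : ℕ) (f P : Tr) :
    (us L (len P) ≤ k * 2 ^ len P → rnd (node f (node (encI L k) P)) = node leaf (bit true)) ∧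
    (¬ us L (len P) ≤ k * 2 ^ len P → k * 2 ^ len P < ls L (len P) →
      rnd (node f (node (encI L k) P)) = node leaf (bit false)) ∧
    (¬ Dec L k (len P) →
      rnd (node f (node (encI L k) P)) = node one (node (encI L k) (cat P P))) := by
  have hK : vl (cat P (encN k)) = k * 2 ^ len P := by
    rw [cat_vl, vl_encN, mul_comm]
  obtain ⟨hl, hu⟩ := sums_vl L P
  have e : rnd (node f (node (encI L k) P)) =
      if ltb (cat P (encN k)) (snd (sums (encL L) P)) = true then
        if ltb (cat P (encN k)) (fst (sums (encL L) P)) = true then node leaf (bit false)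
        else node one (node (encI L k) (cat P P))
      else node leaf (bit true) := rfl
  have h1 : ltb (cat P (encN k)) (snd (sums (encL L) P)) = true ↔ k * 2 ^ len P < us L (len P) := by
    rw [ltb_iff, hK, hu]
  have h2 : ltb (cat P (encN k)) (fst (sums (encL L) P)) = true ↔ k * 2 ^ len P < ls L (len P) := by
    rw [ltb_iff, hK, hl]
  rw [e]
  refine ⟨fun h => ?_, fun h h' => ?_, fun h => ?_⟩
  · rw [if_neg]
    rw [h1]
    omega
  · rw [if_pos (h1.2 (not_le.1 h)), if_pos (h2.2 h')]
  · unfold Dec at h
    push Not at h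
    rw [if_pos (h1.2 h.1), if_neg]
    rw [h2]
    exact not_lt.2 h.2

end Pool.Agent.H92.SR
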