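import Pool.Agent.H92.SR.Num

/-!
# Module SCF: the automata run in polynomial time

PROOFS. `un_len`: induction. `cat_len`, `cat_size`: induction on `x` (`len x` steps of `node leaf`, `size` grows by `2`).
`FP.cat'`: `iterate'` for `F z = node leaf z`. `FP.iteB`: `ite'` (`bt a = true` iff `a ≠ leaf`). `FP.bit3`: for a function `g` of three bits, `v ↦ bit (g (bt (C v)) (bt (X v)) (bt (Y v)))` is a nested `ite'` with constant
values: `if C v = leaf then (if X v = leaf then (if Y v = leaf then bit (g false false false) else ..) ..) ..` (`FP.ite'` three times, `FP.const'`; funext, cases on the bits).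
Reversal: `R st = node (snd (fst st)) (node (fst (fst st)) (snd st))` on states `st = node x acc`, `rvo x acc` (recursion: `rvo leaf acc = acc`, `rvo (node a b) acc = rvo b (node a acc)`);
`R^[len x] (node x acc) = node leaf (rvo x acc)`; `rvo (rvo x acc) leaf = rvo acc x` (induction), so `rvo (rvo x leaf) leaf = x`. `size (R st) ≤ size st + 3`.
The scan: on states `st = node (node x y) (node c acc)`, `F st = node (node (snd x) (snd y)) (node (bit (g1 (bt c) (bt (fst x)) (bt (fst y)))) (node (bit (g2 ..)) acc))` is in `FP` (`node'`, `fst'`, `snd'`, `bit3`), and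
`F^[n] (node (node x y) (node (bit c) acc)) = node (node (snd^[n] x) (snd^[n] y)) (node (bit (sc g1 g2 n c x y).2) (rvo (sc g1 g2 n c x y).1 acc))` (induction on `n`, all `x y c acc`,
`Function.iterate_succ_apply`, `bt_bit`); `size (F st) ≤ size st + 9` for all `st` (`size_bit_le`, `size_fst_le`), so `size (F^[i] st) ≤ size st + 9 i`, and the number of steps `len (N v)` is bounded by the polynomial `size_bound` of `N`: `iterate'`.
The output is `rvo (rvo out leaf) leaf = out`.
-/

set_option autoImplicit false

namespace Pool.Agent.H92.SR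

open Tr

/-- the unary number `n` -/
def un : ℕ → Tr
  | 0 => leaf
  | n + 1 => node leaf (un n)

theorem un_len (n : ℕ) : len (un n) = n := by
  induction n with
  | zero => rfl
  | succ n ih => simp only [un, len, ih]

/-- `len x` digits `0` in front of `y` -/
def cat (x y : Tr) : Tr := (fun z => node leaf z)^[len x] y

theorem it_node (n : ℕ) (y : Tr) : len ((fun z => node leaf z)^[n] y) = n + len y ∧
    size ((fun z => node leaf z)^[n] y) = 2 * n + size y ∧
    vl ((fun z => node leaf z)^[n] y) = 2 ^ n * vl y := by
  induction n with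
  | zero => simp
  | succ n ih =>
    rw [Function.iterate_succ_apply']
    obtain ⟨h1, h2, h3⟩ := ih
    refine ⟨?_, ?_, ?_⟩
    · simp only [len, h1]
      omega
    · simp only [size, h2]
      omega
    · simp only [vl, h3, bt_leaf, nb]
      rw [pow_succ]
      simp
      ring

theorem cat_len (x y : Tr) : len (cat x y) = len x + len y := by
  exact (it_node _ _).1

theorem cat_size (x y : Tr) : size (cat x y) = 2 * len x + size y := by
  exact (it_node _ _).2.1

theorem cat_vl (x y : Tr) : vl (cat x y) = 2 ^ len x * vl y := by
  exact (it_node _ _).2.2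

namespace FP

theorem cat' {X Y : Tr → Tr} (hX : FP X) (hY : FP Y) : FP (fun v => cat (X v) (Y v)) := by
  refine iterate_poly (F := fun z => node leaf z) (node' leaf' id') hX hY (2 * Polynomial.X)
    fun x i => ?_
  rw [(it_node i x).2.1]
  simp only [Polynomial.eval_mul, Polynomial.eval_ofNat, Polynomial.eval_X]
  omega

theorem iteB {p : Tr → Bool} {F G : Tr → Tr} (hp : FP fun v => bit (p v)) (hF : FP F) (hG : FP G) :
    FP (fun v => if p v = true then F v else G v) := by
  have h := ite' hp hG hF
  refine Eq.mp (congrArg FP (funext fun v => ?_)) h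
  cases hv : p v with
  | false => simp [bit]
  | true => simp [bit]

theorem bit3 (g : Bool → Bool → Bool → Bool) {C X Y : Tr → Tr} (hC : FP C) (hX : FP X)
    (hY : FP Y) : FP (fun v => bit (g (bt (C v)) (bt (X v)) (bt (Y v)))) := by
  have h := ite' hC
    (ite' hX (ite' hY (const' (bit (g false false false))) (const' (bit (g false false true))))
      (ite' hY (const' (bit (g false true false))) (const' (bit (g false true true)))))
    (ite' hX (ite' hY (const' (bit (g true false false))) (const' (bit (g true false true))))
      (ite' hY (const' (bit (g true true false))) (const' (bit (g true true true)))))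
  refine Eq.mp (congrArg FP (funext fun v => ?_)) h
  by_cases h1 : C v = leaf <;> by_cases h2 : X v = leaf <;> by_cases h3 : Y v = leaf <;>
    simp [h1, h2, h3, bt]

/-- one step of the reversal -/
def rstp (st : Tr) : Tr := node (snd (fst st)) (node (fst (fst st)) (snd st))

/-- reversal -/
def rvo : Tr → Tr → Tr
  | leaf, acc => acc
  | node a b, acc => rvo b (node a acc)

theorem rstp_it (x : Tr) (acc : Tr) : rstp^[len x] (node x acc) = node leaf (rvo x acc) := by
  induction x generalizing acc with
  | leaf => rfl
  | node a b _ ih =>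
    rw [len, Function.iterate_succ_apply]
    exact ih (node a acc)

theorem rvo_rvo (x acc : Tr) : rvo (rvo x acc) leaf = rvo acc x := by
  induction x generalizing acc with
  | leaf => rfl
  | node a b _ ih =>
    rw [rvo, ih]
    rfl

theorem size_split (x : Tr) : size (fst x) + size (snd x) ≤ size x + 1 := by
  cases x with
  | leaf => simp [fst, snd, size]
  | node a b => simp only [fst, snd, size]; omega

theorem size_lin {F : Tr → Tr} {c : ℕ} (h : ∀ x, size (F x) ≤ size x + c) (x : Tr) (i : ℕ) :
    size (F^[i] x) ≤ size x + c * i := by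
  induction i with
  | zero => simp
  | succ i ih =>
    rw [Function.iterate_succ_apply']
    have := h (F^[i] x)
    have e : c * (i + 1) = c * i + c := by ring
    omega

theorem iterate_lin {F N X : Tr → Tr} (hF : FP F) (hN : FP N) (hX : FP X) {c : ℕ}
    (h : ∀ x, size (F x) ≤ size x + c) : FP (fun v => F^[len (N v)] (X v)) := by
  refine iterate_poly hF hN hX (Polynomial.C (c + 1) * Polynomial.X) fun x i => ?_
  refine (size_lin h x i).trans ?_
  simp only [Polynomial.eval_mul, Polynomial.eval_C, Polynomial.eval_X]
  nlinarith [Nat.zero_le (c * size x)]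

theorem rev' {X : Tr → Tr} (hX : FP X) : FP (fun v => rvo (X v) leaf) := by
  have h1 : FP rstp := node' (snd' (fst' id')) (node' (fst' (fst' id')) (snd' id'))
  have h2 := iterate_lin (c := 4) h1 hX (node' hX leaf') (fun st => by
    have e1 := size_split (fst st)
    have e2 := size_split st
    unfold rstp
    simp only [size]
    omega)
  refine Eq.mp (congrArg FP (funext fun v => ?_)) (snd' h2)
  rw [rstp_it]
  rfl

/-- one step of the automaton -/
def fstp (g1 g2 : Bool → Bool → Bool → Bool) (st : Tr) : Tr :=
  node (node (snd (fst (fst st))) (snd (snd (fst st))))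
    (node (bit (g1 (bt (fst (snd st))) (bt (fst (fst (fst st)))) (bt (fst (snd (fst st))))))
      (node (bit (g2 (bt (fst (snd st))) (bt (fst (fst (fst st)))) (bt (fst (snd (fst st))))))
        (snd (snd st))))

theorem fstp_it (g1 g2 : Bool → Bool → Bool → Bool) (n : ℕ) (c : Bool) (x y acc : Tr) :
    (fstp g1 g2)^[n] (node (node x y) (node (bit c) acc)) =
      node (node (snd^[n] x) (snd^[n] y))
        (node (bit (sc g1 g2 n c x y).2) (rvo (sc g1 g2 n c x y).1 acc)) := by
  induction n generalizing c x y acc with
  | zero => rfl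
  | succ n ih =>
    rw [Function.iterate_succ_apply, Function.iterate_succ_apply, Function.iterate_succ_apply]
    have e : fstp g1 g2 (node (node x y) (node (bit c) acc)) =
        node (node (snd x) (snd y)) (node (bit (g1 c (bt (fst x)) (bt (fst y))))
          (node (bit (g2 c (bt (fst x)) (bt (fst y)))) acc)) := by
      simp only [fstp, fst, snd, bt_bit]
    rw [e, ih]
    rfl

theorem fstp' (g1 g2 : Bool → Bool → Bool → Bool) : FP (fstp g1 g2) :=
  node' (node' (snd' (fst' (fst' id'))) (snd' (snd' (fst' id'))))
    (node' (bit3 g1 (fst' (snd' id')) (fst' (fst' (fst' id'))) (fst' (snd' (fst' id'))))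
      (node' (bit3 g2 (fst' (snd' id')) (fst' (fst' (fst' id'))) (fst' (snd' (fst' id'))))
        (snd' (snd' id'))))

theorem scan' (g1 g2 : Bool → Bool → Bool → Bool) (c : Bool) {N X Y : Tr → Tr} (hN : FP N)
    (hX : FP X) (hY : FP Y) :
    FP (fun v => (fstp g1 g2)^[len (N v)] (node (node (X v) (Y v)) (node (bit c) leaf))) := by
  refine iterate_lin (c := 20) (fstp' g1 g2) hN (node' (node' hX hY) (node' (const' _) leaf'))
    fun st => ?_
  have e1 := size_bit_le (g1 (bt (fst (snd st))) (bt (fst (fst (fst st)))) (bt (fst (snd (fst st)))))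
  have e2 := size_bit_le (g2 (bt (fst (snd st))) (bt (fst (fst (fst st)))) (bt (fst (snd (fst st)))))
  have e3 := size_split (fst (fst st))
  have e4 := size_split (snd (fst st))
  have e5 := size_split (fst st)
  have e6 := size_split st
  have e7 := size_split (snd st)
  unfold fstp
  simp only [size]
  omega

theorem sc1 (g1 g2 : Bool → Bool → Bool → Bool) (c : Bool) {N X Y : Tr → Tr} (hN : FP N)
    (hX : FP X) (hY : FP Y) : FP (fun v => (sc g1 g2 (len (N v)) c (X v) (Y v)).1) := by
  have h := rev' (snd' (snd' (scan' g1 g2 c hN hX hY)))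
  refine Eq.mp (congrArg FP (funext fun v => ?_)) h
  rw [fstp_it]
  simp only [snd]
  rw [rvo_rvo]
  rfl

theorem sc2 (g1 g2 : Bool → Bool → Bool → Bool) (c : Bool) {N X Y : Tr → Tr} (hN : FP N)
    (hX : FP X) (hY : FP Y) : FP (fun v => bit (sc g1 g2 (len (N v)) c (X v) (Y v)).2) := by
  have h := fst' (snd' (scan' g1 g2 c hN hX hY))
  refine Eq.mp (congrArg FP (funext fun v => ?_)) h
  rw [fstp_it]
  rfl

theorem add' {X Y : Tr → Tr} (hX : FP X) (hY : FP Y) : FP (fun v => add (X v) (Y v)) := by
  have h := sc1 ga g3 false (node' leaf' (cat' hX hY)) hX hY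
  refine Eq.mp (congrArg FP (funext fun v => ?_)) h
  rw [len, cat_len]
  rfl

end FP

end Pool.Agent.H92.SR
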