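import Pool.Agent.H92.SR.Ind
import Pool.Agent.H92.SR.Adm

/-!
# Module SEP: separation bounds

PROOFS. `sep1`: `as = D.toList` (length `D.card`), `g ε = ∑ d ∈ D, C d * sgn (ε.getD (as.idxOf d) true) √d`: `adm_sum`, `adm_mul`, `adm_const`, `adm_crd` (`List.getD_idxOf`: `as.getD (as.idxOf d) 0 = d`). `g ε = ∑ d ∈ D, C' d * √d` with `C' d = ± C d`, so it is not
zero by `ind`; `|g ε| ≤ ∑ |C d| √d ≤ S`; `g (replicate _ true) = ∑ C d √d` (`sgn true x = x`; `List.getD_replicate`). `adm_sep`.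
`sep2`: `as = P.toList`, `g ε = ∑ d ∈ D, C d * ∏ p ∈ d.primeFactors, sgn (ε.getD (as.idxOf p) true) √p` (`adm_prod`; `p ∈ P` by `hP`); `∏ p ∈ d.primeFactors, √p = √d` for squarefree `d` (`Nat.prod_primeFactors_of_squarefree`, `Real.sqrt` of a product), and the product of the
signs is `± 1`. The rest is the same.
-/

set_option autoImplicit false

namespace Pool.Agent.H92.SR

private def isg (b : Bool) : ℤ := if b then 1 else -1

private theorem sgn_isg (b : Bool) (x : ℝ) : sgn b x = (isg b : ℝ) * x := by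
  cases b <;> simp [sgn, isg]

private theorem isg_abs (b : Bool) : |isg b| = 1 := by cases b <;> simp [isg]

private theorem isg_ne (b : Bool) : isg b ≠ 0 := by cases b <;> simp [isg]

/-- the common part -/
private theorem sep_core {D : Finset ℕ} (hD : ∀ d ∈ D, Squarefree d) {C : ℕ → ℤ}
    (hC : ∃ d ∈ D, C d ≠ 0)
    {S : ℝ} (hS1 : 1 ≤ S) (hS : ∑ d ∈ D, |(C d : ℝ)| * √(d : ℝ) ≤ S)
    {as : List ℕ} {g : List Bool → ℝ} (hg : Adm as g) (σ : List Bool → ℕ → ℤ)
    (hσ : ∀ ε d, |σ ε d| = 1)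
    (hgσ : ∀ ε : List Bool, ε.length = as.length →
      g ε = ∑ d ∈ D, (C d : ℝ) * ((σ ε d : ℝ) * √(d : ℝ)))
    (h1 : ∀ d ∈ D, σ (List.replicate as.length true) d = 1) :
    1 ≤ |∑ d ∈ D, (C d : ℝ) * √(d : ℝ)| * S ^ (2 ^ as.length - 1) := by
  have h2 := adm_sep hg hS1 (by
    intro ε hε h0
    rw [hgσ ε hε] at h0
    have h3 : ∑ d ∈ D, ((C d * σ ε d : ℤ) : ℝ) * √(d : ℝ) = 0 := by
      rw [← h0]
      refine Finset.sum_congr rfl fun d _ => ?_
      push_cast
      ring
    obtain ⟨d, hd, hCd⟩ := hC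
    have h4 := ind hD (fun d => C d * σ ε d) h3 d hd
    rcases mul_eq_zero.1 h4 with h5 | h5
    · exact hCd h5
    · have := hσ ε d
      rw [h5] at this
      simp at this) (by
    intro ε hε
    rw [hgσ ε hε]
    refine (Finset.abs_sum_le_sum_abs _ _).trans (le_trans (le_of_eq ?_) hS)
    refine Finset.sum_congr rfl fun d _ => ?_
    have h3 : |(σ ε d : ℝ)| = 1 := by
      have := hσ ε d
      exact_mod_cast this
    rw [abs_mul, abs_mul, h3, one_mul, abs_of_nonneg (Real.sqrt_nonneg _)])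
  have h3 : g (List.replicate as.length true) = ∑ d ∈ D, (C d : ℝ) * √(d : ℝ) := by
    rw [hgσ _ (by simp)]
    refine Finset.sum_congr rfl fun d hd => ?_
    rw [h1 d hd]
    push_cast
    ring
  rw [h3] at h2
  exact h2

theorem sep1 {D : Finset ℕ} (hD : ∀ d ∈ D, Squarefree d) {C : ℕ → ℤ} (hC : ∃ d ∈ D, C d ≠ 0)
    {S : ℝ} (hS1 : 1 ≤ S) (hS : ∑ d ∈ D, |(C d : ℝ)| * √(d : ℝ) ≤ S) :
    1 ≤ |∑ d ∈ D, (C d : ℝ) * √(d : ℝ)| * S ^ (2 ^ D.card - 1) := by
  classical
  set as : List ℕ := D.toList with has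
  have hlen : as.length = D.card := Finset.length_toList D
  have hidx : ∀ d ∈ D, as.idxOf d < as.length := by
    intro d hd
    exact List.idxOf_lt_length_of_mem (Finset.mem_toList.2 hd)
  have hget : ∀ d ∈ D, as.getD (as.idxOf d) 0 = d := by
    intro d hd
    rw [List.getD_eq_getElem _ _ (hidx d hd)]
    exact List.getElem_idxOf (hidx d hd)
  have hg : Adm as fun ε => ∑ d ∈ D,
      ((C d : ℝ) * sgn (ε.getD (as.idxOf d) true) √((as.getD (as.idxOf d) 0 : ℕ) : ℝ)) := by
    refine adm_sum D fun d hd => ?_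
    exact adm_mul (adm_const as (C d)) (adm_crd as _ (hidx d hd))
  have := sep_core hD hC hS1 hS hg (fun ε d => isg (ε.getD (as.idxOf d) true))
    (fun ε d => isg_abs _) (by
      intro ε _
      refine Finset.sum_congr rfl fun d hd => ?_
      rw [hget d hd, sgn_isg]) (by
      intro d hd
      have h1 : (List.replicate as.length true).getD (as.idxOf d) true = true := by
        rw [List.getD_eq_getElem _ _ (by simpa using hidx d hd), List.getElem_replicate]
      show isg ((List.replicate as.length true).getD (as.idxOf d) true) = 1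
      rw [h1]
      rfl)
  rw [hlen] at this
  exact this

theorem sep2 {D P : Finset ℕ} (hD : ∀ d ∈ D, Squarefree d)
    (hP : ∀ d ∈ D, ∀ p : ℕ, p.Prime → p ∣ d → p ∈ P) {C : ℕ → ℤ} (hC : ∃ d ∈ D, C d ≠ 0)
    {S : ℝ} (hS1 : 1 ≤ S) (hS : ∑ d ∈ D, |(C d : ℝ)| * √(d : ℝ) ≤ S) :
    1 ≤ |∑ d ∈ D, (C d : ℝ) * √(d : ℝ)| * S ^ (2 ^ P.card - 1) := by
  classical
  set as : List ℕ := P.toList with has
  have hlen : as.length = P.card := Finset.length_toList P
  have hidx : ∀ d ∈ P, as.idxOf d < as.length := by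
    intro d hd
    exact List.idxOf_lt_length_of_mem (Finset.mem_toList.2 hd)
  have hget : ∀ d ∈ P, as.getD (as.idxOf d) 0 = d := by
    intro d hd
    rw [List.getD_eq_getElem _ _ (hidx d hd)]
    exact List.getElem_idxOf (hidx d hd)
  have hPm : ∀ d ∈ D, ∀ p ∈ d.primeFactors, p ∈ P := by
    intro d hd p hp
    exact hP d hd p (Nat.prime_of_mem_primeFactors hp) (Nat.dvd_of_mem_primeFactors hp)
  have hg : Adm as fun ε => ∑ d ∈ D, ((C d : ℝ) * ∏ p ∈ d.primeFactors,
      sgn (ε.getD (as.idxOf p) true) √((as.getD (as.idxOf p) 0 : ℕ) : ℝ)) := by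
    refine adm_sum D fun d hd => ?_
    refine adm_mul (adm_const as (C d)) ?_
    refine adm_prod _ fun p hp => ?_
    exact adm_crd as _ (hidx p (hPm d hd p hp))
  have hsq : ∀ d ∈ D, ∏ p ∈ d.primeFactors, √(p : ℝ) = √(d : ℝ) := by
    intro d hd
    have h1 := Nat.prod_primeFactors_of_squarefree (hD d hd)
    have h2 : ((∏ p ∈ d.primeFactors, p : ℕ) : ℝ) = (d : ℝ) := congrArg Nat.cast h1
    rw [Nat.cast_prod] at h2
    have h3 : ∀ s : Finset ℕ, √(∏ p ∈ s, (p : ℝ)) = ∏ p ∈ s, √(p : ℝ) := by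
      intro s
      induction s using Finset.induction_on with
      | empty => simp
      | insert a s ha ih =>
        rw [Finset.prod_insert ha, Finset.prod_insert ha, Real.sqrt_mul (Nat.cast_nonneg a), ih]
    rw [← h3, h2]
  have := sep_core hD hC hS1 hS hg
    (fun ε d => ∏ p ∈ d.primeFactors, isg (ε.getD (as.idxOf p) true))
    (fun ε d => by
      rw [Finset.abs_prod]
      exact Finset.prod_eq_one fun p _ => isg_abs _) (by
      intro ε _
      refine Finset.sum_congr rfl fun d hd => ?_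
      congr 1
      rw [← hsq d hd]
      push_cast
      rw [← Finset.prod_mul_distrib]
      refine Finset.prod_congr rfl fun p hp => ?_
      rw [hget p (hPm d hd p hp), sgn_isg]) (by
      intro d hd
      refine Finset.prod_eq_one fun p hp => ?_
      have h1 : (List.replicate as.length true).getD (as.idxOf p) true = true := by
        rw [List.getD_eq_getElem _ _ (by simpa using hidx p (hPm d hd p hp)),
          List.getElem_replicate]
      rw [h1]
      rfl)
  rw [hlen] at this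
  exact this

end Pool.Agent.H92.SR
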