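import Pool.Agent.H92.SR.Num

/-!
# Module SQR: the square root, digit by digit

`dgs a` is the list of the digits of `a` to the base `4`, the first digit first (with leading zeros; each digit is a pair of bits, the second bit first); `vd ds x` is the value of `x`
followed by the digits `ds`. One step of the square root algorithm on a state `node ds (node r q)`: `q` is the integer square root of the number read so far, `r` the remainder.

PROOFS. `dgs_vl`: on states `node a acc`, one step of `dstep` keeps `vd acc (vl a)`: `vl a = dig (..) + 4 * vl (snd (snd a))` by `vl_step` twice, `vd (node d acc) x = vd acc (4 * x + dig d)`. `len a` decreases by at least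
one as long as it is positive (cases: `len (snd (snd a)) ≤ len a - 1`), so after `len a` steps `len a = 0`, `a = leaf`, `vl = 0`. `dgs_len`: each step adds one digit.
`sq_step` (natural numbers): if `r = x - q ^ 2`, `q ^ 2 ≤ x < (q + 1) ^ 2`, `x' = 4 x + d`, `d < 4`, `r1 = 4 r + d`: if `4 q + 1 ≤ r1` then `(2 q + 1) ^ 2 ≤ x' < (2 q + 2) ^ 2` and `x' - (2 q + 1) ^ 2 = r1 - (4 q + 1)`, otherwise
`(2 q) ^ 2 ≤ x' < (2 q + 1) ^ 2` and `x' - (2 q) ^ 2 = r1` (`nlinarith`).
`sstep_inv`: for a state `node ds (node r q)` with `SInv x r q n`: the next state has the digits `snd ds` and `SInv (4 * x + dig (fst ds)) r' q' (n + 1)`: `vl r1 = 4 * vl r + dig d` (`vl_step`), `len r1 = len r + 2 = 2 n + 2`,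
`vl (4q+1) < 2 ^ len ≤ 2 ^ (2 n + 2)` (`vl_lt`, `len (node one (node leaf q)) = n + 2`), so `vl_sub` applies with the number of steps `len r1`; `sc_len`.
`sqr_spec`: `len a` steps read the digits of `a`: induction on the list of digits (`Function.iterate_succ_apply`); then the digits are `leaf` and `p` more steps multiply by `4 ^ p` (`fst leaf = snd leaf = leaf`, `dig leaf = 0`); the initial
state `node (dgs a) (node leaf leaf)` satisfies `SInv 0 leaf leaf 0`. `vl q = Nat.sqrt x` from `q ^ 2 ≤ x < (q + 1) ^ 2` (`Nat.eq_sqrt`, `Nat.sqrt_eq'`..).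
`csq_spec`: `x` is a square iff `vl r = 0` iff the borrow of `0 - r` is `0` (`vl_sub` for `x = leaf`, `y = r`, `n = len r`).
-/

set_option autoImplicit false

namespace Pool.Agent.H92.SR

open Tr

/-- the digit `1` -/
def one : Tr := node leaf leaf

/-- the digit to the base `4` -/
def dig (d : Tr) : ℕ := nb (bt (fst d)) + 2 * nb (bt (snd d))

/-- the value of `x` followed by the digits -/
def vd : Tr → ℕ → ℕ
  | leaf, x => x
  | node d ds, x => vd ds (4 * x + dig d)

/-- move one digit -/
def dstep (st : Tr) : Tr :=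
  node (snd (snd (fst st))) (node (node (fst (fst st)) (fst (snd (fst st)))) (snd st))

/-- the digits of `a` to the base `4`, the first digit first -/
def dgs (a : Tr) : Tr := snd (dstep^[len a] (node a leaf))

theorem dstep_it (i : ℕ) : ∀ (a acc : Tr), ∃ a' acc' : Tr, dstep^[i] (node a acc) = node a' acc' ∧
    len a' ≤ len a - i ∧ len acc' = len acc + i ∧ vd acc' (vl a') = vd acc (vl a) := by
  induction i with
  | zero => intro a acc; exact ⟨a, acc, rfl, by omega, rfl, rfl⟩
  | succ i ih =>
    intro a acc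
    obtain ⟨a', acc', h1, h2, h3, h4⟩ :=
      ih (snd (snd a)) (node (node (fst a) (fst (snd a))) acc)
    refine ⟨a', acc', ?_, ?_, ?_, ?_⟩
    · rw [Function.iterate_succ_apply]
      exact h1
    · have h5 : ∀ x : Tr, len (snd x) = len x - 1 := by
        intro x
        cases x with
        | leaf => rfl
        | node p q => simp only [snd, len]; omega
      have h6 := h5 a
      have h7 := h5 (snd a)
      omega
    · rw [h3]
      simp only [len]
      omega
    · rw [h4, vd]
      congr 1
      rw [vl_step a, vl_step (snd a)]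
      simp only [dig, fst, snd]
      ring

theorem dgs_vl (a : Tr) : vd (dgs a) 0 = vl a := by
  obtain ⟨a', acc', h1, h2, h3, h4⟩ := dstep_it (len a) a leaf
  unfold dgs
  rw [h1]
  have h5 : vl a' = 0 := by
    have h6 := vl_lt a'
    have h7 : len a' = 0 := by omega
    rw [h7] at h6
    simpa using h6
  rw [h5] at h4
  exact h4

theorem dgs_len (a : Tr) : len (dgs a) = len a := by
  obtain ⟨a', acc', h1, h2, h3, h4⟩ := dstep_it (len a) a leaf
  unfold dgs
  rw [h1]
  simp only [snd]
  rw [h3]
  simp [len]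

/-- `4 r + d` -/
def r1 (st : Tr) : Tr := node (fst (fst (fst st))) (node (snd (fst (fst st))) (fst (snd st)))

/-- `4 q + 1` -/
def q1 (st : Tr) : Tr := node one (node leaf (snd (snd st)))

/-- one step of the square root algorithm on the state `node ds (node r q)` -/
def sstep (st : Tr) : Tr :=
  if (sc gs g3 (len (r1 st)) false (r1 st) (q1 st)).2 = true then
    node (snd (fst st)) (node (r1 st) (node leaf (snd (snd st))))
  else node (snd (fst st)) (node (sc gs g3 (len (r1 st)) false (r1 st) (q1 st)).1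
    (node one (snd (snd st))))

/-- the state after reading the number `x` with `n` digits -/
structure SInv (x : ℕ) (r q : Tr) (n : ℕ) : Prop where
  lr : len r = 2 * n
  lq : len q = n
  le : vl q ^ 2 ≤ x
  lt : x < (vl q + 1) ^ 2
  rem : vl r = x - vl q ^ 2

theorem sq_step {x q r d : ℕ} (h1 : q ^ 2 ≤ x) (h2 : x < (q + 1) ^ 2) (h3 : r = x - q ^ 2)
    (hd : d < 4) : (4 * q + 1 ≤ 4 * r + d → (2 * q + 1) ^ 2 ≤ 4 * x + d ∧
      4 * x + d < (2 * q + 2) ^ 2 ∧ 4 * r + d - (4 * q + 1) = 4 * x + d - (2 * q + 1) ^ 2) ∧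
    (4 * r + d < 4 * q + 1 → (2 * q) ^ 2 ≤ 4 * x + d ∧ 4 * x + d < (2 * q + 1) ^ 2 ∧
      4 * r + d = 4 * x + d - (2 * q) ^ 2) := by
  have e1 : (q + 1) ^ 2 = q ^ 2 + 2 * q + 1 := by ring
  have e2 : (2 * q + 1) ^ 2 = 4 * q ^ 2 + 4 * q + 1 := by ring
  have e3 : (2 * q + 2) ^ 2 = 4 * q ^ 2 + 8 * q + 4 := by ring
  have e4 : (2 * q) ^ 2 = 4 * q ^ 2 := by ring
  rw [e1] at h2
  rw [e2, e3, e4]
  constructor
  · intro h
    refine ⟨?_, ?_, ?_⟩ <;> omega
  · intro h
    refine ⟨?_, ?_, ?_⟩ <;> omega

theorem sstep_inv {x n : ℕ} {ds r q : Tr} (h : SInv x r q n) :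
    ∃ r' q' : Tr, sstep (node ds (node r q)) = node (snd ds) (node r' q') ∧
      SInv (4 * x + dig (fst ds)) r' q' (n + 1) := by
  obtain ⟨h1, h2, h3, h4, h5⟩ := h
  have hd : dig (fst ds) < 4 := by
    unfold dig
    have := nb_le (bt (fst (fst ds)))
    have := nb_le (bt (snd (fst ds)))
    omega
  obtain ⟨hA, hB⟩ := sq_step h3 h4 h5 hd
  have er : r1 (node ds (node r q)) = node (fst (fst ds)) (node (snd (fst ds)) r) := rfl
  have eq : q1 (node ds (node r q)) = node one (node leaf q) := rfl
  have hvr : vl (node (fst (fst ds)) (node (snd (fst ds)) r)) = 4 * vl r + dig (fst ds) := by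
    simp only [vl, dig]
    ring
  have hvq : vl (node one (node leaf q)) = 4 * vl q + 1 := by
    have e1 : bt one = true := rfl
    have e2 : bt leaf = false := rfl
    simp only [vl, e1, e2, nb]
    simp
    ring
  have hlr : len (node (fst (fst ds)) (node (snd (fst ds)) r)) = 2 * (n + 1) := by
    simp only [len, h1]
    ring
  have hx : vl (node (fst (fst ds)) (node (snd (fst ds)) r)) < 2 ^ (2 * (n + 1)) := by
    rw [← hlr]
    exact vl_lt _
  have hy : vl (node one (node leaf q)) < 2 ^ (2 * (n + 1)) := by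
    refine (vl_lt _).trans_le (Nat.pow_le_pow_right (by norm_num) ?_)
    simp only [len, h2]
    omega
  obtain ⟨hs1, hs2⟩ := vl_sub hx hy
  rw [hvr, hvq] at hs1 hs2
  cases hb : (sc gs g3 (2 * (n + 1)) false (node (fst (fst ds)) (node (snd (fst ds)) r))
      (node one (node leaf q))).2 with
  | true =>
    refine ⟨node (fst (fst ds)) (node (snd (fst ds)) r), node leaf q, ?_, ?_⟩
    · unfold sstep
      rw [er, eq, hlr, hb, if_pos rfl]
      rfl
    · obtain ⟨k1, k2, k3⟩ := hB (hs2 hb)
      have hv2 : vl (node leaf q) = 2 * vl q := by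
        simp [vl, bt_leaf, nb]
      refine ⟨hlr, by simp only [len, h2], ?_, ?_, ?_⟩
      · rw [hv2]; exact k1
      · rw [hv2]; exact k2
      · rw [hv2, hvr]; exact k3
  | false =>
    refine ⟨(sc gs g3 (2 * (n + 1)) false (node (fst (fst ds)) (node (snd (fst ds)) r))
      (node one (node leaf q))).1, node one q, ?_, ?_⟩
    · unfold sstep
      rw [er, eq, hlr, hb, if_neg (by simp)]
      rfl
    · obtain ⟨k0, k00⟩ := hs1 hb
      obtain ⟨k1, k2, k3⟩ := hA k0
      have hv2 : vl (node one q) = 2 * vl q + 1 := by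
        have e1 : bt one = true := rfl
        simp only [vl, e1, nb]
        simp
        ring
      refine ⟨sc_len _ _ _ _ _ _, by simp only [len, h2], ?_, ?_, ?_⟩
      · rw [hv2]; exact k1
      · rw [hv2]; exact k2
      · rw [hv2, k00]; exact k3

/-- the state after the square root of `4 ^ len P * a` -/
def sqs (a P : Tr) : Tr := sstep^[len P] (sstep^[len (dgs a)] (node (dgs a) (node leaf leaf)))

/-- the integer square root of `4 ^ len P * a` -/
def sqr (a P : Tr) : Tr := snd (snd (sqs a P))

/-- the number `1` if the remainder is not zero, otherwise `0` -/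
def sqf (a P : Tr) : Tr :=
  node (bit (sc gs g3 (len (fst (snd (sqs a P)))) false leaf (fst (snd (sqs a P)))).2) leaf

theorem sstep_ds (ds : Tr) : ∀ {x n : ℕ} {r q : Tr}, SInv x r q n →
    ∃ r' q' : Tr, sstep^[len ds] (node ds (node r q)) = node leaf (node r' q') ∧
      SInv (vd ds x) r' q' (n + len ds) := by
  induction ds with
  | leaf => intro x n r q h; exact ⟨r, q, rfl, h⟩
  | node d ds _ ih =>
    intro x n r q h
    obtain ⟨r1, q1, h1, h2⟩ := sstep_inv (ds := node d ds) h
    obtain ⟨r2, q2, h3, h4⟩ := ih h2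
    refine ⟨r2, q2, ?_, ?_⟩
    · rw [len, Function.iterate_succ_apply, h1]
      exact h3
    · have e : n + len (node d ds) = n + 1 + len ds := by
        simp only [len]
        ring
      rw [e]
      exact h4

theorem sstep_leaf (p : ℕ) : ∀ {x n : ℕ} {r q : Tr}, SInv x r q n →
    ∃ r' q' : Tr, sstep^[p] (node leaf (node r q)) = node leaf (node r' q') ∧
      SInv (4 ^ p * x) r' q' (n + p) := by
  induction p with
  | zero => intro x n r q h; exact ⟨r, q, rfl, by simpa using h⟩
  | succ p ih =>
    intro x n r q h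
    obtain ⟨r1, q1, h1, h2⟩ := sstep_inv (ds := leaf) h
    obtain ⟨r2, q2, h3, h4⟩ := ih h2
    refine ⟨r2, q2, ?_, ?_⟩
    · rw [Function.iterate_succ_apply, h1]
      exact h3
    · have e : n + (p + 1) = n + 1 + p := by ring
      have e2 : 4 ^ (p + 1) * x = 4 ^ p * (4 * x + dig (fst leaf)) := by
        have : dig (fst leaf) = 0 := rfl
        rw [this, pow_succ]
        ring
      rw [e, e2]
      exact h4

theorem sqs_spec (a P : Tr) : ∃ r q : Tr, sqs a P = node leaf (node r q) ∧
    SInv (4 ^ len P * vl a) r q (len a + len P) := by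
  have h0 : SInv 0 leaf leaf 0 := ⟨rfl, rfl, by simp [vl], by simp [vl], by simp [vl]⟩
  obtain ⟨r1, q1, h1, h2⟩ := sstep_ds (dgs a) h0
  rw [dgs_vl, dgs_len, zero_add] at h2
  obtain ⟨r2, q2, h3, h4⟩ := sstep_leaf (len P) h2
  refine ⟨r2, q2, ?_, h4⟩
  unfold sqs
  rw [h1]
  exact h3

theorem sqr_spec (a P : Tr) : vl (sqr a P) = Nat.sqrt (4 ^ len P * vl a) ∧
    len (sqr a P) = len a + len P := by
  obtain ⟨r, q, h1, h2⟩ := sqs_spec a P
  unfold sqr
  rw [h1]
  simp only [snd]
  refine ⟨?_, h2.lq⟩
  have h3 := h2.le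
  have h4 := h2.lt
  rw [pow_two] at h3 h4
  exact Nat.eq_sqrt.2 ⟨h3, h4⟩

theorem sqf_spec (a P : Tr) : vl (sqf a P) =
    if Nat.sqrt (4 ^ len P * vl a) ^ 2 = 4 ^ len P * vl a then 0 else 1 := by
  obtain ⟨r, q, h1, h2⟩ := sqs_spec a P
  have hq : vl q = Nat.sqrt (4 ^ len P * vl a) := by
    have h3 := h2.le
    have h4 := h2.lt
    rw [pow_two] at h3 h4
    exact Nat.eq_sqrt.2 ⟨h3, h4⟩
  unfold sqf
  rw [h1]
  simp only [fst, snd]
  have hr := h2.rem
  have hle := h2.le
  rw [hq] at hr hle
  obtain ⟨hs1, hs2⟩ := vl_sub (x := leaf) (y := r) (n := len r) (by simp [vl]) (vl_lt r)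
  cases hb : (sc gs g3 (len r) false leaf r).2 with
  | true =>
    have h3 := hs2 hb
    rw [show vl leaf = 0 from rfl] at h3
    rw [if_neg (by omega)]
    simp [bit, vl, bt, nb]
  | false =>
    have h3 := (hs1 hb).1
    rw [show vl leaf = 0 from rfl] at h3
    rw [if_pos (by omega)]
    simp [bit, vl, bt, nb]

end Pool.Agent.H92.SR
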