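import Pool.Agent.H92.SR.Scf
import Pool.Agent.H92.SR.Sqr

/-!
# Module SQF: the square root runs in polynomial time

PROOFS. `dgs`: `iterate_poly` for `dstep` (`size (dstep st) ≤ size st + 5`, as `size (fst x) + size (snd x) ≤ size x + 1`), `N v = v`, `X v = node v leaf`; `snd'`.
`sstep`: `iteB`, `sc1`, `sc2`, `node'`. Sizes: `Φ st = size (fst st) + max (size (fst (snd st))) (4 * len (fst (snd st)) + 1) + size (snd (snd st))`; `Φ (sstep st) ≤ Φ st + 13` (if the new remainder is `r1 st`: its size is at
most `size r + size (fst ds) + 4` and `size (fst ds) + size (snd ds) ≤ size ds + 1`; otherwise its size is at most `4 * len (r1 st) + 1 = 4 * len r + 9`, `sc_size`, `sc_len`), `size (sstep st) ≤ Φ (sstep st) + 2`, `Φ st ≤ 6 * size st`.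
So `size (sstep^[i] st) ≤ 6 * size st + 13 * i + 2` (also for `i = 0`): `iterate_poly` with `P = C 13 * (X + 1)`, twice.
-/

set_option autoImplicit false

namespace Pool.Agent.H92.SR.FP

open Tr

theorem fst_nd (a b : Tr) : fst (node a b) = a := rfl

theorem snd_nd (a b : Tr) : snd (node a b) = b := rfl

theorem sz_le (x : Tr) : size x ≤ size (fst x) + size (snd x) + 1 := by
  cases x with
  | leaf => simp [fst, snd, size]
  | node a b => simp only [fst, snd, size]; omega

theorem dstep' : FP dstep :=
  node' (snd' (snd' (fst' id')))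
    (node' (node' (fst' (fst' id')) (fst' (snd' (fst' id')))) (snd' id'))

theorem dgs' : FP dgs := by
  refine snd' (iterate_lin (c := 6) dstep' id' (node' id' leaf') fun st => ?_)
  have e1 := size_split (fst st)
  have e2 := size_split (snd (fst st))
  have e3 := size_split st
  unfold dstep
  simp only [size]
  omega

theorem r1' : FP r1 :=
  node' (fst' (fst' (fst' id'))) (node' (snd' (fst' (fst' id'))) (fst' (snd' id')))

theorem q1' : FP q1 := node' (const' one) (node' leaf' (snd' (snd' id')))

theorem sstep' : FP sstep :=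
  iteB (p := fun st => (sc gs g3 (len (r1 st)) false (r1 st) (q1 st)).2)
    (sc2 gs g3 false r1' r1' q1')
    (node' (snd' (fst' id')) (node' r1' (node' leaf' (snd' (snd' id')))))
    (node' (snd' (fst' id')) (node' (sc1 gs g3 false r1' r1' q1')
      (node' (const' one) (snd' (snd' id')))))

/-- the potential -/
def sphi (st : Tr) : ℕ :=
  size (fst st) + max (size (fst (snd st))) (4 * len (fst (snd st)) + 1) + size (snd (snd st))

theorem sphi_step (st : Tr) : sphi (sstep st) ≤ sphi st + 13 := by
  have e1 := size_split (fst st)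
  have e2 := size_split (fst (fst st))
  have e3 := size_pos (fst (fst st))
  have e4 : len (r1 st) = len (fst (snd st)) + 2 := by simp [r1, len]
  have e5 : size (r1 st) = size (fst (fst (fst st))) +
      (size (snd (fst (fst st))) + size (fst (snd st)) + 1) + 1 := by simp [r1, size]
  have e6 := sc_size gs g3 (len (r1 st)) false (r1 st) (q1 st)
  have e7 := sc_len gs g3 (len (r1 st)) false (r1 st) (q1 st)
  have m1 := le_max_left (size (fst (snd st))) (4 * len (fst (snd st)) + 1)
  have m2 := le_max_right (size (fst (snd st))) (4 * len (fst (snd st)) + 1)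
  unfold sstep
  split
  · unfold sphi
    simp only [fst_nd, snd_nd, size]
    rcases max_cases (size (r1 st)) (4 * len (r1 st) + 1) with h | h <;> omega
  · unfold sphi one
    simp only [fst_nd, snd_nd, size]
    rcases max_cases (size (sc gs g3 (len (r1 st)) false (r1 st) (q1 st)).1)
      (4 * len (sc gs g3 (len (r1 st)) false (r1 st) (q1 st)).1 + 1) with h | h <;> omega

theorem sphi_it (st : Tr) (i : ℕ) : sphi (sstep^[i] st) ≤ sphi st + 13 * i := by
  induction i with
  | zero => simp
  | succ i ih =>
    rw [Function.iterate_succ_apply']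
    have := sphi_step (sstep^[i] st)
    omega

theorem sstep_size (st : Tr) (i : ℕ) :
    size (sstep^[i] st) ≤ (Polynomial.C 13 * (Polynomial.X + 1) : Polynomial ℕ).eval
      (size st + i) := by
  have h1 := sphi_it st i
  have h2 : size (sstep^[i] st) ≤ sphi (sstep^[i] st) + 2 := by
    have e1 := sz_le (sstep^[i] st)
    have e2 := sz_le (snd (sstep^[i] st))
    have m1 := le_max_left (size (fst (snd (sstep^[i] st))))
      (4 * len (fst (snd (sstep^[i] st))) + 1)
    unfold sphi
    omega
  have h3 : sphi st ≤ 6 * size st := by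
    have e1 := size_fst_le st
    have e2 := size_snd_le st
    have e3 := size_fst_le (snd st)
    have e4 := size_snd_le (snd st)
    have e5 := len_le_size (fst (snd st))
    unfold sphi
    rcases max_cases (size (fst (snd st))) (4 * len (fst (snd st)) + 1) with h | h <;> omega
  simp only [Polynomial.eval_mul, Polynomial.eval_C, Polynomial.eval_add, Polynomial.eval_X,
    Polynomial.eval_one]
  omega

theorem sqs' {A P : Tr → Tr} (hA : FP A) (hP : FP P) : FP (fun v => sqs (A v) (P v)) :=
  iterate_poly sstep' hP
    (iterate_poly sstep' (comp' dgs' hA) (node' (comp' dgs' hA) (node' leaf' leaf')) _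
      sstep_size) _ sstep_size

theorem sqr' {A P : Tr → Tr} (hA : FP A) (hP : FP P) : FP (fun v => sqr (A v) (P v)) :=
  snd' (snd' (sqs' hA hP))

theorem sqf' {A P : Tr → Tr} (hA : FP A) (hP : FP P) : FP (fun v => sqf (A v) (P v)) :=
  node' (sc2 gs g3 false (fst' (snd' (sqs' hA hP))) leaf' (fst' (snd' (sqs' hA hP)))) leaf'

end Pool.Agent.H92.SR.FP
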